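import Mathlib

/-!
Archimedes' theorem in the form needed for counting points on the unit sphere: disjoint coordinate
rectangles whose images lie in a cap of Euclidean radius `r` have total area at most `π r ^ 2`.
-/

namespace Pool.Agent.Lib.MP_a619ca_an

open MeasureTheory Set Real

abbrev E3 := EuclideanSpace ℝ (Fin 3)

/-- the point of the unit sphere with longitude `φ` and height `z` -/
noncomputable def sph (φ z : ℝ) : E3 := !₂[√(1 - z ^ 2) * cos φ, √(1 - z ^ 2) * sin φ, z]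

theorem norm_sq_three (x : E3) : ‖x‖ ^ 2 = x 0 ^ 2 + x 1 ^ 2 + x 2 ^ 2 := by
  rw [EuclideanSpace.norm_sq_eq, Fin.sum_univ_three]
  simp

theorem norm_sph (φ : ℝ) {z : ℝ} (hz : z ^ 2 ≤ 1) : ‖sph φ z‖ = 1 := by
  have h : ‖sph φ z‖ ^ 2 = 1 := by
    rw [norm_sq_three]
    have h1 := sq_sqrt (sub_nonneg.2 hz)
    have h2 := cos_sq_add_sin_sq φ
    simp only [sph, PiLp.toLp_apply, Matrix.cons_val_zero, Matrix.cons_val_one, Matrix.cons_val]
    linear_combination (cos φ ^ 2 + sin φ ^ 2) * h1 + (1 - z ^ 2) * h2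
  nlinarith [norm_nonneg (sph φ z)]

/-- cone coordinates: cube of the radius, longitude, height -/
noncomputable def psi (v : Fin 3 → ℝ) : Fin 3 → ℝ :=
  ![v 0 ^ (1 / 3 : ℝ) * (√(1 - v 2 ^ 2) * cos (v 1)), v 0 ^ (1 / 3 : ℝ) * (√(1 - v 2 ^ 2) * sin (v 1)),
    v 0 ^ (1 / 3 : ℝ) * v 2]

theorem toLp_psi (v : Fin 3 → ℝ) :
    WithLp.toLp 2 (psi v) = v 0 ^ (1 / 3 : ℝ) • sph (v 1) (v 2) := by
  ext i
  fin_cases i <;> simp [psi, sph]

def Box (v : Fin 3 → ℝ) : Prop := v 0 ∈ Ioo 0 1 ∧ v 1 ∈ Ioo 0 (2 * π) ∧ v 2 ∈ Ioo (-1) 1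

theorem Box.sq_lt {v : Fin 3 → ℝ} (h : Box v) : v 2 ^ 2 < 1 := by
  obtain ⟨-, -, h1, h2⟩ := h
  nlinarith

theorem pi_three {f g k : (Fin 3 → ℝ) → ℝ} {A B C : (Fin 3 → ℝ) →L[ℝ] ℝ} {v : Fin 3 → ℝ}
    (hf : HasFDerivAt f A v) (hg : HasFDerivAt g B v) (hk : HasFDerivAt k C v) :
    HasFDerivAt (fun v => ![f v, g v, k v]) (ContinuousLinearMap.pi ![A, B, C]) v := by
  refine hasFDerivAt_pi.2 fun i => ?_
  fin_cases i
  exacts [hf, hg, hk]

theorem psi_deriv {v : Fin 3 → ℝ} (h : Box v) :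
    ∃ f' : (Fin 3 → ℝ) →L[ℝ] (Fin 3 → ℝ), HasFDerivAt psi f' v ∧ f'.det = 1 / 3 := by
  have hz := sub_pos.2 h.sq_lt
  have hc : 0 < √(1 - v 2 ^ 2) := sqrt_pos.2 hz
  have h0 := (hasDerivAt_rpow_const (p := 1 / 3) (Or.inl h.1.1.ne')).comp_hasFDerivAt v
    (hasFDerivAt_apply (𝕜 := ℝ) 0 v)
  have h1 := (hasDerivAt_cos (v 1)).comp_hasFDerivAt v (hasFDerivAt_apply (𝕜 := ℝ) 1 v)
  have h1' := (hasDerivAt_sin (v 1)).comp_hasFDerivAt v (hasFDerivAt_apply (𝕜 := ℝ) 1 v)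
  have h2 := hasFDerivAt_apply (𝕜 := ℝ) 2 v
  have h3 : HasDerivAt (fun z : ℝ => √(1 - z ^ 2)) (-v 2 / √(1 - v 2 ^ 2)) (v 2) := by
    have := (((hasDerivAt_id (v 2)).pow 2).const_sub 1).sqrt hz.ne'
    refine this.congr_deriv ?_
    simp only [id, Pi.pow_apply]
    field_simp
    norm_num
  have h4 := h3.comp_hasFDerivAt v h2
  refine ⟨_, pi_three (h0.mul (h4.mul h1)) (h0.mul (h4.mul h1')) (h0.mul h2), ?_⟩
  rw [ContinuousLinearMap.det, ← LinearMap.det_toMatrix', Matrix.det_fin_three]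
  have e1 : v 0 ^ (1 / 3 - 1 : ℝ) * (v 0 ^ (1 / 3 : ℝ)) ^ 2 = 1 := by
    rw [← rpow_natCast, ← rpow_mul h.1.1.le, ← rpow_add h.1.1]
    norm_num
  have e2 := sq_sqrt hz.le
  have e3 := cos_sq_add_sin_sq (v 1)
  have e4 : -v 2 / √(1 - v 2 ^ 2) * √(1 - v 2 ^ 2) = -v 2 := div_mul_cancel₀ _ hc.ne'
  generalize v 0 ^ (1 / 3 - 1 : ℝ) = t' at *
  generalize -v 2 / √(1 - v 2 ^ 2) = c' at *
  simp only [LinearMap.toMatrix'_apply, ContinuousLinearMap.coe_coe, ContinuousLinearMap.pi_apply,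
    Matrix.cons_val_zero, Matrix.cons_val_one, Matrix.cons_val, add_apply,
    smul_apply, ContinuousLinearMap.proj_apply, smul_eq_mul, Function.comp,
    Pi.single_apply]
  generalize v 0 ^ (1 / 3 : ℝ) = t at *
  generalize √(1 - v 2 ^ 2) = c at *
  simp
  linear_combination (1 / 3) * t' * t ^ 2 * (c ^ 2 - c * c' * v 2) * e3 + (1 / 3) * t' * t ^ 2 * e2 -
    (1 / 3) * t' * t ^ 2 * v 2 * e4 + (1 / 3) * e1

theorem norm_psi {v : Fin 3 → ℝ} (h : Box v) : ‖WithLp.toLp 2 (psi v)‖ = v 0 ^ (1 / 3 : ℝ) := by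
  rw [toLp_psi, norm_smul, norm_sph _ h.sq_lt.le, mul_one, Real.norm_eq_abs,
    abs_of_pos (rpow_pos_of_pos h.1.1 _)]

theorem psi_inj : InjOn psi {v | Box v} := by
  intro v hv w hw h
  have h0 : v 0 ^ (1 / 3 : ℝ) = w 0 ^ (1 / 3 : ℝ) := by rw [← norm_psi hv, ← norm_psi hw, h]
  have ht := (rpow_pos_of_pos hw.1.1 (1 / 3 : ℝ)).ne'
  have h2 : v 2 = w 2 := by
    have := congrFun h 2
    simp only [psi, Matrix.cons_val, h0] at this
    exact mul_left_cancel₀ ht this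
  have hc := (sqrt_pos.2 (sub_pos.2 hw.sq_lt)).ne'
  have h3 : cos (v 1) = cos (w 1) := by
    have := congrFun h 0
    simp only [psi, Matrix.cons_val_zero, h0, h2] at this
    exact mul_left_cancel₀ hc (mul_left_cancel₀ ht this)
  have h4 : sin (v 1) = sin (w 1) := by
    have := congrFun h 1
    simp only [psi, Matrix.cons_val_one, Matrix.cons_val_zero, h0, h2] at this
    exact mul_left_cancel₀ hc (mul_left_cancel₀ ht this)
  have h5 : cos (v 1 - w 1) = 1 := by rw [cos_sub, h3, h4, ← cos_sq_add_sin_sq (w 1)]; ring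
  rw [cos_eq_one_iff_of_lt_of_lt (by linarith [hv.2.1.1, hw.2.1.2])
    (by linarith [hv.2.1.2, hw.2.1.1])] at h5
  ext i
  fin_cases i
  · exact (rpow_left_inj hv.1.1.le hw.1.1.le (by norm_num)).1 h0
  · exact sub_eq_zero.1 h5
  · exact h2

theorem vol_le {U : Set (Fin 3 → ℝ)} (hU : MeasurableSet U) (hB : ∀ v ∈ U, Box v) {A : Set E3}
    (hA : MeasurableSet A) (h : ∀ v ∈ U, WithLp.toLp 2 (psi v) ∈ A) :
    ENNReal.ofReal (1 / 3) * volume U ≤ volume A := by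
  classical
  choose! f hf1 hf2 using fun v (hv : Box v) => psi_deriv hv
  have h1 := lintegral_abs_det_fderiv_le_addHaar_image volume hU
    (fun v hv => (hf1 v (hB v hv)).hasFDerivWithinAt) (psi_inj.mono hB)
  rw [setLIntegral_congr_fun hU (g := fun _ => ENNReal.ofReal (1 / 3))
    (fun v hv => by simp only [hf2 v (hB v hv)]; norm_num), setLIntegral_const] at h1
  rw [← (PiLp.volume_preserving_toLp (Fin 3)).measure_preimage hA.nullMeasurableSet]
  exact h1.trans (measure_mono (image_subset_iff.2 h))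

/-- the cone coordinates box over a rectangle -/
def cell (φ w z h : ℝ) : Set (Fin 3 → ℝ) := pi univ fun i => Ioo (![0, φ, z] i) (![1, φ + w, z + h] i)

theorem mem_cell {φ w z h : ℝ} {v : Fin 3 → ℝ} :
    v ∈ cell φ w z h ↔ v 0 ∈ Ioo 0 1 ∧ v 1 ∈ Ioo φ (φ + w) ∧ v 2 ∈ Ioo z (z + h) := by
  simp [cell, Fin.forall_fin_succ]

theorem vol_cell (φ z : ℝ) {w h : ℝ} (hw : 0 ≤ w) :
    volume (cell φ w z h) = ENNReal.ofReal (w * h) := by
  rw [cell, volume_pi_Ioo, Fin.prod_univ_three, ENNReal.ofReal_mul hw]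
  simp

theorem measurableSet_cell (φ w z h : ℝ) : MeasurableSet (cell φ w z h) :=
  MeasurableSet.univ_pi fun _ => measurableSet_Ioo

theorem count_le {ι : Type*} (J : Finset ι) (φ w z h : ι → ℝ) {α : ℝ} (hα : 0 ≤ α)
    (hw : ∀ j ∈ J, 0 ≤ w j ∧ w j * h j = α)
    (hb : ∀ j ∈ J, 0 ≤ φ j ∧ φ j + w j ≤ 2 * π ∧ -1 ≤ z j ∧ z j + h j ≤ 1)
    (hd : ∀ i ∈ J, ∀ j ∈ J, ∀ a b, a ∈ Ioo (φ i) (φ i + w i) → b ∈ Ioo (z i) (z i + h i) →
      a ∈ Ioo (φ j) (φ j + w j) → b ∈ Ioo (z j) (z j + h j) → i = j)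
    {x : E3} (hx : ‖x‖ = 1) {r : ℝ}
    (hr : ∀ j ∈ J, ∀ a ∈ Ioo (φ j) (φ j + w j), ∀ b ∈ Ioo (z j) (z j + h j), ‖sph a b - x‖ ≤ r) :
    J.card * α ≤ π * r ^ 2 := by
  have hU : MeasurableSet (⋃ j ∈ J, cell (φ j) (w j) (z j) (h j)) :=
    J.measurableSet_biUnion fun j _ => measurableSet_cell ..
  have hB : ∀ v ∈ ⋃ j ∈ J, cell (φ j) (w j) (z j) (h j), Box v := by
    intro v hv
    obtain ⟨j, hj, hv⟩ := mem_iUnion₂.1 hv
    obtain ⟨h1, h2, h3⟩ := mem_cell.1 hv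
    obtain ⟨h4, h5, h6, h7⟩ := hb j hj
    exact ⟨h1, ⟨h4.trans_lt h2.1, h2.2.trans_le h5⟩, h6.trans_lt h3.1, h3.2.trans_le h7⟩
  have hV : volume (⋃ j ∈ J, cell (φ j) (w j) (z j) (h j)) = ENNReal.ofReal (J.card * α) := by
    rw [measure_biUnion_finset (fun i hi j hj hij => disjoint_left.2 fun v h1 h2 =>
      hij (hd i hi j hj _ _ (mem_cell.1 h1).2.1 (mem_cell.1 h1).2.2 (mem_cell.1 h2).2.1
        (mem_cell.1 h2).2.2)) fun j _ => measurableSet_cell ..,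
      Finset.sum_congr rfl fun j hj => by rw [vol_cell _ _ (hw j hj).1, (hw j hj).2],
      Finset.sum_const, nsmul_eq_mul, ENNReal.ofReal_mul (Nat.cast_nonneg _), ENNReal.ofReal_natCast]
  obtain ⟨c, hc⟩ : ∃ c, c = max (-1) (1 - r ^ 2 / 2) := ⟨_, rfl⟩
  let S : E3 → Set E3 := fun y => Metric.ball 0 1 ∩ {v | inner ℝ y v < c * ‖v‖}
  have hS : ∀ y, MeasurableSet (S y) := fun y =>
    Metric.isOpen_ball.measurableSet.inter (isOpen_lt (by fun_prop) (by fun_prop)).measurableSet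
  have hball : ∀ v, Box v → WithLp.toLp 2 (psi v) ∈ Metric.ball (0 : E3) 1 := fun v hv => by
    rw [mem_ball_zero_iff, norm_psi hv]
    exact rpow_lt_one hv.1.1.le hv.1.2 (by norm_num)
  have h1 := vol_le hU hB (Metric.isOpen_ball.measurableSet.diff (hS x)) fun v hv =>
    ⟨hball v (hB v hv), fun hh => ?_⟩
  swap
  · have h2 : inner ℝ x (WithLp.toLp 2 (psi v)) < c * ‖WithLp.toLp 2 (psi v)‖ := hh.2
    have hv' := hB v hv
    rw [norm_psi hv', toLp_psi, inner_smul_right, mul_comm c,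
      mul_lt_mul_iff_right₀ (rpow_pos_of_pos hv'.1.1 _)] at h2
    obtain ⟨j, hj, hv⟩ := mem_iUnion₂.1 hv
    have h3 := hr j hj _ (mem_cell.1 hv).2.1 _ (mem_cell.1 hv).2.2
    have h4 := norm_sub_sq_real (sph (v 1) (v 2)) x
    have h5 := norm_sph (v 1) hv'.sq_lt.le
    have h6 := abs_real_inner_le_norm x (sph (v 1) (v 2))
    rw [h5, hx] at h4 h6
    rw [real_inner_comm] at h4
    have h7 := pow_le_pow_left₀ (norm_nonneg _) h3 2
    rw [hc, lt_max_iff] at h2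
    rcases h2 with h2 | h2
    · linarith [neg_abs_le (inner ℝ x (sph (v 1) (v 2)))]
    · linarith
  have hc1 : -1 ≤ c := hc ▸ le_max_left _ _
  have hc2 : c ≤ 1 := hc ▸ max_le (by norm_num) (by nlinarith)
  have hB' : ∀ v ∈ cell 0 (2 * π) (-1) (c + 1), Box v := fun v hv => by
    obtain ⟨h1, h2, h3⟩ := mem_cell.1 hv
    exact ⟨h1, by simpa using h2, h3.1, by linarith [h3.2]⟩
  have h2 := vol_le (measurableSet_cell 0 (2 * π) (-1) (c + 1)) hB' (hS (sph 0 1)) fun v hv =>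
    ⟨hball v (hB' v hv), ?_⟩
  swap
  · have hv' := hB' v hv
    change inner ℝ (sph 0 1) (WithLp.toLp 2 (psi v)) < c * ‖WithLp.toLp 2 (psi v)‖
    rw [norm_psi hv', toLp_psi, inner_smul_right, mul_comm c,
      mul_lt_mul_iff_right₀ (rpow_pos_of_pos hv'.1.1 _)]
    have := (mem_cell.1 hv).2.2.2
    simp [sph, PiLp.inner_apply, Fin.sum_univ_three]
    linarith
  have h3 : volume (S (sph 0 1)) = volume (S x) := by
    obtain ⟨R, hR⟩ : ∃ R : E3 ≃ₗᵢ[ℝ] E3, R x = sph 0 1 :=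
      ⟨_, Submodule.reflection_sub (by rw [hx, norm_sph _ (by norm_num)])⟩
    rw [← R.measurePreserving.measure_preimage (hS _).nullMeasurableSet]
    congr 1
    ext v
    simp only [S, mem_preimage, mem_inter_iff, mem_ball_zero_iff, mem_ofPred_eq, ← hR,
      LinearIsometryEquiv.norm_map, LinearIsometryEquiv.inner_map_map]
  have h4 := measure_sdiff_add_inter (μ := volume) (Metric.ball (0 : E3) 1) (hS x)
  rw [inter_eq_right.2 inter_subset_left, EuclideanSpace.volume_ball_fin_three] at h4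
  have h5 := add_le_add h1 (h2.trans h3.le)
  rw [h4, hV, vol_cell _ _ (by positivity), ← mul_add,
    ← ENNReal.ofReal_add (by positivity) (mul_nonneg (by positivity) (by linarith)),
    ← ENNReal.ofReal_mul (by norm_num), ENNReal.ofReal_one, one_pow, one_mul,
    ENNReal.ofReal_le_ofReal_iff (by positivity)] at h5
  have h6 : 1 - r ^ 2 / 2 ≤ c := hc ▸ le_max_right _ _
  nlinarith [pi_pos]

end Pool.Agent.Lib.MP_a619ca_an
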