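import Pool.Agent.Lib.MP_a619ca_an.Dist

/-!
The configuration: thin bands of the sphere, each filled with a piece of a hexagonal lattice in
Archimedes' coordinates, with small gaps between the bands and along one meridian.
-/

namespace Pool.Agent.Lib.MP_a619ca_an

open Real Set

/-- the hexagonal quadratic form -/
def Q (v : ℤ × ℤ) : ℤ := v.1 ^ 2 + v.1 * v.2 + v.2 ^ 2

noncomputable def zb (τ : ℝ) (b : ℕ) : ℝ := -1 + τ + b * τ ^ 2
noncomputable def cb (τ : ℝ) (b : ℕ) : ℝ := √(1 - zb τ b ^ 2)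
noncomputable def hb (τ : ℝ) (b : ℕ) : ℝ := √3 / 2 * τ ^ 4 * cb τ b
noncomputable def wb (τ : ℝ) (b : ℕ) : ℝ := τ ^ 4 / cb τ b
noncomputable def nb (τ : ℝ) : ℕ := ⌊(2 - 2 * τ) / τ ^ 2⌋₊
noncomputable def nq (τ : ℝ) (b : ℕ) : ℕ := ⌊(τ ^ 2 - τ ^ 3) / hb τ b⌋₊
noncomputable def nn (τ : ℝ) (b : ℕ) : ℕ := ⌊(2 * π - 2 * τ) / wb τ b⌋₊

abbrev Idx := Σ _ : ℕ, ℕ × ℕ

noncomputable def JJ (τ : ℝ) : Finset Idx :=
  (Finset.range (nb τ)).sigma fun b => Finset.range (nq τ b) ×ˢ Finset.range (nn τ b)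

def vv (j : Idx) : ℤ × ℤ := (j.2.2 - (j.2.1 / 2 : ℕ), j.2.1)
noncomputable def zz (τ : ℝ) (j : Idx) : ℝ := zb τ j.1 + j.2.1 * hb τ j.1
noncomputable def ph (τ : ℝ) (j : Idx) : ℝ := ((vv j).1 + (vv j).2 / 2) * wb τ j.1
noncomputable def pt (τ : ℝ) (j : Idx) : E3 := sph (ph τ j) (zz τ j)

theorem sqrt_three : 1 ≤ √3 ∧ √3 ≤ 2 :=
  ⟨one_le_sqrt.2 (by norm_num), sqrt_le_iff.2 (by norm_num)⟩

theorem succ_mul_le {k : ℕ} {x y : ℝ} (hy : 0 < y) (h : k < ⌊x / y⌋₊) : (k + 1) * y ≤ x := by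
  have h1 : 0 ≤ x / y := (Nat.pos_of_floor_pos (Nat.zero_lt_of_lt h)).le
  rw [← le_div_iff₀ hy]
  exact_mod_cast (Nat.le_floor_iff h1).1 (Nat.succ_le_of_lt h)

theorem eq_of_mem {k k' : ℕ} {x y : ℝ} (hy : 0 < y) (h1 : k * y < x) (h2 : x ≤ (k + 1) * y)
    (h3 : k' * y < x) (h4 : x ≤ (k' + 1) * y) : k = k' := by
  have a1 : (k : ℝ) < k' + 1 := lt_of_mul_lt_mul_right (h1.trans_le h4) hy.le
  have a2 : (k' : ℝ) < k + 1 := lt_of_mul_lt_mul_right (h3.trans_le h2) hy.le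
  have b1 : k < k' + 1 := by exact_mod_cast a1
  have b2 : k' < k + 1 := by exact_mod_cast a2
  omega

variable {τ : ℝ} (h0 : 0 < τ) (h1 : τ ≤ 1 / 10)
include h0 h1

theorem band {b : ℕ} (hb' : b < nb τ) :
    -1 + τ ≤ zb τ b ∧ zb τ b + τ ^ 2 ≤ 1 - τ ∧ τ ≤ cb τ b ^ 2 ∧ 0 < cb τ b ∧
      0 < hb τ b ∧ hb τ b ≤ τ ^ 4 * cb τ b ∧ hb τ b ≤ τ ^ 3 ∧ 0 < wb τ b ∧ wb τ b ≤ τ ∧
      ∀ z, zb τ b ≤ z → z ≤ zb τ b + τ ^ 2 → |1 - z ^ 2 - cb τ b ^ 2| ≤ 2 * τ * cb τ b ^ 2 := by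
  have a1 := succ_mul_le (by positivity) hb'
  have a2 : -1 + τ ≤ zb τ b := le_add_of_nonneg_right (by positivity)
  have a3 : zb τ b + τ ^ 2 ≤ 1 - τ := by unfold zb; linarith
  have t2 : 0 < τ ^ 2 := by positivity
  have a4 : τ ≤ 1 - zb τ b ^ 2 := by nlinarith
  have a5 : cb τ b ^ 2 = 1 - zb τ b ^ 2 := sq_sqrt (by linarith)
  have a6 : 0 < cb τ b := sqrt_pos.2 (by linarith)
  have a7 : cb τ b ≤ 1 := sqrt_le_one.2 (by nlinarith)
  have a8 : hb τ b ≤ τ ^ 4 * cb τ b := by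
    unfold hb
    have : 0 < τ ^ 4 * cb τ b := by positivity
    nlinarith [sqrt_three.2]
  have t3 : 0 < τ ^ 3 := by positivity
  have a9 : τ ≤ cb τ b := by nlinarith
  have a10 : hb τ b ≤ τ ^ 3 := by
    refine a8.trans ?_
    rw [pow_succ τ 3, mul_assoc]
    exact mul_le_of_le_one_right t3.le (mul_le_one₀ (by linarith) a6.le a7)
  refine ⟨a2, a3, by linarith, a6, by unfold hb; positivity, a8, a10,
    by unfold wb; positivity, ?_, fun z h2 h3 => ?_⟩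
  · unfold wb
    rw [div_le_iff₀ a6]
    nlinarith
  · have e : 1 - z ^ 2 - cb τ b ^ 2 = (zb τ b - z) * (zb τ b + z) := by rw [a5]; ring
    rw [e, abs_mul]
    have b1 : |zb τ b - z| ≤ τ ^ 2 := abs_le.2 ⟨by linarith, by linarith⟩
    have b2 : |zb τ b + z| ≤ 2 := abs_le.2 ⟨by linarith, by linarith⟩
    refine (mul_le_mul b1 b2 (abs_nonneg _) t2.le).trans ?_
    nlinarith

theorem idx {j : Idx} (hj : j ∈ JJ τ) :
    j.1 < nb τ ∧ zb τ j.1 ≤ zz τ j ∧ zz τ j + hb τ j.1 ≤ zb τ j.1 + τ ^ 2 - τ ^ 3 ∧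
      0 ≤ ph τ j ∧ ph τ j + wb τ j.1 ≤ 2 * π - τ ∧
      ph τ j = j.2.2 * wb τ j.1 + (j.2.1 % 2 : ℕ) / 2 * wb τ j.1 := by
  obtain ⟨b, q, n⟩ := j
  simp only [JJ, Finset.mem_sigma, Finset.mem_range, Finset.mem_product] at hj
  obtain ⟨a1, a2, a3⟩ := hj
  obtain ⟨-, -, -, -, b1, -, -, b2, b3, -⟩ := band h0 h1 a1
  have c1 := succ_mul_le b1 a2
  have c2 := succ_mul_le b2 a3
  have e : ph τ ⟨b, q, n⟩ = n * wb τ b + (q % 2 : ℕ) / 2 * wb τ b := by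
    have : (q : ℝ) = 2 * (q / 2 : ℕ) + (q % 2 : ℕ) := by exact_mod_cast (Nat.div_add_mod q 2).symm
    simp only [ph, vv, Int.cast_sub, Int.cast_natCast]
    linear_combination wb τ b / 2 * this
  have e2 : ((q % 2 : ℕ) : ℝ) ≤ 1 := by exact_mod_cast (by omega : q % 2 ≤ 1)
  refine ⟨a1, le_add_of_nonneg_right (by positivity), by simp only [zz]; linarith, ?_, ?_, e⟩
  · rw [e]; positivity
  · rw [e]; nlinarith

theorem pt_norm {j : Idx} (hj : j ∈ JJ τ) : ‖pt τ j‖ = 1 := by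
  obtain ⟨a1, a2, a3, -⟩ := idx h0 h1 hj
  obtain ⟨b1, b2, -, -, b3, -⟩ := band h0 h1 a1
  have : 0 < τ ^ 3 := by positivity
  exact norm_sph _ (by nlinarith)

theorem area {b : ℕ} (hb' : b < nb τ) : wb τ b * hb τ b = √3 / 2 * τ ^ 8 := by
  have := (band h0 h1 hb').2.2.2.1
  unfold wb hb
  field_simp

theorem card_ge : (1 - 4 * τ) * (4 * π) ≤ (JJ τ).card * (√3 / 2 * τ ^ 8) := by
  have hp := pi_gt_three
  have t2 : 0 < τ ^ 2 := by positivity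
  have key : ∀ b ∈ Finset.range (nb τ), (τ ^ 2 * (1 - 2 * τ)) * (2 * π - 3 * τ) ≤
      ((nq τ b * nn τ b : ℕ) : ℝ) * (√3 / 2 * τ ^ 8) := by
    intro b hb'
    have hb' := Finset.mem_range.1 hb'
    obtain ⟨-, -, -, -, b1, -, b2, b3, b4, -⟩ := band h0 h1 hb'
    have c1 : (τ ^ 2 - τ ^ 3) / hb τ b < nq τ b + 1 := Nat.lt_floor_add_one _
    have c2 : (2 * π - 2 * τ) / wb τ b < nn τ b + 1 := Nat.lt_floor_add_one _
    rw [div_lt_iff₀ b1] at c1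
    rw [div_lt_iff₀ b3] at c2
    rw [← area h0 h1 hb']
    calc _ ≤ (nq τ b * hb τ b) * (nn τ b * wb τ b) :=
          mul_le_mul (by linarith) (by linarith) (by linarith) (by positivity)
      _ = _ := by push_cast; ring
  have h2 := Finset.card_nsmul_le_sum _ _ _ key
  rw [← Finset.sum_mul, ← Nat.cast_sum, Finset.card_range, nsmul_eq_mul] at h2
  have h3 : (JJ τ).card = ∑ b ∈ Finset.range (nb τ), nq τ b * nn τ b := by simp [JJ]
  rw [h3]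
  refine le_trans ?_ h2
  have c3 : (2 - 2 * τ) / τ ^ 2 < nb τ + 1 := Nat.lt_floor_add_one _
  rw [div_lt_iff₀ t2] at c3
  have c4 : 2 - 3 * τ ≤ nb τ * τ ^ 2 := by nlinarith
  have c5 : 0 ≤ (1 - 2 * τ) * (2 * π - 3 * τ) := mul_nonneg (by linarith) (by linarith)
  calc _ ≤ (2 - 3 * τ) * ((1 - 2 * τ) * (2 * π - 3 * τ)) := by
        nlinarith [mul_nonneg t2.le (sub_nonneg.2 hp.le), mul_nonneg h0.le (sub_nonneg.2 hp.le),
          mul_nonneg t2.le (sub_nonneg.2 h1)]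
    _ ≤ (nb τ * τ ^ 2) * ((1 - 2 * τ) * (2 * π - 3 * τ)) := mul_le_mul_of_nonneg_right c4 c5
    _ = _ := by ring

theorem count {K : Finset Idx} (hK : K ⊆ JJ τ) {y : E3} (hy : ‖y‖ = 1) {r : ℝ}
    (hr : ∀ j ∈ K, ‖pt τ j - y‖ ≤ r) :
    K.card * (√3 / 2 * τ ^ 8) ≤ π * (r + 2 * τ ^ 4) ^ 2 := by
  have t3 : 0 < τ ^ 3 := by positivity
  refine count_le K (ph τ) (fun j => wb τ j.1) (zz τ) (fun j => hb τ j.1) (by positivity)
    (fun j hj => ?_) (fun j hj => ?_) (fun i hi j hj a b c1 c2 c3 c4 => ?_) hy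
    fun j hj a ha b hb' => ?_
  · have := (idx h0 h1 (hK hj)).1
    exact ⟨(band h0 h1 this).2.2.2.2.2.2.2.1.le, area h0 h1 this⟩
  · obtain ⟨a1, a2, a3, a4, a5, -⟩ := idx h0 h1 (hK hj)
    obtain ⟨b1, b2, -⟩ := band h0 h1 a1
    exact ⟨a4, by linarith, by linarith, by linarith⟩
  · obtain ⟨a1, a2, a3, -, -, a4⟩ := idx h0 h1 (hK hi)
    obtain ⟨-, a5, a6, -, -, a7⟩ := idx h0 h1 (hK hj)
    obtain ⟨-, -, -, -, b1, -, -, b2, -⟩ := band h0 h1 a1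
    obtain ⟨i1, i2, i3⟩ := i
    obtain ⟨j1, j2, j3⟩ := j
    simp only [mem_Ioo] at *
    obtain rfl : i1 = j1 := by
      unfold zb at *
      exact eq_of_mem (x := b + 1 - τ) (y := τ ^ 2) (by positivity) (by linarith) (by linarith)
        (by linarith) (by linarith)
    obtain rfl : i2 = j2 := by
      simp only [zz] at c2 c4
      exact eq_of_mem (x := b - zb τ i1) b1 (by linarith) (by linarith) (by linarith) (by linarith)
    obtain rfl : i3 = j3 :=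
      eq_of_mem (x := a - (i2 % 2 : ℕ) / 2 * wb τ i1) b2 (by linarith) (by linarith) (by linarith)
        (by linarith)
    rfl
  · obtain ⟨a1, a2, a3, -⟩ := idx h0 h1 (hK hj)
    obtain ⟨-, -, -, b1, b2, b3, -, b4, -, b5⟩ := band h0 h1 a1
    have c1 : ‖sph a b - pt τ j‖ ≤ 2 * τ ^ 4 :=
      dist_upper b1 (by positivity) h1 (b5 _ (by linarith [hb'.1]) (by linarith [hb'.2]))
        (b5 _ a2 (by linarith)) (abs_le.2 ⟨by linarith [hb'.1], by linarith [hb'.2]⟩)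
        (abs_le.2 ⟨by unfold wb at b4; linarith [ha.1], by linarith [show a < _ + τ ^ 4 / _ from ha.2]⟩)
    linarith [norm_sub_le_norm_sub_add_norm_sub (sph a b) (pt τ j) y, hr j hj]

theorem near {i j : Idx} (hi : i ∈ JJ τ) (hj : j ∈ JJ τ) (h : ‖pt τ j - pt τ i‖ ≤ τ ^ 3) :
    j.1 = i.1 ∧ (1 - 3 * τ) * (τ ^ 8 * Q (vv j - vv i)) ≤ ‖pt τ j - pt τ i‖ ^ 2 := by
  obtain ⟨a1, a2, a3, a4, a5, -⟩ := idx h0 h1 hi
  obtain ⟨a6, a7, a8, a9, a10, -⟩ := idx h0 h1 hj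
  have b0 := (band h0 h1 a6).2.2.2.2.1
  obtain ⟨-, -, b1, b2, b3, -, -, b4, -, b5⟩ := band h0 h1 a1
  have t3 : 0 < τ ^ 3 := by positivity
  have e : j.1 = i.1 := by
    obtain ⟨c1, c2⟩ := abs_le.1 ((height_le _ _).trans h)
    unfold zb at *
    exact eq_of_mem (x := max (zz τ i) (zz τ j) + 1 - τ + min (hb τ i.1) (hb τ j.1)) (y := τ ^ 2)
      (by positivity)
      (by linarith [le_max_right (zz τ i) (zz τ j), lt_min b3 b0])
      (by rcases le_total (zz τ i) (zz τ j) with c | c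
          · rw [max_eq_right c]; linarith [min_le_right (hb τ i.1) (hb τ j.1)]
          · rw [max_eq_left c]; linarith [min_le_right (hb τ i.1) (hb τ j.1)])
      (by linarith [le_max_left (zz τ i) (zz τ j), lt_min b3 b0])
      (by rcases le_total (zz τ i) (zz τ j) with c | c
          · rw [max_eq_right c]; linarith [min_le_left (hb τ i.1) (hb τ j.1)]
          · rw [max_eq_left c]; linarith [min_le_left (hb τ i.1) (hb τ j.1)])
  refine ⟨e, ?_⟩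
  rw [e] at a7 a8 a10
  refine le_trans (le_of_eq ?_) (dist_lower h0 h1 b1 (b5 _ a7 (by linarith)) (b5 _ a2 (by linarith))
    (abs_le.2 ⟨by linarith, by linarith⟩) (abs_le.2 ⟨by linarith, by linarith⟩) h)
  congr 1
  have s3 : √3 ^ 2 = 3 := sq_sqrt (by norm_num)
  simp only [zz, ph, e, hb, wb, Q, Prod.fst_sub, Prod.snd_sub, vv]
  push_cast
  field_simp
  linear_combination (-(τ ^ 8 * ((j.2.1 : ℝ) - i.2.1) ^ 2 * cb τ i.1 ^ 2)) * s3

omit h0 h1 in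
theorem vv_inj {j k : Idx} (h : j.1 = k.1) (h' : vv j = vv k) : j = k := by
  obtain ⟨j1, j2, j3⟩ := j
  obtain ⟨k1, k2, k3⟩ := k
  simp only [vv, Prod.mk.injEq, Nat.cast_inj] at h h'
  obtain ⟨h2, rfl⟩ := h'
  obtain rfl : j3 = k3 := by omega
  rw [h]

end Pool.Agent.Lib.MP_a619ca_an
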