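import Pool.Agent.Lib.MP_a619ca_an.Cap

/-!
Distances between points of a thin band of the sphere.
-/

namespace Pool.Agent.Lib.MP_a619ca_an

open Real

theorem dist_sq (a a' : ℝ) {z z' : ℝ} (hz : z ^ 2 ≤ 1) (hz' : z' ^ 2 ≤ 1) :
    ∃ D, (z - z') ^ 2 ≤ D ∧ D * ((√(1 - z ^ 2) + √(1 - z' ^ 2)) ^ 2 + (z - z') ^ 2) = 4 * (z - z') ^ 2 ∧
      ‖sph a z - sph a' z'‖ ^ 2 =
        D + 4 * (√(1 - z ^ 2) * √(1 - z' ^ 2)) * sin ((a - a') / 2) ^ 2 := by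
  have h1 := sq_sqrt (sub_nonneg.2 hz)
  have h2 := sq_sqrt (sub_nonneg.2 hz')
  refine ⟨(z - z') ^ 2 + (√(1 - z ^ 2) - √(1 - z' ^ 2)) ^ 2, le_add_of_nonneg_right (sq_nonneg _),
    ?_, ?_⟩
  · generalize √(1 - z ^ 2) = c at *
    generalize √(1 - z' ^ 2) = c' at *
    linear_combination (2 * (z - z') ^ 2 + (c ^ 2 - c' ^ 2 + z' ^ 2 - z ^ 2)) * h1 +
      (2 * (z - z') ^ 2 - (c ^ 2 - c' ^ 2 + z' ^ 2 - z ^ 2)) * h2
  · rw [norm_sq_three, sin_sq_eq_half_sub, mul_div_cancel₀ _ two_ne_zero, cos_sub]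
    have h3 := cos_sq_add_sin_sq a
    have h4 := cos_sq_add_sin_sq a'
    simp only [sph, PiLp.sub_apply, Matrix.cons_val_zero, Matrix.cons_val_one,
      Matrix.cons_val]
    linear_combination √(1 - z ^ 2) ^ 2 * h3 + √(1 - z' ^ 2) ^ 2 * h4

theorem sqrt_mul_bounds {c τ u u' : ℝ} (h1 : τ ≤ 1 / 10) (hu : |u - c ^ 2| ≤ 2 * τ * c ^ 2)
    (hu' : |u' - c ^ 2| ≤ 2 * τ * c ^ 2) :
    0 ≤ u ∧ 0 ≤ u' ∧ (1 - 2 * τ) * c ^ 2 ≤ √u * √u' ∧ √u * √u' ≤ (1 + 2 * τ) * c ^ 2 := by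
  obtain ⟨h2, h3⟩ := abs_le.1 hu
  obtain ⟨h4, h5⟩ := abs_le.1 hu'
  have h6 : 0 ≤ (1 - 2 * τ) * c ^ 2 := mul_nonneg (by linarith) (sq_nonneg _)
  have h7 : 0 ≤ u := by linarith
  have h8 : 0 ≤ u' := by linarith
  refine ⟨h7, h8, ?_, ?_⟩
  · rw [← mul_self_sqrt h6]
    exact mul_le_mul (sqrt_le_sqrt (by linarith)) (sqrt_le_sqrt (by linarith)) (sqrt_nonneg _)
      (sqrt_nonneg _)
  · rw [← mul_self_sqrt (x := (1 + 2 * τ) * c ^ 2) (by linarith)]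
    exact mul_le_mul (sqrt_le_sqrt (by linarith)) (sqrt_le_sqrt (by linarith)) (sqrt_nonneg _)
      (sqrt_nonneg _)

theorem dist_upper {c τ a φ φ' z z' : ℝ} (hc : 0 < c) (ha : 0 ≤ a) (h1 : τ ≤ 1 / 10)
    (hz : |1 - z ^ 2 - c ^ 2| ≤ 2 * τ * c ^ 2) (hz' : |1 - z' ^ 2 - c ^ 2| ≤ 2 * τ * c ^ 2)
    (h2 : |z - z'| ≤ a * c) (h3 : |φ - φ'| ≤ a / c) : ‖sph φ z - sph φ' z'‖ ≤ 2 * a := by
  obtain ⟨b1, b2, b3, b4⟩ := sqrt_mul_bounds h1 hz hz'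
  obtain ⟨D, d1, d2, d3⟩ := dist_sq φ φ' (sub_nonneg.1 b1) (sub_nonneg.1 b2)
  generalize √(1 - z ^ 2) = s at *
  generalize √(1 - z' ^ 2) = s' at *
  have hc2 : 0 < c ^ 2 := by positivity
  have hD : 0 ≤ D := (sq_nonneg _).trans d1
  have e1 : (z - z') ^ 2 ≤ (a * c) ^ 2 := sq_le_sq.2 (h2.trans (le_abs_self _))
  have e2 : D * (2 * c ^ 2) ≤ D * ((s + s') ^ 2 + (z - z') ^ 2) :=
    mul_le_mul_of_nonneg_left (by nlinarith [sq_nonneg (s - s'), sq_nonneg (z - z')]) hD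
  have e3 : D ≤ 2 * a ^ 2 := le_of_mul_le_mul_right (by nlinarith) hc2
  have e4 : (φ - φ') ^ 2 * c ^ 2 ≤ a ^ 2 := by
    rw [← mul_pow]
    refine sq_le_sq.2 (le_trans ?_ (le_abs_self _))
    rwa [abs_mul, abs_of_pos hc, ← le_div_iff₀ hc]
  have e5 : sin ((φ - φ') / 2) ^ 2 ≤ ((φ - φ') / 2) ^ 2 := sin_sq_le_sq
  have e6 : 4 * (s * s') * sin ((φ - φ') / 2) ^ 2 ≤ 4 * (2 * c ^ 2) * ((φ - φ') / 2) ^ 2 :=
    mul_le_mul (by nlinarith) e5 (sq_nonneg _) (by positivity)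
  refine abs_le_of_sq_le_sq' ?_ (by positivity) |>.2
  nlinarith

theorem sin_sq_lower {τ x : ℝ} (h0 : 0 < τ) (h1 : τ ≤ 1 / 10) (hx : |x| ≤ π - τ / 2)
    (hs : sin x ^ 2 < τ ^ 2 / 16) : (1 - τ) * x ^ 2 ≤ sin x ^ 2 := by
  wlog h : 0 ≤ x generalizing x
  · have := @this (-x) (by rwa [abs_neg]) (by rwa [sin_neg, neg_sq]) (by linarith)
    rwa [sin_neg, neg_sq, neg_sq] at this
  rw [abs_of_nonneg h] at hx
  have hp := pi_le_four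
  have hp3 := pi_gt_three
  have key : ∀ y, τ / 2 ≤ y → y ≤ π / 2 → τ / 4 ≤ sin y := fun y h2 h3 => by
    refine le_trans ?_ (mul_le_sin (by linarith) h3)
    rw [div_mul_eq_mul_div, le_div_iff₀ pi_pos]
    nlinarith
  have h2 : x < τ / 2 := by
    by_contra h2
    have h3 : τ / 4 ≤ sin x := by
      rcases le_total x (π / 2) with h4 | h4
      · exact key x (not_lt.1 h2) h4
      · rw [← sin_pi_sub]
        exact key _ (by linarith) (by linarith)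
    nlinarith
  rcases h.eq_or_lt with rfl | h
  · simp
  have h3 := sin_gt_sub_cube h
  have h4 : x * (1 - τ / 2) ≤ sin x := by nlinarith [mul_pos h h]
  have h5 := pow_le_pow_left₀ (mul_nonneg h.le (by linarith)) h4 2
  nlinarith [mul_nonneg (sq_nonneg x) (sq_nonneg τ)]

theorem dist_lower {c τ φ φ' z z' : ℝ} (h0 : 0 < τ) (h1 : τ ≤ 1 / 10) (hc : τ ≤ c ^ 2)
    (hz : |1 - z ^ 2 - c ^ 2| ≤ 2 * τ * c ^ 2) (hz' : |1 - z' ^ 2 - c ^ 2| ≤ 2 * τ * c ^ 2)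
    (h2 : |z - z'| ≤ τ ^ 2) (h3 : |φ - φ'| ≤ 2 * π - τ) (h4 : ‖sph φ z - sph φ' z'‖ ≤ τ ^ 3) :
    (1 - 3 * τ) * ((z - z') ^ 2 / c ^ 2 + c ^ 2 * (φ - φ') ^ 2) ≤ ‖sph φ z - sph φ' z'‖ ^ 2 := by
  obtain ⟨b1, b2, b3, b4⟩ := sqrt_mul_bounds h1 hz hz'
  obtain ⟨D, d1, d2, d3⟩ := dist_sq φ φ' (sub_nonneg.1 b1) (sub_nonneg.1 b2)
  have s1 := sq_sqrt b1
  have s2 := sq_sqrt b2
  generalize √(1 - z ^ 2) = s at *
  generalize √(1 - z' ^ 2) = s' at *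
  have hc2 : 0 < c ^ 2 := h0.trans_le hc
  have hD : 0 ≤ D := (sq_nonneg _).trans d1
  have e0 := pow_le_pow_left₀ (norm_nonneg _) h4 2
  have e1 : (z - z') ^ 2 ≤ (τ ^ 2) ^ 2 := sq_le_sq.2 (h2.trans (le_abs_self _))
  have t2 : τ ^ 2 ≤ τ / 10 := by nlinarith
  have t3 : τ ^ 3 ≤ 1 / 1000 := (pow_le_pow_left₀ h0.le h1 3).trans (by norm_num)
  have e2 : (s + s') ^ 2 + (z - z') ^ 2 ≤ 4 * c ^ 2 * (1 + 3 * τ) := by
    have := (abs_le.1 hz).2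
    have := (abs_le.1 hz').2
    have : (τ ^ 2) ^ 2 ≤ τ * c ^ 2 := by nlinarith [mul_le_mul_of_nonneg_left hc h0.le]
    nlinarith
  have e3 : (1 - 3 * τ) * ((z - z') ^ 2 / c ^ 2) ≤ D := by
    have := mul_le_mul_of_nonneg_left e2 hD
    rw [d2] at this
    rw [← mul_div_assoc, div_le_iff₀ hc2]
    have h5 := mul_le_mul_of_nonneg_left this (by linarith : 0 ≤ 1 - 3 * τ)
    nlinarith [mul_nonneg (mul_nonneg hD hc2.le) (sq_nonneg τ)]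
  have e4 : τ / 2 ≤ s * s' := by nlinarith
  have e5 : sin ((φ - φ') / 2) ^ 2 < τ ^ 2 / 16 := by
    by_contra h
    have h5 : 4 * (τ / 2) * (τ ^ 2 / 16) ≤ 4 * (s * s') * sin ((φ - φ') / 2) ^ 2 :=
      mul_le_mul (by linarith) (not_lt.1 h) (by positivity) (by linarith)
    have h6 : 0 < τ ^ 3 := by positivity
    have h7 : (τ ^ 3) ^ 2 ≤ τ ^ 3 * (1 / 1000) := by
      rw [sq]
      exact mul_le_mul_of_nonneg_left t3 h6.le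
    have h8 : 4 * (τ / 2) * (τ ^ 2 / 16) = τ ^ 3 / 8 := by ring
    linarith
  have e6 := sin_sq_lower h0 h1 (by rw [abs_div, abs_two]; linarith) e5
  have e7 : 4 * ((1 - 2 * τ) * c ^ 2) * ((1 - τ) * ((φ - φ') / 2) ^ 2) ≤
      4 * (s * s') * sin ((φ - φ') / 2) ^ 2 :=
    mul_le_mul (by linarith) e6 (mul_nonneg (by linarith) (sq_nonneg _)) (by linarith)
  have e8 : 4 * ((1 - 2 * τ) * c ^ 2) * ((1 - τ) * ((φ - φ') / 2) ^ 2) =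
      (1 - 3 * τ) * (c ^ 2 * (φ - φ') ^ 2) + 2 * (c ^ 2 * (φ - φ') ^ 2 * τ ^ 2) := by ring
  have e9 := mul_nonneg (mul_nonneg hc2.le (sq_nonneg (φ - φ'))) (sq_nonneg τ)
  rw [mul_add]
  linarith

theorem height_le (a a' : ℝ) {z z' : ℝ} : |z - z'| ≤ ‖sph a z - sph a' z'‖ := by
  simpa [sph] using PiLp.norm_apply_le (sph a z - sph a' z') 2

end Pool.Agent.Lib.MP_a619ca_an
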