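import Mathlib

/-!
From a counting bound to a bound on the sum of inverse squares.
-/

namespace Pool.Agent.Lib.MP_a619ca_an

open Real Finset

theorem rank_sum {ι : Type*} [DecidableEq ι] (ρ h : ι → ℝ) (c : ℝ → ℝ) (H : ℕ → ℝ) (K : Finset ι)
    (hc : ∀ K' ⊆ K, ∀ r, (∀ j ∈ K', ρ j ≤ r) → K'.card ≤ c r)
    (hH : ∀ j ∈ K, ∀ k : ℕ, (k + 1 : ℝ) ≤ c (ρ j) → h j ≤ H k) :
    ∑ j ∈ K, h j ≤ ∑ k ∈ range K.card, H k := by
  induction K using Finset.induction_on_max_value ρ with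
  | empty => simp
  | insert a s ha hmax ih =>
    rw [sum_insert ha, card_insert_of_notMem ha, sum_range_succ, add_comm]
    refine add_le_add (ih (fun K' hK' => hc K' (hK'.trans (subset_insert _ _)))
      fun j hj => hH j (mem_insert_of_mem hj)) (hH a (mem_insert_self _ _) _ ?_)
    have := hc _ Subset.rfl (ρ a) fun j hj => by
      rcases mem_insert.1 hj with rfl | hj
      exacts [le_rfl, hmax j hj]
    rw [card_insert_of_notMem ha] at this
    exact_mod_cast this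

theorem one_sub_rpow_le {u ε : ℝ} (hu : 0 < u) : 1 - u ^ (-ε) ≤ ε * log u := by
  rw [rpow_def_of_pos hu]
  linarith [add_one_le_exp (log u * -ε)]

theorem split_pow {u ε : ℝ} (hu : 0 < u) : u ^ (-(1 + ε)) = u⁻¹ * u ^ (-ε) := by
  rw [neg_add, rpow_add hu, rpow_neg_one]

theorem phi_small {u ε : ℝ} (hu : 0 < u) (hε : 0 ≤ ε) : u⁻¹ - u ^ (-(1 + ε)) ≤ ε := by
  rw [split_pow hu, ← mul_one_sub, inv_mul_le_iff₀ hu, mul_comm]
  exact (one_sub_rpow_le hu).trans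
    (mul_le_mul_of_nonneg_left (by linarith [log_le_sub_one_of_pos hu]) hε)

theorem phi_large {ρ κ ε : ℝ} (hρ : 0 < ρ) (hε : 0 ≤ ε) (hκ : 16 ≤ κ) (h : κ ≤ (ρ + 2) ^ 2) :
    (ρ ^ 2)⁻¹ - (ρ ^ 2) ^ (-(1 + ε)) ≤ κ⁻¹ - κ ^ (-(1 + ε)) + 16 / (κ * √κ) := by
  have hκ0 : 0 < κ := by linarith
  have hu : 0 < ρ ^ 2 := by positivity
  have q0 : 0 < κ ^ (-ε) := rpow_pos_of_pos hκ0 _
  rw [split_pow hu, split_pow hκ0, ← mul_one_sub, ← mul_one_sub]
  rcases le_total κ (ρ ^ 2) with h1 | h1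
  · refine le_trans ?_ (le_add_of_nonneg_right (by positivity))
    obtain ⟨t, ht⟩ : ∃ t, ρ ^ 2 = κ * t := ⟨ρ ^ 2 / κ, by field_simp⟩
    have t1 : 1 ≤ t := by nlinarith
    have t0 : 0 < t := by linarith
    have a1 : κ ^ (-ε) * (1 + ε) ≤ 1 := by
      rw [rpow_neg hκ0.le, inv_mul_le_iff₀ (by positivity), mul_one, rpow_def_of_pos hκ0]
      have : 1 ≤ log κ := by
        rw [le_log_iff_exp_le hκ0]
        linarith [exp_one_lt_d9]
      nlinarith [add_one_le_exp (log κ * ε)]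
    have a2 := one_sub_rpow_le (ε := ε) t0
    have a3 := mul_le_mul_of_nonneg_left (log_le_sub_one_of_pos t0) hε
    rw [ht, mul_rpow hκ0.le t0.le, mul_inv, mul_assoc]
    refine mul_le_mul_of_nonneg_left ?_ (by positivity)
    rw [inv_mul_le_iff₀ t0]
    nlinarith [mul_le_mul_of_nonneg_left (a2.trans a3) q0.le,
      mul_le_mul_of_nonneg_left a1 (sub_nonneg.2 t1)]
  · have a1 : κ ^ (-ε) ≤ (ρ ^ 2) ^ (-ε) := rpow_le_rpow_of_nonpos hu h1 (by linarith)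
    have a2 : (ρ ^ 2)⁻¹ - κ⁻¹ ≤ 16 / (κ * √κ) := by
      obtain ⟨w, hw0, rfl⟩ : ∃ w, 0 ≤ w ∧ κ = w ^ 2 := ⟨√κ, sqrt_nonneg _, (sq_sqrt hκ0.le).symm⟩
      have b1 : 4 ≤ w := by nlinarith
      have b2 : w ≤ ρ + 2 := abs_le_of_sq_le_sq' h (by linarith) |>.2
      have b3 : ρ ≤ w := abs_le_of_sq_le_sq' h1 hw0 |>.2
      rw [sqrt_sq hw0, inv_sub_inv hu.ne' hκ0.ne', div_le_div_iff₀ (by positivity) (by positivity)]
      have b4 : w ^ 2 - ρ ^ 2 ≤ 4 * w := by nlinarith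
      have b5 : w ^ 2 ≤ 4 * ρ ^ 2 := by nlinarith
      calc _ ≤ 4 * w * (w ^ 2 * w) := mul_le_mul_of_nonneg_right b4 (by positivity)
        _ = 4 * w ^ 2 * w ^ 2 := by ring
        _ ≤ 4 * (4 * ρ ^ 2) * w ^ 2 := by gcongr
        _ = _ := by ring
    have a3 : κ⁻¹ ≤ (ρ ^ 2)⁻¹ := inv_anti₀ hu h1
    nlinarith [mul_le_mul_of_nonneg_left a1 (inv_pos.2 hu).le,
      mul_nonneg (sub_nonneg.2 a3) q0.le]

/-- the telescoping majorant -/
noncomputable def G (A ε x : ℝ) : ℝ :=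
  A * log x + A ^ (1 + ε) * (x + 1) ^ (-ε) / ε - 32 * (A * √A) / √x

theorem G_step {A ε x : ℝ} (hA : 0 < A) (hε : 0 < ε) (hx : 0 < x) :
    ((x + 1) / A)⁻¹ - ((x + 1) / A) ^ (-(1 + ε)) + 16 / ((x + 1) / A * √((x + 1) / A)) ≤
      G A ε (x + 1) - G A ε x := by
  have hy : 0 < x + 1 := by linarith
  have a1 : (x + 1)⁻¹ ≤ log (x + 1) - log x := by
    have := log_le_sub_one_of_pos (div_pos hx hy)
    rw [log_div hx.ne' hy.ne'] at this
    have e : x / (x + 1) - 1 = -(x + 1)⁻¹ := by field_simp; ring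
    linarith
  have a2 : (x + 1) ^ (-ε) - (x + 1 + 1) ^ (-ε) ≤ ε * (x + 1) ^ (-(1 + ε)) := by
    have h2 : 0 < 1 + (x + 1)⁻¹ := by positivity
    have e : x + 1 + 1 = (x + 1) * (1 + (x + 1)⁻¹) := by field_simp
    rw [e, mul_rpow hy.le h2.le, split_pow hy, ← mul_one_sub, ← mul_assoc, mul_comm]
    refine mul_le_mul_of_nonneg_right ((one_sub_rpow_le h2).trans ?_) (by positivity)
    exact mul_le_mul_of_nonneg_left (by linarith [log_le_sub_one_of_pos h2]) hε.le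
  have a3 : 1 / ((x + 1) * √(x + 1)) ≤ 2 * (1 / √x - 1 / √(x + 1)) := by
    have s1 := sq_sqrt hx.le
    have s2 := sq_sqrt hy.le
    have p1 := sqrt_pos.2 hx
    have p2 := sqrt_pos.2 hy
    have p3 : √x ≤ √(x + 1) := sqrt_le_sqrt (by linarith)
    generalize √x = u at *
    generalize √(x + 1) = w at *
    rw [← s2, div_sub_div _ _ p1.ne' p2.ne', ← mul_div_assoc, div_le_div_iff₀ (by positivity)
      (by positivity)]
    have e : (w - u) * (w + u) = 1 := by linarith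
    have h5 : 0 ≤ (w - u) * (2 * w ^ 2 - u * (w + u)) :=
      mul_nonneg (by linarith) (by nlinarith)
    have h6 : u ≤ 2 * (w - u) * w ^ 2 := by nlinarith
    nlinarith [mul_le_mul_of_nonneg_right h6 p2.le]
  have e1 : ((x + 1) / A)⁻¹ = A * (x + 1)⁻¹ := by field_simp
  have e2 : ((x + 1) / A) ^ (-(1 + ε)) = A ^ (1 + ε) * (x + 1) ^ (-(1 + ε)) := by
    rw [div_rpow hy.le hA.le, rpow_neg hA.le, div_inv_eq_mul, mul_comm]
  have e3 : 16 / ((x + 1) / A * √((x + 1) / A)) = 16 * (A * √A) * (1 / ((x + 1) * √(x + 1))) := by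
    rw [sqrt_div hy.le]
    field_simp
  have b1 := mul_le_mul_of_nonneg_left a1 hA.le
  have b2 := mul_le_mul_of_nonneg_left a2 (show 0 ≤ A ^ (1 + ε) / ε by positivity)
  have b3 := mul_le_mul_of_nonneg_left a3 (show 0 ≤ 16 * (A * √A) by positivity)
  have e4 : A ^ (1 + ε) / ε * (ε * (x + 1) ^ (-(1 + ε))) = A ^ (1 + ε) * (x + 1) ^ (-(1 + ε)) := by
    field_simp
  rw [e1, e2, e3, G, G]
  rw [e4] at b2
  simp only [div_eq_mul_inv] at *
  linarith

theorem pot_le {ι : Type*} [DecidableEq ι] (ρ : ι → ℝ) (K : Finset ι) {A ε P : ℝ} {k₀ : ℕ}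
    (hA : 0 < A) (hε : 0 < ε) (hP : 2 ≤ P) (hk : 16 * A ≤ k₀) (hK : k₀ ≤ K.card)
    (hρ : ∀ j ∈ K, 0 < ρ j)
    (hc : ∀ K' ⊆ K, ∀ r, (∀ j ∈ K', ρ j ≤ r) → K'.card ≤ A * (r + 2) ^ 2) :
    ∑ j ∈ K, (ρ j ^ 2)⁻¹ ≤ ∑ j ∈ K with ρ j ≤ P, (ρ j ^ 2) ^ (-(1 + ε)) +
      P ^ (-ε) * ((4 * A) ^ (1 + ε / 2) * ∑' k : ℕ, (k + 1 : ℝ) ^ (-(1 + ε / 2))) +
      (k₀ * ε + G A ε K.card - G A ε k₀) := by
  have hk0 : (0 : ℝ) < k₀ := by linarith
  have h1 := rank_sum ρ (fun j => (ρ j ^ 2)⁻¹ - (ρ j ^ 2) ^ (-(1 + ε))) _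
    (fun k => if k < k₀ then ε else G A ε (k + 1) - G A ε k) K hc fun j hj k h => by
      split_ifs with h2
      · exact phi_small (pow_pos (hρ j hj) 2) hε.le
      · have h3 : (k₀ : ℝ) ≤ k := by exact_mod_cast not_lt.1 h2
        refine le_trans (phi_large (hρ j hj) hε.le ?_ ?_) (G_step hA hε (by linarith))
        · rw [le_div_iff₀ hA]; linarith
        · rw [div_le_iff₀ hA]; linarith
  have h2 : ∀ n, k₀ ≤ n → ∑ k ∈ range n, (if k < k₀ then ε else G A ε (k + 1) - G A ε k) =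
      k₀ * ε + G A ε n - G A ε k₀ := by
    intro n hn
    induction n, hn using Nat.le_induction with
    | base => rw [sum_congr rfl fun k hk => if_pos (mem_range.1 hk)]; simp
    | succ n hn ih => rw [sum_range_succ, ih, if_neg (not_lt.2 hn)]; push_cast; ring
  have h3 := rank_sum ρ (fun j => if ρ j ≤ P then 0 else (ρ j ^ 2) ^ (-(1 + ε))) _
    (fun k => P ^ (-ε) * ((4 * A) ^ (1 + ε / 2) * (k + 1 : ℝ) ^ (-(1 + ε / 2)))) K hc
    fun j hj k h => by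
      have hP0 : 0 < P := by linarith
      split_ifs with h4
      · positivity
      · have r0 := hρ j hj
        have r1 := (not_le.1 h4).le
        have e1 : (ρ j ^ 2) ^ (-(1 + ε)) = ρ j ^ (-ε) * (ρ j ^ 2) ^ (-(1 + ε / 2)) := by
          rw [← rpow_natCast, ← rpow_mul r0.le, ← rpow_mul r0.le, ← rpow_add r0]
          congr 1
          push_cast
          ring
        have e2 : (4 * A) ^ (1 + ε / 2) * (k + 1 : ℝ) ^ (-(1 + ε / 2)) =
            ((k + 1) / (4 * A)) ^ (-(1 + ε / 2)) := by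
          rw [div_rpow (by positivity) (by positivity), rpow_neg (x := 4 * A) (by positivity),
            div_inv_eq_mul, mul_comm]
        rw [e1, e2]
        refine mul_le_mul (rpow_le_rpow_of_nonpos hP0 r1 (by linarith))
          (rpow_le_rpow_of_nonpos (by positivity) ?_ (by linarith)) (by positivity) (by positivity)
        rw [div_le_iff₀ (by positivity)]
        nlinarith [mul_le_mul_of_nonneg_left (show (ρ j + 2) ^ 2 ≤ 4 * ρ j ^ 2 by nlinarith) hA.le]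
  have h4 : ∑ k ∈ range K.card, (k + 1 : ℝ) ^ (-(1 + ε / 2)) ≤
      ∑' k : ℕ, (k + 1 : ℝ) ^ (-(1 + ε / 2)) := by
    refine Summable.sum_le_tsum _ (fun _ _ => by positivity) ?_
    have := (summable_nat_add_iff 1).2 (summable_nat_rpow.2 (show -(1 + ε / 2) < -1 by linarith))
    simpa using this
  rw [← mul_sum, ← mul_sum] at h3
  rw [h2 _ hK, sum_sub_distrib] at h1
  have h5 : ∑ j ∈ K, (ρ j ^ 2) ^ (-(1 + ε)) = ∑ j ∈ K with ρ j ≤ P, (ρ j ^ 2) ^ (-(1 + ε)) +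
      ∑ j ∈ K, if ρ j ≤ P then 0 else (ρ j ^ 2) ^ (-(1 + ε)) := by
    rw [sum_filter, ← sum_add_distrib]
    exact sum_congr rfl fun j _ => by split_ifs <;> simp
  have h6 := mul_le_mul_of_nonneg_left (mul_le_mul_of_nonneg_left h4
    (show 0 ≤ (4 * A) ^ (1 + ε / 2) by positivity)) (show 0 ≤ P ^ (-ε) by positivity)
  linarith

end Pool.Agent.Lib.MP_a619ca_an
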