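import Pool.Agent.Lib.MP_a619ca_an.Zeta
import Pool.Agent.Lib.MP_a619ca_an.Rank

/-!
The energy of the configuration, and the passage to the limit.
-/

namespace Pool.Agent.Lib.MP_a619ca_an

open Real Finset Filter Topology

/-- the number of points of the hexagonal lattice per unit of squared radius -/
noncomputable def AA : ℝ := 2 * π / √3

theorem AA_pos : 0 < AA := by unfold AA; positivity

/-- the minimal energy -/
noncomputable def EE (N : ℕ) : ℝ :=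
  sInf {e : ℝ | ∃ x : Fin N → E3, Function.Injective x ∧ (∀ i, ‖x i‖ = 1) ∧
    e = ∑ i, ∑ j ∈ Finset.univ.erase i, (‖x i - x j‖ ^ 2)⁻¹}

theorem energy_le {τ ε P F : ℝ} {k₀ N : ℕ} (h0 : 0 < τ) (h1 : τ ≤ 1 / 10) (hε : 0 < ε)
    (hP : 2 ≤ P) (hPτ : P * τ ≤ 1) (hk : 16 * AA ≤ k₀) (hN : k₀ + 1 ≤ N)
    (hNτ : N * τ ^ 8 ≤ (1 - 4 * τ) * (4 * AA))
    (hF : ∀ V : Finset (ℤ × ℤ), 0 ∉ V → ∑ v ∈ V, (Q v : ℝ) ^ (-(1 + ε)) ≤ F) :
    EE N ≤ N * ((τ ^ 8)⁻¹ * ((1 - 3 * τ) ^ (-(1 + ε)) * F +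
      P ^ (-ε) * ((4 * AA) ^ (1 + ε / 2) * ∑' k : ℕ, (k + 1 : ℝ) ^ (-(1 + ε / 2))) +
      (k₀ * ε + G AA ε ((N - 1 : ℕ) : ℝ) - G AA ε k₀))) := by
  classical
  have t4 : 0 < τ ^ 4 := by positivity
  have t8 : 0 < τ ^ 8 := by positivity
  have s3 : (0 : ℝ) < √3 := by positivity
  have hA : √3 / 2 * AA = π := by unfold AA; field_simp
  have hJ : N ≤ (JJ τ).card := by
    have h2 := card_ge h0 h1
    have h3 := mul_le_mul_of_nonneg_left hNτ (show 0 ≤ √3 / 2 by positivity)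
    have h4 : (N : ℝ) * (√3 / 2 * τ ^ 8) ≤ (JJ τ).card * (√3 / 2 * τ ^ 8) := by
      refine le_trans ?_ h2
      rw [← hA]
      linarith
    exact_mod_cast le_of_mul_le_mul_right h4 (by positivity)
  obtain ⟨f, hf'⟩ := Function.Embedding.exists_of_card_le_finset (α := Fin N) (s := JJ τ)
    (by simpa using hJ)
  have hf : ∀ i, f i ∈ JJ τ := fun i => hf' ⟨i, rfl⟩
  have h43 : P * τ ^ 4 ≤ τ ^ 3 := by
    rw [pow_succ' τ 3, ← mul_assoc]
    exact mul_le_of_le_one_left (by positivity) hPτ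
  have hQ : ∀ i j, j ≠ i → (f j).1 = (f i).1 → vv (f j) - vv (f i) ≠ 0 := fun i j h a1 h2 =>
    h (f.injective (vv_inj a1 (sub_eq_zero.1 h2)))
  have hinj : ∀ i j, pt τ (f j) = pt τ (f i) → j = i := by
    intro i j h
    obtain ⟨a1, a2⟩ := near h0 h1 (hf i) (hf j) (by rw [h, sub_self, norm_zero]; positivity)
    by_contra h2
    have h3 : (0 : ℝ) < Q (vv (f j) - vv (f i)) := by exact_mod_cast Q_pos (hQ i j h2 a1)
    rw [h, sub_self, norm_zero, zero_pow two_ne_zero] at a2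
    exact absurd a2 (not_le.2 (mul_pos (by linarith) (by positivity)))
  refine le_trans (csInf_le ⟨0, ?_⟩ ⟨fun i => pt τ (f i), fun i j h => hinj j i h,
    fun i => pt_norm h0 h1 (hf i), rfl⟩) ?_
  · rintro _ ⟨x, -, -, rfl⟩
    positivity
  refine (sum_le_card_nsmul _ _ _ fun i _ => ?_).trans (by rw [card_fin, nsmul_eq_mul])
  have hc : (univ.erase i).card = N - 1 := by simp
  have h2 := pot_le (fun j => ‖pt τ (f j) - pt τ (f i)‖ / τ ^ 4) (univ.erase i) AA_pos hε hP hk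
    (by omega)
    (fun j hj => div_pos (norm_sub_pos_iff.2 fun h => ne_of_mem_erase hj (hinj i j h)) t4)
    fun K _ r hr => ?_
  swap
  · have h3 := count h0 h1 (K := K.map f) (fun j hj => by
      obtain ⟨k, -, rfl⟩ := mem_map.1 hj
      exact hf k) (pt_norm h0 h1 (hf i)) (r := r * τ ^ 4) fun j hj => by
        obtain ⟨k, hk, rfl⟩ := mem_map.1 hj
        exact (div_le_iff₀ t4).1 (hr k hk)
    rw [card_map, ← hA] at h3
    refine le_of_mul_le_mul_right (h3.trans_eq (by ring)) (show 0 < √3 / 2 * τ ^ 8 by positivity)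
  have h3 : ∑ j ∈ univ.erase i with ‖pt τ (f j) - pt τ (f i)‖ / τ ^ 4 ≤ P,
      ((‖pt τ (f j) - pt τ (f i)‖ / τ ^ 4) ^ 2) ^ (-(1 + ε)) ≤ (1 - 3 * τ) ^ (-(1 + ε)) * F := by
    have key : ∀ j ∈ (univ.erase i).filter fun j => ‖pt τ (f j) - pt τ (f i)‖ / τ ^ 4 ≤ P, _ :=
      fun j hj => near h0 h1 (hf i) (hf j) (((div_le_iff₀ t4).1 (mem_filter.1 hj).2).trans h43)
    have h4 := hF (((univ.erase i).filter fun j => ‖pt τ (f j) - pt τ (f i)‖ / τ ^ 4 ≤ P).image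
      fun j => vv (f j) - vv (f i)) fun h => by
        obtain ⟨j, hj, h⟩ := mem_image.1 h
        exact hQ i j (ne_of_mem_erase (mem_filter.1 hj).1) (key j hj).1 h
    rw [sum_image fun j hj k hk h => f.injective (vv_inj ((key j hj).1.trans (key k hk).1.symm)
      (sub_left_injective h))] at h4
    have h5 : 0 < 1 - 3 * τ := by linarith
    refine le_trans ?_ (mul_le_mul_of_nonneg_left h4 (by positivity))
    rw [mul_sum]
    refine sum_le_sum fun j hj => ?_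
    have h6 : (0 : ℝ) < Q (vv (f j) - vv (f i)) := by
      exact_mod_cast Q_pos (hQ i j (ne_of_mem_erase (mem_filter.1 hj).1) (key j hj).1)
    rw [← mul_rpow h5.le h6.le]
    refine rpow_le_rpow_of_nonpos (by positivity) ?_ (by linarith)
    rw [div_pow, le_div_iff₀ (by positivity)]
    exact le_trans (le_of_eq (by ring)) (key j hj).2
  rw [hc] at h2
  calc _ = (τ ^ 8)⁻¹ * ∑ j ∈ univ.erase i, ((‖pt τ (f j) - pt τ (f i)‖ / τ ^ 4) ^ 2)⁻¹ := by
        rw [mul_sum]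
        refine sum_congr rfl fun j _ => ?_
        rw [norm_sub_rev, div_pow, inv_div, ← pow_mul, ← mul_div_assoc, inv_mul_cancel₀ t8.ne',
          one_div]
    _ ≤ _ := mul_le_mul_of_nonneg_left (by linarith) (by positivity)

theorem energy_limit {ε P F X : ℝ} {k₀ : ℕ} (hε : 0 < ε) (hP : 2 ≤ P) (hk : 16 * AA ≤ k₀)
    (hF : ∀ V : Finset (ℤ × ℤ), 0 ∉ V → ∑ v ∈ V, (Q v : ℝ) ^ (-(1 + ε)) ≤ F)
    (hX : F + P ^ (-ε) * ((4 * AA) ^ (1 + ε / 2) * ∑' k : ℕ, (k + 1 : ℝ) ^ (-(1 + ε / 2))) +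
      (k₀ * ε - G AA ε k₀) < X) :
    ∀ᶠ N : ℕ in atTop, EE N ≤ 1 / 4 * (N : ℝ) ^ 2 * log N + X / (4 * AA) * (N : ℝ) ^ 2 := by
  have hA := AA_pos
  obtain ⟨T, hT⟩ : ∃ T, T = P ^ (-ε) * ((4 * AA) ^ (1 + ε / 2) *
    ∑' k : ℕ, (k + 1 : ℝ) ^ (-(1 + ε / 2))) := ⟨_, rfl⟩
  rw [← hT] at hX
  let σ : ℕ → ℝ := fun N => (4 * AA) ^ (1 / 8 : ℝ) * (N : ℝ) ^ (-(1 / 8) : ℝ)
  have hσ : Tendsto σ atTop (𝓝 0) := by
    have := ((tendsto_rpow_neg_atTop (by norm_num : (0 : ℝ) < 1 / 8)).comp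
      tendsto_natCast_atTop_atTop).const_mul ((4 * AA) ^ (1 / 8 : ℝ))
    rwa [mul_zero] at this
  have hσl : Tendsto (fun N : ℕ => σ N * log N) atTop (𝓝 0) := by
    have := (((isLittleO_log_rpow_atTop (by norm_num : (0 : ℝ) < 1 / 8)).tendsto_div_nhds_zero).comp
      tendsto_natCast_atTop_atTop).const_mul ((4 * AA) ^ (1 / 8 : ℝ))
    rw [mul_zero] at this
    refine this.congr fun N => ?_
    simp only [σ, Function.comp, rpow_neg N.cast_nonneg]
    ring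
  have h1 : Tendsto (fun N : ℕ => (1 - 3 * σ N) ^ (-(1 + ε)) * F + T +
      (k₀ * ε + AA ^ (1 + ε) * (N : ℝ) ^ (-ε) / ε - G AA ε k₀) + 4 * AA * (σ N * log N) +
      4 * σ N * X) atTop (𝓝 ((1 - 3 * 0) ^ (-(1 + ε)) * F + T +
      (k₀ * ε + AA ^ (1 + ε) * 0 / ε - G AA ε k₀) + 4 * AA * 0 + 4 * 0 * X)) := by
    have a1 := ((hσ.const_mul 3).const_sub 1).rpow_const (p := -(1 + ε)) (Or.inl (by norm_num))
    have a2 := (tendsto_rpow_neg_atTop hε).comp tendsto_natCast_atTop_atTop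
    exact ((((a1.mul_const F).add_const T).add ((((a2.const_mul _).div_const ε).const_add
      _).sub_const _)).add (hσl.const_mul _)).add ((hσ.const_mul 4).mul_const X)
  filter_upwards [h1.eventually_le_const (u := X) (by simpa using hX),
    hσ.eventually_le_const (show (0 : ℝ) < 1 / 10 by norm_num),
    (hσ.const_mul P).eventually_le_const (show P * 0 < 1 by norm_num),
    eventually_ge_atTop (k₀ + 1)] with N a1 a2 a3 a4
  have hk0 : (0 : ℝ) < k₀ := by linarith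
  have hk1 : 0 < k₀ := by exact_mod_cast hk0
  have hN : (0 : ℝ) < N := by exact_mod_cast (by omega : 0 < N)
  have s0 : 0 < σ N := by positivity
  have s8 : σ N ^ 8 = 4 * AA / N := by
    simp only [σ]
    rw [mul_pow, ← rpow_natCast, ← rpow_natCast, ← rpow_mul (by positivity), ← rpow_mul hN.le]
    norm_num [rpow_neg_one, div_eq_mul_inv]
  have s4 : 0 < 1 - 4 * σ N := by linarith
  obtain ⟨τ, hτ⟩ : ∃ τ, τ = σ N * (1 - 4 * σ N) ^ (1 / 8 : ℝ) := ⟨_, rfl⟩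
  have t0 : 0 < τ := by rw [hτ]; positivity
  have t1 : τ ≤ σ N := hτ ▸ mul_le_of_le_one_right s0.le
    (rpow_le_one s4.le (by linarith) (by norm_num))
  have t8 : τ ^ 8 = 4 * AA / N * (1 - 4 * σ N) := by
    rw [hτ, mul_pow, s8, ← rpow_natCast, ← rpow_mul s4.le]
    norm_num
  have hF0 : 0 ≤ F := by simpa using hF ∅ (by simp)
  have b1 := energy_le t0 (t1.trans a2) hε hP
    ((mul_le_mul_of_nonneg_left t1 (by linarith)).trans a3) hk a4
    (by rw [t8, ← mul_assoc, mul_div_cancel₀ _ hN.ne', mul_comm]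
        exact mul_le_mul_of_nonneg_right (by linarith) (by positivity)) hF
  rw [← hT] at b1
  have b2 : (1 - 3 * τ) ^ (-(1 + ε)) * F ≤ (1 - 3 * σ N) ^ (-(1 + ε)) * F :=
    mul_le_mul_of_nonneg_right
      (rpow_le_rpow_of_nonpos (by linarith) (by linarith) (by linarith)) hF0
  have b3 : G AA ε ((N - 1 : ℕ) : ℝ) ≤ AA * log N + AA ^ (1 + ε) * (N : ℝ) ^ (-ε) / ε := by
    have c1 : (0 : ℝ) < (N - 1 : ℕ) := by exact_mod_cast (by omega : 0 < N - 1)
    have c2 : ((N - 1 : ℕ) : ℝ) + 1 = N := by exact_mod_cast (by omega : N - 1 + 1 = N)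
    have c3 := mul_le_mul_of_nonneg_left (log_le_log c1 (by linarith : _ ≤ (N : ℝ))) hA.le
    have c4 : 0 ≤ 32 * (AA * √AA) / √((N - 1 : ℕ) : ℝ) := by positivity
    rw [G, c2]
    linarith
  refine b1.trans ?_
  have e : 1 / 4 * (N : ℝ) ^ 2 * log N + X / (4 * AA) * (N : ℝ) ^ 2 =
      N * ((τ ^ 8)⁻¹ * ((1 - 4 * σ N) * (AA * log N + X))) := by
    rw [t8]
    field_simp
  rw [e]
  refine mul_le_mul_of_nonneg_left (mul_le_mul_of_nonneg_left ?_ (by positivity)) hN.le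
  linarith

theorem G_lower {A ε x : ℝ} (hA : 0 < A) (hε : 0 < ε) (hx : 0 < x) :
    A / ε + A * log A - A / x - 32 * (A * √A) / √x ≤ G A ε x := by
  have hy : 0 < x + 1 := by linarith
  have a1 : A * (1 + ε * (log A - log (x + 1))) ≤ A ^ (1 + ε) * (x + 1) ^ (-ε) := by
    rw [rpow_add hA, rpow_one, mul_assoc, rpow_def_of_pos hA, rpow_def_of_pos hy, ← exp_add]
    refine mul_le_mul_of_nonneg_left ?_ hA.le
    linarith [add_one_le_exp (log A * ε + log (x + 1) * -ε)]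
  have a2 : log (x + 1) - log x ≤ 1 / x := by
    have := log_le_sub_one_of_pos (div_pos hy hx)
    rw [log_div hy.ne' hx.ne'] at this
    have e : (x + 1) / x - 1 = 1 / x := by field_simp; ring
    linarith
  have a3 := div_le_div_of_nonneg_right a1 hε.le
  have e : A * (1 + ε * (log A - log (x + 1))) / ε = A / ε + A * log A - A * log (x + 1) := by
    field_simp
    ring
  have a4 := mul_le_mul_of_nonneg_left a2 hA.le
  rw [mul_one_div] at a4
  rw [G]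
  linarith

theorem upper {B η : ℝ} (hη : 0 < η)
    (hB : Tendsto (fun x : ℝ => 6 * (riemannZeta (1 + x : ℝ) * LL (1 + x : ℝ)).re - AA / x)
      (𝓝[>] 0) (𝓝 B)) :
    ∀ᶠ N : ℕ in atTop, EE N ≤ 1 / 4 * (N : ℝ) ^ 2 * log N +
      (B - AA * log AA + η) / (4 * AA) * (N : ℝ) ^ 2 := by
  have hA := AA_pos
  have a1 : Tendsto (fun k : ℕ => AA / (k : ℝ) + 32 * (AA * √AA) / √(k : ℝ)) atTop (𝓝 (0 + 0)) :=
    (tendsto_const_nhds.div_atTop tendsto_natCast_atTop_atTop).add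
      (tendsto_const_nhds.div_atTop (tendsto_sqrt_atTop.comp tendsto_natCast_atTop_atTop))
  obtain ⟨k, k1, k2⟩ := ((a1.eventually_lt_const (show 0 + 0 < η / 3 by linarith)).and
    (tendsto_natCast_atTop_atTop.eventually_ge_atTop (16 * AA))).exists
  have a2 : Tendsto (fun x : ℝ => k * x) (𝓝[>] 0) (𝓝 (k * 0)) :=
    (tendsto_id.const_mul _).mono_left nhdsWithin_le_nhds
  obtain ⟨ε, e1, e2⟩ := (((hB.add a2).eventually_lt_const (show _ < B + η / 3 by linarith)).and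
    self_mem_nhdsWithin).exists
  have hε : 0 < ε := e2
  obtain ⟨P, p1, p2⟩ := ((((tendsto_rpow_neg_atTop hε).mul_const ((4 * AA) ^ (1 + ε / 2) *
    ∑' k : ℕ, (k + 1 : ℝ) ^ (-(1 + ε / 2)))).eventually_lt_const
      (show _ < η / 3 by linarith)).and (eventually_ge_atTop 2)).exists
  refine energy_limit hε p2 k2 (lattice_sum_le (by linarith)) ?_
  linarith [G_lower hA hε (show (0 : ℝ) < k by linarith)]

end Pool.Agent.Lib.MP_a619ca_an
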