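import Pool.Agent.Lib.MP_a619ca_an.Leg
import Pool.Agent.Lib.MP_a619ca_an.Cap

/-!
Legendre polynomials are positive definite on the sphere (through the Fischer inner product on
harmonic polynomials).
-/

namespace Pool.Agent.Lib.MP_a619ca_an

open MvPolynomial Finset

abbrev MP := MvPolynomial (Fin 3) ℝ

/-- the factorial of a multi-index -/
noncomputable def mf (α : Fin 3 →₀ ℕ) : ℝ := (α 0).factorial * (α 1).factorial * (α 2).factorial

theorem mf_pos (α : Fin 3 →₀ ℕ) : 0 < mf α := by unfold mf; positivity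

theorem mf_add (α : Fin 3 →₀ ℕ) (i : Fin 3) :
    mf (α + Finsupp.single i 1) = mf α * (α i + 1) := by
  fin_cases i <;> simp [mf, Nat.factorial_succ] <;> ring

/-- the Fischer pairing with `q` -/
noncomputable def BB (q : MP) : MP →ₗ[ℝ] ℝ :=
  (basisMonomials (Fin 3) ℝ).constr ℝ fun α => mf α * coeff α q

theorem BB_monomial (q : MP) (α : Fin 3 →₀ ℕ) (a : ℝ) :
    BB q (monomial α a) = a * (mf α * coeff α q) := by
  have h : (monomial α a : MP) = a • basisMonomials (Fin 3) ℝ α := by
    simp [smul_monomial]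
  rw [h, map_smul, BB, Module.Basis.constr_basis, smul_eq_mul]

theorem BB_eq (q p : MP) {A : Finset (Fin 3 →₀ ℕ)} (h : p.support ⊆ A) :
    BB q p = ∑ α ∈ A, coeff α p * (mf α * coeff α q) := by
  conv_lhs => rw [p.as_sum]
  rw [map_sum]
  simp only [BB_monomial]
  refine sum_subset h fun α _ hα => ?_
  rw [notMem_support_iff.1 hα, zero_mul]

theorem BB_X (q p : MP) (i : Fin 3) : BB q (X i * p) = BB (pderiv i q) p := by
  induction p using MvPolynomial.induction_on' with
  | add p p' hp hp' => rw [mul_add, map_add, map_add, hp, hp']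
  | monomial α a =>
    rw [X, monomial_mul, BB_monomial, BB_monomial, coeff_pderiv, add_comm, mf_add]
    ring

theorem BB_add (q q' p : MP) : BB (q + q') p = BB q p + BB q' p := by
  simp only [BB_eq _ p subset_rfl, coeff_add, mul_add, sum_add_distrib]

theorem BB_C_mul (c : ℝ) (q p : MP) : BB (C c * q) p = c * BB q p := by
  simp only [BB_eq _ p subset_rfl, coeff_C_mul, mul_sum]
  exact sum_congr rfl fun _ _ => by ring

theorem BB_C_mul' (c : ℝ) (q p : MP) : BB q (C c * p) = c * BB q p := by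
  rw [C_mul', map_smul, smul_eq_mul]

theorem BB_zero (p : MP) : BB 0 p = 0 := by simp [BB_eq _ p subset_rfl]

theorem pderiv_comm' (i j : Fin 3) (q : MP) : pderiv i (pderiv j q) = pderiv j (pderiv i q) := by
  rcases eq_or_ne i j with rfl | h
  · rfl
  ext m
  simp only [coeff_pderiv, Finsupp.add_apply, Finsupp.single_eq_of_ne h,
    Finsupp.single_eq_of_ne h.symm, add_zero, add_right_comm m]
  ring

/-- the linear form -/
noncomputable def LL3 (y : E3) : MP := C (y 0) * X 0 + C (y 1) * X 1 + C (y 2) * X 2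
/-- the squared radius -/
noncomputable def RR : MP := X 0 * X 0 + X 1 * X 1 + X 2 * X 2
/-- the directional derivative -/
noncomputable def dy (y : E3) (q : MP) : MP :=
  C (y 0) * pderiv 0 q + C (y 1) * pderiv 1 q + C (y 2) * pderiv 2 q
/-- the Laplacian -/
noncomputable def lap (q : MP) : MP :=
  pderiv 0 (pderiv 0 q) + pderiv 1 (pderiv 1 q) + pderiv 2 (pderiv 2 q)

theorem BB_L (y : E3) (q p : MP) : BB q (LL3 y * p) = BB (dy y q) p := by
  simp only [LL3, dy, add_mul, mul_assoc, map_add, BB_C_mul', BB_X, BB_add, BB_C_mul]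

theorem BB_R (q p : MP) : BB q (RR * p) = BB (lap q) p := by
  simp only [RR, lap, add_mul, mul_assoc, map_add, BB_X, BB_add]

theorem euler {q : MP} {n : ℕ} (h : q.IsHomogeneous n) :
    X 0 * pderiv 0 q + X 1 * pderiv 1 q + X 2 * pderiv 2 q = (n : MP) * q := by
  have := h.sum_X_mul_pderiv
  rwa [Fin.sum_univ_three, nsmul_eq_mul] at this

theorem eval_dy (y : E3) {q : MP} {n : ℕ} (h : q.IsHomogeneous n) :
    eval (fun i => y i) (dy y q) = n * eval (fun i => y i) q := by
  have := congrArg (eval fun i => y i) (euler h)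
  simpa [dy] using this

theorem dy_hom (y : E3) {q : MP} {n : ℕ} (h : q.IsHomogeneous (n + 1)) :
    (dy y q).IsHomogeneous n :=
  (((h.pderiv (i := 0)).C_mul _).add ((h.pderiv (i := 1)).C_mul _)).add ((h.pderiv (i := 2)).C_mul _)

theorem lap_dy (y : E3) (q : MP) : lap (dy y q) = dy y (lap q) := by
  simp only [lap, dy, map_add, pderiv_C_mul, pderiv_comm' 1 0, pderiv_comm' 2 0, pderiv_comm' 2 1]
  ring

/-- zonal harmonic polynomials, up to a factorial -/
noncomputable def gg (y : E3) : ℕ → MP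
  | 0 => 1
  | 1 => LL3 y
  | j + 2 => C (2 * (j : ℝ) + 3) * (LL3 y * gg y (j + 1)) - C (((j : ℝ) + 1) ^ 2) * (RR * gg y j)

theorem LL3_hom (y : E3) : (LL3 y).IsHomogeneous 1 :=
  ((isHomogeneous_C_mul_X _ _).add (isHomogeneous_C_mul_X _ _)).add (isHomogeneous_C_mul_X _ _)

theorem RR_hom : RR.IsHomogeneous 2 :=
  (((isHomogeneous_X ℝ 0).mul (isHomogeneous_X ℝ 0)).add
    ((isHomogeneous_X ℝ 1).mul (isHomogeneous_X ℝ 1))).add
    ((isHomogeneous_X ℝ 2).mul (isHomogeneous_X ℝ 2))

theorem gg_hom (y : E3) (j : ℕ) : (gg y j).IsHomogeneous j := by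
  induction j using Nat.twoStepInduction with
  | zero => exact isHomogeneous_one _ _
  | one => exact LL3_hom y
  | more j h1 h2 =>
    refine IsHomogeneous.sub (IsHomogeneous.C_mul ?_ _) (IsHomogeneous.C_mul ?_ _)
    · simpa only [show 1 + (j + 1) = j + 2 by ring] using (LL3_hom y).mul h2
    · simpa only [add_comm] using RR_hom.mul h1

theorem pd_X (i j : Fin 3) : pderiv i (X j : MP) = if j = i then 1 else 0 := by
  rw [pderiv_X, Pi.single_apply]

theorem dy_L {y : E3} (hy : ‖y‖ = 1) (q : MP) : dy y (LL3 y * q) = q + LL3 y * dy y q := by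
  have h := norm_sq_three y
  rw [hy, one_pow] at h
  have h2 : (1 : MP) = C (y 0) ^ 2 + C (y 1) ^ 2 + C (y 2) ^ 2 := by
    rw [← C_pow, ← C_pow, ← C_pow, ← C_add, ← C_add, ← h, C_1]
  simp only [dy, LL3, pderiv_mul, map_add, pderiv_C, pd_X]
  simp
  linear_combination -q * h2

theorem dy_R (y : E3) (q : MP) : dy y (RR * q) = 2 * LL3 y * q + RR * dy y q := by
  simp only [dy, LL3, RR, pderiv_mul, map_add, pd_X]
  simp
  ring

theorem lap_L (y : E3) (q : MP) : lap (LL3 y * q) = 2 * dy y q + LL3 y * lap q := by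
  simp only [dy, LL3, lap, pderiv_mul, map_add, pderiv_C, pd_X]
  simp
  ring

theorem lap_R {q : MP} {n : ℕ} (h : q.IsHomogeneous n) :
    lap (RR * q) = (6 + 4 * (n : MP)) * q + RR * lap q := by
  simp only [RR, lap, pderiv_mul, map_add, pd_X]
  simp
  linear_combination 4 * euler h

theorem dy_lin (y : E3) (a b : ℝ) (p q : MP) :
    dy y (C a * p - C b * q) = C a * dy y p - C b * dy y q := by
  simp only [dy, map_sub, pderiv_C_mul]
  ring

theorem lap_lin (a b : ℝ) (p q : MP) : lap (C a * p - C b * q) = C a * lap p - C b * lap q := by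
  simp only [lap, map_sub, pderiv_C_mul]
  ring

theorem dy_one (y : E3) : dy y 1 = 0 := by simp [dy]

theorem dy_gg {y : E3} (hy : ‖y‖ = 1) (j : ℕ) :
    dy y (gg y (j + 1)) = ((j : MP) + 1) ^ 2 * gg y j := by
  induction j using Nat.twoStepInduction with
  | zero =>
    have := dy_L hy 1
    simpa [gg, dy_one] using this
  | one =>
    have h := dy_L hy 1
    rw [mul_one, dy_one, mul_zero, add_zero] at h
    rw [show 1 + 1 = 0 + 2 from rfl, gg.eq_3, dy_lin, dy_L hy, dy_R]
    simp only [gg, dy_one, h, map_add, map_mul, map_pow, map_natCast, map_ofNat, map_one]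
    push_cast
    ring
  | more j h1 h2 =>
    rw [gg, dy_lin, dy_L hy, dy_R, h1, h2, gg]
    simp only [map_add, map_mul, map_pow, map_natCast, map_ofNat, map_one]
    push_cast
    ring

theorem lap_gg {y : E3} (hy : ‖y‖ = 1) (j : ℕ) : lap (gg y j) = 0 := by
  induction j using Nat.twoStepInduction with
  | zero => simp [gg, lap]
  | one =>
    have := lap_L y 1
    simpa [gg, dy_one, lap] using this
  | more j h1 h2 =>
    rw [gg, lap_lin, lap_L, lap_R (gg_hom y j), h1, h2, dy_gg hy]
    simp only [map_add, map_mul, map_pow, map_natCast, map_ofNat, map_one]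
    ring

/-- the normalising constants -/
noncomputable def ee : ℕ → ℝ
  | 0 => 1
  | j + 1 => (2 * (j : ℝ) + 1) * ((j : ℝ) + 1) * ee j

theorem ee_pos (j : ℕ) : 0 < ee j := by
  induction j with
  | zero => exact one_pos
  | succ j ih => unfold ee; positivity

theorem BB_gg (y : E3) (j : ℕ) : ∀ q : MP, q.IsHomogeneous j → lap q = 0 →
    BB q (gg y j) = ee j * eval (fun i => y i) q := by
  induction j with
  | zero =>
    intro q h _
    rw [← totalDegree_zero_iff_isHomogeneous, totalDegree_eq_zero_iff_eq_C] at h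
    rw [gg, ← C_1, ← monomial_zero', BB_monomial, ee]
    conv_rhs => rw [h]
    simp [mf]
  | succ j ih =>
    intro q h hq
    have h2 := ih (dy y q) (dy_hom y h) (by rw [lap_dy, hq]; simp [dy])
    rw [eval_dy y h, ← BB_L] at h2
    rcases j with _ | j
    · simpa [gg, ee] using h2
    · rw [gg, map_sub, BB_C_mul', BB_C_mul', h2, BB_R, hq, BB_zero, ee.eq_2 (j + 1)]
      push_cast
      ring

theorem inner_three (x y : E3) : inner ℝ x y = y 0 * x 0 + y 1 * x 1 + y 2 * x 2 := by
  simp [PiLp.inner_apply, Fin.sum_univ_three]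

theorem eval_gg {x : E3} (hx : ‖x‖ = 1) (y : E3) (j : ℕ) :
    eval (fun i => x i) (gg y j) = j.factorial * (PP j).eval (inner ℝ x y) := by
  have h := norm_sq_three x
  rw [hx, one_pow] at h
  have hL : eval (fun i => x i) (LL3 y) = inner ℝ x y := by simp [LL3, inner_three]
  have hR : eval (fun i => x i) RR = 1 := by simp [RR]; linarith
  induction j using Nat.twoStepInduction with
  | zero => simp [gg, PP_zero]
  | one => simp [gg, PP_one, hL]
  | more j h1 h2 =>
    simp only [gg, map_sub, map_mul, eval_C, hL, hR, h1, h2, Nat.factorial_succ]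
    push_cast
    linear_combination -((j : ℝ) + 1) * j.factorial * eval_rec j (inner ℝ x y)

/-- continuous dependence of the coefficients -/
def Cts (f : E3 → MP) : Prop := ∀ α, Continuous fun y => coeff α (f y)

theorem Cts.X_mul {f : E3 → MP} (h : Cts f) (i : Fin 3) : Cts fun y => X i * f y := fun α => by
  simp only [coeff_X_mul']
  split_ifs
  exacts [h _, continuous_const]

theorem Cts.C_mul {f : E3 → MP} (h : Cts f) {c : E3 → ℝ} (hc : Continuous c) :
    Cts fun y => C (c y) * f y := fun α => by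
  simp only [coeff_C_mul]
  exact hc.mul (h α)

theorem Cts.add {f g : E3 → MP} (h : Cts f) (h' : Cts g) : Cts fun y => f y + g y := fun α => by
  simp only [coeff_add]
  exact (h α).add (h' α)

theorem Cts.sub {f g : E3 → MP} (h : Cts f) (h' : Cts g) : Cts fun y => f y - g y := fun α => by
  simp only [coeff_sub]
  exact (h α).sub (h' α)

theorem Cts.L_mul {f : E3 → MP} (h : Cts f) : Cts fun y => LL3 y * f y := by
  simp only [LL3, add_mul, mul_assoc]
  exact (((h.X_mul 0).C_mul (by fun_prop)).add ((h.X_mul 1).C_mul (by fun_prop))).add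
    ((h.X_mul 2).C_mul (by fun_prop))

theorem Cts.R_mul {f : E3 → MP} (h : Cts f) : Cts fun y => RR * f y := by
  simp only [RR, add_mul, mul_assoc]
  exact (((h.X_mul 0).X_mul 0).add ((h.X_mul 1).X_mul 1)).add ((h.X_mul 2).X_mul 2)

theorem cts_gg (j : ℕ) : Cts fun y => gg y j := by
  induction j using Nat.twoStepInduction with
  | zero => exact fun α => continuous_const
  | one =>
    have h : Cts fun _ => 1 := fun α => continuous_const
    simpa only [mul_one, gg] using h.L_mul
  | more j h1 h2 =>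
    exact (h2.L_mul.C_mul continuous_const).sub (h1.R_mul.C_mul continuous_const)

/-- the unit sphere -/
abbrev S2 := Metric.sphere (0 : E3) 1

theorem S2.norm_eq (x : S2) : ‖(x : E3)‖ = 1 := by simp

/-- the cosine of the angle -/
noncomputable def ip (x y : S2) : ℝ := inner ℝ (x : E3) (y : E3)

/-- zonal kernels with a finite continuous Gram representation -/
def Gram (q : Polynomial ℝ) : Prop :=
  ∃ (ι : Type) (A : Finset ι) (f : ι → S2 → ℝ), (∀ a, Continuous (f a)) ∧
    ∀ x y : S2, q.eval (ip x y) = ∑ a ∈ A, f a x * f a y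

theorem gram_PP (j : ℕ) : Gram (PP j) := by
  have hc : 0 < ee j * j.factorial := mul_pos (ee_pos j) (by positivity)
  refine ⟨Fin 3 →₀ ℕ, Finset.finsuppAntidiag univ j,
    fun α x => √(mf α / (ee j * j.factorial)) * coeff α (gg x j),
    fun α => continuous_const.mul ((cts_gg j α).comp continuous_subtype_val), fun x y => ?_⟩
  have h := BB_gg (x : E3) j (gg y j) (gg_hom _ j) (lap_gg (S2.norm_eq y) j)
  rw [eval_gg (S2.norm_eq x), BB_eq (A := Finset.finsuppAntidiag univ j)] at h
  · apply mul_left_cancel₀ hc.ne'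
    rw [mul_assoc, ip, ← h, mul_sum]
    refine sum_congr rfl fun α _ => ?_
    have h2 := Real.mul_self_sqrt (div_pos (mf_pos α) hc).le
    have h3 : ee j * j.factorial * (mf α / (ee j * j.factorial)) = mf α := mul_div_cancel₀ _ hc.ne'
    linear_combination (-(coeff α (gg x j) * coeff α (gg y j))) * h3 -
      (ee j * j.factorial * coeff α (gg x j) * coeff α (gg y j)) * h2
  · intro α hα
    rw [mem_finsuppAntidiag]
    refine ⟨?_, subset_univ _⟩
    by_contra h2
    refine mem_support_iff.1 hα ((gg_hom (x : E3) j).coeff_eq_zero ?_)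
    rwa [Finsupp.degree_eq_sum]

theorem Gram.add {p q : Polynomial ℝ} (hp : Gram p) (hq : Gram q) : Gram (p + q) := by
  obtain ⟨ι, A, f, hf, h⟩ := hp
  obtain ⟨κ, B, g, hg, h'⟩ := hq
  refine ⟨ι ⊕ κ, A.disjSum B, Sum.elim f g, by rintro (a | a) <;> simp [*], fun x y => ?_⟩
  simp [sum_disjSum, h, h']

theorem Gram.mul {p q : Polynomial ℝ} (hp : Gram p) (hq : Gram q) : Gram (p * q) := by
  obtain ⟨ι, A, f, hf, h⟩ := hp
  obtain ⟨κ, B, g, hg, h'⟩ := hq
  refine ⟨ι × κ, A ×ˢ B, fun a x => f a.1 x * g a.2 x, fun a => (hf _).mul (hg _), fun x y => ?_⟩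
  rw [Polynomial.eval_mul, h, h', sum_mul_sum, sum_product]
  exact sum_congr rfl fun a _ => sum_congr rfl fun b _ => by ring

theorem Gram.C_mul {q : Polynomial ℝ} (hq : Gram q) {c : ℝ} (hc : 0 ≤ c) :
    Gram (Polynomial.C c * q) := by
  refine Gram.mul ⟨Unit, univ, fun _ _ => √c, fun _ => continuous_const, fun x y => ?_⟩ hq
  simp [Real.mul_self_sqrt hc]

theorem Gram.sum {ι : Type*} (s : Finset ι) {q : ι → Polynomial ℝ} (h : ∀ i ∈ s, Gram (q i)) :
    Gram (∑ i ∈ s, q i) :=
  sum_induction _ _ (fun _ _ => Gram.add)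
    ⟨Unit, ∅, fun _ _ => 0, fun _ => continuous_const, fun x y => by simp⟩ h

theorem gram_DD (m : ℕ) : Gram (DD m) :=
  Gram.sum _ fun j _ => (gram_PP j).C_mul (by positivity)

theorem gram_QQ (k : ℕ) : Gram (QQ k) :=
  Gram.sum _ fun m _ => (gram_DD m).C_mul (by positivity)

theorem ip_self (x : S2) : ip x x = 1 := by
  rw [ip, real_inner_self_eq_norm_sq, S2.norm_eq, one_pow]

theorem Gram.le_one {q : Polynomial ℝ} (hq : Gram q) (x y : S2) : q.eval (ip x y) ≤ q.eval 1 := by
  obtain ⟨ι, A, f, -, h⟩ := hq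
  have h1 := h x x
  have h2 := h y y
  rw [ip_self] at h1 h2
  have h3 : ∑ a ∈ A, 2 * (f a x * f a y) ≤ ∑ a ∈ A, (f a x * f a x + f a y * f a y) :=
    sum_le_sum fun a _ => by nlinarith [sq_nonneg (f a x - f a y)]
  rw [← mul_sum, sum_add_distrib, ← h1, ← h2, ← h] at h3
  linarith

end Pool.Agent.Lib.MP_a619ca_an
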