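import Pool.Agent.Lib.MP_a619ca_an.Lower

/-!
Bounded measurable functions, the Haar measure of the orthogonal group, averaging lemmas.
-/

namespace Pool.Agent.Lib.MP_a619ca_an

open MeasureTheory Set Real

/-- bounded and measurable -/
def BM {X : Type*} [MeasurableSpace X] (f : X → ℝ) : Prop := Measurable f ∧ ∃ C, ∀ x, |f x| ≤ C

namespace BM

variable {X Y : Type*} [MeasurableSpace X] [MeasurableSpace Y] {f g : X → ℝ}

theorem int (h : BM f) (μ : Measure X) [IsFiniteMeasure μ] : Integrable f μ :=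
  have ⟨C, hC⟩ := h.2
  Integrable.of_bound h.1.aestronglyMeasurable C (ae_of_all _ hC)

theorem const (c : ℝ) : BM fun _ : X => c := ⟨measurable_const, |c|, fun _ => le_rfl⟩

theorem mul (hf : BM f) (hg : BM g) : BM fun x => f x * g x := by
  obtain ⟨C, hC⟩ := hf.2
  obtain ⟨D, hD⟩ := hg.2
  refine ⟨hf.1.mul hg.1, C * D, fun x => ?_⟩
  rw [abs_mul]
  exact mul_le_mul (hC x) (hD x) (abs_nonneg _) ((abs_nonneg _).trans (hC x))

theorem add (hf : BM f) (hg : BM g) : BM fun x => f x + g x := by
  obtain ⟨C, hC⟩ := hf.2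
  obtain ⟨D, hD⟩ := hg.2
  exact ⟨hf.1.add hg.1, C + D, fun x => (abs_add_le _ _).trans (add_le_add (hC x) (hD x))⟩

theorem sub (hf : BM f) (hg : BM g) : BM fun x => f x - g x := by
  simpa only [neg_one_mul, sub_eq_add_neg] using hf.add ((const (-1)).mul hg)

theorem abs (hf : BM f) : BM fun x => |f x| :=
  ⟨hf.1.abs, by simpa only [abs_abs] using hf.2⟩

theorem pow (hf : BM f) (n : ℕ) : BM fun x => f x ^ n := by
  induction n with
  | zero => simpa using const 1
  | succ n ih => simpa only [pow_succ] using ih.mul hf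

theorem comp (hf : BM f) {u : Y → X} (hu : Measurable u) : BM fun y => f (u y) :=
  ⟨hf.1.comp hu, hf.2.imp fun _ h _ => h _⟩

theorem sum {ι : Type*} (s : Finset ι) {f : ι → X → ℝ} (h : ∀ i ∈ s, BM (f i)) :
    BM fun x => ∑ i ∈ s, f i x := by
  classical
  induction s using Finset.induction_on with
  | empty => simpa using const 0
  | insert a s ha ih =>
    simp only [Finset.sum_insert ha]
    exact (h a (Finset.mem_insert_self _ _)).add (ih fun i hi => h i (Finset.mem_insert_of_mem hi))

theorem integral {F : X × Y → ℝ} (h : BM F) (ν : Measure Y) [IsProbabilityMeasure ν] :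
    BM fun x => ∫ y, F (x, y) ∂ν := by
  obtain ⟨C, hC⟩ := h.2
  refine ⟨h.1.stronglyMeasurable.integral_prod_right'.measurable, C, fun x => ?_⟩
  simpa using norm_integral_le_of_norm_le_const (μ := ν) (f := fun y => F (x, y))
    (ae_of_all _ fun y => hC (x, y))

theorem of_continuous {X : Type*} [TopologicalSpace X] [CompactSpace X] [MeasurableSpace X]
    [OpensMeasurableSpace X] {f : X → ℝ} (hf : Continuous f) : BM f :=
  ⟨hf.measurable, ‖BoundedContinuousFunction.mkOfCompact ⟨f, hf⟩‖,
    (BoundedContinuousFunction.mkOfCompact ⟨f, hf⟩).norm_coe_le_norm⟩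

end BM

/-- indicator function -/
noncomputable def ch {X : Type*} (S : Set X) (x : X) : ℝ := S.indicator 1 x

theorem ch_of_mem {X : Type*} {S : Set X} {x : X} (h : x ∈ S) : ch S x = 1 := indicator_of_mem h _

theorem ch_of_not {X : Type*} {S : Set X} {x : X} (h : x ∉ S) : ch S x = 0 := indicator_of_notMem h _

theorem ch_nonneg {X : Type*} (S : Set X) (x : X) : 0 ≤ ch S x := by
  by_cases h : x ∈ S <;> simp [ch_of_mem, ch_of_not, h]

theorem ch_le {X : Type*} (S : Set X) (x : X) : ch S x ≤ 1 := by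
  by_cases h : x ∈ S <;> simp [ch_of_mem, ch_of_not, h]

theorem ch_compl {X : Type*} (S : Set X) (x : X) : ch Sᶜ x = 1 - ch S x := by
  by_cases h : x ∈ S <;> simp [ch_of_mem, ch_of_not, h]

theorem bm_ch {X : Type*} [MeasurableSpace X] {S : Set X} (h : MeasurableSet S) : BM (ch S) :=
  ⟨measurable_one.indicator h, 1, fun x => abs_le.2 ⟨by linarith [ch_nonneg S x], ch_le S x⟩⟩

theorem integral_ch {X : Type*} [MeasurableSpace X] {S : Set X} (h : MeasurableSet S)
    (μ : Measure X) (F : X → ℝ) : ∫ x, ch S x * F x ∂μ = ∫ x in S, F x ∂μ := by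
  rw [← integral_indicator h]
  congr 1
  ext x
  by_cases hx : x ∈ S <;> simp [ch_of_mem, ch_of_not, hx]

instance : ContinuousStar (E3 →L[ℝ] E3) :=
  ⟨(ContinuousLinearMap.adjoint (𝕜 := ℝ) (E := E3) (F := E3)).continuous⟩

/-- the orthogonal group -/
noncomputable abbrev GG := unitary (E3 →L[ℝ] E3)

instance : CompactSpace GG :=
  isCompact_iff_compactSpace.1 (Metric.isCompact_of_isClosed_isBounded isClosed_unitary
    (isBounded_iff_forall_norm_le.2 ⟨1, fun _ hu => (CStarRing.norm_of_mem_unitary hu).le⟩))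

noncomputable instance : MeasurableSpace GG := borel _

instance : BorelSpace GG := ⟨rfl⟩

/-- the Haar probability measure -/
noncomputable def mm : Measure GG := Measure.haarMeasure ⊤

instance : mm.IsHaarMeasure := by unfold mm; infer_instance

instance : IsProbabilityMeasure mm := ⟨by unfold mm; exact Measure.haarMeasure_self⟩

instance : mm.IsMulRightInvariant := by
  refine ⟨fun g => ?_⟩
  have : IsProbabilityMeasure (Measure.map (· * g) mm) :=
    Measure.isProbabilityMeasure_map (measurable_mul_const g).aemeasurable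
  have : (Measure.map (· * g) mm).IsHaarMeasure := Measure.isHaarMeasure_map_mul_right _ g
  exact Measure.isHaarMeasure_eq_of_isProbabilityMeasure _ _

/-- the action on the sphere -/
noncomputable def act (g : GG) (x : S2) : S2 := rot (Unitary.linearIsometryEquiv g) x

theorem act_coe (g : GG) (x : S2) : (act g x : E3) = (g : E3 →L[ℝ] E3) x := rfl

theorem continuous_act : Continuous fun p : GG × S2 => act p.1 p.2 := by
  refine Continuous.subtype_mk (f := fun p : GG × S2 => (p.1 : E3 →L[ℝ] E3) p.2) ?_ _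
  fun_prop

theorem measurable_act {X : Type*} [MeasurableSpace X] {u : X → GG} {v : X → S2}
    (hu : Measurable u) (hv : Measurable v) : Measurable fun x => act (u x) (v x) :=
  continuous_act.measurable.comp (hu.prodMk hv)

theorem ip_act (g : GG) (x y : S2) : ip (act g x) (act g y) = ip x y := ip_rot _ _ _

theorem dist_act (g : GG) (x y : S2) : dist (act g x) (act g y) = dist x y := by
  rw [← sq_eq_sq₀ dist_nonneg dist_nonneg, dist_sq_eq, dist_sq_eq, ip_act]

theorem act_mul_symm (g : GG) (R : E3 ≃ₗᵢ[ℝ] E3) (x : S2) :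
    act (g * Unitary.linearIsometryEquiv.symm R) x = act g (rot R x) := rfl

theorem avg_congr (F : S2 → S2 → ℝ) {x y x' y' : S2} (h : ip x y = ip x' y') :
    ∫ g, F (act g x) (act g y) ∂mm = ∫ g, F (act g x') (act g y') ∂mm := by
  obtain ⟨R, rfl, rfl⟩ := exists_rot₂ h
  simp only [← act_mul_symm]
  exact (integral_mul_right_eq_self (fun g => F (act g x) (act g y)) _).symm

theorem act_preserving (x : S2) : MeasurePreserving (fun g => act g x) mm sg := by
  have hm : ∀ x, Measurable fun g => act g x := fun x =>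
    measurable_act measurable_id measurable_const
  refine ⟨hm x, Measure.ext fun B hB => ?_⟩
  have h1 := Measure.prod_apply (μ := mm) (ν := sg) (continuous_act.measurable hB)
  have h2 := Measure.prod_apply_symm (μ := mm) (ν := sg) (continuous_act.measurable hB)
  have h3 : ∀ g : GG, sg (Prod.mk g ⁻¹' ((fun p : GG × S2 => act p.1 p.2) ⁻¹' B)) = sg B := fun g =>
    (rot_preserving (Unitary.linearIsometryEquiv g)).measure_preimage hB.nullMeasurableSet
  have h4 : ∀ y : S2, mm ((fun g => (g, y)) ⁻¹' ((fun p : GG × S2 => act p.1 p.2) ⁻¹' B)) =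
      mm ((fun g => act g x) ⁻¹' B) := fun y => by
    obtain ⟨R, rfl⟩ := exists_rot x y
    exact measure_preimage_mul_right mm (Unitary.linearIsometryEquiv.symm R)
      ((fun g => act g x) ⁻¹' B)
  simp only [h3, h4, lintegral_const, measure_univ, mul_one] at h1 h2
  rw [Measure.map_apply (hm x) hB, ← h2, h1]

theorem avg_one (x : S2) {F : S2 → ℝ} (hF : Measurable F) :
    ∫ g, F (act g x) ∂mm = ∫ y, F y ∂sg := by
  rw [← (act_preserving x).map_eq,
    integral_map (act_preserving x).measurable.aemeasurable hF.aestronglyMeasurable]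

theorem bm_avg {Φ : S2 × S2 → ℝ} (hΦ : BM Φ) :
    BM fun p : S2 × S2 => ∫ g, Φ (act g p.1, act g p.2) ∂mm :=
  (hΦ.comp (u := fun q : (S2 × S2) × GG => (act q.2 q.1.1, act q.2 q.1.2))
    ((measurable_act measurable_snd measurable_fst.fst).prodMk
      (measurable_act measurable_snd measurable_fst.snd))).integral mm

/-- averaging a function of two points against an invariant kernel -/
theorem avg_two {Φ F : S2 × S2 → ℝ} (hΦ : BM Φ) (hF : BM F)
    (h : ∀ g x y, F (act g x, act g y) = F (x, y)) :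
    ∫ p, Φ p * F p ∂sg.prod sg =
      ∫ p, (∫ g, Φ (act g p.1, act g p.2) ∂mm) * F p ∂sg.prod sg := by
  have h1 : ∀ g : GG, ∫ p, Φ p * F p ∂sg.prod sg =
      ∫ p, Φ (act g p.1, act g p.2) * F p ∂sg.prod sg := fun g => by
    have h2 := (rot_preserving (Unitary.linearIsometryEquiv g)).prod
      (rot_preserving (Unitary.linearIsometryEquiv g))
    rw [← h2.map_eq, integral_map h2.measurable.aemeasurable (hΦ.mul hF).1.aestronglyMeasurable,
      h2.map_eq]
    exact integral_congr_ae (ae_of_all _ fun p => congrArg (Φ _ * ·) (h g p.1 p.2))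
  have h2 : ∫ _, ∫ p, Φ p * F p ∂sg.prod sg ∂mm =
      ∫ g, ∫ p, Φ (act g p.1, act g p.2) * F p ∂sg.prod sg ∂mm := by simp only [← h1]
  rw [integral_const, probReal_univ, one_smul, integral_integral_swap] at h2
  · simpa only [integral_mul_const] using h2
  · exact ((hΦ.comp (u := fun q : GG × (S2 × S2) => (act q.1 q.2.1, act q.1 q.2.2))
      ((measurable_act measurable_fst measurable_snd.fst).prodMk
        (measurable_act measurable_fst measurable_snd.snd))).mul (hF.comp measurable_snd)).int _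

/-- the probability that `x` falls in `A` and `y` in `B` -/
noncomputable def cov (A B : Set S2) (x y : S2) : ℝ := ∫ g, ch A (act g x) * ch B (act g y) ∂mm

theorem bm_chch {A B : Set S2} (hA : MeasurableSet A) (hB : MeasurableSet B) :
    BM fun p : S2 × S2 => ch A p.1 * ch B p.2 :=
  ((bm_ch hA).comp measurable_fst).mul ((bm_ch hB).comp measurable_snd)

theorem bm_dist : BM fun p : S2 × S2 => dist p.1 p.2 := .of_continuous continuous_dist

theorem integral_pair {F : S2 × S2 → ℝ} (hF : BM F) {c : ℝ} (h : ∀ x, ∫ y, F (x, y) ∂sg = c) :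
    ∫ p, F p ∂sg.prod sg = c := by
  rw [integral_prod _ (hF.int _)]
  simp [h]

/-- the boundary estimate -/
theorem edge {Φ F : S2 × S2 → ℝ} (hΦ : BM Φ) (hF : BM F)
    (h : ∀ g x y, F (act g x, act g y) = F (x, y)) (h0 : ∀ p, 0 ≤ F p) {L : ℝ}
    (hL : ∀ x y, ∫ g, Φ (act g x, act g y) ∂mm ≤ L * dist x y) :
    ∫ p, Φ p * F p ∂sg.prod sg ≤ L * ∫ p, dist p.1 p.2 * F p ∂sg.prod sg := by
  rw [avg_two hΦ hF h, ← integral_const_mul]
  refine integral_mono (((bm_avg hΦ).mul hF).int _) (((BM.const L).mul (bm_dist.mul hF)).int _)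
    fun p => ?_
  simp only [← mul_assoc]
  exact mul_le_mul_of_nonneg_right (hL _ _) (h0 p)

/-- the truncated kernel -/
noncomputable def gk (δ u : ℝ) : ℝ := (max u δ)⁻¹

theorem continuous_gk {δ : ℝ} (hδ : 0 < δ) : Continuous (gk δ) :=
  (continuous_id.max continuous_const).inv₀ fun _ => (hδ.trans_le (le_max_right _ _)).ne'

theorem gk_pos {δ : ℝ} (hδ : 0 < δ) (u : ℝ) : 0 < gk δ u :=
  inv_pos.2 (hδ.trans_le (le_max_right _ _))

theorem bm_gk {δ : ℝ} (hδ : 0 < δ) : BM fun p : S2 × S2 => gk δ (dist p.1 p.2 ^ 2) :=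
  .of_continuous ((continuous_gk hδ).comp (continuous_dist.pow 2))

/-- its mean value -/
noncomputable def GG0 (δ : ℝ) : ℝ := (1 + log (4 / δ)) / 4

theorem integral_gk {δ : ℝ} (hδ : 0 < δ) (h4 : δ ≤ 4) (x : S2) :
    ∫ y, gk δ (dist x y ^ 2) ∂sg = GG0 δ := by
  have hc := continuous_gk hδ
  rw [integral_dist x hc.measurable, ← intervalIntegral.integral_add_adjacent_intervals (b := δ)
    (hc.intervalIntegrable _ _) (hc.intervalIntegrable _ _),
    intervalIntegral.integral_congr (g := fun _ => δ⁻¹) fun u hu => by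
      rw [uIcc_of_le hδ.le] at hu
      simp only [gk, max_eq_right hu.2],
    intervalIntegral.integral_congr (a := δ) (g := fun u => u⁻¹) fun u hu => by
      rw [uIcc_of_le h4] at hu
      simp only [gk, max_eq_left hu.1],
    integral_inv_of_pos hδ (by norm_num), intervalIntegral.integral_const, GG0, sub_zero,
    smul_eq_mul, mul_inv_cancel₀ hδ.ne']
  ring

theorem integral_gk_sub {η δ : ℝ} (hη : 0 < η) (hδ : η ≤ δ) (h4 : δ ≤ 4) (x : S2) :
    ∫ y, dist x y * (gk η (dist x y ^ 2) - gk δ (dist x y ^ 2)) ∂sg ≤ √δ / 2 := by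
  have hδ0 := hη.trans_le hδ
  have hc : Continuous fun u => √u * (gk η u - gk δ u) :=
    continuous_sqrt.mul ((continuous_gk hη).sub (continuous_gk hδ0))
  have h := integral_dist x hc.measurable
  simp only [sqrt_sq dist_nonneg] at h
  have h1 : ∫ u in (0 : ℝ)..δ, √u * (gk η u - gk δ u) ≤ ∫ u in (0 : ℝ)..δ, u ^ (-(1 / 2) : ℝ) := by
    refine intervalIntegral.integral_mono_on hδ0.le (hc.intervalIntegrable _ _)
      (intervalIntegral.intervalIntegrable_rpow' (by norm_num)) fun u hu => ?_
    rcases hu.1.eq_or_lt with rfl | h0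
    · simp
    · have a1 : gk η u ≤ u⁻¹ := inv_anti₀ h0 (le_max_left _ _)
      have a2 := gk_pos hδ0 u
      have a3 := sqrt_pos.2 h0
      rw [rpow_neg h0.le, ← sqrt_eq_rpow]
      calc √u * (gk η u - gk δ u) ≤ √u * u⁻¹ := by gcongr; linarith
        _ = (√u)⁻¹ := by
          nth_rw 2 [← mul_self_sqrt h0.le]
          field_simp
  rw [integral_rpow (Or.inl (by norm_num)), zero_rpow (by norm_num),
    show (-(1 / 2) + 1 : ℝ) = 1 / 2 by norm_num, ← sqrt_eq_rpow] at h1
  rw [h, ← intervalIntegral.integral_add_adjacent_intervals (b := δ)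
    (hc.intervalIntegrable _ _) (hc.intervalIntegrable _ _),
    intervalIntegral.integral_congr (a := δ) (g := fun _ => 0) fun u hu => by
      rw [uIcc_of_le h4] at hu
      simp only [gk, max_eq_left hu.1, max_eq_left (hδ.trans hu.1), sub_self, mul_zero]]
  simp only [intervalIntegral.integral_zero]
  linarith

end Pool.Agent.Lib.MP_a619ca_an
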