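import Pool.Agent.Lib.MP_a619ca_an.HxDefs

/-! The trigonometric polynomial with double zeros at the interpolation nodes. -/

namespace Pool.Agent.Lib.MP_a619ca_an.Hx

open MeasureTheory Set Real Finset Filter Topology

noncomputable def eps : ℂ := 1 / 2 + (√3 / 2 : ℝ) * Complex.I
def ce : List (ℤ × ℤ) := [(12, 0), (-4, 14), (4, 4), (-4, 16), (-16, 12), (-4, -2), (-8, 8), (-10, -4),
  (4, -8), (-2, -2), (4, -8), (8, -4), (0, 4), (2, -2), (0, 4), (-2, 0)]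
noncomputable def oc (k : ℕ) : ℂ := (ce.getD k 0).1 + (ce.getD k 0).2 * eps
noncomputable def ol (k : ℕ) : ℂ := -(23 / 20) + (2 * π * k / 36 : ℝ) * Complex.I

/-- the character of period `36` -/
noncomputable def ex (t : ℝ) : ℂ := Complex.exp ((2 * π * t / 36 : ℝ) * Complex.I)

theorem ex_add (s t : ℝ) : ex (s + t) = ex s * ex t := by
  unfold ex; rw [← Complex.exp_add]; congr 1; push_cast; ring

theorem ex_zero : ex 0 = 1 := by simp [ex]

theorem ex_pow (t : ℝ) (k : ℕ) : ex t ^ k = ex (k * t) := by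
  unfold ex; rw [← Complex.exp_nat_mul]; congr 1; push_cast; ring

theorem norm_ex (t : ℝ) : ‖ex t‖ = 1 := Complex.norm_exp_ofReal_mul_I _

theorem ex_ne (t : ℝ) : ex t ≠ 0 := Complex.exp_ne_zero _

theorem ex_neg_mul (t : ℝ) : ex (-t) * ex t = 1 := by rw [← ex_add, neg_add_cancel, ex_zero]

theorem conj_ex (t : ℝ) : (starRingEnd ℂ) (ex t) = ex (-t) := by
  unfold ex; rw [← Complex.exp_conj]; congr 1
  rw [map_mul, Complex.conj_ofReal, Complex.conj_I]; push_cast; ring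

theorem ex_int (k : ℤ) : ex (36 * k) = 1 := by
  unfold ex; rw [Complex.exp_eq_one_iff]; exact ⟨k, by push_cast; ring⟩

theorem ex_six : ex 6 = eps := by
  unfold ex eps
  rw [show 2 * π * 6 / 36 = π / 3 by ring, Complex.exp_mul_I, ← Complex.ofReal_cos,
    ← Complex.ofReal_sin, cos_pi_div_three, sin_pi_div_three]
  push_cast; ring

theorem eps_eq : eps ^ 2 - eps + 1 = 0 := by
  have h : ((√3 : ℝ) : ℂ) ^ 2 = 3 := by
    rw [← Complex.ofReal_pow, Real.sq_sqrt (by norm_num)]; norm_num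
  unfold eps
  push_cast
  linear_combination (Complex.I ^ 2 / 4) * h + (3 / 4) * Complex.I_sq

theorem conj_eps : (starRingEnd ℂ) eps = 1 - eps := by
  unfold eps
  rw [map_add, map_mul, Complex.conj_ofReal, Complex.conj_I, map_div₀, map_one, map_ofNat]
  ring

theorem norm_eps : ‖eps‖ = 1 := ex_six ▸ norm_ex 6

theorem norm_one_sub_eps : ‖1 - eps‖ = 1 := by rw [← conj_eps, Complex.norm_conj, norm_eps]

theorem ex_18 : ex 18 = -1 := by
  have h := ex_pow 6 3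
  rw [ex_six] at h
  rw [show (18 : ℝ) = (3 : ℕ) * 6 by norm_num, ← h]
  linear_combination (eps + 1) * eps_eq

theorem ex_24 : ex 24 = -eps := by
  rw [show (24 : ℝ) = 18 + 6 by norm_num, ex_add, ex_18, ex_six]; ring

/-- the centred residue -/
def dd (k : ℤ) : ℤ := (k + 18) % 36 - 18

theorem norm_ex_sub_one {d : ℝ} (hd : |d| ≤ 18) : |d| / 9 ≤ ‖ex d - 1‖ := by
  have h1 : |2 * π * d / 36| ≤ π := by
    rw [abs_div, abs_mul, abs_of_pos (by positivity : 0 < 2 * π), abs_of_pos (by norm_num : (0 : ℝ) < 36),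
      div_le_iff₀ (by norm_num)]
    nlinarith [pi_pos]
  have h2 := cos_le_one_sub_mul_cos_sq h1
  have h3 : 2 / π ^ 2 * (2 * π * d / 36) ^ 2 = d ^ 2 / 162 := by field_simp; ring
  have h4 : ‖ex d - 1‖ ^ 2 = 2 - 2 * cos (2 * π * d / 36) := by
    unfold ex
    rw [Complex.sq_norm, Complex.normSq_apply]
    simp only [Complex.sub_re, Complex.sub_im, Complex.exp_ofReal_mul_I_re,
      Complex.exp_ofReal_mul_I_im, Complex.one_re, Complex.one_im]
    nlinarith [sin_sq_add_cos_sq (2 * π * d / 36)]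
  refine abs_le_of_sq_le_sq' ?_ (norm_nonneg _) |>.2
  rw [h4, div_pow, sq_abs]
  linarith

theorem norm_ex_sub (a b : ℤ) : |(dd (a - b) : ℝ)| / 9 ≤ ‖ex a - ex b‖ := by
  obtain ⟨k, hk⟩ : ∃ k : ℤ, a = b + dd (a - b) + 36 * k := ⟨(a - b + 18) / 36, by unfold dd; omega⟩
  have h1 : ex a - ex b = ex b * (ex (dd (a - b)) - 1) := by
    have : (a : ℝ) = b + dd (a - b) + 36 * k := by exact_mod_cast hk
    conv_lhs => rw [this, ex_add, ex_add, ex_int]
    ring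
  rw [h1, norm_mul, norm_ex, one_mul]
  apply norm_ex_sub_one
  have : |dd (a - b)| ≤ 18 := by unfold dd; rw [abs_le]; omega
  exact_mod_cast this

theorem ex_sub_ne {a b : ℤ} (h : dd (a - b) ≠ 0) : ex a - ex b ≠ 0 := by
  have h1 := norm_ex_sub a b
  have h2 : (0 : ℝ) < |(dd (a - b) : ℝ)| := abs_pos.2 (by exact_mod_cast h)
  exact norm_pos_iff.1 (by linarith)

/-- the polynomial whose roots are the nodes -/
noncomputable def PX (X : ℂ) : ℂ :=
  -1 + (1 - eps) * X + (1 - eps) * X ^ 3 + X ^ 4 + eps * X ^ 5 + eps * X ^ 7 - (1 - eps) * X ^ 8 -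
    (1 - eps) * X ^ 10 - X ^ 11 - eps * X ^ 12 - eps * X ^ 14 + X ^ 15

/-- its derivative -/
noncomputable def PD (X : ℂ) : ℂ :=
  (1 - eps) + 3 * (1 - eps) * X ^ 2 + 4 * X ^ 3 + 5 * eps * X ^ 4 + 7 * eps * X ^ 6 -
    8 * (1 - eps) * X ^ 7 - 10 * (1 - eps) * X ^ 9 - 11 * X ^ 10 - 12 * eps * X ^ 11 -
    14 * eps * X ^ 13 + 15 * X ^ 14

/-- the `eps` parts -/
noncomputable def BX (X : ℂ) : ℂ := -X - X ^ 3 + X ^ 5 + X ^ 7 + X ^ 8 + X ^ 10 - X ^ 12 - X ^ 14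
noncomputable def BD (X : ℂ) : ℂ :=
  -1 - 3 * X ^ 2 + 5 * X ^ 4 + 7 * X ^ 6 + 8 * X ^ 7 + 10 * X ^ 9 - 12 * X ^ 11 - 14 * X ^ 13

theorem PX_id (X : ℂ) : PX X * ((X ^ 9 + 1) * (X ^ 12 + eps) * (X ^ 4 + eps)) =
    (X ^ 36 - 1) * ((X ^ 3 - eps) * (X - eps)) := by
  have h : PX X * (X ^ 9 + 1) + BX X * ((X ^ 9 + 1) * (X ^ 12 + X ^ 4 + 1)) - (X ^ 36 - 1) =
    PX X * (X ^ 9 + 1) + BX X * ((X ^ 9 + 1) * (X ^ 12 + X ^ 4 + 1)) - (X ^ 36 - 1) := rfl
  have h2 := congrArg₂ (· * ·) h eps_eq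
  unfold PX BX at *
  linear_combination h2

theorem PD_id (X : ℂ) : PD X * ((X ^ 9 + 1) * (X ^ 12 + eps) * (X ^ 4 + eps)) +
    PX X * (9 * X ^ 8 * (X ^ 12 + eps) * (X ^ 4 + eps) + (X ^ 9 + 1) * (12 * X ^ 11) * (X ^ 4 + eps) +
      (X ^ 9 + 1) * (X ^ 12 + eps) * (4 * X ^ 3)) =
    36 * X ^ 35 * ((X ^ 3 - eps) * (X - eps)) + (X ^ 36 - 1) * (3 * X ^ 2 * (X - eps) + (X ^ 3 - eps)) := by
  obtain ⟨c, hc⟩ : ∃ c, c = PD X * (X ^ 9 + 1) + PX X * (9 * X ^ 8) +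
    BD X * ((X ^ 9 + 1) * (X ^ 12 + X ^ 4 + 1)) +
    BX X * (9 * X ^ 8 * (X ^ 12 + X ^ 4 + 1) + (X ^ 9 + 1) * (12 * X ^ 11 + 4 * X ^ 3)) -
    36 * X ^ 35 := ⟨_, rfl⟩
  have h2 : c * (eps ^ 2 - eps + 1) = 0 := by rw [eps_eq, mul_zero]
  rw [hc] at h2
  unfold PX BX PD BD at *
  linear_combination h2

theorem ex_nat_pow (m k : ℕ) : ex m ^ k = ex ((k * m : ℤ) : ℝ) := by
  rw [ex_pow]; push_cast; rfl

theorem ex_pow_36 (m : ℕ) : ex m ^ 36 = 1 := by
  rw [ex_pow]; exact_mod_cast ex_int m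

theorem PX_node {m : ℕ} (hm : node m) : PX (ex m) = 0 := by
  obtain ⟨-, h4, h3, h9⟩ := hm
  have h := PX_id (ex m)
  rw [ex_pow_36, sub_self, zero_mul] at h
  have e1 : ex m ^ 9 + 1 ≠ 0 := by
    have := ex_sub_ne (a := (9 : ℕ) * m) (b := 18) (by unfold dd; omega)
    rwa [← ex_nat_pow, show ((18 : ℤ) : ℝ) = 18 by norm_num, ex_18, sub_neg_eq_add] at this
  have e2 : ex m ^ 12 + eps ≠ 0 := by
    have := ex_sub_ne (a := (12 : ℕ) * m) (b := 24) (by unfold dd; omega)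
    rwa [← ex_nat_pow, show ((24 : ℤ) : ℝ) = 24 by norm_num, ex_24, sub_neg_eq_add] at this
  have e3 : ex m ^ 4 + eps ≠ 0 := by
    have := ex_sub_ne (a := (4 : ℕ) * m) (b := 24) (by unfold dd; omega)
    rwa [← ex_nat_pow, show ((24 : ℤ) : ℝ) = 24 by norm_num, ex_24, sub_neg_eq_add] at this
  exact (mul_eq_zero.1 h).resolve_right (mul_ne_zero (mul_ne_zero e1 e2) e3)

theorem dd_node {n : ℕ} (hn : node n) : 9 ≤ |dd ((3 : ℕ) * n - 6)| * |dd (n - 6)| := by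
  obtain ⟨-, h4, h3, h9⟩ := hn
  have key : ∀ r : Fin 36, r.val % 4 ≠ 2 → r.val % 3 ≠ 2 → r.val % 9 ≠ 6 →
      9 ≤ |dd ((3 : ℕ) * r.val - 6)| * |dd (r.val - 6)| := by decide
  have h := key ⟨n % 36, Nat.mod_lt _ (by norm_num)⟩ (by simp only; omega) (by simp only; omega)
    (by simp only; omega)
  have e1 : dd ((3 : ℕ) * n - 6) = dd ((3 : ℕ) * (n % 36 : ℕ) - 6) := by unfold dd; omega
  have e2 : dd (n - 6) = dd ((n % 36 : ℕ) - 6) := by unfold dd; omega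
  rw [e1, e2]; exact h

theorem PD_node {n : ℕ} (hn : node n) : 1 / 2 ≤ ‖PD (ex n)‖ := by
  have h := PD_id (ex n)
  rw [PX_node hn, ex_pow_36, sub_self, zero_mul, zero_mul, add_zero, add_zero] at h
  have h1 := congrArg (‖·‖) h
  simp only [norm_mul, norm_pow, norm_ex, one_pow, mul_one, Complex.norm_ofNat] at h1
  have b1 : ‖ex n ^ 9 + 1‖ ≤ 2 := (norm_add_le _ _).trans (by simp [norm_ex]; norm_num)
  have b2 : ‖ex n ^ 12 + eps‖ ≤ 2 := (norm_add_le _ _).trans (by simp [norm_ex, norm_eps]; norm_num)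
  have b3 : ‖ex n ^ 4 + eps‖ ≤ 2 := (norm_add_le _ _).trans (by simp [norm_ex, norm_eps]; norm_num)
  have c1 := norm_ex_sub ((3 : ℕ) * n) 6
  have c2 := norm_ex_sub n 6
  rw [← ex_nat_pow, show ((6 : ℤ) : ℝ) = 6 by norm_num, ex_six] at c1
  rw [show ((6 : ℤ) : ℝ) = 6 by norm_num, ex_six, Int.cast_natCast] at c2
  have c3 : (9 : ℝ) ≤ |(dd ((3 : ℕ) * n - 6) : ℝ)| * |(dd (n - 6) : ℝ)| := by
    exact_mod_cast dd_node hn
  have c5 := mul_le_mul c1 c2 (by positivity) (norm_nonneg _)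
  rw [div_mul_div_comm] at c5
  have c4 : 1 / 9 ≤ ‖ex n ^ 3 - eps‖ * ‖ex n - eps‖ :=
    le_trans (by norm_num) ((div_le_div_of_nonneg_right c3 (by norm_num)).trans c5)
  have b4 : ‖ex n ^ 9 + 1‖ * ‖ex n ^ 12 + eps‖ * ‖ex n ^ 4 + eps‖ ≤ 2 * 2 * 2 := by gcongr
  nlinarith [norm_nonneg (PD (ex n))]

theorem om0 (X : ℂ) : ∑ k ∈ range 16, (oc k * X ^ (15 + k) + (starRingEnd ℂ) (oc k) * X ^ (15 - k)) =
    -2 * PX X ^ 2 := by
  have h2 : 2 * BX X ^ 2 * (eps ^ 2 - eps + 1) = 0 := by rw [eps_eq, mul_zero]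
  simp only [Finset.sum_range_succ, Finset.range_zero, Finset.sum_empty, oc, ce, map_add, map_mul,
    map_intCast, conj_eps, List.getD_cons_succ, List.getD_cons_zero]
  unfold PX BX at *
  push_cast
  linear_combination h2

theorem om1 (X : ℂ) : ∑ k ∈ range 16,
    (k * oc k * X ^ (15 + k) - k * (starRingEnd ℂ) (oc k) * X ^ (15 - k)) =
    PX X * (30 * PX X - 4 * X * PD X) := by
  have h2 : BX X * (30 * BX X - 4 * X * BD X) * (eps ^ 2 - eps + 1) = 0 := by rw [eps_eq, mul_zero]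
  simp only [Finset.sum_range_succ, Finset.range_zero, Finset.sum_empty, oc, ce, map_add, map_mul,
    map_intCast, conj_eps, List.getD_cons_succ, List.getD_cons_zero]
  unfold PX BX PD BD at *
  push_cast
  linear_combination -h2

theorem conj_pow_mul (t : ℝ) {k : ℕ} (hk : k < 16) :
    (starRingEnd ℂ) (ex t ^ k) * ex t ^ 15 = ex t ^ (15 - k) := by
  obtain ⟨j, hj⟩ : ∃ j, 15 = k + j := ⟨15 - k, by omega⟩
  rw [map_pow, conj_ex, hj, pow_add, ← mul_assoc, ← mul_pow, ex_neg_mul, one_pow, one_mul,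
    Nat.add_sub_cancel_left]

theorem omega_zero {m j : ℕ} (hm : node m) (hj : j < 2) :
    ∑ k ∈ range 16, atm (oc k) (ol k) false j m = 0 := by
  have hX := pow_ne_zero 15 (ex_ne m)
  have h0 : (∑ k ∈ range 16, oc k * ex m ^ k).re = 0 := by
    have h := om0 (ex m)
    rw [PX_node hm] at h
    have e : ((∑ k ∈ range 16, oc k * ex m ^ k) +
        (starRingEnd ℂ) (∑ k ∈ range 16, oc k * ex m ^ k)) * ex m ^ 15 = 0 := by
      rw [map_sum, ← Finset.sum_add_distrib, Finset.sum_mul, ← (by simpa using h : _ = (0 : ℂ))]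
      refine Finset.sum_congr rfl fun k hk => ?_
      rw [← conj_pow_mul m (Finset.mem_range.1 hk), map_mul]
      ring
    have e2 := (mul_eq_zero.1 e).resolve_right hX
    rw [Complex.add_conj] at e2
    have : (2 * (∑ k ∈ range 16, oc k * ex m ^ k).re : ℝ) = 0 := by exact_mod_cast e2
    linarith
  have h1 : (∑ k ∈ range 16, k * oc k * ex m ^ k).im = 0 := by
    have h := om1 (ex m)
    rw [PX_node hm, zero_mul] at h
    have e : ((∑ k ∈ range 16, k * oc k * ex m ^ k) -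
        (starRingEnd ℂ) (∑ k ∈ range 16, k * oc k * ex m ^ k)) * ex m ^ 15 = 0 := by
      rw [map_sum, ← Finset.sum_sub_distrib, Finset.sum_mul, ← h]
      refine Finset.sum_congr rfl fun k hk => ?_
      rw [← conj_pow_mul m (Finset.mem_range.1 hk), map_mul, map_mul, map_natCast]
      ring
    have e2 := (mul_eq_zero.1 e).resolve_right hX
    exact Complex.conj_eq_iff_im.1 (sub_eq_zero.1 e2).symm
  have he : ∀ k : ℕ, Complex.exp (ol k * (m : ℝ)) = (exp (-(23 / 20) * m) : ℝ) * ex m ^ k := by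
    intro k
    rw [ex_pow, ex, Complex.ofReal_exp, ← Complex.exp_add, ol]
    congr 1; push_cast; ring
  simp only [atm, Bool.false_eq_true, if_false, he]
  rw [← Complex.re_sum]
  interval_cases j
  · have e : ∑ k ∈ range 16, oc k * ol k ^ 0 * ((exp (-(23 / 20) * m) : ℝ) * ex m ^ k) =
        (exp (-(23 / 20) * m) : ℝ) * ∑ k ∈ range 16, oc k * ex m ^ k := by
      rw [Finset.mul_sum]; exact Finset.sum_congr rfl fun k _ => by ring
    rw [e, Complex.re_ofReal_mul, h0, mul_zero]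
  · have e : ∑ k ∈ range 16, oc k * ol k ^ 1 * ((exp (-(23 / 20) * m) : ℝ) * ex m ^ k) =
        (exp (-(23 / 20) * m) : ℝ) * ((-(23 / 20) : ℝ) * (∑ k ∈ range 16, oc k * ex m ^ k) +
          (2 * π / 36 : ℝ) * ((∑ k ∈ range 16, k * oc k * ex m ^ k) * Complex.I)) := by
      rw [Finset.sum_mul, Finset.mul_sum, Finset.mul_sum, ← Finset.sum_add_distrib, Finset.mul_sum]
      refine Finset.sum_congr rfl fun k _ => ?_
      unfold ol; push_cast; ring
    rw [e, Complex.re_ofReal_mul, Complex.add_re, Complex.re_ofReal_mul, Complex.re_ofReal_mul,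
      Complex.mul_I_re, h0, h1]
    simp

end Pool.Agent.Lib.MP_a619ca_an.Hx
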