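import Pool.Agent.Lib.MP_a619ca_an.HxCell
import Pool.Agent.Lib.MP_a619ca_an.HxOmega
import Pool.Agent.Lib.MP_a619ca_an.HxData

/-!
The finite family of Gaussians, with enclosures of exponents and coefficients.
-/

namespace Pool.Agent.Lib.MP_a619ca_an.Hx

open Complex Finset
open scoped Real

set_option exponentiation.threshold 500

def piB : Bl := ⟨⟨4591442807048218921384805199743311128454155024418, 0⟩, 4000000⟩
def s3B : Bl := ⟨⟨2531395091202226821444082793948437699496376808652, 0⟩, 1⟩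

theorem mem_real {x : ℝ} {a : ℤ} {r : ℕ} (h : |x - a / 2 ^ 160| ≤ (r : ℝ) / 2 ^ 160) :
    Mem x ⟨⟨a, 0⟩, r⟩ := by
  have : (x : ℂ) - (⟨a, 0⟩ : Z2).c = ((x - a / 2 ^ 160 : ℝ) : ℂ) := by
    apply Complex.ext <;> simp [Z2.c, -ofReal_div]
  rw [Mem, this, norm_real]
  exact h

theorem mem_s3 : Mem (√3 : ℝ) s3B := by
  refine mem_real (abs_le.2 ⟨?_, ?_⟩)
  · have : (2531395091202226821444082793948437699496376808652 / 2 ^ 160 : ℝ) ≤ √3 :=
      Real.le_sqrt_of_sq_le (by norm_num)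
    push_cast
    linarith
  · have : √3 ≤ (2531395091202226821444082793948437699496376808653 / 2 ^ 160 : ℝ) :=
      Real.sqrt_le_iff.2 ⟨by positivity, by norm_num⟩
    push_cast
    linarith

theorem mem_pi : Mem (π : ℝ) piB := by
  have h := (((Mem.int 0 314159265358979323846 (k := 0) (by norm_num)).div (n := 10 ^ 20)
    (by norm_num)).exp (by simp))
  have h1 : ((Bl.int 0 314159265358979323846 0).div (10 ^ 20)).exp.r ≤ 3000000 ∧
      |((Bl.int 0 314159265358979323846 0).div (10 ^ 20)).exp.c.im -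
        3863308991086597041502839004| ≤ 400000 := by decide +kernel
  generalize ((Bl.int 0 314159265358979323846 0).div (10 ^ 20)).exp = b at *
  have h2 := (abs_im_le_norm _).trans h
  have e : (((0 : ℤ) : ℂ) + ((314159265358979323846 : ℤ) : ℂ) * I) / 2 ^ 0 / (10 ^ 20 : ℕ) =
      (3.14159265358979323846 : ℝ) * I := by
    push_cast
    ring
  rw [e, sub_im, exp_ofReal_mul_I_im, ← Real.sin_pi_sub] at h2
  have a1 := Real.pi_gt_d20
  have a2 := Real.pi_lt_d20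
  obtain ⟨y, hy⟩ : ∃ y, y = π - 3.14159265358979323846 := ⟨_, rfl⟩
  rw [← hy] at h2
  have y0 : 0 < y := by linarith
  have a3 := Real.sin_lt y0
  have a4 := Real.sin_gt_sub_cube y0
  have a5 : y ^ 3 ≤ (1 / 10 ^ 20) ^ 3 := by gcongr; linarith
  have a6 : (b.r : ℝ) ≤ 3000000 := by exact_mod_cast h1.1
  have a7 : |(b.c.im : ℝ) - 3863308991086597041502839004| ≤ 400000 := by exact_mod_cast h1.2
  simp only [Z2.c] at h2
  rw [abs_le] at h2 a7
  refine mem_real (abs_le.2 ⟨?_, ?_⟩) <;> push_cast <;> linarith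

def ratB (p : ℤ) (q : ℕ) : Bl := (Bl.int p 0 0).div q

theorem mem_ratB (p : ℤ) {q : ℕ} (hq : 0 < q) : Mem (p / q) (ratB p q) := (Mem.int0 p).div hq

def AAB : Bl := ((piB.mul s3B).mul (Bl.int 2 0 0)).div 3

theorem Mem.of_eq {z w : ℂ} {b : Bl} (h : Mem z b) (e : w = z) : Mem w b := e ▸ h

theorem mem_AA : Mem AA AAB := by
  refine (((mem_pi.mul mem_s3).mul (Mem.int0 2)).div (n := 3) (by norm_num)).of_eq ?_
  have : √3 * √3 = 3 := Real.mul_self_sqrt (by norm_num)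
  have e : AA = π * √3 * 2 / 3 := by
    unfold AA
    field_simp
    linarith
  rw [e]
  push_cast
  rfl

def aaB : Bl := (AAB.mul AAB).div 6

theorem mem_aa : Mem aa aaB := by
  refine ((mem_AA.mul mem_AA).div (n := 6) (by norm_num)).of_eq ?_
  unfold aa
  push_cast
  ring

def SSB (l : Bl) : Bl := (AAB.mul AAB).mul l.inv
def phB (l : Bl) : Bl := AAB.neg.mul l.inv

theorem mem_SS {l : ℂ} {b : Bl} (h : Mem l b) (h1 : 1 ≤ ‖l‖) : Mem (SS l) (SSB b) := by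
  rw [SS, sq, div_eq_mul_inv]
  exact (mem_AA.mul mem_AA).mul (h.inv h1)

theorem mem_ph {l : ℂ} {b : Bl} (h : Mem l b) (h1 : 1 ≤ ‖l‖) : Mem (ph l) (phB b) := by
  rw [ph, div_eq_mul_inv]
  exact mem_AA.neg.mul (h.inv h1)

noncomputable def sl (k : ℕ) : ℂ := -(9 / 5) + (2 * π * k / 108 : ℝ) * I

def slB (k : ℕ) : Bl := (ratB (-9) 5).add ((piB.mul (Bl.int 0 (2 * k) 0)).div 108)
def olB (k : ℕ) : Bl := (ratB (-23) 20).add ((piB.mul (Bl.int 0 (2 * k) 0)).div 36)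
def ocB (k : ℕ) : Bl := (Bl.int (ce.getD k 0).1 0 0).add ((Bl.int (ce.getD k 0).2 0 0).mul
  ((ratB 1 2).add ((s3B.mul (Bl.int 0 1 0)).div 2)))

theorem mem_sl (k : ℕ) : Mem (sl k) (slB k) := by
  refine ((mem_ratB (-9) (q := 5) (by norm_num)).add ((mem_pi.mul
    (Mem.int 0 (2 * k) (k := 0) (by norm_num))).div (n := 108) (by norm_num))).of_eq ?_
  unfold sl
  push_cast
  ring

theorem mem_ol (k : ℕ) : Mem (ol k) (olB k) := by
  refine ((mem_ratB (-23) (q := 20) (by norm_num)).add ((mem_pi.mul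
    (Mem.int 0 (2 * k) (k := 0) (by norm_num))).div (n := 36) (by norm_num))).of_eq ?_
  unfold ol
  push_cast
  ring

theorem mem_oc (k : ℕ) : Mem (oc k) (ocB k) := by
  refine ((Mem.int0 (ce.getD k 0).1).add ((Mem.int0 (ce.getD k 0).2).mul
    ((mem_ratB 1 (q := 2) (by norm_num)).add ((mem_s3.mul
    (Mem.int 0 1 (k := 0) (by norm_num))).div (n := 2) (by norm_num))))).of_eq ?_
  unfold oc eps
  push_cast
  ring

theorem l_bounds {h t : ℝ} (h1 : 23 / 20 ≤ h) (h2 : h ≤ 9 / 5) (t0 : 0 ≤ t) (ht : t ≤ 5 / 12)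
    {l : ℂ} (hl : l = -h + (2 * π * t : ℝ) * I) :
    l.re = -h ∧ h ≤ ‖l‖ ∧ ‖l‖ ≤ 16 / 5 ∧ ‖ph l‖ ≤ 3.63 / h ∧ ‖SS l‖ ≤ 13.2 / h ∧
      (SS l).re ≤ -(46 / 25) := by
  have hre : l.re = -h := by simp [hl]
  have him : l.im = 2 * π * t := by simp [hl, -ofReal_mul]
  have p1 := Real.pi_gt_d4
  have p2 := Real.pi_lt_d4
  have a1 : h ≤ ‖l‖ := by
    have := abs_re_le_norm l
    rw [hre, abs_neg] at this
    exact (le_abs_self h).trans this
  have a2 : 0 ≤ 2 * π * t := by positivity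
  have a3 : 2 * π * t ≤ 2 * 3.1416 * (5 / 12) := by gcongr
  have a4 : normSq l = h ^ 2 + (2 * π * t) ^ 2 := by rw [normSq_apply, hre, him]; ring
  have a5 : (2 * π * t) ^ 2 ≤ 6.854 := by nlinarith
  have a6 := AA_sq
  have a7 := AA_pos
  have a8 : 13.158 ≤ AA ^ 2 := by nlinarith
  have a9 : AA ^ 2 ≤ 13.16 := by nlinarith
  refine ⟨hre, a1, ?_, ?_, ?_, ?_⟩
  · refine abs_le_of_sq_le_sq' ?_ (by norm_num) |>.2
    rw [← normSq_eq_norm_sq, a4]
    nlinarith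
  · rw [ph, norm_div, norm_neg, norm_real, Real.norm_eq_abs, abs_of_pos a7]
    gcongr
    nlinarith
  · rw [SS, norm_div, norm_pow, norm_real, Real.norm_eq_abs, abs_of_pos a7]
    gcongr
    linarith
  · rw [SS, ← ofReal_pow, div_eq_mul_inv, re_ofReal_mul, inv_re, hre, a4, ← mul_div_assoc,
      div_le_iff₀ (by positivity)]
    nlinarith [mul_nonneg (sub_nonneg.2 h1) (sub_nonneg.2 h2)]

theorem sl_bounds {k : ℕ} (hk : k < 46) : (sl k).re = -(9 / 5) ∧ 9 / 5 ≤ ‖sl k‖ ∧ ‖sl k‖ ≤ 16 / 5 ∧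
    ‖ph (sl k)‖ ≤ 3.63 / (9 / 5) ∧ ‖SS (sl k)‖ ≤ 13.2 / (9 / 5) ∧ (SS (sl k)).re ≤ -(46 / 25) := by
  have : (k : ℝ) ≤ 45 := by exact_mod_cast Nat.lt_succ_iff.1 hk
  exact l_bounds (t := k / 108) (by norm_num) le_rfl (by positivity) (by linarith)
    (by unfold sl; push_cast; ring)

theorem ol_bounds {k : ℕ} (hk : k < 16) : (ol k).re = -(23 / 20) ∧ 23 / 20 ≤ ‖ol k‖ ∧
    ‖ol k‖ ≤ 16 / 5 ∧ ‖ph (ol k)‖ ≤ 3.63 / (23 / 20) ∧ ‖SS (ol k)‖ ≤ 13.2 / (23 / 20) ∧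
    (SS (ol k)).re ≤ -(46 / 25) := by
  have : (k : ℝ) ≤ 15 := by exact_mod_cast Nat.lt_succ_iff.1 hk
  exact l_bounds (t := k / 36) le_rfl (by norm_num) (by positivity) (by linarith)
    (by unfold ol; push_cast; ring)

/-- exponents, indexed by (kind, number) -/
noncomputable def lam : ℕ × ℕ → ℂ
  | (0, k) => sl k
  | (1, k) => SS (sl k)
  | (2, k) => ol k
  | (3, k) => SS (ol k)
  | (4, _) => -aa
  | _ => -6

def lamB : ℕ × ℕ → Bl
  | (0, k) => slB k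
  | (1, k) => SSB (slB k)
  | (2, k) => olB k
  | (3, k) => SSB (olB k)
  | (4, _) => aaB.neg
  | _ => Bl.int (-6) 0 0

noncomputable def cv (q : ℕ) (l : List (ℤ × ℤ)) (k : ℕ) : ℂ :=
  (((l.getD k 0).1 * (2 ^ q + 1) : ℤ) + ((l.getD k 0).2 * (2 ^ q + 1) : ℤ) * I) / 2 ^ 160
def cvB (q : ℕ) (l : List (ℤ × ℤ)) (k : ℕ) : Bl :=
  Bl.int ((l.getD k 0).1 * (2 ^ q + 1)) ((l.getD k 0).2 * (2 ^ q + 1)) 160

theorem mem_cv (q : ℕ) (l : List (ℤ × ℤ)) (k : ℕ) : Mem (cv q l k) (cvB q l k) :=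
  Mem.int _ _ le_rfl

/-- coefficients -/
noncomputable def cf (q : ℕ) (w v : List (ℤ × ℤ)) (s : Bool) : ℕ × ℕ → ℂ
  | (0, k) => cv q (bif s then v else w) k
  | (1, k) => cv q (bif s then w else v) k * ph (sl k)
  | (2, k) => ((bif s then 1 else -1 : ℤ) : ℂ) / (40 : ℕ) * oc k
  | (3, k) => ((bif s then -1 else 1 : ℤ) : ℂ) / (40 : ℕ) * oc k * ph (ol k)
  | _ => 0

def cfB (q : ℕ) (w v : List (ℤ × ℤ)) (s : Bool) : ℕ × ℕ → Bl
  | (0, k) => cvB q (bif s then v else w) k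
  | (1, k) => (cvB q (bif s then w else v) k).mul (phB (slB k))
  | (2, k) => (ratB (bif s then 1 else -1) 40).mul (ocB k)
  | (3, k) => ((ratB (bif s then -1 else 1) 40).mul (ocB k)).mul (phB (olB k))
  | _ => Bl.int 0 0 0

def kind (a n : ℕ) : List (ℕ × ℕ) := (List.range n).map fun k => (a, k)
def LS : List (ℕ × ℕ) := kind 0 46 ++ kind 1 46
def LR : List (ℕ × ℕ) := LS ++ kind 3 16 ++ [(4, 0), (5, 0)]
def LA : List (ℕ × ℕ) := kind 2 16 ++ LR

theorem mem_LA {i : ℕ × ℕ} (h : i ∈ LA) : (∃ k < 46, i = (0, k)) ∨ (∃ k < 46, i = (1, k)) ∨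
    (∃ k < 16, i = (2, k)) ∨ (∃ k < 16, i = (3, k)) ∨ i = (4, 0) ∨ i = (5, 0) := by
  simp only [LA, LR, LS, kind, List.mem_append, List.mem_map, List.mem_range, List.mem_cons,
    List.not_mem_nil, or_false, eq_comm (b := i)] at h
  rcases h with h | ((h | h) | h) | h | h <;> simp only [h, true_or, or_true]

theorem mem_lam {i : ℕ × ℕ} (h : i ∈ LA) : Mem (lam i) (lamB i) := by
  rcases mem_LA h with ⟨k, hk, rfl⟩ | ⟨k, hk, rfl⟩ | ⟨k, hk, rfl⟩ | ⟨k, hk, rfl⟩ | rfl | rfl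
  · exact mem_sl k
  · exact mem_SS (mem_sl k) (by linarith [(sl_bounds hk).2.1])
  · exact mem_ol k
  · exact mem_SS (mem_ol k) (by linarith [(ol_bounds hk).2.1])
  · exact mem_aa.neg
  · simpa [lam, lamB] using Mem.int0 (-6)

theorem mem_cf (q : ℕ) (w v : List (ℤ × ℤ)) (s : Bool) {i : ℕ × ℕ} (h : i ∈ LA) :
    Mem (cf q w v s i) (cfB q w v s i) := by
  rcases mem_LA h with ⟨k, hk, rfl⟩ | ⟨k, hk, rfl⟩ | ⟨k, hk, rfl⟩ | ⟨k, hk, rfl⟩ | rfl | rfl
  · exact mem_cv _ _ _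
  · exact (mem_cv _ _ _).mul (mem_ph (mem_sl k) (by linarith [(sl_bounds hk).2.1]))
  · exact (mem_ratB _ (by norm_num)).mul (mem_oc k)
  · exact ((mem_ratB _ (by norm_num)).mul (mem_oc k)).mul
      (mem_ph (mem_ol k) (by linarith [(ol_bounds hk).2.1]))
  · simpa [cf, cfB] using Mem.int0 0
  · simpa [cf, cfB] using Mem.int0 0

theorem aa_ge : 2 ≤ aa := by
  have := Real.pi_gt_d2
  rw [aa, AA_sq]
  nlinarith

theorem re_LR {i : ℕ × ℕ} (h : i ∈ LR) : (lam i).re ≤ -(9 / 5) := by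
  simp only [LR, LS, kind, List.mem_append, List.mem_map, List.mem_range, List.mem_cons,
    List.not_mem_nil, or_false] at h
  rcases h with ((⟨k, hk, rfl⟩ | ⟨k, hk, rfl⟩) | ⟨k, hk, rfl⟩) | rfl | rfl
  · exact (sl_bounds hk).1.le
  · exact (sl_bounds hk).2.2.2.2.2.trans (by norm_num)
  · exact (ol_bounds hk).2.2.2.2.2.trans (by norm_num)
  · simp only [lam, neg_re, ofReal_re]; linarith [aa_ge]
  · norm_num [lam]

theorem re_LA {i : ℕ × ℕ} (h : i ∈ LA) : (lam i).re ≤ -(23 / 20) := by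
  rcases List.mem_append.1 h with h | h
  · obtain ⟨k, hk, rfl⟩ := List.mem_map.1 h
    exact (ol_bounds (List.mem_range.1 hk)).1.le
  · linarith [re_LR h]

theorem sum_kind (a n : ℕ) (f : ℕ × ℕ → ℂ) : ((kind a n).map f).sum = ∑ k ∈ range n, f (a, k) := by
  unfold kind
  induction n with
  | zero => simp
  | succ n ih => rw [List.range_succ, List.map_append, List.map_append, List.sum_append, ih,
      sum_range_succ]; simp

/-- the symmetric family -/
noncomputable def FS (q : ℕ) (w v : List (ℤ × ℤ)) (s : Bool) (j : ℕ) (u : ℝ) : ℝ :=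
  ∑ k ∈ range 46, atm (cv q w k) (sl k) s j u + ∑ k ∈ range 46, atm (cv q v k) (sl k) (!s) j u

noncomputable def FO (s : Bool) (j : ℕ) (u : ℝ) : ℝ := ∑ k ∈ range 16, atm (oc k) (ol k) s j u

/-- the approximate solution -/
noncomputable def F0 (s : Bool) (j : ℕ) (u : ℝ) : ℝ :=
  FS 90 mw mv s j u + (-(1 / 40) * FO s j u + 1 / 40 * FO (!s) j u)

theorem shift (σ u : ℝ) (c l : ℂ) :
    Real.exp (σ * u) * (c * cexp (l * u)).re = (c * cexp ((l + σ) * u)).re := by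
  rw [← re_ofReal_mul, add_mul, Complex.exp_add]
  push_cast
  congr 1
  ring

theorem rep_FS (σ u : ℝ) (q : ℕ) (w v : List (ℤ × ℤ)) (s : Bool) (j : ℕ) :
    Real.exp (σ * u) * FS q w v s j u =
      (LS.map fun i => cf q w v s i * lam i ^ j * cexp ((lam i + σ) * u)).sum.re := by
  rw [LS, List.map_append, List.sum_append, sum_kind, sum_kind, add_re, re_sum, re_sum, FS, mul_add,
    mul_sum, mul_sum]
  cases s <;> simp only [atm, cf, lam, shift, Bool.not_false, Bool.not_true, if_true, cond_true,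
    cond_false, Bool.false_eq_true, if_false, add_comm]

theorem rep_FO (σ u : ℝ) (c : ℤ) (j : ℕ) :
    Real.exp (σ * u) * (c / 40 * FO false j u) =
      (∑ k ∈ range 16, (c : ℂ) / (40 : ℕ) * oc k * ol k ^ j * cexp ((ol k + σ) * u)).re ∧
    Real.exp (σ * u) * (c / 40 * FO true j u) = (∑ k ∈ range 16,
      (c : ℂ) / (40 : ℕ) * oc k * ph (ol k) * SS (ol k) ^ j * cexp ((SS (ol k) + σ) * u)).re := by
  have e : (c : ℂ) / (40 : ℕ) = ((c / 40 : ℝ) : ℂ) := by push_cast; rfl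
  simp only [FO, re_sum, mul_sum, e, mul_assoc, re_ofReal_mul, atm, if_true, Bool.false_eq_true,
    if_false]
  simp only [← mul_assoc, ← shift]
  constructor <;> exact sum_congr rfl fun k _ => by ring

theorem rep_LR (σ u : ℝ) (s : Bool) (j : ℕ) :
    Real.exp (σ * u) * (F0 s j u - (bif s then 1 else -1 : ℤ) / 40 * FO false j u) =
      (LR.map fun i => cf 90 mw mv s i * lam i ^ j * cexp ((lam i + σ) * u)).sum.re := by
  rw [LR, List.map_append, List.sum_append, List.map_append, List.sum_append, add_re, add_re,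
    ← rep_FS, sum_kind]
  simp only [cf, lam, ← (rep_FO σ u _ j).2]
  cases s <;> simp [F0] <;> ring

theorem rep_F0 (σ u : ℝ) (s : Bool) (j : ℕ) : Real.exp (σ * u) * F0 s j u =
    (LA.map fun i => cf 90 mw mv s i * lam i ^ j * cexp ((lam i + σ) * u)).sum.re := by
  rw [LA, List.map_append, List.sum_append, add_re, ← rep_LR, sum_kind]
  simp only [cf, lam, ← (rep_FO σ u _ j).1]
  ring

end Pool.Agent.Lib.MP_a619ca_an.Hx
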