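import Mathlib

/-!
Complex ball arithmetic in fixed point with 160 binary digits.
-/

namespace Pool.Agent.Lib.MP_a619ca_an.Hx

open Complex Finset

/-- Gaussian integers, read with the scale `2 ^ (-160)` -/
structure Z2 where
  re : ℤ
  im : ℤ

namespace Z2

noncomputable def c (z : Z2) : ℂ := ⟨z.re / 2 ^ 160, z.im / 2 ^ 160⟩
def add (a b : Z2) : Z2 := ⟨Int.add a.re b.re, Int.add a.im b.im⟩
def neg (a : Z2) : Z2 := ⟨Int.neg a.re, Int.neg a.im⟩
def mul (a b : Z2) : Z2 :=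
  ⟨Int.shiftRight (Int.sub (Int.mul a.re b.re) (Int.mul a.im b.im)) 160,
   Int.shiftRight (Int.add (Int.mul a.re b.im) (Int.mul a.im b.re)) 160⟩
def div (a : Z2) (n : ℕ) : Z2 := ⟨Int.ediv a.re (Int.ofNat n), Int.ediv a.im (Int.ofNat n)⟩
def nrm (a : Z2) : ℕ := Nat.add a.re.natAbs a.im.natAbs

theorem c_add (a b : Z2) : (a.add b).c = a.c + b.c := by
  apply Complex.ext <;> simp [c, add, add_div]

theorem c_neg (a : Z2) : a.neg.c = -a.c := by
  apply Complex.ext <;> simp [c, neg, neg_div, show ∀ x : ℤ, Int.neg x = -x from fun _ => rfl]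

theorem norm_c (a : Z2) : ‖a.c‖ ≤ a.nrm / 2 ^ 160 := by
  refine (norm_le_abs_re_add_abs_im _).trans (le_of_eq ?_)
  simp [c, nrm, abs_div, add_div]

theorem abs_ediv (x : ℤ) {n : ℤ} (hn : 0 < n) : |((x / n : ℤ) : ℝ) - x / n| ≤ 1 := by
  have h1 : ((x / n : ℤ) : ℝ) * n + (x % n : ℤ) = x := by exact_mod_cast Int.ediv_mul_add_emod x n
  have h2 : (0 : ℝ) ≤ (x % n : ℤ) := by exact_mod_cast Int.emod_nonneg x hn.ne'
  have h3 : ((x % n : ℤ) : ℝ) < n := by exact_mod_cast Int.emod_lt_of_pos x hn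
  have h4 : (0 : ℝ) < n := by exact_mod_cast hn
  have h5 : ((x / n : ℤ) : ℝ) - x / n = -((x % n : ℤ) / n) := by
    field_simp
    linarith
  rw [h5, abs_neg, abs_of_nonneg (by positivity), div_le_one h4]
  exact h3.le

theorem norm_le_two {z : ℂ} {r : ℝ} (h1 : |z.re| ≤ r) (h2 : |z.im| ≤ r) : ‖z‖ ≤ 2 * r :=
  (norm_le_abs_re_add_abs_im _).trans (by linarith)

theorem shr (x : ℤ) (n : ℕ) : Int.shiftRight x n = x / 2 ^ n := by
  have := Int.shiftRight_eq_div_pow x n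
  rw [Nat.cast_pow] at this
  exact this

theorem sc_aux {x y : ℝ} (h : |x - y| ≤ 1) : |x / 2 ^ 160 - y / 2 ^ 160| ≤ 1 / 2 ^ 160 := by
  rw [← sub_div, abs_div, abs_of_pos (by positivity : (0 : ℝ) < 2 ^ 160)]
  gcongr

theorem c_mul (a b : Z2) : ‖(a.mul b).c - a.c * b.c‖ ≤ 2 * (1 / 2 ^ 160) := by
  refine norm_le_two ?_ ?_
  · have := sc_aux (abs_ediv (a.re * b.re - a.im * b.im) (n := 2 ^ 160) (by positivity))
    convert this using 2
    simp only [c, mul, shr, sub_re, mul_re]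
    push_cast
    congr 1
    ring
  · have := sc_aux (abs_ediv (a.re * b.im + a.im * b.re) (n := 2 ^ 160) (by positivity))
    convert this using 2
    simp only [c, mul, shr, sub_im, mul_im]
    push_cast
    congr 1
    ring

theorem c_div (a : Z2) {n : ℕ} (hn : 0 < n) : ‖(a.div n).c - a.c / n‖ ≤ 2 * (1 / 2 ^ 160) := by
  refine norm_le_two ?_ ?_
  · have := sc_aux (abs_ediv a.re (n := n) (by exact_mod_cast hn))
    convert this using 2
    simp only [c, div, sub_re, div_natCast_re]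
    push_cast
    congr 1
    ring
  · have := sc_aux (abs_ediv a.im (n := n) (by exact_mod_cast hn))
    convert this using 2
    simp only [c, div, sub_im, div_natCast_im]
    push_cast
    congr 1
    ring

end Z2

/-- balls -/
structure Bl where
  c : Z2
  r : ℕ

/-- membership in a ball -/
def Mem (z : ℂ) (b : Bl) : Prop := ‖z - b.c.c‖ ≤ b.r / 2 ^ 160

namespace Bl

def add (a b : Bl) : Bl := ⟨a.c.add b.c, Nat.add a.r b.r⟩
def neg (a : Bl) : Bl := ⟨a.c.neg, a.r⟩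
def up (a : Bl) : ℕ := Nat.add a.c.nrm a.r
def mul (a b : Bl) : Bl :=
  ⟨a.c.mul b.c, Nat.add (Nat.shiftRight (Nat.add (Nat.mul a.up b.r) (Nat.mul b.c.nrm a.r)) 160) 3⟩
def div (a : Bl) (n : ℕ) : Bl := ⟨a.c.div n, Nat.add (Nat.div a.r n) 3⟩
def int (x y : ℤ) (k : ℕ) : Bl := ⟨⟨x * 2 ^ (160 - k), y * 2 ^ (160 - k)⟩, 0⟩
def wid (a : Bl) (r : ℕ) : Bl := ⟨a.c, Nat.add a.r r⟩
def inv0 (a : Z2) : Z2 :=
  ⟨a.re * 2 ^ 320 / (a.re * a.re + a.im * a.im), -a.im * 2 ^ 320 / (a.re * a.re + a.im * a.im)⟩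
def inv (a : Bl) : Bl := ⟨inv0 a.c, ((a.mul ⟨inv0 a.c, 0⟩).add (int (-1) 0 0)).up⟩
/-- the pair (term, sum) of the exponential series -/
def tay (x : Bl) : ℕ → Bl × Bl
  | 0 => (int 1 0 0, int 0 0 0)
  | n + 1 => (((tay x n).1.mul x).div (n + 1), (tay x n).2.add (tay x n).1)
def sqs (x : Bl) : ℕ → Bl
  | 0 => x
  | n + 1 => sqs (x.mul x) n
def exp (a : Bl) : Bl :=
  let x := a.div 16384
  let t := tay x 17
  if x.up ≤ 2 ^ 160 then sqs (t.2.wid (2 * t.1.up)) 14 else ⟨⟨0, 0⟩, 2 ^ 160⟩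

end Bl

namespace Mem

variable {z w : ℂ} {a b : Bl}

theorem add (h : Mem z a) (k : Mem w b) : Mem (z + w) (a.add b) := by
  unfold Mem at *
  simp only [Bl.add, Z2.c_add, Nat.add_eq, Nat.cast_add, add_div]
  rw [add_sub_add_comm]
  exact (norm_add_le _ _).trans (add_le_add h k)

theorem neg (h : Mem z a) : Mem (-z) a.neg := by
  unfold Mem at *
  simp only [Bl.neg, Z2.c_neg]
  rwa [neg_sub_neg, norm_sub_rev]

theorem up (h : Mem z a) : ‖z‖ ≤ a.up / 2 ^ 160 := by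
  have h1 := a.c.norm_c
  have h2 := norm_add_le (z - a.c.c) a.c.c
  unfold Mem at h
  simp only [Bl.up, Nat.add_eq, Nat.cast_add, add_div]
  rw [sub_add_cancel] at h2
  linarith

theorem nat_div (x : ℕ) {n : ℕ} (hn : 0 < n) : (x : ℝ) / n ≤ (x / n : ℕ) + 1 := by
  have h : (0 : ℝ) < n := by exact_mod_cast hn
  rw [div_le_iff₀ h]
  exact_mod_cast (by rw [mul_comm]; exact Nat.lt_mul_div_succ x hn |>.le)

theorem mul (h : Mem z a) (k : Mem w b) : Mem (z * w) (a.mul b) := by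
  have h1 := h.up
  have h2 := b.c.norm_c
  have h3 := a.c.c_mul b.c
  have h4 := nat_div (a.up * b.r + b.c.nrm * a.r) (n := 2 ^ 160) (by positivity)
  unfold Mem at *
  simp only [Bl.mul, Nat.add_eq, Nat.mul_eq, Nat.shiftRight_eq, Nat.shiftRight_eq_div_pow]
  have e : z * w - (a.c.mul b.c).c =
      z * (w - b.c.c) + b.c.c * (z - a.c.c) - ((a.c.mul b.c).c - a.c.c * b.c.c) := by ring
  have h5 : ‖z * (w - b.c.c)‖ ≤ a.up / 2 ^ 160 * (b.r / 2 ^ 160) := by
    rw [norm_mul]; gcongr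
  have h6 : ‖b.c.c * (z - a.c.c)‖ ≤ b.c.nrm / 2 ^ 160 * (a.r / 2 ^ 160) := by
    rw [norm_mul]; gcongr
  rw [e]
  refine (norm_sub_le _ _).trans ((add_le_add ((norm_add_le _ _).trans (add_le_add h5 h6)) h3).trans ?_)
  generalize (a.up * b.r + b.c.nrm * a.r) / 2 ^ 160 = q at *
  push_cast at *
  rw [le_div_iff₀ (by positivity)]
  linarith

theorem div (h : Mem z a) {n : ℕ} (hn : 0 < n) : Mem (z / n) (a.div n) := by
  have h3 := a.c.c_div hn
  have h4 := nat_div a.r hn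
  have h0 : (0 : ℝ) < n := by exact_mod_cast hn
  unfold Mem at *
  simp only [Bl.div, Nat.add_eq]
  have e : z / n - (a.c.div n).c = (z - a.c.c) / n - ((a.c.div n).c - a.c.c / n) := by ring
  have h5 : ‖(z - a.c.c) / n‖ ≤ a.r / 2 ^ 160 / n := by
    rw [norm_div, norm_natCast]; gcongr
  rw [e]
  refine (norm_sub_le _ _).trans ((add_le_add h5 h3).trans ?_)
  rw [show a.r.div n = a.r / n from rfl]
  generalize a.r / n = q at *
  push_cast
  rw [div_right_comm, le_div_iff₀ (by positivity)]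
  linarith

theorem int (x y : ℤ) {k : ℕ} (hk : k ≤ 160) : Mem ((x + y * I) / 2 ^ k) (Bl.int x y k) := by
  have e : (2 : ℝ) ^ 160 = 2 ^ (160 - k) * 2 ^ k := by rw [← pow_add, Nat.sub_add_cancel hk]
  have : (Bl.int x y k).c.c = (x + y * I) / 2 ^ k := by
    rw [show (2 : ℂ) ^ k = ((2 ^ k : ℝ) : ℂ) by push_cast; rfl]
    apply Complex.ext <;> simp only [Bl.int, Z2.c, div_ofReal_re, div_ofReal_im] <;> rw [e] <;>
      simp <;> field_simp
  simp [Mem, this]

theorem int0 (x : ℤ) : Mem x (Bl.int x 0 0) := by simpa using int x 0 (k := 0) (by norm_num)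

theorem wid (h : Mem z a) {r : ℕ} (k : ‖w - z‖ ≤ r / 2 ^ 160) : Mem w (a.wid r) := by
  unfold Mem at *
  simp only [Bl.wid, Nat.add_eq, Nat.cast_add, add_div]
  have := norm_add_le (w - z) (z - a.c.c)
  rw [sub_add_sub_cancel] at this
  linarith

theorem self (y : Z2) : Mem y.c ⟨y, 0⟩ := by simp [Mem]

theorem inv (h : Mem z a) (hz : 1 ≤ ‖z‖) : Mem z⁻¹ a.inv := by
  unfold Bl.inv
  generalize Bl.inv0 a.c = y
  have h1 := ((h.mul (self y)).add (int0 (-1))).up
  have h0 : z ≠ 0 := by rintro rfl; norm_num at hz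
  refine le_trans ?_ h1
  have e : z * y.c + ((-1 : ℤ) : ℂ) = z * -(z⁻¹ - y.c) := by field_simp; push_cast; ring
  rw [e, norm_mul, norm_neg]
  exact le_mul_of_one_le_left (norm_nonneg _) hz

theorem tay (h : Mem z a) (n : ℕ) :
    Mem (z ^ n / n.factorial) (Bl.tay a n).1 ∧
      Mem (∑ m ∈ range n, z ^ m / m.factorial) (Bl.tay a n).2 := by
  induction n with
  | zero => exact ⟨by simpa [Bl.tay] using int0 1, by simpa [Bl.tay] using int0 0⟩
  | succ n ih =>
    refine ⟨?_, by rw [sum_range_succ]; exact ih.2.add ih.1⟩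
    have e : z ^ (n + 1) / (n + 1).factorial = z ^ n / n.factorial * z / (n + 1 : ℕ) := by
      rw [Nat.factorial_succ]
      push_cast
      field_simp
      ring
    rw [e]
    exact (ih.1.mul h).div n.succ_pos

theorem sqs (h : Mem z a) (n : ℕ) : Mem (z ^ 2 ^ n) (Bl.sqs a n) := by
  induction n generalizing z a with
  | zero => simpa [Bl.sqs] using h
  | succ n ih =>
    have := ih (h.mul h)
    rwa [← sq, ← pow_mul, ← pow_succ'] at this

theorem exp (h : Mem z a) (hz : z.re ≤ 0) : Mem (cexp z) a.exp := by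
  unfold Bl.exp
  simp only
  split_ifs with hx
  · have h1 := h.div (n := 16384) (by norm_num)
    have h2 := h1.tay 17
    have h3 : ‖z / (16384 : ℕ)‖ ≤ 1 := h1.up.trans (by
      rw [div_le_one (by positivity)]; exact_mod_cast hx)
    have h4 := Complex.exp_bound' (x := z / (16384 : ℕ)) (n := 17) (by
      rw [div_le_iff₀ (by positivity)]; push_cast at h3 ⊢; linarith)
    have h5 := h2.1.up
    rw [norm_div, norm_pow, norm_natCast] at h5
    have h6 := (h2.2.wid (w := cexp (z / (16384 : ℕ))) (r := 2 * (Bl.tay (a.div 16384) 17).1.up)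
      (by push_cast at h4 h5 ⊢; rw [mul_div_assoc]; linarith)).sqs 14
    rwa [← Complex.exp_nat_mul, show ((2 ^ 14 : ℕ) : ℂ) * (z / (16384 : ℕ)) = z by
      push_cast; ring] at h6
  · have : (⟨0, 0⟩ : Z2).c = 0 := by apply Complex.ext <;> simp [Z2.c]
    simp only [Mem, this, sub_zero, norm_exp]
    rw [Nat.cast_pow, Nat.cast_ofNat, div_self (by positivity)]
    exact Real.exp_le_one_iff.2 hz

end Mem

end Pool.Agent.Lib.MP_a619ca_an.Hx
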