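import Pool.Agent.Lib.MP_a619ca_an.HxTest

/-!
The inequalities on the cells `i < 480` follow from the tests.
-/

namespace Pool.Agent.Lib.MP_a619ca_an.Hx

open Complex Finset

theorem sum_on {K : ℕ} (hK : K = 4 ∨ K = 5) (c : ℂ) (f : ℕ × ℕ → ℂ) :
    (LR.map fun i => (if i.1 = K then c else 0) * f i).sum = c * f (K, 0) ∧
    (LA.map fun i => (if i.1 = K then c else 0) * f i).sum = c * f (K, 0) := by
  simp only [LA, LR, LS, List.map_append, List.sum_append, sum_kind]
  rcases hK with rfl | rfl <;> simp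

theorem sum_three {ι : Type} (L : List ι) (f g h : ι → ℂ) (x y : ℝ) :
    (L.map fun i => f i + g i * x + h i * y).sum.re =
      (L.map f).sum.re + x * (L.map g).sum.re + y * (L.map h).sum.re := by
  rw [sum_lin L (fun i => f i + g i * x), sum_lin]

theorem mem_muA {i : ℕ × ℕ} (h : i ∈ LA) : Mem (lam i + (23 / 20 : ℝ)) (muA i) :=
  ((mem_lam h).add (mem_ratB 23 (q := 20) (by norm_num))).of_eq (by push_cast; rfl)

theorem mem_onK (K : ℕ) {c : ℂ} {b : Bl} (h : Mem c b) (i : ℕ × ℕ) :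
    Mem (if i.1 = K then c else 0) (onK K b i) := by
  unfold onK
  split_ifs
  · exact h
  · exact (Mem.int0 0).of_eq (by simp)

theorem cell_of {K : ℕ} (hK : K = 4 ∨ K = 5) {r c x y : ℝ} (hr : lam (K, 0) = -r) {s : Bool}
    {j k : ℕ} {ab bb : ℕ × ℕ → Bl}
    (h : ∀ i ∈ LA, Mem ((if i.1 = K then (c : ℂ) else 0) + cf 90 mw mv s i * lam i ^ j * x) (ab i) ∧
      Mem (cf 90 mw mv s i * lam i ^ k * y) (bb i)) {i e : ℕ} {xs : List Z2}
    (hx : Near (fun j => cexp ((lam j + (23 / 20 : ℝ)) * (((1 + 2 * i : ℕ) / (32 : ℕ) : ℝ) : ℂ)))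
      e LA xs) (hc : (mkCT LA ab bb muA).chk tau i xs e = true) {u : ℝ}
    (hu : u ∈ Set.Icc ((i : ℝ) / 16) ((i + 1) / 16)) :
    7 / 10 ^ 5 ≤ Real.exp (23 / 20 * u) *
      (c * Real.exp (-(r * u)) + x * F0 s j u + y * u * F0 s k u) := by
  have h1 := chk_sound (fun i hi => ⟨(h i hi).1, (h i hi).2, mem_muA hi⟩) hx hc hu.1 hu.2
  have e : ∀ (a b d E : ℂ), (a + b * x + d * y * u) * E = a * E + b * E * x + d * E * (y * u : ℝ) :=
    fun _ _ _ _ => by push_cast; ring
  simp only [e, sum_three, ← rep_F0, (sum_on hK _ _).2, ← shift, hr] at h1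
  have h2 : ((c : ℂ) * cexp (-(r : ℂ) * u)).re = c * Real.exp (-(r * u)) := by
    rw [re_ofReal_mul, ← exp_ofReal_re]
    push_cast
    ring_nf
  rw [h2] at h1
  have h3 : (7 / 10 ^ 5 : ℝ) ≤ tau / 2 ^ 160 := by norm_num [tau]
  linarith

theorem muA_ok : ∀ i ∈ LA, Mem (lam i + (23 / 20 : ℝ)) (muA i) ∧ (lam i + (23 / 20 : ℝ)).re ≤ 0 :=
  fun i hi => ⟨mem_muA hi, by rw [add_re, ofReal_re]; linarith [re_LA hi]⟩

theorem cellA_of {n i0 : ℕ} (runG : run LA muA 1 2 32 testG n i0 = true)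
    (runH : run LA muA 1 2 32 testH n i0 = true) {i : ℕ} (hi : i0 ≤ i) (hi' : i < i0 + n) :
    CellA F0 i := by
  intro u hu
  obtain ⟨xs, e, g1, g2⟩ := run_sound muA_ok (by norm_num) runG hi hi'
  obtain ⟨ys, e', h1, h2⟩ := run_sound muA_ok (by norm_num) runH hi hi'
  have m0 : ∀ s, ∀ i ∈ LA, Mem (cf 90 mw mv s i) (c0 s i) := fun s i hi => mem_cf _ _ _ s hi
  have m1 : ∀ s, ∀ i ∈ LA, Mem (cf 90 mw mv s i * lam i) (c1 s i) := fun s i hi =>
    (m0 s i hi).mul (mem_lam hi)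
  have m2 : ∀ s, ∀ i ∈ LA, Mem (cf 90 mw mv s i * lam i * lam i) (c2 s i) := fun s i hi =>
    (m1 s i hi).mul (mem_lam hi)
  have r4 : lam (4, 0) = -aa := rfl
  have r5 : lam (5, 0) = -(6 : ℝ) := by simp [lam]
  unfold testG at g1
  unfold testH at h1
  refine ⟨fun t => ?_, fun t => ?_⟩
  · rw [if_pos t] at g1 h1
    constructor
    · have := cell_of (c := aa ^ 2) (x := -2) (y := -1) (s := false) (j := 1) (k := 2) (.inl rfl) r4
        (fun i hi => ⟨((mem_onK 4 (mem_aa.mul mem_aa) i).add ((m1 _ i hi).mul (Mem.int0 _))).of_eq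
          (by push_cast; rw [sq, pow_one]), (m2 _ i hi).neg.of_eq (by push_cast; ring)⟩) g2 g1 hu
      convert this using 2
      ring
    · have := cell_of (c := AA * 6) (x := 1) (y := 1) (s := true) (j := 1) (k := 2) (.inr rfl) r5
        (fun i hi => ⟨((mem_onK 5 (mem_AA.mul (Mem.int0 _)) i).add (m1 _ i hi)).of_eq
          (by push_cast; rw [mul_one, pow_one]), (m2 _ i hi).of_eq (by push_cast; ring)⟩) h2 h1 hu
      convert this using 2
      ring
  · rw [if_neg t] at g1 h1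
    refine ⟨?_, fun t' => ?_, fun t' => ?_⟩
    · have := cell_of (c := 1) (x := 0) (y := -1) (s := false) (j := 0) (k := 0) (.inl rfl) r4
        (fun i hi => ⟨(mem_onK 4 (Mem.int0 _) i).of_eq (by push_cast; rw [mul_zero, add_zero]),
          (m0 _ i hi).neg.of_eq (by push_cast; ring)⟩) g2 g1 hu
      convert this using 2
      ring
    · rw [if_pos t'] at h1
      have := cell_of (c := AA) (x := 0) (y := -1) (s := true) (j := 0) (k := 1) (.inr rfl) r5
        (fun i hi => ⟨(mem_onK 5 mem_AA i).of_eq (by push_cast; rw [mul_zero, add_zero]),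
          (m1 _ i hi).neg.of_eq (by push_cast; ring)⟩) h2 h1 hu
      convert this using 2
      ring
    · rw [if_neg (by omega)] at h1
      have := cell_of (c := 0) (x := 1) (y := 0) (s := true) (j := 0) (k := 0) (.inr rfl) r5
        (fun i hi => ⟨(m0 _ i hi).of_eq (by simp), (Mem.int0 0).of_eq (by simp)⟩) h2 h1 hu
      convert this using 2
      ring

end Pool.Agent.Lib.MP_a619ca_an.Hx
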