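import Pool.Agent.Lib.MP_a619ca_an.HxRunR

/-!
Kernel evaluation of the periodic main term on one period, and the size of the rest.
-/

namespace Pool.Agent.Lib.MP_a619ca_an.Hx

def toP : CT := mkCT (kind 2 16) (fun i => ocB i.2) (fun _ => z0) muA
def toC : CT := mkCT (kind 2 16) (fun i => ((ocB i.2).mul (lamB i)).mul (lamB i)) (fun _ => z0) muA

noncomputable def testO (i : ℕ) (xs : List Z2) (e : ℕ) : Bool :=
  if tC 1 i then toC.chk (2 ^ 157) i xs e else toP.chk (26 * 2 ^ 160 / 10 ^ 5 + 1) i xs e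

set_option maxRecDepth 100000 in
theorem runO : run (kind 2 16) muA 1 2 32 testO 576 576 = true := by decide +kernel

set_option maxRecDepth 100000 in
theorem tabO : ∀ s,
    (mkTab LR fun i => [c0 s i]).tn + (mkTab LR fun i => [c0 s i]).rn ≤ 700 * 2 ^ 160 ∧
    (mkTab LR fun i => [c2 s i]).tn + (mkTab LR fun i => [c2 s i]).rn ≤ 10 ^ 5 * 2 ^ 160 := by
  decide +kernel

end Pool.Agent.Lib.MP_a619ca_an.Hx
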