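import Pool.Agent.Lib.MP_a619ca_an.HxRes
import Pool.Agent.Lib.MP_a619ca_an.HxRunO

/-!
The inequalities on the cells `i ≥ 480`: a periodic main term and a small rest.
-/

namespace Pool.Agent.Lib.MP_a619ca_an.Hx

open Complex Finset
open scoped Real

set_option exponentiation.threshold 500

theorem sub_LA : (∀ i ∈ kind 2 16, i ∈ LA) ∧ ∀ i ∈ LR, i ∈ LA :=
  ⟨fun _ h => List.mem_append_left _ h, fun _ h => List.mem_append_right _ h⟩

theorem om_rep (j : ℕ) (u : ℝ) (n : ℤ) : Real.exp (23 / 20 * u) * FO false j u =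
    ((kind 2 16).map fun i => (oc i.2 * lam i ^ j + 0 * (u + 36 * n : ℝ)) *
      cexp ((lam i + (23 / 20 : ℝ)) * (u + 36 * n : ℝ))).sum.re := by
  rw [sum_kind, re_sum, FO, mul_sum]
  refine sum_congr rfl fun k _ => ?_
  simp only [atm, lam, Bool.false_eq_true, if_false, shift, zero_mul, add_zero]
  rw [← Complex.exp_periodic.int_mul (k * n) _]
  congr 3
  unfold ol
  push_cast
  ring

theorem om_low {i : ℕ} (hi : 480 ≤ i) {u : ℝ} (hu : u ∈ Set.Icc ((i : ℝ) / 16) ((i + 1) / 16)) :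
    (tC 1 i → 1 / 8 ≤ Real.exp (23 / 20 * u) * FO false 2 u) ∧
    (¬tC 1 i → 26 / 10 ^ 5 ≤ Real.exp (23 / 20 * u) * FO false 0 u) := by
  obtain ⟨xs, e, g1, g2⟩ := run_sound (fun i hi => muA_ok i (sub_LA.1 i hi)) (by norm_num) runO
    (i := 576 + i % 576) (by omega) (by omega)
  have e1 : tC 1 (576 + i % 576) ↔ tC 1 i := by unfold tC node; omega
  have e2 : ((576 + i % 576 : ℕ) : ℝ) = i + 576 * ((1 - (i / 576 : ℕ) : ℤ) : ℝ) := by
    have : ((576 * (i / 576) + i % 576 : ℕ) : ℝ) = i := by rw [Nat.div_add_mod]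
    generalize i / 576 = q at *
    push_cast at *
    linarith
  generalize (1 - (i / 576 : ℕ) : ℤ) = n at e2
  have u1 : ((576 + i % 576 : ℕ) : ℝ) / 16 ≤ u + 36 * n := by rw [e2]; linarith [hu.1]
  have u2 : u + 36 * n ≤ (((576 + i % 576 : ℕ) : ℝ) + 1) / 16 := by rw [e2]; linarith [hu.2]
  have z : Mem 0 z0 := (Mem.int0 0).of_eq (by simp)
  unfold testO at g1
  refine ⟨fun t => ?_, fun t => ?_⟩
  · rw [if_pos (e1.2 t)] at g1
    rw [om_rep 2 u n]
    refine le_trans (by norm_num) (chk_sound (fun i hi => ⟨?_, z, mem_muA (sub_LA.1 i hi)⟩) g2 g1 u1 u2)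
    have := mem_lam (sub_LA.1 i hi)
    exact (((mem_oc _).mul this).mul this).of_eq (by ring)
  · rw [if_neg (mt e1.1 t)] at g1
    rw [om_rep 0 u n]
    refine le_trans (by norm_num) (chk_sound (fun i hi => ⟨?_, z, mem_muA (sub_LA.1 i hi)⟩) g2 g1 u1 u2)
    exact (mem_oc _).of_eq (by ring)

theorem rest_bd {s : Bool} {j : ℕ} {b : ℕ × ℕ → Bl} {T : ℕ}
    (h : ∀ i ∈ LA, Mem (cf 90 mw mv s i * lam i ^ j) (b i))
    (hT : (mkTab LR fun i => [b i]).tn + (mkTab LR fun i => [b i]).rn ≤ T * 2 ^ 160) {u : ℝ}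
    (hu : 30 ≤ u) : |Real.exp (23 / 20 * u) * F0 s j u - (bif s then 1 else -1 : ℤ) / 40 *
      (Real.exp (23 / 20 * u) * FO false j u)| ≤ T * (35 / 10 ^ 10) := by
  have h1 := (abs_re_le_norm _).trans (rows_bound (n := 1) (k := 0) (tb := fun i => [b i])
    (tc := fun i _ => cf 90 mw mv s i * lam i ^ j) (fun i hi => norm_X hi (u := u) (by linarith))
    (fun i hi => ⟨rfl, fun k hk => by
      obtain rfl : k = 0 := by omega
      exact h i (sub_LA.2 i hi)⟩) one_pos)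
  have h2 : (((mkTab LR fun i => [b i]).tn : ℝ) + (mkTab LR fun i => [b i]).rn) / 2 ^ 160 ≤ T := by
    rw [div_le_iff₀ (by positivity)]
    exact_mod_cast hT
  rw [← rep_LR] at h1
  have h3 : Real.exp (-(13 / 20 * u)) ≤ 35 / 10 ^ 10 := by
    refine (Real.exp_le_exp.2 (show _ ≤ -(39 / 2 : ℝ) by linarith)).trans
      (abs_le_of_sq_le_sq' ?_ (by norm_num)).2
    rw [← Real.exp_nat_mul, show ((2 : ℕ) : ℝ) * -(39 / 2) = (39 : ℕ) * (-1) by norm_num,
      Real.exp_nat_mul]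
    exact (pow_le_pow_left₀ (Real.exp_pos _).le Real.exp_neg_one_lt_d9.le _).trans (by norm_num)
  have e : Real.exp (23 / 20 * u) = Real.exp (9 / 5 * u) * Real.exp (-(13 / 20 * u)) := by
    rw [← Real.exp_add]
    ring_nf
  refine le_trans (le_of_eq ?_) (mul_le_mul (h1.trans h2) h3 (Real.exp_pos _).le T.cast_nonneg)
  rw [← abs_of_pos (Real.exp_pos (-(13 / 20 * u))), ← abs_mul, e]
  congr 1
  ring

theorem cellB {i : ℕ} (hi : 480 ≤ i) : CellB F0 i := by
  intro u hu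
  have u1 : 30 ≤ u := by
    have : (480 : ℝ) ≤ i := by exact_mod_cast hi
    linarith [hu.1]
  have m0 : ∀ s, ∀ i ∈ LA, Mem (cf 90 mw mv s i * lam i ^ 0) (c0 s i) := fun s i hi =>
    (mem_cf _ _ _ s hi).of_eq (by simp)
  have m2 : ∀ s, ∀ i ∈ LA, Mem (cf 90 mw mv s i * lam i ^ 2) (c2 s i) := fun s i hi =>
    (((mem_cf _ _ _ s hi).mul (mem_lam hi)).mul (mem_lam hi)).of_eq (by ring)
  have a0 := fun s => abs_le.1 (rest_bd (m0 s) (tabO s).1 u1)
  have a2 := fun s => abs_le.1 (rest_bd (m2 s) (tabO s).2 u1)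
  have b0 := a0 false
  have b1 := a0 true
  have b2 := a2 false
  have b3 := a2 true
  simp only [cond_true, cond_false] at b0 b1 b2 b3
  push_cast at b0 b1 b2 b3
  refine ⟨fun t => ?_, fun t => ?_⟩
  · have := (om_low hi hu).1 t
    constructor <;> linarith
  · have := (om_low hi hu).2 t
    constructor <;> linarith

end Pool.Agent.Lib.MP_a619ca_an.Hx
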