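import Pool.Agent.Lib.MP_a619ca_an.HxEng

/-!
Lower bounds for `Re ∑ (α + β u) exp (μ u)` on a cell `[i / 16, (i + 1) / 16]` by Taylor expansion.
-/

namespace Pool.Agent.Lib.MP_a619ca_an.Hx

open Complex Finset

set_option exponentiation.threshold 500

def serB (a z : Bl) (k : ℕ) : Bl := a.mul (z.tay k).1
def rowC (a b z : Bl) : List Bl := (List.range 8).map (serB a z) ++ (List.range 8).map (serB b z)

/-- the tables of a cell test -/
structure CT where
  tab : Tab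
  ra : ℕ
  rb : ℕ
  zok : Bool

def mkCT {ι : Type} (L : List ι) (ab bb mb : ι → Bl) : CT :=
  ⟨mkTab L (fun i => rowC (ab i) (bb i) ((mb i).div 32)),
    (L.map fun i => 2 * (serB (ab i) ((mb i).div 32) 8).up).sum,
    (L.map fun i => 2 * (serB (bb i) ((mb i).div 32) 8).up).sum,
    L.all fun i => decide (((mb i).div 32).up ≤ 2 ^ 160)⟩

def low (g : ℕ → ℤ) (m : ℤ) : ℤ :=
  32 * g 0 + m * g 8 - |32 * g 1 + m * g 9 + g 8| - |32 * g 2 + m * g 10 + g 9| -
    |32 * g 3 + m * g 11 + g 10| - |32 * g 4 + m * g 12 + g 11| - |32 * g 5 + m * g 13 + g 12| -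
    |32 * g 6 + m * g 14 + g 13| - |32 * g 7 + m * g 15 + g 14| - |g 15|

noncomputable def CT.chk (t : CT) (τ i : ℕ) (xs : List Z2) (e : ℕ) : Bool :=
  t.tab.ok e && t.zok && decide (((32 * τ * 2 ^ 160 + 32 * (8 * t.tab.err e + t.ra * 2 ^ 160) +
    (2 * i + 2) * (8 * t.tab.err e + t.rb * 2 ^ 160) : ℕ) : ℤ) ≤
      low (fun k => (t.tab.dots 16 xs).getD k 0) (2 * i + 1))

theorem mem_serB {a z : ℂ} {ab zb : Bl} (ha : Mem a ab) (hz : Mem z zb) (k : ℕ) :
    Mem (a * (z ^ k / k.factorial)) (serB ab zb k) := ha.mul (hz.tay k).1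

theorem series {ι : Type} (L : List ι) {a z X : ι → ℂ} {ab zb : ι → Bl} {s : ℝ} (hs : |s| ≤ 1)
    (h : ∀ i ∈ L, Mem (a i) (ab i) ∧ Mem (z i) (zb i) ∧ ‖z i‖ ≤ 1 ∧ ‖X i‖ ≤ 1) :
    ‖(L.map fun i => a i * (X i * cexp (z i * s))).sum - ∑ k ∈ range 8,
      (L.map fun i => a i * (z i ^ k / k.factorial) * X i).sum * s ^ k‖ ≤
      ((L.map fun i => 2 * (serB (ab i) (zb i) 8).up).sum : ℕ) / 2 ^ 160 := by
  induction L with
  | nil => simp
  | cons i L ih =>
    have h1 := ih fun i hi => h i (List.mem_cons_of_mem _ hi)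
    obtain ⟨h2, h3, h4, h5⟩ := h i List.mem_cons_self
    have h6 := (mem_serB h2 h3 8).up
    have h7 : ‖z i * s‖ ≤ ‖z i‖ := by
      rw [norm_mul, norm_real, Real.norm_eq_abs]
      exact mul_le_of_le_one_right (norm_nonneg _) hs
    have h8 := Complex.exp_bound' (x := z i * s) (n := 8) (by
      rw [div_le_iff₀ (by positivity)]; push_cast; linarith)
    have h9 : ‖a i * X i * (cexp (z i * s) - ∑ k ∈ range 8, (z i * s) ^ k / k.factorial)‖ ≤
        ‖a i‖ * 1 * (‖z i‖ ^ 8 / (Nat.factorial 8 : ℕ) * 2) := by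
      rw [norm_mul, norm_mul]
      refine mul_le_mul (by gcongr) (h8.trans (by gcongr)) (norm_nonneg _) (by positivity)
    rw [norm_mul, norm_div, norm_pow, norm_natCast] at h6
    simp only [List.map_cons, List.sum_cons, add_mul, sum_add_distrib]
    rw [add_sub_add_comm]
    refine (norm_add_le _ _).trans ?_
    have e : a i * (X i * cexp (z i * s)) - ∑ k ∈ range 8,
        a i * (z i ^ k / k.factorial) * X i * s ^ k =
        a i * X i * (cexp (z i * s) - ∑ k ∈ range 8, (z i * s) ^ k / k.factorial) := by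
      rw [mul_sub, mul_sum, mul_assoc]
      congr 1
      exact sum_congr rfl fun k _ => by ring
    rw [e, Nat.cast_add, Nat.cast_mul, Nat.cast_ofNat, add_div, mul_div_assoc]
    linarith

theorem low_le (g : ℕ → ℝ) (m : ℝ) {s : ℝ} (hs : |s| ≤ 1) :
    32 * g 0 + m * g 8 - |32 * g 1 + m * g 9 + g 8| - |32 * g 2 + m * g 10 + g 9| -
    |32 * g 3 + m * g 11 + g 10| - |32 * g 4 + m * g 12 + g 11| - |32 * g 5 + m * g 13 + g 12| -
    |32 * g 6 + m * g 14 + g 13| - |32 * g 7 + m * g 15 + g 14| - |g 15| ≤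
      32 * ∑ k ∈ range 8, g k * s ^ k + (m + s) * ∑ k ∈ range 8, g (8 + k) * s ^ k := by
  have h : ∀ (x : ℝ) (k : ℕ), -|x| ≤ x * s ^ k := fun x k => by
    refine le_trans (neg_le_neg ?_) (neg_abs_le _)
    rw [abs_mul, abs_pow]
    exact mul_le_of_le_one_right (abs_nonneg _) (pow_le_one₀ (abs_nonneg _) hs)
  simp only [sum_range_succ, sum_range_zero]
  linarith [h (32 * g 1 + m * g 9 + g 8) 1, h (32 * g 2 + m * g 10 + g 9) 2,
    h (32 * g 3 + m * g 11 + g 10) 3, h (32 * g 4 + m * g 12 + g 11) 4,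
    h (32 * g 5 + m * g 13 + g 12) 5, h (32 * g 6 + m * g 14 + g 13) 6,
    h (32 * g 7 + m * g 15 + g 14) 7, h (g 15) 8]

theorem poly_err {g G : ℕ → ℝ} {ε s : ℝ} (hs : |s| ≤ 1) (h : ∀ k < 8, |g k - G k| ≤ ε) :
    |∑ k ∈ range 8, g k * s ^ k - ∑ k ∈ range 8, G k * s ^ k| ≤ 8 * ε := by
  rw [← sum_sub_distrib]
  refine (abs_sum_le_sum_abs _ _).trans ((sum_le_card_nsmul _ _ ε fun k hk => ?_).trans (by simp))
  rw [← sub_mul, abs_mul, abs_pow]
  exact (mul_le_of_le_one_right (abs_nonneg _) (pow_le_one₀ (abs_nonneg _) hs)).trans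
    (h k (mem_range.1 hk))

theorem sum_lin {ι : Type} (L : List ι) (f g : ι → ℂ) (u : ℝ) :
    (L.map fun i => f i + g i * u).sum.re = (L.map f).sum.re + u * (L.map g).sum.re := by
  induction L with
  | nil => simp
  | cons i L ih => simp only [List.map_cons, List.sum_cons, add_re, ih, re_mul_ofReal]; ring

theorem chk_sound {ι : Type} {L : List ι} {a b mu : ι → ℂ} {ab bb mb : ι → Bl}
    (h : ∀ i ∈ L, Mem (a i) (ab i) ∧ Mem (b i) (bb i) ∧ Mem (mu i) (mb i)) {τ i e : ℕ}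
    {xs : List Z2} (hx : Near (fun j => cexp (mu j * (((1 + 2 * i : ℕ) / (32 : ℕ) : ℝ) : ℂ))) e L xs)
    (hc : (mkCT L ab bb mb).chk τ i xs e = true) {u : ℝ} (h1 : (i : ℝ) / 16 ≤ u)
    (h2 : u ≤ (i + 1) / 16) :
    (τ : ℝ) / 2 ^ 160 ≤ (L.map fun j => (a j + b j * u) * cexp (mu j * u)).sum.re := by
  simp only [CT.chk, Bool.and_eq_true, decide_eq_true_eq] at hc
  obtain ⟨⟨c1, c2⟩, c3⟩ := hc
  obtain ⟨s, hs⟩ : ∃ s : ℝ, s = 32 * u - (2 * i + 1) := ⟨_, rfl⟩
  have s1 : |s| ≤ 1 := abs_le.2 ⟨by linarith, by linarith⟩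
  set X : ι → ℂ := fun j => cexp (mu j * (((1 + 2 * i : ℕ) / (32 : ℕ) : ℝ) : ℂ)) with hX
  have x1 : ∀ j ∈ L, ‖X j‖ ≤ 1 := fun j hj => by
    obtain ⟨n, hn, rfl⟩ := List.getElem_of_mem hj
    exact (List.Forall₂.get hx hn (hx.length_eq ▸ hn)).2
  have z1 : ∀ j ∈ L, Mem (mu j / (32 : ℕ)) ((mb j).div 32) := fun j hj =>
    (h j hj).2.2.div (by norm_num)
  have z2 : ∀ j ∈ L, ‖mu j / (32 : ℕ)‖ ≤ 1 := fun j hj => (z1 j hj).up.trans (by
    rw [div_le_one (by positivity)]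
    exact_mod_cast of_decide_eq_true (List.all_eq_true.1 c2 j hj))
  have r : Rows (fun j k => if k < 8 then a j * ((mu j / (32 : ℕ)) ^ k / k.factorial)
      else b j * ((mu j / (32 : ℕ)) ^ (k - 8) / (k - 8).factorial))
      (fun j => rowC (ab j) (bb j) ((mb j).div 32)) 16 L := fun j hj => by
    refine ⟨by simp [rowC], fun k hk => ?_⟩
    unfold rowC
    beta_reduce
    split_ifs with k8
    · rw [List.getD_append _ _ _ _ (by simpa using k8), List.getD_eq_getElem _ _ (by simpa using k8)]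
      simpa using mem_serB (h j hj).1 (z1 j hj) k
    · rw [List.getD_append_right _ _ _ _ (by simpa using k8),
        List.getD_eq_getElem _ _ (by simp; omega)]
      simpa using mem_serB (h j hj).2.1 (z1 j hj) (k - 8)
  have d := fun k hk => dots_sound hx r c1 (k := k) hk
  have e1 : ∀ j, cexp (mu j * u) = X j * cexp (mu j / (32 : ℕ) * s) := fun j => by
    rw [hX, ← Complex.exp_add, hs]
    push_cast
    ring_nf
  have A := (abs_re_le_norm _).trans (series L (a := a) (X := X) s1 fun j hj =>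
    ⟨(h j hj).1, z1 j hj, z2 j hj, x1 j hj⟩)
  have B := (abs_re_le_norm _).trans (series L (a := b) (X := X) s1 fun j hj =>
    ⟨(h j hj).2.1, z1 j hj, z2 j hj, x1 j hj⟩)
  have A' := poly_err s1 fun k hk => (d k (by omega)).trans_eq' (by simp only [if_pos hk]; rfl)
  have B' := poly_err s1 fun k hk => (d (8 + k) (by omega)).trans_eq' (by
    simp only [if_neg (show ¬8 + k < 8 by omega), Nat.add_sub_cancel_left]; rfl)
  have C := low_le (fun k => (((mkCT L ab bb mb).tab.dots 16 xs).getD k 0 : ℝ) / 2 ^ 320) (2 * i + 1) s1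
  have e2 : ∀ j, (a j + b j * u) * cexp (mu j * u) = a j * (X j * cexp (mu j / (32 : ℕ) * s)) +
      b j * (X j * cexp (mu j / (32 : ℕ) * s)) * u := fun j => by rw [e1]; ring
  simp only [e2, sum_lin]
  simp only [sub_re, re_sum, ← ofReal_pow, re_mul_ofReal] at A B
  have c4 := (Int.cast_le (R := ℝ)).2 c3
  unfold low at c4
  simp only [mkCT] at *
  generalize (mkTab L (fun i => rowC (ab i) (bb i) ((mb i).div 32))) = T at *
  have q : ∀ x y z : ℝ, |32 * (x / 2 ^ 320) + (2 * i + 1) * (y / 2 ^ 320) + z / 2 ^ 320| =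
      |32 * x + (2 * i + 1) * y + z| / 2 ^ 320 := fun x y z => by
    rw [← abs_of_pos (show (0 : ℝ) < 2 ^ 320 by positivity), ← abs_div, abs_of_pos
      (show (0 : ℝ) < 2 ^ 320 by positivity)]
    congr 1
    ring
  simp only [q, abs_div, abs_of_pos (show (0 : ℝ) < 2 ^ 320 by positivity)] at C
  generalize (List.map (fun i => 2 * (serB (ab i) ((mb i).div 32) 8).up) L).sum = ra at *
  generalize (List.map (fun i => 2 * (serB (bb i) ((mb i).div 32) 8).up) L).sum = rb at *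
  push_cast at c4
  have u1 : 0 ≤ 32 * u := by have : (0 : ℝ) ≤ i := i.cast_nonneg; linarith
  have u2 : 32 * u ≤ 2 * i + 2 := by linarith
  have u3 : 2 * i + 1 + s = 32 * u := by linarith
  rw [u3] at C
  have D := mul_le_mul_of_nonneg_left (add_le_add (abs_le.1 B).1 (neg_le_neg (abs_le.1 B').2)) u1
  have E : 32 * u * (8 * ((T.err e : ℝ) / 2 ^ 320) + rb / 2 ^ 160) ≤
      (2 * i + 2) * (8 * ((T.err e : ℝ) / 2 ^ 320) + rb / 2 ^ 160) := by gcongr
  linarith [(abs_le.1 A).1, (abs_le.1 A').2]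

end Pool.Agent.Lib.MP_a619ca_an.Hx
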