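import Pool.Agent.Lib.MP_a619ca_an.Sph

/-!
The linear programming lower bound.
-/

namespace Pool.Agent.Lib.MP_a619ca_an

open Polynomial Finset Real Filter

theorem Gram.offdiag {q : ℝ[X]} (hq : Gram q) {ι : Type*} [Fintype ι] [DecidableEq ι] (x : ι → S2) :
    (Fintype.card ι : ℝ) ^ 2 * La q - Fintype.card ι * q.eval 1 ≤
      ∑ i, ∑ j ∈ univ.erase i, q.eval (ip (x i) (x j)) := by
  have h := hq.sum_ge x
  have h2 : ∀ i, ∑ j, q.eval (ip (x i) (x j)) =
      q.eval 1 + ∑ j ∈ univ.erase i, q.eval (ip (x i) (x j)) := fun i => by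
    rw [← add_sum_erase _ _ (mem_univ i), ip_self]
  simp only [h2, sum_add_distrib, sum_const, card_univ, nsmul_eq_mul] at h
  linarith

theorem harmonic_ge (n : ℕ) : eulerMascheroniConstant + log (n + 1 / 2) ≤ harmonic n := by
  have h : Antitone fun n : ℕ => (harmonic n : ℝ) - log (n + 1 / 2) := by
    refine antitone_nat_of_succ_le fun n => ?_
    have h0 : (0 : ℝ) < n + 1 / 2 := by positivity
    have h1 := le_log_one_add_of_nonneg (x := 1 / ((n : ℝ) + 1 / 2)) (by positivity)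
    rw [show 1 + 1 / ((n : ℝ) + 1 / 2) = (n + 1 + 1 / 2) / (n + 1 / 2) by field_simp; ring,
      log_div (by positivity) h0.ne',
      show 2 * (1 / ((n : ℝ) + 1 / 2)) / (1 / ((n : ℝ) + 1 / 2) + 2) = ((n : ℝ) + 1)⁻¹ by
        field_simp; ring] at h1
    rw [harmonic_succ]
    push_cast
    linarith
  have h2 : eulerMascheroniConstant ≤ harmonic n - log (n + 1 / 2) := by
    refine le_of_tendsto tendsto_harmonic_sub_log_add_one (eventually_atTop.2 ⟨n, fun k hk => ?_⟩)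
    have h3 := log_le_log (show (0 : ℝ) < k + 1 / 2 by positivity)
      (show (k : ℝ) + 1 / 2 ≤ k + 1 by linarith)
    have h4 := h hk
    simp only at h4
    linarith
  linarith

theorem sum_harmonic (n : ℕ) : ∑ j ∈ range (n + 1), (2 * (j : ℝ) + 1) * harmonic j =
    ((n : ℝ) + 1) ^ 2 * harmonic n - n * (n + 1) / 2 := by
  induction n with
  | zero => simp
  | succ n ih =>
    rw [sum_range_succ, ih, harmonic_succ]
    push_cast
    field_simp
    ring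

theorem sum_tri (n : ℕ) : ∑ j ∈ range (n + 1), (2 * (j : ℝ) + 1) * (j * ((j : ℝ) + 1) / 2) =
    ((n : ℝ) + 1) ^ 2 * (n * (n + 2) / 4) := by
  induction n with
  | zero => simp
  | succ n ih =>
    rw [sum_range_succ, ih]
    push_cast
    ring

/-- the auxiliary polynomial -/
theorem exists_aux (n : ℕ) : ∃ H : ℝ[X], Gram H ∧ (∀ t, (2 - 2 * t) * H.eval t ≤ 1) ∧
    H.eval 1 = n * (n + 2) / 4 ∧ La H = (harmonic n - n ^ 2 / (4 * ((n : ℝ) + 1) ^ 2)) / 2 := by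
  have hn : (0 : ℝ) < ((n : ℝ) + 1) ^ 2 := by positivity
  obtain ⟨Q, hQ⟩ : ∃ Q, Q = ∑ j ∈ range (n + 1), C (2 * (j : ℝ) + 1) * QQ j := ⟨_, rfl⟩
  have q1 : Gram Q := hQ ▸ Gram.sum _ fun j _ => (gram_QQ j).C_mul (by positivity)
  have q2 : Q ∈ VV n := hQ ▸ sum_mem fun j hj =>
    C_mul_mem _ (VV_mono (by have := mem_range.1 hj; omega) (QQ_mem j))
  have q3 : Q.eval 1 = ((n : ℝ) + 1) ^ 2 * (n * (n + 2) / 4) := by
    simp only [hQ, eval_finsetSum, eval_mul, eval_C, QQ_eval, sum_tri]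
  have q4 : La Q = ((n : ℝ) + 1) ^ 2 * harmonic n - n * (n + 1) / 2 := by
    simp only [hQ, map_sum, La_C_mul, La_QQ, sum_harmonic]
  have q5 : ∀ t, (1 - t) * Q.eval t = ((n : ℝ) + 1) ^ 2 - (DD n).eval t := fun t => by
    have h : ∀ j, (1 - t) * (QQ j).eval t = 1 - (PP j).eval t := fun j => by
      simpa using congrArg (eval t) (QQ_mul j)
    rw [← DD_eval, hQ, DD]
    simp only [eval_finsetSum, eval_mul, eval_C, PP_eval_one, mul_sum, ← sum_sub_distrib]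
    exact sum_congr rfl fun j _ => by linear_combination (2 * (j : ℝ) + 1) * h j
  refine ⟨C (1 / (2 * ((n : ℝ) + 1) ^ 2)) * (Q + C (1 / ((n : ℝ) + 1) ^ 2) * (Q * DD n)),
    (q1.add ((q1.mul (gram_DD n)).C_mul (by positivity))).C_mul (by positivity), fun t => ?_, ?_, ?_⟩
  · simp only [eval_mul, eval_add, eval_C]
    have e : (2 - 2 * t) * (1 / (2 * ((n : ℝ) + 1) ^ 2) *
        (Q.eval t + 1 / ((n : ℝ) + 1) ^ 2 * (Q.eval t * (DD n).eval t))) =
        ((1 - t) * Q.eval t) * (((n : ℝ) + 1) ^ 2 + (DD n).eval t) / (((n : ℝ) + 1) ^ 2) ^ 2 := by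
      field_simp
    rw [e, q5, div_le_one (by positivity)]
    nlinarith [sq_nonneg ((DD n).eval t)]
  · simp only [eval_mul, eval_add, eval_C, q3, DD_eval]
    field_simp
    ring
  · rw [La_C_mul, map_add, La_C_mul, La_DD q2, q3, q4]
    field_simp
    ring

theorem ip_lt {x y : S2} (h : x ≠ y) : 0 < 2 - 2 * ip x y := by
  rw [← dist_sq_eq]
  exact pow_pos (dist_pos.2 h) 2

theorem energy_ge {N : ℕ} (hN : 1 ≤ N) (x : Fin N → S2) (hx : Function.Injective x) :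
    1 / 4 * (N : ℝ) ^ 2 * log N + (eulerMascheroniConstant / 2 - 3 / 8) * (N : ℝ) ^ 2 - 2 * N ≤
      ∑ i, ∑ j ∈ univ.erase i, (dist (x i) (x j) ^ 2)⁻¹ := by
  have hN' : (1 : ℝ) ≤ N := by exact_mod_cast hN
  have s1 : 1 ≤ √(N : ℝ) := one_le_sqrt.2 hN'
  have s2 : √(N : ℝ) ^ 2 = N := sq_sqrt (by linarith)
  obtain ⟨n, hn⟩ : ∃ n, ⌈√(N : ℝ)⌉₊ = n + 1 :=
    ⟨_, (Nat.succ_pred_eq_of_pos (Nat.ceil_pos.2 (by linarith))).symm⟩
  have m1 : √(N : ℝ) ≤ n + 1 := by exact_mod_cast hn ▸ Nat.le_ceil √(N : ℝ)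
  have m2 : (n : ℝ) + 1 < √(N : ℝ) + 1 := by
    exact_mod_cast hn ▸ Nat.ceil_lt_add_one (sqrt_nonneg (N : ℝ))
  obtain ⟨H, h1, h2, h3, h4⟩ := exists_aux n
  have h5 := h1.offdiag x
  rw [h3, h4, Fintype.card_fin] at h5
  refine le_trans ?_ (h5.trans (sum_le_sum fun i _ => sum_le_sum fun j hj => ?_))
  swap
  · have h6 := ip_lt (hx.ne (ne_of_mem_erase hj).symm)
    rw [dist_sq_eq, inv_eq_one_div, le_div_iff₀ h6, mul_comm]
    exact h2 _
  have a1 := harmonic_ge n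
  generalize (harmonic n : ℝ) = h at *
  obtain ⟨m, hm⟩ : ∃ m : ℝ, (n : ℝ) = m - 1 := ⟨n + 1, by ring⟩
  clear h3 h4 h5
  rw [hm] at m1 m2 a1 ⊢
  have m0 : 1 ≤ m := by linarith
  have a2 := one_sub_inv_le_log_of_pos (x := (m - 1 + 1 / 2) / m) (div_pos (by linarith) (by linarith))
  rw [log_div (by linarith) (by linarith)] at a2
  have a3 : -(1 / 4) - 3 / (4 * m ^ 2) ≤
      1 - ((m - 1 + 1 / 2) / m)⁻¹ - (m - 1) ^ 2 / (4 * (m - 1 + 1) ^ 2) := by
    have : 0 < m - 1 + 1 / 2 := by linarith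
    rw [← sub_nonneg, show 1 - ((m - 1 + 1 / 2) / m)⁻¹ - (m - 1) ^ 2 / (4 * (m - 1 + 1) ^ 2) -
      (-(1 / 4) - 3 / (4 * m ^ 2)) = (m - 1) / (4 * m ^ 2 * (m - 1 + 1 / 2)) by
        rw [sub_add_cancel, inv_div]
        obtain ⟨w, hw⟩ : ∃ w, m - 1 + 1 / 2 = w := ⟨_, rfl⟩
        rw [hw] at this ⊢
        field_simp
        rw [← hw]
        ring]
    exact div_nonneg (by linarith) (by positivity)
  obtain ⟨y, hy⟩ : ∃ y : ℝ, y = m ^ 2 / N - 1 := ⟨_, rfl⟩
  have y0 : m ^ 2 = N * (1 + y) := by rw [hy]; field_simp; ring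
  have y1 : 0 ≤ y := by
    have : N * 1 ≤ N * (1 + y) := by nlinarith
    linarith [le_of_mul_le_mul_left this (by linarith)]
  have y2 : N * y ≤ 3 * √(N : ℝ) := by nlinarith
  have y3 : N * (N * y ^ 2) ≤ N * 9 := by
    nlinarith [pow_le_pow_left₀ (by positivity) y2 2]
  have y4 := le_of_mul_le_mul_left y3 (by linarith)
  have a4 := le_log_one_add_of_nonneg y1
  have a5 : y - y ^ 2 / 2 ≤ 2 * y / (y + 2) := by
    rw [le_div_iff₀ (by linarith)]
    nlinarith [pow_nonneg y1 3]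
  have a6 : 2 * log m = log N + log (1 + y) := by
    rw [← log_mul (by linarith) (by linarith), ← y0, log_pow]
    norm_num
  have a7 : N * (3 / (4 * m ^ 2)) ≤ 3 / 4 := by
    rw [y0, ← mul_div_assoc, div_le_div_iff₀ (by positivity) (by norm_num)]
    nlinarith
  have a8 : log N / 4 + (y - y ^ 2 / 2) / 4 + eulerMascheroniConstant / 2 - 1 / 8 -
      3 / (4 * m ^ 2) / 2 ≤ (h - (m - 1) ^ 2 / (4 * (m - 1 + 1) ^ 2)) / 2 := by linarith
  have a9 := mul_le_mul_of_nonneg_left a8 (sq_nonneg (N : ℝ))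
  have b1 := mul_le_mul_of_nonneg_left a7 (show (0 : ℝ) ≤ N by linarith)
  have b2 := mul_le_mul_of_nonneg_left y4 (show (0 : ℝ) ≤ N by linarith)
  have b3 : (m - 1) * (m - 1 + 2) = N * (1 + y) - 1 := by rw [← y0]; ring
  rw [b3]
  nlinarith

/-- the set of energies -/
def energies (N : ℕ) : Set ℝ :=
  {e : ℝ | ∃ x : Fin N → E3, Function.Injective x ∧ (∀ i, ‖x i‖ = 1) ∧
    e = ∑ i, ∑ j ∈ Finset.univ.erase i, (‖x i - x j‖ ^ 2)⁻¹}

theorem mem_energies {N : ℕ} {e : ℝ} : e ∈ energies N ↔ ∃ x : Fin N → S2, Function.Injective x ∧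
    e = ∑ i, ∑ j ∈ univ.erase i, (dist (x i) (x j) ^ 2)⁻¹ := by
  constructor
  · rintro ⟨x, h1, h2, rfl⟩
    refine ⟨fun i => ⟨x i, by simp [h2]⟩, fun i j h => h1 (congrArg Subtype.val h), ?_⟩
    simp only [Subtype.dist_eq, dist_eq_norm]
  · rintro ⟨x, h1, rfl⟩
    refine ⟨fun i => x i, Subtype.val_injective.comp h1, fun i => S2.norm_eq _, ?_⟩
    simp only [Subtype.dist_eq, dist_eq_norm]

theorem energies_nonempty (N : ℕ) : (energies N).Nonempty := by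
  refine ⟨_, fun i => sph 0 (1 / (i + 1)), fun i j h => ?_, fun i => norm_sph _ ?_, rfl⟩
  · have h2 := congrArg (fun v : E3 => v 2) h
    simp only [sph, Matrix.cons_val, one_div, inv_inj, add_left_inj, Nat.cast_inj] at h2
    exact Fin.ext h2
  · refine pow_le_one₀ (by positivity) ?_
    rw [div_le_one (by positivity)]
    linarith [Nat.cast_nonneg (α := ℝ) i]

theorem energies_bdd (N : ℕ) : BddBelow (energies N) := by
  refine ⟨0, ?_⟩
  rintro _ ⟨x, -, -, rfl⟩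
  positivity

theorem lower {N : ℕ} (hN : 1 ≤ N) :
    1 / 4 * (N : ℝ) ^ 2 * log N + (eulerMascheroniConstant / 2 - 3 / 8) * (N : ℝ) ^ 2 - 2 * N ≤
      sInf (energies N) := by
  refine le_csInf (energies_nonempty N) fun e he => ?_
  obtain ⟨x, h1, rfl⟩ := mem_energies.1 he
  exact energy_ge hN x h1

end Pool.Agent.Lib.MP_a619ca_an
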