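import Pool.Agent.Lib.MP_a619ca_an.Energy
import Pool.Agent.Lib.MP_a619ca_an.Lower

/-!
Definitions for the sharp linear programming function of the hexagonal lattice.
Radial functions of the plane are written in the variable `u = |Y| ^ 2`. The Fourier transform,
normalised for the lattice with norm form `Q`, sends `exp (l u)` to `ph l * exp (SS l * u)`.
-/

namespace Pool.Agent.Lib.MP_a619ca_an.Hx

open MeasureTheory Set Real Finset
open scoped InnerProductSpace

abbrev E2 := EuclideanSpace ℝ (Fin 2)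

/-- the exponent of the transformed Gaussian -/
noncomputable def SS (l : ℂ) : ℂ := (AA : ℂ) ^ 2 / l

/-- the factor of the transformed Gaussian -/
noncomputable def ph (l : ℂ) : ℂ := -(AA : ℂ) / l

/-- the splitting point `2 π ^ 2 / 9` -/
noncomputable def aa : ℝ := AA ^ 2 / 6

/-- the exponential integral `E₁ (6 v)` -/
noncomputable def Ei (v : ℝ) : ℝ := ∫ t in Ioi v, exp (-(6 * t)) / t

/-- `p` is the normalised Fourier transform of `q` -/
def FT (p q : ℝ → ℝ) : Prop :=
  ∀ Y : E2, p (‖Y‖ ^ 2) = AA / π * ∫ z : E2, q (‖z‖ ^ 2) * cos (2 * AA * ⟪z, Y⟫_ℝ)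

/-- `F s j` is the `j`-th derivative (`j ≤ 2`) of a radial function (`s = false`) and of its
transform (`s = true`), with exponential bounds and Poisson summation. -/
structure Good (a B : ℝ) (F : Bool → ℕ → ℝ → ℝ) : Prop where
  der : ∀ s j u, j < 2 → 0 < u → HasDerivAt (F s j) (F s (j + 1) u) u
  cont : ∀ s, ContinuousOn (F s 0) (Ici 0)
  bd : ∀ s j u, j ≤ 2 → 0 ≤ u → |F s j u| ≤ B * exp (-(a * u))
  ft : ∀ s, FT (F s 0) (F (!s) 0)
  pois : ∑' v : ℤ × ℤ, F false 0 (Q v) = ∑' v : ℤ × ℤ, F true 0 (Q v)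

/-- a single complex Gaussian -/
noncomputable def atm (w l : ℂ) (s : Bool) (j : ℕ) (u : ℝ) : ℝ :=
  if s then (w * ph l * SS l ^ j * Complex.exp (SS l * u)).re
  else (w * l ^ j * Complex.exp (l * u)).re

/-- exchange of the two sides -/
def swp {α : Type*} (F : Bool → α) (s : Bool) : α := F (!s)

/-- the interpolation nodes: a periodic set containing all non-zero values of `Q` -/
def node (n : ℕ) : Prop := 0 < n ∧ n % 4 ≠ 2 ∧ n % 3 ≠ 2 ∧ n % 9 ≠ 6

instance : DecidablePred node := fun n => by unfold node; infer_instance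

/-- the weights -/
noncomputable def WW (m : ℕ) : ℝ :=
  if m < 43 then exp (9 / 5 * m) / 10 ^ 4 else 10 ^ 9 * exp (23 / 20 * m)

/-- the weighted size of interpolation data is at most `x` -/
def Small (T : Bool → ℕ → ℕ → ℝ) (x : ℝ) : Prop :=
  ∀ M, ∑ m ∈ range M, (if node m then
    WW m * (|T false 0 m| + |T false 1 m| + |T true 0 m| + |T true 1 m|) else 0) ≤ x

/-- unit data at the node `n`, derivative `j`, on the side `false` -/
def dlt (n j : ℕ) (s : Bool) (i m : ℕ) : ℝ := if s = false ∧ i = j ∧ m = n then 1 else 0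

/-- existence of an approximate basis function -/
def Basis (n j : ℕ) : Prop :=
  ∃ F, Good (23 / 20) (10 ^ 9 * WW n) F ∧ Small (fun s i m => dlt n j s i m - F s i m) (WW n / 2)

theorem WW_pos (m : ℕ) : 0 < WW m := by
  unfold WW
  split_ifs <;> positivity

theorem AA_sq : AA ^ 2 = 4 * π ^ 2 / 3 := by
  unfold AA
  rw [div_pow, Real.sq_sqrt (by norm_num)]
  ring

theorem aa_pos : 0 < aa := by
  have := AA_pos
  unfold aa
  positivity

end Pool.Agent.Lib.MP_a619ca_an.Hx
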