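import Pool.Agent.Lib.MP_a619ca_an.HxDefs

/-!
Interpolation targets and the certified inequalities for the approximate function.
-/

namespace Pool.Agent.Lib.MP_a619ca_an.Hx

open Set Real

/-- the values and derivatives to be interpolated -/
noncomputable def tgt (s : Bool) (j m : ℕ) : ℝ :=
  if s then (if j = 0 then -(AA * Ei m) else AA * exp (-(6 * (m : ℝ))) / m)
  else if j = 0 then exp (-(aa * m)) / m else -((aa / m + 1 / m ^ 2) * exp (-(aa * m)))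

/-- the cell `[i / 16, (i + 1) / 16]` lies within `D / 16` of a node -/
def tC (D i : ℕ) : Prop := node ((i + D) / 16) ∧ (i + D) % 16 < 2 * D

instance (D : ℕ) : DecidablePred (tC D) := fun i => by unfold tC; infer_instance

/-- inequalities on the cell `i < 480` -/
def CellA (F : Bool → ℕ → ℝ → ℝ) (i : ℕ) : Prop :=
  ∀ u ∈ Icc ((i : ℝ) / 16) ((i + 1) / 16),
    (tC 2 i →
      7 / 10 ^ 5 ≤ exp (23 / 20 * u) *
        (aa ^ 2 * exp (-(aa * u)) - 2 * F false 1 u - u * F false 2 u) ∧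
      7 / 10 ^ 5 ≤ exp (23 / 20 * u) * (6 * AA * exp (-(6 * u)) + F true 1 u + u * F true 2 u)) ∧
    (¬tC 2 i →
      7 / 10 ^ 5 ≤ exp (23 / 20 * u) * (exp (-(aa * u)) - u * F false 0 u) ∧
      (i < 16 → 7 / 10 ^ 5 ≤ exp (23 / 20 * u) * (AA * exp (-(6 * u)) - u * F true 1 u)) ∧
      (16 ≤ i → 7 / 10 ^ 5 ≤ exp (23 / 20 * u) * F true 0 u))

/-- inequalities on the cell `i ≥ 480` -/
def CellB (F : Bool → ℕ → ℝ → ℝ) (i : ℕ) : Prop :=
  ∀ u ∈ Icc ((i : ℝ) / 16) ((i + 1) / 16),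
    (tC 1 i → 1 / 10 ^ 3 ≤ -(exp (23 / 20 * u) * F false 2 u) ∧
      1 / 10 ^ 3 ≤ exp (23 / 20 * u) * F true 2 u) ∧
    (¬tC 1 i → 4 / 10 ^ 6 ≤ -(exp (23 / 20 * u) * F false 0 u) ∧
      4 / 10 ^ 6 ≤ exp (23 / 20 * u) * F true 0 u)

end Pool.Agent.Lib.MP_a619ca_an.Hx
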