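import Pool.Agent.Lib.MP_a619ca_an.HxDefs

/-!
Facts on the exponential integral `Ei` and a Pade enclosure at the positive integers.
-/

namespace Pool.Agent.Lib.MP_a619ca_an.Hx

open MeasureTheory Set Real Finset Filter Topology

theorem int_exp6 (v : ℝ) : IntegrableOn (fun t : ℝ => exp (-(6 * t))) (Ioi v) := by
  simpa using exp_neg_integrableOn_Ioi v (b := 6) (by norm_num)

theorem integral_exp6 (v : ℝ) : ∫ t in Ioi v, exp (-(6 * t)) = exp (-(6 * v)) / 6 := by
  have := integral_exp_mul_Ioi (a := -6) (by norm_num) v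
  simp only [neg_mul] at this
  rw [this]
  ring

theorem cont_Ei_kernel : ContinuousOn (fun t : ℝ => exp (-(6 * t)) / t) (Ioi 0) :=
  ContinuousOn.div (by fun_prop) continuousOn_id fun _ h => ne_of_gt h

theorem int_Ei {v : ℝ} (hv : 0 < v) :
    IntegrableOn (fun t : ℝ => exp (-(6 * t)) / t) (Ioi v) := by
  refine Integrable.mono' ((int_exp6 v).div_const v)
    ((cont_Ei_kernel.mono (Ioi_subset_Ioi hv.le)).aestronglyMeasurable measurableSet_Ioi) ?_
  filter_upwards [ae_restrict_mem measurableSet_Ioi] with t ht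
  have ht' : v < t := ht
  rw [Real.norm_of_nonneg (div_nonneg (exp_pos _).le (by linarith))]
  gcongr

theorem Ei_nonneg {v : ℝ} (hv : 0 < v) : 0 ≤ Ei v :=
  setIntegral_nonneg measurableSet_Ioi fun t ht =>
    div_nonneg (exp_pos _).le (le_of_lt (lt_trans hv ht))

theorem Ei_le {v : ℝ} (hv : 0 < v) : Ei v ≤ exp (-(6 * v)) / (6 * v) := by
  have h : Ei v ≤ ∫ t in Ioi v, exp (-(6 * t)) / v := by
    refine setIntegral_mono_on (int_Ei hv) ((int_exp6 v).div_const v) measurableSet_Ioi
      fun t ht => ?_
    have ht' : v < t := ht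
    gcongr
  rw [integral_div, integral_exp6, div_div] at h
  exact h

theorem hasDerivAt_Ei {v : ℝ} (hv : 0 < v) : HasDerivAt Ei (-(exp (-(6 * v)) / v)) v := by
  have hc : ContinuousAt (fun t : ℝ => exp (-(6 * t)) / t) v :=
    cont_Ei_kernel.continuousAt (Ioi_mem_nhds hv)
  have h1 := intervalIntegral.integral_hasDerivAt_right (f := fun t : ℝ => exp (-(6 * t)) / t)
    (a := v) (b := v) (by simp)
    (cont_Ei_kernel.stronglyMeasurableAtFilter isOpen_Ioi v hv) hc
  have h2 := h1.const_sub (Ei v)
  refine h2.congr_of_eventuallyEq ?_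
  filter_upwards [Ioi_mem_nhds hv] with w hw
  have := intervalIntegral.integral_interval_add_Ioi (int_Ei hv) (int_Ei hw)
  simp only [Ei]
  linarith

/-- Horner evaluation -/
def horner (l : List ℤ) (x : ℤ) : ℤ := l.foldr (fun c r => c + x * r) 0

/-- numerator of the Pade approximant -/
def padeA : List ℤ := [70734282393600, 532953524275200, 1142923465958400, 1110975946214400,
  595397482848000, 195498064823040, 41901733399680, 6099185727360, 617574695760, 44031042000,
  2213629704, 77672088, 1853306, 28546, 255, 1]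

/-- denominator of the Pade approximant -/
def padeB : List ℤ := [20922789888000, 334764638208000, 1255367393280000, 1952793722880000,
  1586644899840000, 761589551923200, 232707918643200, 47491411968000, 6678479808000, 659602944000,
  46172206080, 2289530880, 79497600, 1881600, 28800, 256, 1]

/-- real Horner evaluation -/
def hR : List ℤ → ℝ → ℝ
  | [], _ => 0
  | c :: l, x => c + x * hR l x

/-- derivative of the real Horner evaluation -/
def hD : List ℤ → ℝ → ℝ
  | [], _ => 0
  | _ :: l, x => hR l x + x * hD l x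

theorem horner_cast (l : List ℤ) (x : ℤ) : (horner l x : ℝ) = hR l x := by
  induction l with
  | nil => simp [horner, hR]
  | cons c l ih =>
    have : horner (c :: l) x = c + x * horner l x := rfl
    rw [this, hR, ← ih]
    push_cast
    ring

theorem hasDerivAt_hR (l : List ℤ) (x : ℝ) : HasDerivAt (hR l) (hD l x) x := by
  induction l with
  | nil => exact hasDerivAt_const x 0
  | cons c l ih =>
    have h := ((hasDerivAt_id x).mul ih).const_add (c : ℝ)
    simp only [id, one_mul] at h
    exact h

theorem hR_mono (l : List ℤ) (hl : ∀ c ∈ l, 0 ≤ c) {x y : ℝ} (hx : 0 ≤ x) (hxy : x ≤ y) :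
    0 ≤ hR l x ∧ hR l x ≤ hR l y := by
  induction l with
  | nil => simp [hR]
  | cons c l ih =>
    obtain ⟨h1, h2⟩ := ih fun d hd => hl d (List.mem_cons_of_mem _ hd)
    have hc : (0 : ℝ) ≤ c := by exact_mod_cast hl c List.mem_cons_self
    have hy : 0 ≤ y := hx.trans hxy
    simp only [hR]
    exact ⟨by positivity, by gcongr⟩

theorem pade_id (x : ℝ) : x * (hD padeA x * hR padeB x - hR padeA x * hD padeB x -
    hR padeA x * hR padeB x) + hR padeB x ^ 2 = 437763136697395052544000000 := by
  simp only [padeA, padeB, hR, hD]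
  push_cast
  ring

theorem padeB_six : hR padeB 6 = 54286270223002140672 := by
  simp only [padeB, hR]
  norm_num

theorem padeB_ge {x : ℝ} (hx : 6 ≤ x) : 54286270223002140672 ≤ hR padeB x := by
  rw [← padeB_six]
  exact (hR_mono padeB (by decide) (by norm_num) hx).2

theorem padeA_le {x : ℝ} (hx : 0 ≤ x) : 0 ≤ hR padeA x ∧ hR padeA x ≤ 4 * hR padeB x := by
  refine ⟨(hR_mono padeA (by decide) hx le_rfl).1, ?_⟩
  have h := (hR_mono (List.zipWith (fun b a => 4 * b - a) padeB (padeA ++ [0])) (by decide) hx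
    le_rfl).1
  have e : hR (List.zipWith (fun b a => 4 * b - a) padeB (padeA ++ [0])) x =
      4 * hR padeB x - hR padeA x := by
    simp only [padeA, padeB, List.cons_append, List.nil_append, List.zipWith_cons_cons,
      List.zipWith_nil_left, hR]
    push_cast
    ring
  linarith

theorem Ei_pade_real {v : ℝ} (hv : 1 ≤ v) :
    |Ei v - exp (-(6 * v)) * (hR padeA (6 * v) / hR padeB (6 * v))| ≤ exp (-(6 * v)) / 10 ^ 13 := by
  set k : ℝ := 437763136697395052544000000 with hk
  set b6 : ℝ := 54286270223002140672 with hb6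
  have hb : ∀ t, v ≤ t → b6 ≤ hR padeB (6 * t) := fun t ht => padeB_ge (by linarith)
  have hb0 : ∀ t, v ≤ t → 0 < hR padeB (6 * t) := fun t ht =>
    lt_of_lt_of_le (by norm_num [hb6]) (hb t ht)
  set r : ℝ → ℝ := fun t => exp (-(6 * t)) * (k / (t * hR padeB (6 * t) ^ 2)) with hr
  have hder : ∀ t ∈ Ici v, HasDerivAt
      (fun t => exp (-(6 * t)) * (hR padeA (6 * t) / hR padeB (6 * t)))
      (r t - exp (-(6 * t)) / t) t := by
    intro t ht
    have ht' : v ≤ t := ht
    have h6 : HasDerivAt (fun t : ℝ => 6 * t) 6 t := by simpa using (hasDerivAt_id t).const_mul 6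
    have h1 := h6.neg.exp
    have h2 := (hasDerivAt_hR padeA (6 * t)).comp t h6
    have h3 := (hasDerivAt_hR padeB (6 * t)).comp t h6
    have h4 := h1.mul (h2.div h3 (hb0 t ht').ne')
    refine h4.congr_deriv ?_
    have hid := pade_id (6 * t)
    have hB := (hb0 t ht').ne'
    have ht0 : t ≠ 0 := by linarith
    simp only [hr, Function.comp, Pi.neg_apply, Pi.div_apply]
    rw [← hk] at hid
    rw [← hid]
    field_simp
    ring
  have hrb : ∀ t, v ≤ t → 0 ≤ r t ∧ r t ≤ exp (-(6 * t)) * (k / b6 ^ 2) := by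
    intro t ht
    have h0 := hb0 t ht
    have h1 := hb t ht
    have ht0 : 0 < t := by linarith
    refine ⟨by simp only [hr, hk]; positivity, ?_⟩
    simp only [hr]
    refine mul_le_mul_of_nonneg_left ?_ (exp_pos _).le
    refine div_le_div_of_nonneg_left (by norm_num [hk]) (by norm_num [hb6]) ?_
    have h2 : b6 ^ 2 ≤ hR padeB (6 * t) ^ 2 := pow_le_pow_left₀ (by norm_num [hb6]) h1 2
    nlinarith
  have hcB : Continuous fun t : ℝ => hR padeB (6 * t) :=
    (continuous_iff_continuousAt.2 fun x => (hasDerivAt_hR padeB x).continuousAt).comp (by fun_prop)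
  have hri : IntegrableOn r (Ioi v) := by
    refine Integrable.mono' ((int_exp6 v).mul_const (k / b6 ^ 2)) ?_ ?_
    · refine ContinuousOn.aestronglyMeasurable ?_ measurableSet_Ioi
      refine ContinuousOn.mul (by fun_prop) (ContinuousOn.div continuousOn_const
        (continuousOn_id.mul (hcB.pow 2).continuousOn) fun t ht => ?_)
      have ht' : v < t := ht
      have := hb0 t ht'.le
      have : 0 < t := by linarith
      positivity
    · filter_upwards [ae_restrict_mem measurableSet_Ioi] with t ht
      have := hrb t (le_of_lt ht)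
      rw [Real.norm_of_nonneg this.1]
      exact this.2
  have hlim : Tendsto (fun t => exp (-(6 * t)) * (hR padeA (6 * t) / hR padeB (6 * t))) atTop
      (𝓝 0) := by
    have h1 : Tendsto (fun t : ℝ => exp (-(6 * t)) * 4) atTop (𝓝 (0 * 4)) := by
      refine Tendsto.mul_const 4 (tendsto_exp_neg_atTop_nhds_zero.comp ?_)
      exact tendsto_id.const_mul_atTop (by norm_num)
    rw [zero_mul] at h1
    refine squeeze_zero' ?_ ?_ h1
    · filter_upwards [eventually_ge_atTop v] with t ht
      have := (padeA_le (x := 6 * t) (by linarith)).1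
      have := hb0 t ht
      positivity
    · filter_upwards [eventually_ge_atTop v] with t ht
      have h2 := (padeA_le (x := 6 * t) (by linarith)).2
      refine mul_le_mul_of_nonneg_left ?_ (exp_pos _).le
      rwa [div_le_iff₀ (hb0 t ht)]
  have hv0 : 0 < v := by linarith
  have hint := integral_Ioi_of_hasDerivAt_of_tendsto' hder (hri.sub (int_Ei hv0)) hlim
  rw [integral_sub hri (int_Ei hv0)] at hint
  have e : Ei v - exp (-(6 * v)) * (hR padeA (6 * v) / hR padeB (6 * v)) = ∫ t in Ioi v, r t := by
    simp only [Ei]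
    linarith
  have h0 : 0 ≤ ∫ t in Ioi v, r t :=
    setIntegral_nonneg measurableSet_Ioi fun t ht => (hrb t (le_of_lt ht)).1
  have h1 : ∫ t in Ioi v, r t ≤ ∫ t in Ioi v, exp (-(6 * t)) * (k / b6 ^ 2) :=
    setIntegral_mono_on hri ((int_exp6 v).mul_const _) measurableSet_Ioi
      fun t ht => (hrb t (le_of_lt ht)).2
  rw [integral_mul_const, integral_exp6] at h1
  rw [e, abs_of_nonneg h0]
  refine h1.trans ?_
  have he := exp_pos (-(6 * v))
  have : k / b6 ^ 2 ≤ 6 / 10 ^ 13 := by norm_num [hk, hb6]
  calc exp (-(6 * v)) / 6 * (k / b6 ^ 2) ≤ exp (-(6 * v)) / 6 * (6 / 10 ^ 13) := by gcongr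
    _ = _ := by ring

theorem Ei_pade {m : ℕ} (hm : 1 ≤ m) :
    |Ei m - exp (-(6 * (m : ℝ))) * ((horner padeA (6 * m) : ℝ) / (horner padeB (6 * m) : ℝ))| ≤
      exp (-(6 * (m : ℝ))) / 10 ^ 13 := by
  rw [horner_cast, horner_cast]
  push_cast
  exact Ei_pade_real (by exact_mod_cast hm)

end Pool.Agent.Lib.MP_a619ca_an.Hx
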