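import Pool.Agent.Lib.MP_a619ca_an.HxBall

/-!
Simultaneous evaluation of many exponential sums along an arithmetic progression.
-/

namespace Pool.Agent.Lib.MP_a619ca_an.Hx

open Complex Finset

set_option exponentiation.threshold 500

def pack : List ℤ → ℤ
  | [] => 0
  | a :: l => Int.add a (Int.mul (2 ^ 400) (pack l))

def unpack : ℕ → ℤ → List ℤ
  | 0, _ => []
  | n + 1, y => Int.sub (Int.emod (Int.add y (2 ^ 399)) (2 ^ 400)) (2 ^ 399) ::
      unpack n (Int.shiftRight (Int.add y (2 ^ 399)) 400)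

theorem pack_eq (l : List ℤ) {n : ℕ} (h : l.length = n) :
    pack l = ∑ k ∈ range n, l.getD k 0 * (2 ^ 400) ^ k := by
  subst h
  induction l with
  | nil => simp [pack]
  | cons a l ih =>
    rw [List.length_cons, sum_range_succ', pack, ih]
    simp only [Int.add_def, Int.mul_def, mul_sum, List.getD_cons_succ, List.getD_cons_zero]
    rw [add_comm, pow_zero, mul_one]
    congr 1
    exact sum_congr rfl fun k _ => by ring

theorem unpack_sum (n : ℕ) (f : ℕ → ℤ) (h : ∀ k < n, |f k| < 2 ^ 399) :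
    ∀ k < n, (unpack n (∑ k ∈ range n, f k * (2 ^ 400) ^ k)).getD k 0 = f k := by
  induction n generalizing f with
  | zero => simp
  | succ n ih =>
    intro k hk
    have e : ∑ k ∈ range (n + 1), f k * (2 ^ 400) ^ k + 2 ^ 399 =
        (f 0 + 2 ^ 399) + 2 ^ 400 * ∑ k ∈ range n, f (k + 1) * (2 ^ 400) ^ k := by
      rw [sum_range_succ', mul_sum, pow_zero, mul_one, add_assoc, add_comm]
      congr 1
      exact sum_congr rfl fun k _ => by ring
    obtain ⟨h1, h2⟩ := abs_lt.1 (h 0 n.succ_pos)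
    have h3 : 0 ≤ f 0 + 2 ^ 399 := by linarith
    have h4 : f 0 + 2 ^ 399 < 2 ^ 400 := by rw [pow_succ (2 : ℤ) 399]; linarith
    rw [unpack, Z2.shr, Int.add_def, e]
    rcases k with _ | k
    · rw [List.getD_cons_zero, show ∀ a b : ℤ, Int.emod a b = a % b from fun _ _ => rfl,
        Int.add_mul_emod_self_left, Int.emod_eq_of_lt h3 h4]
      exact add_sub_cancel_right _ _
    · rw [List.getD_cons_succ, Int.add_mul_ediv_left _ _ (by positivity),
        Int.ediv_eq_zero_of_lt h3 h4, zero_add]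
      exact ih (fun k => f (k + 1)) (fun k hk => h _ (by omega)) k (by omega)

noncomputable def dot (xs : List Z2) : List (ℤ × ℤ) → ℤ :=
  List.rec (fun _ => 0) (fun x _ ih ps => List.casesOn ps 0 fun p ps' =>
    Int.add (Int.sub (Int.mul x.re p.1) (Int.mul x.im p.2)) (ih ps')) xs

noncomputable def step (xs : List Z2) : List Z2 → List Z2 :=
  List.rec (fun _ => []) (fun x _ ih es => List.casesOn es [] fun e es' => x.mul e :: ih es') xs

def zB : Bl := ⟨⟨0, 0⟩, 0⟩
def rowP (r : List Bl) : ℤ × ℤ := (pack (r.map fun b => b.c.re), pack (r.map fun b => b.c.im))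
def rowN (r : List Bl) : ℕ := (r.map fun b => b.c.nrm).sum
def rowR (r : List Bl) : ℕ := (r.map fun b => b.r).sum

/-- a packed table -/
structure Tab where
  pk : List (ℤ × ℤ)
  tn : ℕ
  rn : ℕ

/-- a dummy first column, which makes the low order bits of all products generic -/
def sB : Bl := ⟨⟨12345678912345678917, 98765432198765432199⟩, 0⟩

def mkTab {ι : Type} (L : List ι) (tb : ι → List Bl) : Tab :=
  ⟨(L.map fun i => sB :: tb i).map rowP, ((L.map fun i => sB :: tb i).map rowN).sum,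
    ((L.map fun i => sB :: tb i).map rowR).sum⟩
noncomputable def Tab.dots (t : Tab) (n : ℕ) (xs : List Z2) : List ℤ :=
  (unpack (n + 1) (dot xs t.pk)).tail
def Tab.err (t : Tab) (e : ℕ) : ℕ := e * t.tn + 2 ^ 160 * t.rn
def Tab.ok (t : Tab) (e : ℕ) : Bool := decide ((2 ^ 160 + e) * t.tn < 2 ^ 399)

theorem getD_le (f : Bl → ℕ) (hf : f zB = 0) (r : List Bl) (k : ℕ) :
    f (r.getD k zB) ≤ (r.map f).sum := by
  induction r generalizing k with
  | nil => simp [hf]
  | cons a r ih =>
    rcases k with _ | k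
    · simp
    · simpa using (ih k).trans (Nat.le_add_left _ _)

/-- the state `xs` approximates the numbers `X i` -/
def Near {ι : Type} (X : ι → ℂ) (e : ℕ) (L : List ι) (xs : List Z2) : Prop :=
  List.Forall₂ (fun i x => ‖X i - x.c‖ ≤ e / 2 ^ 160 ∧ ‖X i‖ ≤ 1) L xs

/-- the rows `tb i` enclose the numbers `tc i k`, `k < n` -/
def Rows {ι : Type} (tc : ι → ℕ → ℂ) (tb : ι → List Bl) (n : ℕ) (L : List ι) : Prop :=
  ∀ i ∈ L, (tb i).length = n ∧ ∀ k < n, Mem (tc i k) ((tb i).getD k zB)

theorem dot_aux {ι : Type} {X : ι → ℂ} {tc : ι → ℕ → ℂ} {tb : ι → List Bl} {e n : ℕ} {L : List ι}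
    {xs : List Z2} (hx : Near X e L xs) (ht : Rows tc tb n L) :
    ∃ f : ℕ → ℤ, dot xs ((L.map tb).map rowP) = ∑ k ∈ range n, f k * (2 ^ 400) ^ k ∧ ∀ k < n,
      |(f k : ℝ)| ≤ (2 ^ 160 + e) * ((L.map tb).map rowN).sum ∧
      |(f k : ℝ) / 2 ^ 320 - (L.map fun i => tc i k * X i).sum.re| ≤
        ((e : ℝ) * ((L.map tb).map rowN).sum + 2 ^ 160 * ((L.map tb).map rowR).sum) / 2 ^ 320 := by
  induction hx with
  | nil => exact ⟨0, by simp [dot], by simp⟩
  | @cons i x L xs h _ ih =>
    obtain ⟨f, h1, h2⟩ := ih fun i hi => ht i (List.mem_cons_of_mem _ hi)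
    obtain ⟨h3, h4⟩ := ht i List.mem_cons_self
    refine ⟨fun k => x.re * ((tb i).getD k zB).c.re - x.im * ((tb i).getD k zB).c.im + f k, ?_,
      fun k hk => ?_⟩
    · have e1 : dot (x :: xs) (((i :: L).map tb).map rowP) = x.re * (rowP (tb i)).1 -
          x.im * (rowP (tb i)).2 + dot xs ((L.map tb).map rowP) := rfl
      rw [e1, h1, rowP, pack_eq _ (n := n) (by simpa using h3), pack_eq _ (n := n) (by simpa using h3),
        mul_sum, mul_sum, ← sum_sub_distrib, ← sum_add_distrib]
      refine sum_congr rfl fun k _ => ?_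
      rw [show (0 : ℤ) = (fun b : Bl => b.c.re) zB from rfl, List.getD_map,
        show (fun b : Bl => b.c.re) zB = (fun b : Bl => b.c.im) zB from rfl, List.getD_map]
      ring
    · obtain ⟨h5, h6⟩ := h2 k hk
      have h7 := h4 k hk
      have h8 : (((tb i).getD k zB).c.nrm : ℝ) ≤ rowN (tb i) := by
        exact_mod_cast getD_le (fun b => b.c.nrm) rfl _ k
      have h9 : (((tb i).getD k zB).r : ℝ) ≤ rowR (tb i) := by
        exact_mod_cast getD_le (fun b => b.r) rfl _ k
      unfold Mem at h7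
      beta_reduce
      generalize (tb i).getD k zB = b at *
      have a1 := b.c.norm_c
      have a2 : ((x.re * b.c.re - x.im * b.c.im : ℤ) : ℝ) = 2 ^ 320 * (b.c.c * x.c).re := by
        simp only [Z2.c, mul_re]
        push_cast
        ring
      have a3 : ‖x.c‖ ≤ (2 ^ 160 + e) / 2 ^ 160 := by
        have := norm_sub_le (X i) (X i - x.c)
        rw [sub_sub_cancel] at this
        rw [add_div, div_self (by positivity)]
        linarith [h.1, h.2]
      have a4 : ‖b.c.c * x.c‖ ≤ rowN (tb i) / 2 ^ 160 * ((2 ^ 160 + e) / 2 ^ 160) := by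
        rw [norm_mul]
        exact mul_le_mul (a1.trans (by gcongr)) a3 (norm_nonneg _) (by positivity)
      have a5 : ‖b.c.c * x.c - tc i k * X i‖ ≤
          rowN (tb i) / 2 ^ 160 * (e / 2 ^ 160) + rowR (tb i) / 2 ^ 160 * 1 := by
        rw [show b.c.c * x.c - tc i k * X i = -(b.c.c * (X i - x.c) + (tc i k - b.c.c) * X i) by ring,
          norm_neg]
        refine (norm_add_le _ _).trans (add_le_add ?_ ?_) <;> rw [norm_mul]
        · exact mul_le_mul (a1.trans (by gcongr)) h.1 (norm_nonneg _) (by positivity)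
        · exact mul_le_mul (h7.trans (by gcongr)) h.2 (norm_nonneg _) (by positivity)
      have a6 := abs_le.1 ((abs_re_le_norm _).trans a4)
      have a7 := abs_le.1 ((abs_re_le_norm _).trans a5)
      rw [Int.cast_add, a2]
      simp only [List.map_cons, List.sum_cons, Nat.cast_add, add_re, sub_re] at *
      rw [abs_le] at *
      refine ⟨⟨by linarith, by linarith⟩, abs_le.2 ⟨by linarith, by linarith⟩⟩

theorem Rows.salt {ι : Type} {tc : ι → ℕ → ℂ} {tb : ι → List Bl} {n : ℕ} {L : List ι}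
    (ht : Rows tc tb n L) :
    Rows (fun i k => Nat.casesOn k sB.c.c (tc i)) (fun i => sB :: tb i) (n + 1) L := by
  refine fun i hi => ⟨by simpa using (ht i hi).1, fun k hk => ?_⟩
  rcases k with _ | k
  · exact Mem.self _
  · exact (ht i hi).2 k (by omega)

theorem dots_sound {ι : Type} {X : ι → ℂ} {tc : ι → ℕ → ℂ} {tb : ι → List Bl} {e n : ℕ}
    {L : List ι} {xs : List Z2} (hx : Near X e L xs) (ht : Rows tc tb n L)
    (hb : (mkTab L tb).ok e = true) {k : ℕ} (hk : k < n) :
    |(((mkTab L tb).dots n xs).getD k 0 : ℝ) / 2 ^ 320 - (L.map fun i => tc i k * X i).sum.re| ≤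
      ((mkTab L tb).err e : ℝ) / 2 ^ 320 := by
  obtain ⟨f, h1, h2⟩ := dot_aux hx ht.salt
  have h3 : ((2 : ℝ) ^ 160 + e) * ((L.map fun i => sB :: tb i).map rowN).sum < 2 ^ 399 := by
    exact_mod_cast of_decide_eq_true hb
  have h4 : ∀ l : List ℤ, l.tail.getD k 0 = l.getD (k + 1) 0 := fun l => by cases l <;> simp
  rw [Tab.dots, show (mkTab L tb).pk = (L.map fun i => sB :: tb i).map rowP from rfl, h1, h4,
    unpack_sum (n + 1) f (fun k hk => by exact_mod_cast (h2 k hk).1.trans_lt h3) _ (by omega)]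
  rw [Tab.err, Nat.cast_add, Nat.cast_mul, Nat.cast_mul, Nat.cast_pow, Nat.cast_ofNat]
  exact (h2 (k + 1) (by omega)).2

theorem rows_bound {ι : Type} {X : ι → ℂ} {tc : ι → ℕ → ℂ} {tb : ι → List Bl} {n : ℕ}
    {L : List ι} (hx : ∀ i ∈ L, ‖X i‖ ≤ 1) (ht : Rows tc tb n L) {k : ℕ} (hk : k < n) :
    ‖(L.map fun i => tc i k * X i).sum‖ ≤
      ((mkTab L tb).tn + (mkTab L tb).rn) / 2 ^ 160 := by
  induction L with
  | nil => simp [mkTab]
  | cons i L ih =>
    have h1 := ih (fun i hi => hx i (List.mem_cons_of_mem _ hi))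
      fun i hi => ht i (List.mem_cons_of_mem _ hi)
    have h2 := ((ht i List.mem_cons_self).2 k hk).up
    have h8 : (((tb i).getD k zB).c.nrm : ℝ) ≤ rowN (sB :: tb i) := by
      exact_mod_cast getD_le (fun b => b.c.nrm) rfl (sB :: tb i) (k + 1)
    have h9 : (((tb i).getD k zB).r : ℝ) ≤ rowR (sB :: tb i) := by
      exact_mod_cast getD_le (fun b => b.r) rfl (sB :: tb i) (k + 1)
    have h3 : ‖tc i k * X i‖ ≤ ‖tc i k‖ := by
      rw [norm_mul]
      exact mul_le_of_le_one_right (norm_nonneg _) (hx i List.mem_cons_self)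
    simp only [mkTab, List.map_cons, List.sum_cons, Nat.cast_add, Bl.up, Nat.add_eq] at *
    refine (norm_add_le _ _).trans ?_
    linarith

noncomputable def walk (es : List Z2) (ρ : ℕ) (test : ℕ → List Z2 → ℕ → Bool) :
    ℕ → ℕ → List Z2 → ℕ → Bool
  | 0, _, _, _ => true
  | n + 1, i, xs, e => test i xs e &&
      walk es ρ test n (i + 1) (step xs es) (e + Nat.shiftRight (e * ρ) 160 + ρ + 3)

theorem Near.step {ι : Type} {X Y : ι → ℂ} {e ρ : ℕ} {L : List ι} {xs es : List Z2}
    (hx : Near X e L xs) (hy : Near Y ρ L es) :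
    Near (fun i => X i * Y i) (e + Nat.shiftRight (e * ρ) 160 + ρ + 3) L (step xs es) := by
  induction hx generalizing es with
  | nil => exact List.Forall₂.nil
  | @cons i x L xs h _ ih =>
    cases hy with
    | @cons _ y _ es h' hy =>
      refine List.Forall₂.cons ⟨?_, ?_⟩ (ih hy)
      · have a1 := x.c_mul y
        have a2 := Mem.nat_div (e * ρ) (n := 2 ^ 160) (by positivity)
        have a3 : ‖y.c‖ ≤ 1 + ρ / 2 ^ 160 := by
          have := norm_sub_le (Y i) (Y i - y.c)
          rw [sub_sub_cancel] at this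
          linarith [h'.1, h'.2]
        have a4 : ‖(X i - x.c) * y.c‖ ≤ e / 2 ^ 160 * (1 + ρ / 2 ^ 160) := by
          rw [norm_mul]
          exact mul_le_mul h.1 a3 (norm_nonneg _) (by positivity)
        have a5 : ‖X i * (Y i - y.c)‖ ≤ 1 * (ρ / 2 ^ 160) := by
          rw [norm_mul]
          exact mul_le_mul h.2 h'.1 (norm_nonneg _) (by positivity)
        rw [show X i * Y i - (x.mul y).c =
          (X i - x.c) * y.c + X i * (Y i - y.c) - ((x.mul y).c - x.c * y.c) by ring]
        refine (norm_sub_le _ _).trans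
          ((add_le_add ((norm_add_le _ _).trans (add_le_add a4 a5)) a1).trans ?_)
        rw [Nat.shiftRight_eq, Nat.shiftRight_eq_div_pow]
        generalize e * ρ / 2 ^ 160 = q at *
        push_cast at *
        rw [le_div_iff₀ (by positivity)]
        linarith
      · rw [norm_mul]
        exact mul_le_one₀ h.2 (norm_nonneg _) h'.2

def expL {ι : Type} (L : List ι) (mb : ι → Bl) (p d : ℕ) : List Bl :=
  L.map fun i => (((mb i).mul (Bl.int p 0 0)).div d).exp

theorem near_expL {ι : Type} {L : List ι} {mu : ι → ℂ} {mb : ι → Bl}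
    (h : ∀ i ∈ L, Mem (mu i) (mb i) ∧ (mu i).re ≤ 0) (p : ℕ) {d : ℕ} (hd : 0 < d) :
    Near (fun i => cexp (mu i * ((p / d : ℝ) : ℂ))) (rowR (expL L mb p d)) L
      ((expL L mb p d).map Bl.c) := by
  induction L with
  | nil => exact List.Forall₂.nil
  | cons i L ih =>
    obtain ⟨h1, h2⟩ := h i List.mem_cons_self
    have h3 : (mu i * ((p / d : ℝ) : ℂ)).re ≤ 0 := by
      rw [re_mul_ofReal]
      exact mul_nonpos_of_nonpos_of_nonneg h2 (by positivity)
    have h4 : mu i * ((p : ℤ) : ℂ) / d = mu i * ((p / d : ℝ) : ℂ) := by push_cast; ring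
    have h5 := ((h1.mul (Mem.int0 p)).div hd)
    rw [h4] at h5
    have h6 := h5.exp h3
    have h7 := ih fun i hi => h i (List.mem_cons_of_mem _ hi)
    unfold expL at *
    rw [List.map_cons]
    generalize (((mb i).mul (Bl.int p 0 0)).div d).exp = b at *
    generalize (L.map fun i => (((mb i).mul (Bl.int p 0 0)).div d).exp) = r at *
    have h8 : ((rowR (b :: r) : ℕ) : ℝ) = b.r + rowR r := by simp [rowR]
    refine List.Forall₂.cons ⟨le_trans h6 ?_, by simpa [norm_exp] using h3⟩
      (h7.imp fun _ _ h => ⟨h.1.trans ?_, h.2⟩)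
    all_goals
      rw [h8]
      gcongr
      simp only [le_add_iff_nonneg_right, le_add_iff_nonneg_left]
      positivity

/-- run `test` at the points `(p + q i) / d`, `i0 ≤ i < i0 + n` -/
noncomputable def run {ι : Type} (L : List ι) (mb : ι → Bl) (p q d : ℕ)
    (test : ℕ → List Z2 → ℕ → Bool) (n i0 : ℕ) : Bool :=
  walk ((expL L mb q d).map Bl.c) (rowR (expL L mb q d)) test n i0
    ((expL L mb (p + q * i0) d).map Bl.c) (rowR (expL L mb (p + q * i0) d))

theorem run_sound {ι : Type} {L : List ι} {mu : ι → ℂ} {mb : ι → Bl}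
    (h : ∀ i ∈ L, Mem (mu i) (mb i) ∧ (mu i).re ≤ 0) {p q d : ℕ} (hd : 0 < d)
    {test : ℕ → List Z2 → ℕ → Bool} {n i0 : ℕ} (hr : run L mb p q d test n i0 = true)
    {i : ℕ} (h1 : i0 ≤ i) (h2 : i < i0 + n) : ∃ xs e, test i xs e = true ∧
      Near (fun j => cexp (mu j * (((p + q * i : ℕ) / d : ℝ) : ℂ))) e L xs := by
  have a := near_expL h q hd
  have b := near_expL h (p + q * i0) hd
  unfold run at hr
  generalize (expL L mb (p + q * i0) d).map Bl.c = xs at *
  generalize rowR (expL L mb (p + q * i0) d) = e at *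
  induction n generalizing i0 xs e with
  | zero => omega
  | succ n ih =>
    rw [walk, Bool.and_eq_true] at hr
    rcases h1.eq_or_lt with rfl | h1
    · exact ⟨xs, e, hr.1, b⟩
    · refine ih h1 (by omega) _ _ hr.2 ?_
      convert b.step a using 2 with j
      rw [← Complex.exp_add]
      push_cast
      ring_nf

end Pool.Agent.Lib.MP_a619ca_an.Hx
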