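import Pool.Agent.Lib.MP_a619ca_an.HxDefs

/-!
The theta transformation of the hexagonal lattice, and the residues of the values of its norm form.
-/

namespace Pool.Agent.Lib.MP_a619ca_an.Hx

open MeasureTheory Set Real Finset Filter Topology Asymptotics HurwitzZeta

theorem summable_exp_sq {c : ℝ} (hc : 0 < c) : Summable fun n : ℤ => exp (-(c * (n : ℝ) ^ 2)) := by
  refine (summable_pow_mul_jacobiTheta₂_term_bound 0 (div_pos hc pi_pos) 0).congr fun n => ?_
  rw [pow_zero, one_mul]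
  congr 1
  field_simp
  ring

theorem summable_exp_Q {a : ℝ} (ha : 0 < a) :
    Summable fun v : ℤ × ℤ => exp (-(a * (Q v : ℝ))) := by
  have h := summable_exp_sq (half_pos ha)
  refine (h.mul_of_nonneg h (fun _ => (exp_pos _).le) fun _ => (exp_pos _).le).of_nonneg_of_le
    (fun _ => (exp_pos _).le) fun v => ?_
  rw [← exp_add, exp_le_exp]
  unfold Q
  push_cast
  nlinarith [mul_nonneg ha.le (sq_nonneg ((v.1 : ℝ) + v.2))]

theorem summable_cexp_Q {l : ℂ} (hl : l.re < 0) :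
    Summable fun v : ℤ × ℤ => Complex.exp (l * ((Q v : ℝ) : ℂ)) := by
  refine (summable_exp_Q (neg_pos.2 hl)).of_norm_bounded fun v => le_of_eq ?_
  rw [Complex.norm_exp, Complex.re_mul_ofReal, neg_mul, neg_neg]

theorem SS_re_neg {l : ℂ} (hl : l.re < 0) : (SS l).re < 0 := by
  have h0 : l ≠ 0 := by
    rintro rfl
    simp at hl
  have hA := AA_pos
  unfold SS
  rw [← Complex.ofReal_pow, div_eq_mul_inv, Complex.re_ofReal_mul, Complex.inv_re]
  exact mul_neg_of_pos_of_neg (by positivity) (div_neg_of_neg_of_pos hl (Complex.normSq_pos.2 h0))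

theorem half_pow {A : ℂ} (hA : A ≠ 0) :
    A ^ (1 / 2 : ℂ) * (((3 / 4 : ℝ) : ℂ) * A) ^ (1 / 2 : ℂ) = ((√3 / 2 : ℝ) : ℂ) * A := by
  have h1 : ((3 / 4 : ℝ) : ℂ) ≠ 0 := by norm_num
  have h2 : Real.log (3 / 4) = 2 * Real.log (√3 / 2) := by
    rw [← Real.log_rpow (by positivity), Real.rpow_two, div_pow, Real.sq_sqrt (by norm_num)]
    norm_num
  rw [Complex.cpow_def_of_ne_zero hA, Complex.cpow_def_of_ne_zero (mul_ne_zero h1 hA),
    Complex.log_ofReal_mul (by norm_num) hA, ← Complex.exp_add, h2,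
    show Complex.log A * (1 / 2) + (((2 * Real.log (√3 / 2) : ℝ) : ℂ) + Complex.log A) * (1 / 2) =
      ((Real.log (√3 / 2) : ℝ) : ℂ) + Complex.log A by push_cast; ring,
    Complex.exp_add, Complex.exp_log hA, ← Complex.ofReal_exp, Real.exp_log (by positivity)]

theorem theta {l : ℂ} (hl : l.re < 0) :
    ∑' v : ℤ × ℤ, Complex.exp (l * ((Q v : ℝ) : ℂ)) =
      ph l * ∑' v : ℤ × ℤ, Complex.exp (SS l * ((Q v : ℝ) : ℂ)) := by
  have hp : (π : ℂ) ≠ 0 := Complex.ofReal_ne_zero.2 pi_ne_zero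
  obtain ⟨A, rfl⟩ : ∃ A : ℂ, l = -π * A := ⟨-l / π, by field_simp⟩
  have hA : 0 < A.re := by
    rw [neg_mul, Complex.neg_re, Complex.re_ofReal_mul, neg_lt_zero] at hl
    exact (mul_pos_iff_of_pos_left pi_pos).1 hl
  have hA0 : A ≠ 0 := by
    rintro rfl
    simp at hA
  have hB : 0 < (((3 / 4 : ℝ) : ℂ) * A).re := by
    rw [Complex.re_ofReal_mul]
    positivity
  have hC : 0 < (π / A).re := by
    rw [div_eq_mul_inv, Complex.re_ofReal_mul, Complex.inv_re]
    exact mul_pos pi_pos (div_pos hA (Complex.normSq_pos.2 hA0))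
  let g : ℤ → ℤ → ℂ := fun n y => Complex.exp (-π / A * (n : ℂ) ^ 2) *
    Complex.exp (-π * (((3 / 4 : ℝ) : ℂ) * A) * (y : ℂ) ^ 2 + 2 * π * (Complex.I * n / 2) * y)
  have hg : Summable (Function.uncurry g) := by
    refine ((summable_exp_sq hC).mul_of_nonneg (summable_exp_sq (mul_pos pi_pos hB))
      (fun _ => (exp_pos _).le) fun _ => (exp_pos _).le).of_norm_bounded fun v => le_of_eq ?_
    simp only [Function.uncurry, g, norm_mul, Complex.norm_exp]
    congr 2
    · rw [← Complex.ofReal_intCast, ← Complex.ofReal_pow, Complex.re_mul_ofReal, neg_div,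
        Complex.neg_re, neg_mul]
    · rw [show 2 * π * (Complex.I * v.1 / 2) * v.2 = ((π * v.1 * v.2 : ℝ) : ℂ) * Complex.I by
        push_cast; ring, Complex.add_re, Complex.re_ofReal_mul, Complex.I_re, mul_zero, add_zero,
        ← Complex.ofReal_intCast, ← Complex.ofReal_pow, Complex.re_mul_ofReal, neg_mul,
        Complex.neg_re, Complex.re_ofReal_mul, neg_mul]
  have h1 : ∀ y : ℤ, ∑' x : ℤ, Complex.exp (-π * A * ((Q (y, x) : ℝ) : ℂ)) =
      1 / A ^ (1 / 2 : ℂ) * ∑' n : ℤ, g n y := by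
    intro y
    have h := congrArg (· * Complex.exp (-π * A * (y : ℂ) ^ 2))
      (Complex.tsum_exp_neg_quadratic hA (-A * y / 2))
    simp only [mul_assoc (1 / A ^ (1 / 2 : ℂ)), ← tsum_mul_right, ← Complex.exp_add] at h
    refine (tsum_congr fun x => ?_).trans (h.trans (congrArg _ (tsum_congr fun n => ?_)))
    · congr 1
      unfold Q
      push_cast
      ring
    · simp only [g, ← Complex.exp_add]
      congr 1
      push_cast
      field_simp
      linear_combination (-(A * y) ^ 2 * 4) * Complex.I_sq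
  have h2 : ∀ n : ℤ, ∑' y : ℤ, g n y = 1 / (((3 / 4 : ℝ) : ℂ) * A) ^ (1 / 2 : ℂ) *
      ∑' k : ℤ, Complex.exp (SS (-π * A) * ((Q (n, k) : ℝ) : ℂ)) := by
    intro n
    simp only [g]
    rw [tsum_mul_left, Complex.tsum_exp_neg_quadratic hB, mul_left_comm, ← tsum_mul_left,
      ← tsum_comp_neg]
    congr 1
    refine tsum_congr fun k => ?_
    rw [← Complex.exp_add]
    congr 1
    unfold SS Q
    rw [← Complex.ofReal_pow, AA_sq, ← mul_div_assoc, ← mul_assoc, Complex.I_mul_I]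
    push_cast
    field_simp
    ring
  rw [(summable_cexp_Q hl).tsum_prod, (summable_cexp_Q (SS_re_neg hl)).tsum_prod]
  simp only [h1]
  rw [tsum_mul_left, hg.tsum_comm]
  simp only [h2]
  rw [tsum_mul_left, ← mul_assoc, one_div_mul_one_div, half_pow hA0]
  congr 1
  have h3 : ((√3 : ℝ) : ℂ) ≠ 0 := Complex.ofReal_ne_zero.2 (by positivity)
  unfold ph AA
  push_cast
  field_simp

theorem node_Q {v : ℤ × ℤ} (hv : v ≠ 0) : node (Q v).toNat := by
  have h0 := Q_pos hv
  have h4 : ∀ a b : ZMod 4, a ^ 2 + a * b + b ^ 2 ≠ 2 := by decide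
  have h3 : ∀ a b : ZMod 3, a ^ 2 + a * b + b ^ 2 ≠ 2 := by decide
  have h9 : ∀ a b : ZMod 9, a ^ 2 + a * b + b ^ 2 ≠ 6 := by decide
  have key : ∀ (m r : ℕ), (Q v).toNat % m = r →
      (v.1 : ZMod m) ^ 2 + v.1 * v.2 + (v.2 : ZMod m) ^ 2 = r := by
    intro m r h
    have e : ((Q v).toNat : ℤ) = Q v := Int.toNat_of_nonneg h0.le
    rw [← h, ZMod.natCast_mod, ← Int.cast_natCast, e]
    unfold Q
    push_cast
    rfl
  exact ⟨by omega, fun h => h4 _ _ (key 4 2 h), fun h => h3 _ _ (key 3 2 h),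
    fun h => h9 _ _ (key 9 6 h)⟩

end Pool.Agent.Lib.MP_a619ca_an.Hx
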