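import Pool.Agent.Lib.MP_a619ca_an.HxEi
import Pool.Agent.Lib.MP_a619ca_an.HxTheta

/-!
The positive definite function attached to a good pair, and the value of the bound.
-/

namespace Pool.Agent.Lib.MP_a619ca_an.Hx

open MeasureTheory Set Real Finset Filter Topology
open scoped InnerProductSpace

theorem polar (G : ℝ → ℝ) : ∫ z : E2, G (‖z‖ ^ 2) = π * ∫ u in Ioi (0 : ℝ), G u := by
  have h := integral_fun_norm_addHaar (volume : Measure E2) (fun r : ℝ => G (r ^ 2))
  have hb : (volume : Measure E2).real (Metric.ball 0 1) = π := by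
    rw [Measure.real, EuclideanSpace.volume_ball_fin_two]
    simp [pi_pos.le]
  have h2 := integral_comp_rpow_Ioi_of_pos (g := G) (p := 2) (by norm_num)
  rw [h, hb, ← h2]
  simp only [finrank_euclideanSpace, Fintype.card_fin, nsmul_eq_mul, smul_eq_mul]
  rw [← mul_assoc, mul_comm _ π, mul_assoc, ← integral_const_mul]
  congr 1
  refine setIntegral_congr_fun measurableSet_Ioi fun x _ => ?_
  norm_num
  ring

theorem int_gauss {b : ℝ} (hb : 0 < b) : Integrable fun z : E2 => exp (-(b * ‖z‖ ^ 2)) := by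
  have h := (GaussianFourier.integrable_cexp_neg_mul_sq_norm_add (V := E2) (b := (b : ℂ))
    (by simpa using hb) 0 0).norm
  refine h.congr (Eventually.of_forall fun z => ?_)
  simp only [zero_mul, add_zero, Complex.norm_exp]
  congr 1
  simp [← Complex.ofReal_pow]

theorem gauss_cos {b : ℝ} (hb : 0 < b) (c : ℝ) (Y : E2) :
    ∫ z : E2, exp (-(b * ‖z‖ ^ 2)) * cos (c * ⟪z, Y⟫_ℝ) =
      π / b * exp (-(c ^ 2 * ‖Y‖ ^ 2 / (4 * b))) := by
  have hb' : 0 < (b : ℂ).re := by simpa using hb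
  have h := GaussianFourier.integral_cexp_neg_mul_sq_norm_add (V := E2) hb' (c * Complex.I) Y
  have hi := GaussianFourier.integrable_cexp_neg_mul_sq_norm_add (V := E2) hb' (c * Complex.I) Y
  have h1 := integral_re hi
  simp only [RCLike.re_to_complex] at h1
  rw [h] at h1
  have e1 : ∀ z : E2, (Complex.exp (-(b : ℂ) * (‖z‖ : ℂ) ^ 2 + c * Complex.I * (⟪Y, z⟫_ℝ : ℝ))).re =
      exp (-(b * ‖z‖ ^ 2)) * cos (c * ⟪z, Y⟫_ℝ) := by
    intro z
    rw [Complex.exp_re, real_inner_comm]
    simp [← Complex.ofReal_pow]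
  simp only [e1] at h1
  rw [h1]
  have e2 : ((π : ℂ) / b) ^ ((Module.finrank ℝ E2 : ℂ) / 2) = ((π / b : ℝ) : ℂ) := by
    simp
  have e3 : ((c : ℂ) * Complex.I) ^ 2 * (‖Y‖ : ℂ) ^ 2 / (4 * b) =
      ((-(c ^ 2 * ‖Y‖ ^ 2 / (4 * b)) : ℝ) : ℂ) := by
    rw [mul_pow, Complex.I_sq]
    push_cast
    ring
  rw [e2, e3, ← Complex.ofReal_exp, ← Complex.ofReal_mul, Complex.ofReal_re]

theorem Ei_repr {v : ℝ} (hv : 0 < v) :
    Ei v = ∫ s in Ioo 0 aa, exp (-(AA ^ 2 / s * v)) / s := by
  have ha := aa_pos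
  have him : (fun s : ℝ => v * aa / s) '' Ioo 0 aa = Ioi v := by
    ext t
    constructor
    · rintro ⟨s, ⟨h1, h2⟩, rfl⟩
      show v < v * aa / s
      rw [lt_div_iff₀ h1]
      gcongr
    · intro ht
      have ht' : v < t := ht
      have ht0 : 0 < t := hv.trans ht'
      refine ⟨v * aa / t, ⟨by positivity, ?_⟩, ?_⟩
      · rw [div_lt_iff₀ ht0]
        nlinarith
      · field_simp
  have hd : ∀ s ∈ Ioo (0 : ℝ) aa,
      HasDerivWithinAt (fun s : ℝ => v * aa / s) (-(v * aa / s ^ 2)) (Ioo 0 aa) s := by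
    intro s hs
    have := ((hasDerivAt_inv hs.1.ne').const_mul (v * aa)).hasDerivWithinAt (s := Ioo 0 aa)
    simp only [← div_eq_mul_inv, mul_neg] at this
    exact this
  have hinj : InjOn (fun s : ℝ => v * aa / s) (Ioo 0 aa) := by
    intro s hs t ht e
    have h1 := hs.1.ne'
    have h2 := ht.1.ne'
    have h3 : v * aa ≠ 0 := by positivity
    simp only at e
    rw [div_eq_div_iff h1 h2] at e
    exact (mul_left_cancel₀ h3 e).symm
  rw [Ei, ← him, integral_image_eq_integral_abs_deriv_smul measurableSet_Ioo hd hinj]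
  refine setIntegral_congr_fun measurableSet_Ioo fun s hs => ?_
  have h1 := hs.1
  simp only [smul_eq_mul, abs_neg]
  rw [abs_of_pos (by positivity)]
  have e : 6 * (v * aa / s) = AA ^ 2 / s * v := by
    unfold aa
    field_simp
  rw [e]
  field_simp

theorem int_kernel : Integrable (fun p : E2 × ℝ => exp (-(AA ^ 2 / p.2 * ‖p.1‖ ^ 2)) / p.2)
    (volume.prod (volume.restrict (Ioo 0 aa))) := by
  have hA := AA_pos
  refine (integrable_prod_iff' (Measurable.aestronglyMeasurable (by fun_prop))).2 ⟨?_, ?_⟩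
  · filter_upwards [ae_restrict_mem measurableSet_Ioo] with s hs
    have h1 := hs.1
    exact (int_gauss (b := AA ^ 2 / s) (by positivity)).div_const s
  · refine (integrable_const (π / AA ^ 2)).congr ?_
    filter_upwards [ae_restrict_mem measurableSet_Ioo] with s hs
    have h1 := hs.1
    have h2 := gauss_cos (b := AA ^ 2 / s) (by positivity) 0 0
    simp only [zero_mul, cos_zero, mul_one, norm_zero, ne_eq, OfNat.ofNat_ne_zero,
      not_false_eq_true, zero_pow, zero_div, neg_zero, exp_zero] at h2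
    have e : ∀ z : E2, ‖exp (-(AA ^ 2 / s * ‖z‖ ^ 2)) / s‖ = exp (-(AA ^ 2 / s * ‖z‖ ^ 2)) / s :=
      fun z => Real.norm_of_nonneg (by positivity)
    simp only [e]
    rw [integral_div, h2]
    field_simp

theorem ae_ne_zero : ∀ᵐ z : E2, 0 < ‖z‖ ^ 2 := by
  have : ∀ᵐ z : E2, z ∉ ({0} : Set E2) := compl_mem_ae_iff.2 (measure_singleton 0)
  filter_upwards [this] with z hz
  have : z ≠ 0 := hz
  positivity

theorem int_Ei_plane : Integrable fun z : E2 => Ei (‖z‖ ^ 2) := by
  refine int_kernel.integral_prod_left.congr ?_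
  filter_upwards [ae_ne_zero] with z hz
  exact (Ei_repr hz).symm

theorem Ei_ft (Y : E2) : AA / π * ∫ z : E2, AA * Ei (‖z‖ ^ 2) * cos (2 * AA * ⟪z, Y⟫_ℝ) =
    ∫ s in Ioo 0 aa, exp (-(s * ‖Y‖ ^ 2)) := by
  have hA := AA_pos
  have hi : Integrable (Function.uncurry fun (z : E2) (s : ℝ) =>
      exp (-(AA ^ 2 / s * ‖z‖ ^ 2)) / s * cos (2 * AA * ⟪z, Y⟫_ℝ))
      (volume.prod (volume.restrict (Ioo 0 aa))) :=
    int_kernel.mul_bdd (c := 1) (Measurable.aestronglyMeasurable (by fun_prop))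
      (Eventually.of_forall fun p => abs_cos_le_one _)
  have h1 : ∫ z : E2, AA * Ei (‖z‖ ^ 2) * cos (2 * AA * ⟪z, Y⟫_ℝ) =
      AA * ∫ z : E2, ∫ s in Ioo 0 aa,
        exp (-(AA ^ 2 / s * ‖z‖ ^ 2)) / s * cos (2 * AA * ⟪z, Y⟫_ℝ) := by
    rw [← integral_const_mul]
    refine integral_congr_ae ?_
    filter_upwards [ae_ne_zero] with z hz
    rw [integral_mul_const, ← Ei_repr hz, mul_assoc]
  rw [h1, integral_integral_swap hi, ← mul_assoc, ← integral_const_mul]
  refine setIntegral_congr_fun measurableSet_Ioo fun s hs => ?_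
  have h2 := hs.1
  have h3 := gauss_cos (b := AA ^ 2 / s) (by positivity) (2 * AA) Y
  have e : ∀ z : E2, exp (-(AA ^ 2 / s * ‖z‖ ^ 2)) / s * cos (2 * AA * ⟪z, Y⟫_ℝ) =
      exp (-(AA ^ 2 / s * ‖z‖ ^ 2)) * cos (2 * AA * ⟪z, Y⟫_ℝ) / s := fun z => by ring
  simp only [e]
  rw [integral_div, h3]
  have e2 : (2 * AA) ^ 2 * ‖Y‖ ^ 2 / (4 * (AA ^ 2 / s)) = s * ‖Y‖ ^ 2 := by
    field_simp
    ring
  have hp := pi_pos
  rw [e2]
  field_simp

theorem radial_exp {g : ℝ → ℝ} (hg : Integrable fun z : E2 => g (‖z‖ ^ 2)) (c : ℝ) (Y : E2) :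
    ∫ z : E2, (g (‖z‖ ^ 2) : ℂ) * Complex.exp ((c * ⟪z, Y⟫_ℝ : ℝ) * Complex.I) =
      ((∫ z : E2, g (‖z‖ ^ 2) * cos (c * ⟪z, Y⟫_ℝ) : ℝ) : ℂ) := by
  have h1 : Integrable fun z : E2 => g (‖z‖ ^ 2) * cos (c * ⟪z, Y⟫_ℝ) :=
    hg.mul_bdd (c := 1) (Measurable.aestronglyMeasurable (by fun_prop))
      (Eventually.of_forall fun p => abs_cos_le_one _)
  have h2 : Integrable fun z : E2 => g (‖z‖ ^ 2) * sin (c * ⟪z, Y⟫_ℝ) :=
    hg.mul_bdd (c := 1) (Measurable.aestronglyMeasurable (by fun_prop))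
      (Eventually.of_forall fun p => abs_sin_le_one _)
  have h3 : ∫ z : E2, g (‖z‖ ^ 2) * sin (c * ⟪z, Y⟫_ℝ) = 0 := by
    have h := integral_neg_eq_self (fun z : E2 => g (‖z‖ ^ 2) * sin (c * ⟪z, Y⟫_ℝ)) volume
    simp only [norm_neg, inner_neg_left, mul_neg, sin_neg, integral_neg] at h
    linarith
  have e : ∀ z : E2, (g (‖z‖ ^ 2) : ℂ) * Complex.exp ((c * ⟪z, Y⟫_ℝ : ℝ) * Complex.I) =
      ((g (‖z‖ ^ 2) * cos (c * ⟪z, Y⟫_ℝ) : ℝ) : ℂ) +
        ((g (‖z‖ ^ 2) * sin (c * ⟪z, Y⟫_ℝ) : ℝ) : ℂ) * Complex.I := by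
    intro z
    rw [Complex.exp_mul_I, ← Complex.ofReal_cos, ← Complex.ofReal_sin]
    push_cast
    ring
  simp only [e]
  rw [integral_add h1.ofReal (h2.ofReal.mul_const _), integral_mul_const,
    integral_complex_ofReal, integral_complex_ofReal, h3]
  simp

theorem Good.int_plane {a B : ℝ} {F} (ha : 0 < a) (hF : Good a B F) (s : Bool) :
    Integrable fun z : E2 => F s 0 (‖z‖ ^ 2) := by
  refine Integrable.mono' ((int_gauss ha).const_mul B) ?_ (Eventually.of_forall fun z => ?_)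
  · refine Continuous.aestronglyMeasurable ?_
    exact (hF.cont s).comp_continuous (by fun_prop) fun z => by simp
  · exact hF.bd s 0 _ (by norm_num) (by positivity)

theorem exp_Ioo {u : ℝ} (hu : 0 < u) :
    ∫ s in Ioo 0 aa, exp (-(s * u)) = (1 - exp (-(aa * u))) / u := by
  rw [← integral_Ioc_eq_integral_Ioo, ← intervalIntegral.integral_of_le aa_pos.le]
  have h : ∀ s ∈ uIcc 0 aa, HasDerivAt (fun s => -exp (-(s * u)) / u) (exp (-(s * u))) s := by
    intro s _
    have h1 : HasDerivAt (fun s : ℝ => s * u) u s := by simpa using (hasDerivAt_id s).mul_const u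
    refine (h1.neg.exp.neg.div_const u).congr_deriv ?_
    simp only [Pi.neg_apply]
    field_simp
  rw [intervalIntegral.integral_eq_sub_of_hasDerivAt h
    (Continuous.intervalIntegrable (by fun_prop) _ _)]
  simp only [zero_mul, neg_zero, exp_zero]
  ring

theorem int_frullani {α : ℝ} (hα : 0 < α) : Integrable (Function.uncurry fun (u s : ℝ) =>
    exp (-(s * u)) * exp (-(α * u))) ((volume.restrict (Ioi 0)).prod (volume.restrict (Ioo 0 aa))) := by
  have h0 : IntegrableOn (fun u : ℝ => exp (-(α * u))) (Ioi 0) := by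
    simpa using exp_neg_integrableOn_Ioi 0 hα
  have h1 := Integrable.mul_prod h0 (integrable_const (μ := volume.restrict (Ioo 0 aa)) (1 : ℝ))
  refine Integrable.mono' h1 (Measurable.aestronglyMeasurable (by fun_prop)) ?_
  rw [Measure.prod_restrict]
  filter_upwards [ae_restrict_mem (measurableSet_Ioi.prod measurableSet_Ioo)] with p hp
  have h2 : 0 < p.1 := hp.1
  have h3 : 0 < p.2 := hp.2.1
  simp only [Function.uncurry]
  rw [Real.norm_of_nonneg (by positivity), mul_one]
  have : exp (-(p.2 * p.1)) ≤ 1 := exp_le_one_iff.2 (by nlinarith [mul_pos h2 h3])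
  have h4 := exp_pos (-(α * p.1))
  nlinarith

theorem frullani {α : ℝ} (hα : 0 < α) :
    ∫ u in Ioi (0 : ℝ), (∫ s in Ioo 0 aa, exp (-(s * u))) * exp (-(α * u)) =
      log (α + aa) - log α := by
  have ha := aa_pos
  simp only [← integral_mul_const]
  rw [integral_integral_swap (int_frullani hα)]
  have e : ∀ s ∈ Ioo (0 : ℝ) aa,
      ∫ u in Ioi (0 : ℝ), exp (-(s * u)) * exp (-(α * u)) = (s + α)⁻¹ := by
    intro s hs
    have h1 := hs.1
    have h := integral_exp_mul_Ioi (a := -(s + α)) (by linarith) 0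
    simp only [← exp_add]
    have e2 : ∀ u : ℝ, -(s * u) + -(α * u) = -(s + α) * u := fun u => by ring
    simp only [e2, h]
    simp only [mul_zero, exp_zero]
    field_simp
  rw [setIntegral_congr_fun measurableSet_Ioo e, ← integral_Ioc_eq_integral_Ioo,
    ← intervalIntegral.integral_of_le ha.le,
    intervalIntegral.integral_comp_add_right (fun x : ℝ => x⁻¹) α,
    integral_inv_of_pos (by linarith) (by linarith), log_div (by linarith) (by linarith)]
  simp [add_comm]

theorem glue {B : ℝ} {F} (hF : Good (23 / 20) B F)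
    (hg : ∀ u, 0 < u → F false 0 u ≤ exp (-(aa * u)) / u)
    (hh : ∀ v, 0 < v → 0 ≤ AA * Ei v + F true 0 v) :
    ∃ (f : ℝ → ℝ) (μ : Measure E2), IsFiniteMeasure μ ∧
      (∀ Y : E2, charFun μ Y = (f (‖Y‖ ^ 2) : ℂ)) ∧ (∀ u, 0 < u → f u ≤ 1 / u) ∧
      Tendsto (fun α : ℝ => AA * (∫ u in Ioi (0 : ℝ), f u * exp (-(α * u))) + AA * log α)
        (𝓝[>] 0) (𝓝 (AA * log aa + F true 0 0)) ∧ f 0 = aa + F false 0 0 := by
  have hA := AA_pos
  have ha := aa_pos
  have hp := pi_pos
  set g : ℝ → ℝ := fun v => AA / π * (AA * Ei v + F true 0 v) with hgdef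
  have hq := hF.int_plane (by norm_num) true
  have hgi : Integrable fun z : E2 => g (‖z‖ ^ 2) :=
    ((int_Ei_plane.const_mul AA).add hq).const_mul (AA / π)
  have hfin : IsFiniteMeasure (volume.withDensity fun z : E2 => ENNReal.ofReal (g (‖z‖ ^ 2))) :=
    isFiniteMeasure_withDensity_ofReal hgi.2
  refine ⟨fun u => (∫ s in Ioo 0 aa, exp (-(s * u))) + F false 0 u,
    (volume.withDensity fun z : E2 => ENNReal.ofReal (g (‖z‖ ^ 2))).map fun z => (2 * AA) • z,
    inferInstance, fun Y => ?_, fun u hu => ?_, ?_, ?_⟩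
  · rw [charFun_apply, integral_map (by fun_prop) (by fun_prop),
      integral_withDensity_eq_integral_toReal_smul₀ hgi.1.aemeasurable.ennreal_ofReal
        (Eventually.of_forall fun z => ENNReal.ofReal_lt_top)]
    have e : ∫ z : E2, (ENNReal.ofReal (g (‖z‖ ^ 2))).toReal •
        Complex.exp ((⟪(2 * AA) • z, Y⟫_ℝ : ℝ) * Complex.I) =
        ∫ z : E2, (g (‖z‖ ^ 2) : ℂ) * Complex.exp ((2 * AA * ⟪z, Y⟫_ℝ : ℝ) * Complex.I) := by
      refine integral_congr_ae ?_
      filter_upwards [ae_ne_zero] with z hz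
      have := hh _ hz
      rw [ENNReal.toReal_ofReal (by simp only [hgdef]; positivity), real_inner_smul_left,
        Complex.real_smul]
    rw [e, radial_exp hgi]
    congr 1
    have b1 : Integrable fun z : E2 => AA * Ei (‖z‖ ^ 2) * cos (2 * AA * ⟪z, Y⟫_ℝ) :=
      (int_Ei_plane.const_mul AA).mul_bdd (c := 1) (Measurable.aestronglyMeasurable (by fun_prop))
        (Eventually.of_forall fun p => abs_cos_le_one _)
    have b2 : Integrable fun z : E2 => F true 0 (‖z‖ ^ 2) * cos (2 * AA * ⟪z, Y⟫_ℝ) :=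
      hq.mul_bdd (c := 1) (Measurable.aestronglyMeasurable (by fun_prop))
        (Eventually.of_forall fun p => abs_cos_le_one _)
    have h1 := hF.ft false Y
    simp only [Bool.not_false] at h1
    simp only
    rw [← Ei_ft Y, h1, ← mul_add, ← integral_add b1 b2, ← integral_const_mul]
    refine integral_congr_ae (Eventually.of_forall fun z => ?_)
    simp only [hgdef]
    ring
  · have := hg u hu
    simp only
    rw [exp_Ioo hu, sub_div]
    linarith
  · have hb : ∀ u, 0 ≤ u → |F false 0 u| ≤ B * exp (-(23 / 20 * u)) :=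
      fun u hu => hF.bd false 0 u (by norm_num) hu
    have hbi : IntegrableOn (fun u : ℝ => B * exp (-(23 / 20 * u))) (Ioi 0) := by
      have h0 : IntegrableOn (fun u : ℝ => exp (-(23 / 20 * u))) (Ioi 0) := by
        simpa using exp_neg_integrableOn_Ioi 0 (b := 23 / 20) (by norm_num)
      exact h0.const_mul B
    have hm : ∀ α : ℝ, AEStronglyMeasurable (fun u => F false 0 u * exp (-(α * u)))
        (volume.restrict (Ioi 0)) := fun α =>
      (((hF.cont false).mono Ioi_subset_Ici_self).mul (by fun_prop)).aestronglyMeasurable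
        measurableSet_Ioi
    have hbd : ∀ α : ℝ, 0 < α → ∀ᵐ u ∂(volume.restrict (Ioi (0 : ℝ))),
        ‖F false 0 u * exp (-(α * u))‖ ≤ B * exp (-(23 / 20 * u)) := by
      intro α hα
      filter_upwards [ae_restrict_mem measurableSet_Ioi] with u hu
      have hu' : 0 < u := hu
      have h1 : exp (-(α * u)) ≤ 1 := exp_le_one_iff.2 (by nlinarith [mul_pos hα hu'])
      rw [norm_mul, Real.norm_eq_abs, Real.norm_of_nonneg (exp_pos _).le]
      exact (mul_le_of_le_one_right (abs_nonneg _) h1).trans (hb u hu'.le)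
    have t1 : Tendsto (fun α : ℝ => ∫ u in Ioi (0 : ℝ), F false 0 u * exp (-(α * u))) (𝓝[>] 0)
        (𝓝 (∫ u in Ioi (0 : ℝ), F false 0 u)) := by
      refine tendsto_integral_filter_of_dominated_convergence _ (Eventually.of_forall hm)
        (eventually_nhdsWithin_of_forall hbd) hbi (Eventually.of_forall fun u => ?_)
      have : Tendsto (fun α : ℝ => F false 0 u * exp (-(α * u))) (𝓝 0)
          (𝓝 (F false 0 u * exp (-(0 * u)))) := Continuous.tendsto (by fun_prop) 0
      simpa using this.mono_left nhdsWithin_le_nhds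
    have t2 : Tendsto (fun α : ℝ => log (α + aa)) (𝓝[>] 0) (𝓝 (log aa)) := by
      have : ContinuousAt (fun α : ℝ => log (α + aa)) 0 :=
        ContinuousAt.log (by fun_prop) (by simpa using ha.ne')
      simpa using this.tendsto.mono_left nhdsWithin_le_nhds
    have h0 : F true 0 0 = AA * ∫ u in Ioi (0 : ℝ), F false 0 u := by
      have h1 := hF.ft true 0
      simp only [Bool.not_true, norm_zero, ne_eq, OfNat.ofNat_ne_zero, not_false_eq_true, zero_pow,
        inner_zero_right, mul_zero, cos_zero, mul_one] at h1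
      rw [h1, polar]
      field_simp
    rw [h0]
    refine ((t2.const_mul AA).add (t1.const_mul AA)).congr' ?_
    filter_upwards [self_mem_nhdsWithin] with α hα
    have hα' : 0 < α := hα
    have i1 : Integrable (fun u => (∫ s in Ioo 0 aa, exp (-(s * u))) * exp (-(α * u)))
        (volume.restrict (Ioi 0)) := by
      simpa only [Function.uncurry, integral_mul_const] using (int_frullani hα').integral_prod_left
    simp only [add_mul]
    rw [integral_add i1 (Integrable.mono' hbi (hm α) (hbd α hα')), frullani hα']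
    ring
  · simp [ha.le]

theorem value {B : ℝ} {F} (hF : Good (23 / 20) B F)
    (hn : ∀ m : ℕ, node m → F false 0 m = exp (-(aa * m)) / m ∧ F true 0 m = -(AA * Ei m)) :
    F true 0 0 - F false 0 0 =
      ∑' v : ℤ × ℤ, if v = 0 then 0 else exp (-(aa * (Q v : ℝ))) / (Q v : ℝ) + AA * Ei (Q v) := by
  have hQ : ∀ v : ℤ × ℤ, 0 ≤ Q v := fun v => by
    unfold Q
    nlinarith [sq_nonneg (2 * v.1 + v.2), sq_nonneg v.2]
  have hs : ∀ s, Summable fun v : ℤ × ℤ => F s 0 (Q v) := fun s =>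
    Summable.of_norm_bounded ((summable_exp_Q (a := 23 / 20) (by norm_num)).mul_left B) fun v =>
      hF.bd s 0 _ (by norm_num) (by exact_mod_cast hQ v)
  have h1 := ((hs false).sub (hs true)).tsum_eq_add_tsum_ite 0
  rw [(hs false).tsum_sub (hs true), hF.pois, sub_self] at h1
  have h2 : ((Q 0 : ℤ) : ℝ) = 0 := by simp [Q]
  rw [h2] at h1
  have h3 : (∑' v : ℤ × ℤ, if v = 0 then 0 else F false 0 (Q v) - F true 0 (Q v)) =
      ∑' v : ℤ × ℤ, if v = 0 then 0 else
        exp (-(aa * (Q v : ℝ))) / (Q v : ℝ) + AA * Ei (Q v) := by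
    refine tsum_congr fun v => ?_
    split_ifs with hv
    · rfl
    · have h4 := hn _ (node_Q hv)
      have h5 : (((Q v).toNat : ℕ) : ℝ) = (Q v : ℝ) := by
        have := Int.toNat_of_nonneg (hQ v)
        exact_mod_cast congrArg (fun x : ℤ => (x : ℝ)) this
      rw [h5] at h4
      rw [h4.1, h4.2]
      ring
  rw [← h3]
  linarith

end Pool.Agent.Lib.MP_a619ca_an.Hx
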