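import Pool.Agent.Lib.MP_a619ca_an.HxTheta

/-!
Closure properties of good pairs: Gaussian atoms, multiples, finite and infinite sums.
-/

namespace Pool.Agent.Lib.MP_a619ca_an.Hx

open MeasureTheory Set Real Finset Filter Topology
open scoped InnerProductSpace

theorem abs_atm_false (w l : ℂ) (j : ℕ) (u : ℝ) :
    |atm w l false j u| ≤ ‖w‖ * ‖l‖ ^ j * exp (l.re * u) := by
  refine (Complex.abs_re_le_norm _).trans (le_of_eq ?_)
  rw [norm_mul, norm_mul, norm_pow, Complex.norm_exp, Complex.re_mul_ofReal]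

theorem abs_atm_true (w l : ℂ) (j : ℕ) (u : ℝ) :
    |atm w l true j u| ≤ ‖w‖ * ‖ph l‖ * ‖SS l‖ ^ j * exp ((SS l).re * u) := by
  refine (Complex.abs_re_le_norm _).trans (le_of_eq ?_)
  rw [norm_mul, norm_mul, norm_mul, norm_pow, Complex.norm_exp, Complex.re_mul_ofReal]

theorem gd_der (w l : ℂ) (u : ℝ) :
    HasDerivAt (fun u : ℝ => (w * Complex.exp (l * u)).re) (w * l * Complex.exp (l * u)).re u := by
  have h1 : HasDerivAt (fun u : ℝ => w * Complex.exp (l * u)) (w * l * Complex.exp (l * u)) u := by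
    have h := ((((hasDerivAt_id (u : ℂ)).const_mul l).cexp).const_mul w).comp_ofReal
    simp only [id, mul_one] at h
    convert h using 1
    ring
  exact Complex.reCLM.hasFDerivAt.comp_hasDerivAt u h1

theorem hasDerivAt_atm (w l : ℂ) (s : Bool) (j : ℕ) (u : ℝ) :
    HasDerivAt (atm w l s j) (atm w l s (j + 1) u) u := by
  cases s
  · have h := gd_der (w * l ^ j) l u
    rw [mul_assoc w, ← pow_succ] at h
    exact h
  · have h := gd_der (w * ph l * SS l ^ j) (SS l) u
    rw [mul_assoc (w * ph l), ← pow_succ] at h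
    exact h

theorem gd_ft (w : ℂ) {l : ℂ} (hl : l.re < 0) :
    FT (fun u => (w * ph l * Complex.exp (SS l * u)).re) (fun u => (w * Complex.exp (l * u)).re) := by
  intro Y
  have hb : 0 < (-l).re := by simpa using hl
  have hl0 : l ≠ 0 := by
    rintro rfl
    simp at hl
  have h1 := GaussianFourier.integral_cexp_neg_mul_sq_norm_add (V := E2) hb (2 * AA * Complex.I) Y
  have h2 := GaussianFourier.integral_cexp_neg_mul_sq_norm_add (V := E2) hb (-(2 * AA * Complex.I)) Y
  have i1 := GaussianFourier.integrable_cexp_neg_mul_sq_norm_add (V := E2) hb (2 * AA * Complex.I) Y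
  have i2 := GaussianFourier.integrable_cexp_neg_mul_sq_norm_add (V := E2) hb
    (-(2 * AA * Complex.I)) Y
  have h3 := integral_re ((i1.add i2).const_mul (w / 2))
  simp only [RCLike.re_to_complex, Pi.add_apply] at h3
  rw [integral_const_mul, integral_add i1 i2, h1, h2] at h3
  have e1 : ∀ z : E2, (w / 2 * (Complex.exp (- -l * (‖z‖ : ℂ) ^ 2 +
      2 * AA * Complex.I * (⟪Y, z⟫_ℝ : ℝ)) + Complex.exp (- -l * (‖z‖ : ℂ) ^ 2 +
      -(2 * AA * Complex.I) * (⟪Y, z⟫_ℝ : ℝ)))).re =
      (w * Complex.exp (l * ((‖z‖ ^ 2 : ℝ) : ℂ))).re * cos (2 * AA * ⟪z, Y⟫_ℝ) := by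
    intro z
    rw [← Complex.re_mul_ofReal, Complex.ofReal_cos, Complex.cos, real_inner_comm, Complex.exp_add,
      Complex.exp_add, neg_neg]
    congr 1
    push_cast
    ring_nf
  simp only [e1] at h3
  have e2 : ((π : ℂ) / -l) ^ ((Module.finrank ℝ E2 : ℂ) / 2) = π / -l := by
    simp
  have e3 : (2 * (AA : ℂ) * Complex.I) ^ 2 * (‖Y‖ : ℂ) ^ 2 / (4 * -l) =
      SS l * ((‖Y‖ ^ 2 : ℝ) : ℂ) := by
    rw [mul_pow, Complex.I_sq, SS]
    push_cast
    field_simp
    ring
  rw [e2, neg_sq, e3] at h3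
  show _ = AA / π * ∫ z : E2, (w * Complex.exp (l * ((‖z‖ ^ 2 : ℝ) : ℂ))).re * _
  rw [h3, ← Complex.re_ofReal_mul]
  refine congrArg Complex.re ?_
  have : (π : ℂ) ≠ 0 := by exact_mod_cast pi_pos.ne'
  unfold ph
  push_cast
  field_simp
  ring

theorem gd_SS_SS {l : ℂ} (hl : l ≠ 0) : SS (SS l) = l := by
  have : (AA : ℂ) ≠ 0 := by exact_mod_cast AA_pos.ne'
  unfold SS
  field_simp

theorem gd_ph_ph {l : ℂ} (hl : l ≠ 0) : ph l * ph (SS l) = 1 := by
  have : (AA : ℂ) ≠ 0 := by exact_mod_cast AA_pos.ne'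
  unfold SS ph
  field_simp

theorem gd_tsum_re (w : ℂ) {l : ℂ} (hl : l.re < 0) :
    ∑' v : ℤ × ℤ, (w * Complex.exp (l * ((Q v : ℝ) : ℂ))).re =
      (w * ∑' v : ℤ × ℤ, Complex.exp (l * ((Q v : ℝ) : ℂ))).re := by
  rw [← tsum_mul_left, Complex.re_tsum ((summable_cexp_Q hl).mul_left w)]

theorem good_atm {a B : ℝ} {w l : ℂ} (ha : 0 < a) (h1 : l.re ≤ -a) (h2 : (SS l).re ≤ -a)
    (hb : ∀ j ≤ 2, ‖w‖ * ‖l‖ ^ j ≤ B) (hb' : ∀ j ≤ 2, ‖w‖ * ‖ph l‖ * ‖SS l‖ ^ j ≤ B) :
    Good a B (atm w l) := by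
  have hl : l.re < 0 := by linarith
  have hs : (SS l).re < 0 := by linarith
  have hl0 : l ≠ 0 := by
    rintro rfl
    simp at hl
  have hB : 0 ≤ B := le_trans (by positivity) (hb 0 (by norm_num))
  have f0 : atm w l false 0 = fun u : ℝ => (w * Complex.exp (l * u)).re := by
    funext u
    simp [atm]
  have t0 : atm w l true 0 = fun u : ℝ => (w * ph l * Complex.exp (SS l * u)).re := by
    funext u
    simp [atm]
  refine ⟨fun s j u _ _ => hasDerivAt_atm w l s j u,
    fun s u _ => (hasDerivAt_atm w l s 0 u).continuousAt.continuousWithinAt, ?_, ?_, ?_⟩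
  · intro s j u hj hu
    cases s
    · refine (abs_atm_false w l j u).trans (mul_le_mul (hb j hj) ?_ (exp_pos _).le hB)
      rw [exp_le_exp]
      nlinarith
    · refine (abs_atm_true w l j u).trans (mul_le_mul (hb' j hj) ?_ (exp_pos _).le hB)
      rw [exp_le_exp]
      nlinarith
  · intro s
    cases s
    · have h := gd_ft (w * ph l) hs
      rw [gd_SS_SS hl0, mul_assoc w, gd_ph_ph hl0, mul_one] at h
      rw [Bool.not_false, f0, t0]
      exact h
    · rw [Bool.not_true, f0, t0]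
      exact gd_ft w hl
  · rw [f0, t0]
    simp only []
    rw [gd_tsum_re w hl, gd_tsum_re _ hs, theta hl, mul_assoc]

theorem Good.nonneg {a B : ℝ} {F} (h : Good a B F) : 0 ≤ B := by
  have := (abs_nonneg _).trans (h.bd false 0 0 (by norm_num) le_rfl)
  simpa using this

theorem Good.mono {a B B' : ℝ} {F} (h : Good a B F) (hB : B ≤ B') : Good a B' F :=
  ⟨h.der, h.cont, fun s j u hj hu => (h.bd s j u hj hu).trans
    (mul_le_mul_of_nonneg_right hB (exp_pos _).le), h.ft, h.pois⟩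

theorem Good.swp {a B : ℝ} {F} (h : Good a B F) : Good a B (swp F) :=
  ⟨fun s => h.der (!s), fun s => h.cont (!s), fun s => h.bd (!s), fun s => h.ft (!s), h.pois.symm⟩

theorem Good.zero (a : ℝ) : Good a 0 (fun _ _ _ => 0) :=
  ⟨fun _ _ u _ _ => hasDerivAt_const u 0, fun _ => continuousOn_const, fun _ _ _ _ _ => by simp,
    fun _ Y => by simp, rfl⟩

theorem Good.smul {a B : ℝ} {F} (h : Good a B F) (c : ℝ) :
    Good a (|c| * B) (fun s j u => c * F s j u) := by
  refine ⟨fun s j u hj hu => (h.der s j u hj hu).const_mul c,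
    fun s => continuousOn_const.mul (h.cont s), fun s j u hj hu => ?_, fun s Y => ?_, ?_⟩
  · rw [abs_mul, mul_assoc]
    exact mul_le_mul_of_nonneg_left (h.bd s j u hj hu) (abs_nonneg c)
  · simp only [mul_assoc c]
    rw [integral_const_mul, h.ft s Y]
    ring
  · simp only [tsum_mul_left, h.pois]

theorem gd_int_gauss {b : ℝ} (hb : 0 < b) : Integrable fun z : E2 => exp (-(b * ‖z‖ ^ 2)) := by
  have h := (GaussianFourier.integrable_cexp_neg_mul_sq_norm_add (V := E2) (b := (b : ℂ))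
    (by simpa using hb) 0 0).norm
  refine h.congr (Eventually.of_forall fun z => ?_)
  simp only [zero_mul, add_zero, Complex.norm_exp]
  congr 1
  simp [← Complex.ofReal_pow]

theorem Good.gd_bound {a B : ℝ} {F} (h : Good a B F) (s : Bool) (Y z : E2) :
    ‖F s 0 (‖z‖ ^ 2) * cos (2 * AA * ⟪z, Y⟫_ℝ)‖ ≤ B * exp (-(a * ‖z‖ ^ 2)) := by
  rw [norm_mul, Real.norm_eq_abs, Real.norm_eq_abs]
  exact (mul_le_of_le_one_right (abs_nonneg _) (abs_cos_le_one _)).trans
    (h.bd s 0 _ (by norm_num) (by positivity))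

theorem Good.gd_int {a B : ℝ} {F} (ha : 0 < a) (h : Good a B F) (s : Bool) (Y : E2) :
    Integrable fun z : E2 => F s 0 (‖z‖ ^ 2) * cos (2 * AA * ⟪z, Y⟫_ℝ) := by
  have hc : Continuous fun z : E2 => F s 0 (‖z‖ ^ 2) :=
    (h.cont s).comp_continuous (by fun_prop) fun z => by simp
  exact ((gd_int_gauss ha).const_mul B).mono' (hc.mul (by fun_prop)).aestronglyMeasurable
    (Eventually.of_forall fun z => h.gd_bound s Y z)

theorem gd_Q_nonneg (v : ℤ × ℤ) : (0 : ℝ) ≤ Q v := by
  have : 0 ≤ Q v := by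
    unfold Q
    nlinarith [sq_nonneg (v.1 + v.2), sq_nonneg v.1, sq_nonneg v.2]
  exact_mod_cast this

theorem Good.tsum {a : ℝ} (ha : 0 < a) {ι : Type*} [Countable ι] {B : ι → ℝ} (hB : Summable B)
    {F : ι → Bool → ℕ → ℝ → ℝ} (h : ∀ i, Good a (B i) (F i)) :
    Good a (∑' i, B i) (fun s j u => ∑' i, F i s j u) := by
  have hbd : ∀ i s j u, j ≤ 2 → 0 ≤ u → ‖F i s j u‖ ≤ B i := fun i s j u hj hu =>
    ((h i).bd s j u hj hu).trans (mul_le_of_le_one_right (h i).nonneg
      (exp_le_one_iff.2 (by simpa using mul_nonneg ha.le hu)))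
  refine ⟨fun s j u hj hu => ?_, fun s => ?_, fun s j u hj hu => ?_, fun s Y => ?_, ?_⟩
  · exact hasDerivAt_tsum_of_isPreconnected hB isOpen_Ioi isPreconnected_Ioi
      (fun i y hy => (h i).der s j y hj hy) (fun i y hy => hbd i s (j + 1) y hj (le_of_lt hy)) hu
      (hB.of_norm_bounded fun i => hbd i s j u hj.le hu.le) hu
  · exact continuousOn_tsum (fun i => (h i).cont s) hB fun i y hy => hbd i s 0 y (by norm_num) hy
  · exact tsum_of_norm_bounded (f := fun i => F i s j u) (hB.hasSum.mul_right (exp (-(a * u))))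
      fun i => (h i).bd s j u hj hu
  · simp only [← tsum_mul_right]
    rw [← integral_tsum_of_summable_integral_norm (fun i => (h i).gd_int ha (!s) Y), ← tsum_mul_left]
    · exact tsum_congr fun i => (h i).ft s Y
    · refine (hB.mul_right (∫ z : E2, exp (-(a * ‖z‖ ^ 2)))).of_nonneg_of_le
        (fun i => integral_nonneg fun z => norm_nonneg _) fun i => ?_
      rw [← integral_const_mul]
      exact integral_mono ((h i).gd_int ha (!s) Y).norm ((gd_int_gauss ha).const_mul _)
        fun z => (h i).gd_bound (!s) Y z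
  · have hs : ∀ s, Summable (Function.uncurry fun (i : ι) (v : ℤ × ℤ) => F i s 0 (Q v)) := fun s =>
      (hB.mul_of_nonneg (summable_exp_Q ha) (fun i => (h i).nonneg)
        fun _ => (exp_pos _).le).of_norm_bounded
        fun p => (h p.1).bd s 0 _ (by norm_num) (gd_Q_nonneg p.2)
    rw [(hs false).tsum_comm, (hs true).tsum_comm]
    exact tsum_congr fun i => (h i).pois

theorem Good.add {a B B' : ℝ} {F G} (ha : 0 < a) (h : Good a B F) (h' : Good a B' G) :
    Good a (B + B') (fun s j u => F s j u + G s j u) := by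
  have := Good.tsum ha (ι := Bool) (B := fun b => cond b B' B) Summable.of_finite
    (F := fun b => cond b G F) (fun b => by cases b <;> assumption)
  simpa only [tsum_bool, cond_false, cond_true] using this

theorem Good.sum {a : ℝ} (ha : 0 < a) {ι : Type*} (S : Finset ι) {B : ι → ℝ}
    {F : ι → Bool → ℕ → ℝ → ℝ} (h : ∀ i ∈ S, Good a (B i) (F i)) :
    Good a (∑ i ∈ S, B i) (fun s j u => ∑ i ∈ S, F i s j u) := by
  classical
  induction S using Finset.induction_on with
  | empty => simpa using Good.zero a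
  | insert i S hi ih =>
    simp only [Finset.sum_insert hi]
    exact (h i (mem_insert_self _ _)).add ha (ih fun k hk => h k (mem_insert_of_mem hk))

end Pool.Agent.Lib.MP_a619ca_an.Hx
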