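import Pool.Agent.Lib.MP_a619ca_an.HxHigh1
import Pool.Agent.Lib.MP_a619ca_an.HxGood

/-! Explicit approximate basis functions at the large nodes. -/

namespace Pool.Agent.Lib.MP_a619ca_an.Hx

open MeasureTheory Set Real Finset Filter Topology

theorem high_l {h t : ℝ} (h1 : 23 / 20 ≤ h) (h2 : h ≤ 1152 / 1000) (ht : |t| ≤ 15) {l : ℂ}
    (hl : l = -h + th * t) :
    l.re = -h ∧ ‖l‖ ≤ 3 ∧ ‖ph l‖ ≤ 317 / 100 ∧ ‖SS l‖ ≤ 116 / 10 ∧ (SS l).re ≤ -(9 / 5) := by
  have hre : l.re = -h := by simp [hl, th]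
  have him : l.im = 2 * π / 36 * t := by simp [hl, th]
  have ht2 : t ^ 2 ≤ 225 := by nlinarith [sq_abs t, abs_nonneg t]
  have hp1 : π ^ 2 ≤ 3.15 ^ 2 := by nlinarith [pi_lt_d2, pi_pos]
  have hp2 : 3.14 ^ 2 ≤ π ^ 2 := by nlinarith [pi_gt_d2]
  have hn : Complex.normSq l ≤ 822 / 100 := by
    rw [Complex.normSq_apply, hre, him]
    have : π ^ 2 * t ^ 2 ≤ 3.15 ^ 2 * 225 := by gcongr
    nlinarith
  have hlow : 23 / 20 ≤ ‖l‖ := by
    have := Complex.abs_re_le_norm l
    rw [hre, abs_neg, abs_of_pos (by linarith)] at this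
    linarith
  have hA := AA_pos
  have hA2 := AA_sq
  have hA3 : AA ≤ 364 / 100 := by nlinarith
  have hpos : 0 < Complex.normSq l := by
    rw [← Complex.sq_norm]; positivity
  refine ⟨hre, ?_, ?_, ?_, ?_⟩
  · rw [← Complex.sq_norm] at hn
    nlinarith [norm_nonneg l]
  · rw [ph, norm_div, norm_neg, Complex.norm_real, Real.norm_eq_abs, abs_of_pos hA,
      div_le_iff₀ (by linarith)]
    linarith
  · rw [SS, norm_div, norm_pow, Complex.norm_real, Real.norm_eq_abs, abs_of_pos hA,
      div_le_iff₀ (by linarith)]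
    nlinarith
  · rw [SS, ← Complex.ofReal_pow, div_eq_mul_inv, Complex.re_ofReal_mul, Complex.inv_re, hre,
      ← mul_div_assoc, div_le_iff₀ hpos]
    nlinarith

theorem high_geo {r : ℝ} (h0 : 0 ≤ r) (h1 : r < 1) (K M : ℕ) :
    ∑ m ∈ range M, (if m < K then 0 else r ^ m) ≤ r ^ K / (1 - r) := by
  have e : ∑ m ∈ range M, (if m < K then 0 else r ^ m) = ∑ m ∈ Finset.Ico K M, r ^ m := by
    rw [show Finset.Ico K M = (range M).filter fun m => ¬ m < K by ext; simp; omega,
      Finset.sum_filter]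
    exact Finset.sum_congr rfl fun m _ => by split_ifs <;> rfl
  rw [e]
  exact geom_sum_Ico_le_of_lt_one h0 h1

theorem high_cnt (M : ℕ) : ∑ m ∈ range M, (if m < 43 then (1 / 1000 : ℝ) else 0) ≤ 43 / 1000 := by
  rw [← Finset.sum_filter, Finset.sum_const, nsmul_eq_mul]
  have : ((range M).filter fun m => m < 43).card ≤ 43 := by
    refine (Finset.card_le_card (t := range 43) fun m hm => ?_).trans (by simp)
    simpa using (Finset.mem_filter.1 hm).2
  have h2 : (((range M).filter fun m => m < 43).card : ℝ) ≤ 43 := by exact_mod_cast this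
  linarith

theorem high_true (m : ℕ) : WW m * (10 * exp (-(9 / 5) * m)) ≤
    (if m < 43 then (1 / 1000 : ℝ) else 0) + 10 ^ 10 * (if m < 43 then 0 else (5 / 9 : ℝ) ^ m) := by
  unfold WW
  split_ifs with hm
  · have : exp (9 / 5 * (m : ℝ)) * exp (-(9 / 5) * m) = 1 := by rw [← exp_add]; simp
    nlinarith
  · have h1 : exp (23 / 20 * (m : ℝ)) * exp (-(9 / 5) * m) = exp (-(13 / 20)) ^ m := by
      rw [← exp_add, ← exp_nat_mul]; congr 1; ring
    have h2 : exp (-(13 / 20)) ≤ (5 / 9 : ℝ) := by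
      rw [exp_neg, inv_le_comm₀ (exp_pos _) (by norm_num)]
      have := quadratic_le_exp_of_nonneg (x := 13 / 20) (by norm_num)
      linarith
    have h3 : exp (-(13 / 20)) ^ m ≤ (5 / 9 : ℝ) ^ m := by gcongr
    nlinarith

theorem basis_of {n j : ℕ} (h43 : 43 ≤ n) : ∃ K : ℕ, ∀ G, ES 15 (2 * 10 ^ 8) G →
    (∀ m : ℕ, node m → m < K →
      G (m - n) * Complex.exp (-(23 / 20 + 1 / (20 * n) : ℝ) * (m - n : ℝ)) = dlt n j false 0 m ∧
      HasDerivAt (fun v : ℝ => G v * Complex.exp (-(23 / 20 + 1 / (20 * n) : ℝ) * v))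
        (dlt n j false 1 m : ℂ) (m - n)) → Basis n j := by
  have hn : (43 : ℝ) ≤ n := by exact_mod_cast h43
  set h : ℝ := 23 / 20 + 1 / (20 * n) with hh
  have hh0 : (0 : ℝ) < 1 / (20 * n) := by positivity
  have hh1 : 23 / 20 ≤ h := by linarith
  have hh2 : h ≤ 1152 / 1000 := by
    have : (1 : ℝ) / (20 * n) ≤ 1 / 860 := one_div_le_one_div_of_le (by norm_num) (by linarith)
    linarith
  set r : ℝ := exp (-(1 / (20 * n))) with hr
  have r0 : 0 ≤ r := (exp_pos _).le
  have r1 : r < 1 := exp_lt_one_iff.2 (by linarith)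
  obtain ⟨K0, hK0⟩ := exists_pow_lt_of_lt_one (x := (1 - r) / 10 ^ 10) (y := r)
    (div_pos (by linarith) (by norm_num)) r1
  refine ⟨K0 + n + 1, fun G hG hd => ?_⟩
  obtain ⟨ι, S, c, t, h1, h2, h3⟩ := hG
  set l : ι → ℂ := fun i => -h + th * t i with hl
  set w : ι → ℂ := fun i => c i * Complex.exp (-(l i * n)) with hw
  have hL := fun i (hi : i ∈ S) => high_l hh1 hh2 (h1 i hi) (l := l i) rfl
  have hW : WW n = 10 ^ 9 * exp (23 / 20 * n) := by rw [WW, if_neg (by omega)]
  have hW0 := WW_pos n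
  have hTV : ∑ i ∈ S, ‖w i‖ ≤ WW n / 4 := by
    have e : ∀ i ∈ S, ‖w i‖ = ‖c i‖ * (exp (23 / 20 * n) * exp (1 / 20)) := by
      intro i hi
      rw [hw, norm_mul, Complex.norm_exp, ← exp_add]
      congr 2
      rw [Complex.neg_re, ← Complex.ofReal_natCast, Complex.re_mul_ofReal, (hL i hi).1, hh]
      field_simp
    have e2 : exp (1 / 20 : ℝ) ≤ 5 / 4 := by
      have := exp_bound_div_one_sub_of_interval (x := 1 / 20) (by norm_num) (by norm_num)
      linarith
    rw [Finset.sum_congr rfl e, ← Finset.sum_mul, hW]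
    calc _ ≤ 2 * 10 ^ 8 * (exp (23 / 20 * n) * (5 / 4)) := by gcongr
      _ = _ := by ring
  have hΦ : ∀ v : ℝ, G v * Complex.exp (-(h : ℂ) * v) = ∑ i ∈ S, c i * Complex.exp (l i * v) := by
    intro v
    rw [h3, Finset.sum_mul]
    refine Finset.sum_congr rfl fun i _ => ?_
    rw [ex_eq, mul_assoc, ← Complex.exp_add, hl]
    congr 2; ring
  have hF : ∀ (k : ℕ) (u : ℝ), ∑ i ∈ S, atm (w i) (l i) false k u =
      (∑ i ∈ S, c i * (l i ^ k * Complex.exp (l i * (u - n : ℝ)))).re := by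
    intro k u
    rw [Complex.re_sum]
    refine Finset.sum_congr rfl fun i _ => ?_
    simp only [atm, Bool.false_eq_true, if_false, hw]
    congr 1
    rw [show l i * (u - n : ℝ) = -(l i * n) + l i * u by push_cast; ring, Complex.exp_add]
    ring
  have hbf : ∀ (k : ℕ) (u : ℝ), |∑ i ∈ S, atm (w i) (l i) false k u| ≤
      WW n / 4 * (3 ^ k * exp (-h * u)) := by
    intro k u
    refine (Finset.abs_sum_le_sum_abs _ _).trans ((Finset.sum_le_sum
      (g := fun i => ‖w i‖ * (3 ^ k * exp (-h * u))) fun i hi => ?_).trans ?_)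
    · refine (abs_atm_false _ _ _ _).trans ?_
      rw [(hL i hi).1, mul_assoc]
      gcongr
      exact (hL i hi).2.1
    · rw [← Finset.sum_mul]; gcongr
  have hbt : ∀ (k : ℕ) (u : ℝ), 0 ≤ u → |∑ i ∈ S, atm (w i) (l i) true k u| ≤
      WW n / 4 * (317 / 100 * (116 / 10) ^ k * exp (-(9 / 5) * u)) := by
    intro k u hu
    refine (Finset.abs_sum_le_sum_abs _ _).trans ((Finset.sum_le_sum
      (g := fun i => ‖w i‖ * (317 / 100 * (116 / 10) ^ k * exp (-(9 / 5) * u))) fun i hi => ?_).trans ?_)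
    · refine (abs_atm_true _ _ _ _).trans ?_
      obtain ⟨-, -, b1, b2, b3⟩ := hL i hi
      rw [mul_assoc, mul_assoc, mul_assoc]
      gcongr
    · rw [← Finset.sum_mul]; gcongr
  refine ⟨fun s k u => ∑ i ∈ S, atm (w i) (l i) s k u, ?_, fun M => ?_⟩
  · refine (Good.sum (a := 23 / 20) (by norm_num) S (B := fun i => ‖w i‖ * 500)
      fun i hi => ?_).mono ?_
    · obtain ⟨b0, b1, b2, b3, b4⟩ := hL i hi
      refine good_atm (by norm_num) (by linarith) (by linarith) (fun k hk => ?_) fun k hk => ?_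
      · calc ‖w i‖ * ‖l i‖ ^ k ≤ ‖w i‖ * 3 ^ k := by gcongr
          _ ≤ _ := by gcongr; interval_cases k <;> norm_num
      · calc ‖w i‖ * ‖ph (l i)‖ * ‖SS (l i)‖ ^ k ≤ ‖w i‖ * (317 / 100) * (116 / 10) ^ k := by gcongr
          _ ≤ _ := by rw [mul_assoc]; gcongr; interval_cases k <;> norm_num
    · rw [← Finset.sum_mul]; linarith
  · have key : ∀ m ∈ range M, (if node m then WW m *
        (|dlt n j false 0 m - ∑ i ∈ S, atm (w i) (l i) false 0 m| +
          |dlt n j false 1 m - ∑ i ∈ S, atm (w i) (l i) false 1 m| +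
          |dlt n j true 0 m - ∑ i ∈ S, atm (w i) (l i) true 0 m| +
          |dlt n j true 1 m - ∑ i ∈ S, atm (w i) (l i) true 1 m|) else 0) ≤
        WW n * (10 ^ 9 * (if m < K0 + n + 1 then 0 else r ^ m) +
          ((if m < 43 then (1 / 1000 : ℝ) else 0) +
            10 ^ 10 * (if m < 43 then 0 else (5 / 9 : ℝ) ^ m))) := by
      intro m _
      have hWm := WW_pos m
      have t0 := hbt 0 m m.cast_nonneg
      have t1 := hbt 1 m m.cast_nonneg
      have t2 := high_true m
      have hE := exp_pos (-(9 / 5) * (m : ℝ))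
      have t3 : WW m * (|dlt n j true 0 m - ∑ i ∈ S, atm (w i) (l i) true 0 m| +
          |dlt n j true 1 m - ∑ i ∈ S, atm (w i) (l i) true 1 m|) ≤
          WW n * (WW m * (10 * exp (-(9 / 5) * m))) := by
        simp only [dlt, Bool.true_eq_false, false_and, if_false, zero_sub, abs_neg]
        rw [mul_left_comm]
        refine mul_le_mul_of_nonneg_left ?_ hWm.le
        nlinarith [mul_pos hW0 hE]
      have t4 : WW m * (|dlt n j false 0 m - ∑ i ∈ S, atm (w i) (l i) false 0 m| +
          |dlt n j false 1 m - ∑ i ∈ S, atm (w i) (l i) false 1 m|) ≤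
          WW n * (10 ^ 9 * (if m < K0 + n + 1 then 0 else r ^ m)) ∨ ¬ node m := by
        by_cases hm : node m
        swap
        · exact Or.inr hm
        left
        split_ifs with hK
        · obtain ⟨d0, d1⟩ := hd m hm hK
          rw [hΦ] at d0
          rw [funext hΦ] at d1
          have d2 := d1.unique (HasDerivAt.fun_sum fun i _ =>
            (hasDerivAt_cexp (l i) (m - n)).const_mul (c i))
          rw [hF, hF]
          simp only [pow_zero, one_mul, pow_one]
          rw [d0, ← d2]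
          simp
        · have hmn : m ≠ n := by omega
          simp only [dlt, hmn, and_false, if_false, zero_sub, abs_neg]
          have f0 := hbf 0 m
          have f1 := hbf 1 m
          have e : WW m * exp (-h * m) = 10 ^ 9 * r ^ m := by
            rw [WW, if_neg (by omega), mul_assoc, ← exp_add, hr, ← exp_nat_mul, hh]
            congr 2; ring
          rw [← e, mul_left_comm]
          refine mul_le_mul_of_nonneg_left ?_ hWm.le
          linarith
      have t6 := mul_le_mul_of_nonneg_left t2 hW0.le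
      by_cases hm : node m
      · have t5 := t4.resolve_right (not_not.2 hm)
        rw [if_pos hm]
        linarith
      · rw [if_neg hm]
        split_ifs <;> positivity
    refine (Finset.sum_le_sum key).trans ?_
    rw [← Finset.mul_sum, Finset.sum_add_distrib, Finset.sum_add_distrib, ← Finset.mul_sum,
      ← Finset.mul_sum]
    have s1 := high_geo r0 r1 (K0 + n + 1) M
    have s2 := high_geo (r := 5 / 9) (by norm_num) (by norm_num) 43 M
    have s3 := high_cnt M
    have s4 : r ^ (K0 + n + 1) / (1 - r) ≤ 1 / 10 ^ 10 := by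
      rw [div_le_iff₀ (by linarith)]
      have : r ^ (K0 + n + 1) ≤ r ^ K0 := pow_le_pow_of_le_one r0 r1.le (by omega)
      linarith
    have s5 : ((5 : ℝ) / 9) ^ 43 / (1 - 5 / 9) ≤ 3 / 10 ^ 11 := by norm_num
    rw [div_eq_mul_inv]
    refine mul_le_mul_of_nonneg_left ?_ hW0.le
    linarith

theorem high_dz {A B C : ℝ → ℂ} {x a b c : ℝ} {a' b' c' : ℝ} (hA : ES a a' A) (hB : ES b b' B)
    (hC : ES c c' C) (ha : 0 ≤ a) (hb : 0 ≤ b) (hc : 0 ≤ c) (h1 : A x = 0) (h2 : B x = 0) (l : ℂ) :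
    HasDerivAt (fun v : ℝ => A v * B v * C v * Complex.exp (l * v)) 0 x := by
  obtain ⟨d1, e1, -⟩ := hA.deriv ha x
  obtain ⟨d2, e2, -⟩ := hB.deriv hb x
  obtain ⟨d3, e3, -⟩ := hC.deriv hc x
  refine (((e1.fun_mul e2).fun_mul e3).fun_mul (hasDerivAt_cexp l x)).congr_deriv ?_
  rw [h1, h2]; ring

theorem basis_high {n j : ℕ} (hn : node n) (h : 43 ≤ n) (hj : j < 2) : Basis n j := by
  obtain ⟨K, hK⟩ := basis_of (j := j) h
  have hn' : (43 : ℝ) ≤ n := by exact_mod_cast h
  set J := K + n + 1 with hJ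
  have hJ0 : 0 < J := by omega
  set l : ℂ := -(23 / 20 + 1 / (20 * n) : ℝ) with hl
  have hl2 : ‖l‖ ≤ 2 := by
    have : (1 : ℝ) / (20 * n) ≤ 1 / 860 := one_div_le_one_div_of_le (by norm_num) (by linarith)
    rw [hl, norm_neg, Complex.norm_real, Real.norm_eq_abs, abs_of_pos (by positivity)]
    linarith
  have ea := es_fa hn
  have ed := es_fd hJ0
  have es := es_fs
  have a0 := fa_zero hn
  have d0 := fd_zero hJ0
  have s0 : fs 0 = 0 := by simpa using fs_int 0
  obtain ⟨a1, ha1, ba1⟩ := ea.deriv (by norm_num) 0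
  obtain ⟨d1, hd1, bd1⟩ := ed.deriv (by norm_num) 0
  have hz : ∀ m : ℕ, node m → m < K → m ≠ n →
      fa n (m - n) = 0 ∨ (fd J (m - n) = 0 ∧ fs (m - n) = 0) := by
    intro m hm hmK hmn
    by_cases hd : dd (m - n - 0) = 0
    · right
      obtain ⟨s, hs⟩ : ∃ s : ℤ, (m : ℤ) - n = 36 * s := ⟨(m - n) / 36, by unfold dd at hd; omega⟩
      have e : (m : ℝ) - n = 36 * s := by exact_mod_cast hs
      rw [e]
      exact ⟨fd_int (by omega) (by rw [abs_lt]; omega), fs_int s⟩
    · exact Or.inl (fa_node hn hm hd)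
  have g1 : HasDerivAt (fun v : ℝ => fs v * fd J v * (fa n v * fa n v) * Complex.exp (l * v)) 1 0 := by
    refine (((fs_deriv.fun_mul hd1).fun_mul (ha1.fun_mul ha1)).fun_mul
      (hasDerivAt_cexp l 0)).congr_deriv ?_
    rw [a0, d0, s0]; simp
  have z1 : ∀ m : ℕ, node m → m < K → m ≠ n →
      fs (m - n) * fd J (m - n) * (fa n (m - n) * fa n (m - n)) = 0 ∧
      HasDerivAt (fun v : ℝ => fs v * fd J v * (fa n v * fa n v) * Complex.exp (l * v)) 0 (m - n) := by
    intro m hm hmK hmn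
    rcases hz m hm hmK hmn with e | ⟨e, e'⟩
    · refine ⟨by rw [e]; ring, ?_⟩
      have := high_dz ea ea (es.mul ed) (by norm_num) (by norm_num) (by norm_num) e e l
      simpa only [mul_comm (fa n _ * fa n _)] using this
    · exact ⟨by rw [e]; ring,
        high_dz es ed (ea.mul ea) (by norm_num) (by norm_num) (by norm_num) e' e l⟩
  have e1 := (es.mul ed).mul (ea.mul ea)
  interval_cases j
  · have g0 : HasDerivAt (fun v : ℝ => fd J v * fd J v * (fa n v * fa n v) * Complex.exp (l * v))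
        (2 * d1 + 2 * a1 + l) 0 := by
      refine (((hd1.fun_mul hd1).fun_mul (ha1.fun_mul ha1)).fun_mul
        (hasDerivAt_cexp l 0)).congr_deriv ?_
      rw [a0, d0]; simp; ring
    have hb : ‖-(2 * d1 + 2 * a1 + l)‖ ≤ 507 := by
      rw [norm_neg]
      refine (norm_add_le _ _).trans ((add_le_add_left (norm_add_le _ _) _).trans ?_)
      rw [norm_mul, norm_mul, Complex.norm_ofNat]
      linarith
    refine hK _ ((((ed.mul ed).mul (ea.mul ea)).add (e1.smul hb)).mono (by norm_num) (by norm_num))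
      fun m hm hmK => ?_
    simp only [add_mul, mul_assoc (-(2 * d1 + 2 * a1 + l))]
    by_cases hmn : m = n
    · subst hmn
      rw [sub_self]
      refine ⟨by simp [a0, d0, s0, dlt], ?_⟩
      refine (g0.fun_add (g1.const_mul _)).congr_deriv ?_
      simp [dlt]
    · obtain ⟨y0, y1⟩ := z1 m hm hmK hmn
      have y2 : fd J (m - n) * fd J (m - n) * (fa n (m - n) * fa n (m - n)) = 0 ∧
          HasDerivAt (fun v : ℝ => fd J v * fd J v * (fa n v * fa n v) * Complex.exp (l * v)) 0
            (m - n) := by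
        rcases hz m hm hmK hmn with e | ⟨e, -⟩
        · refine ⟨by rw [e]; ring, ?_⟩
          have := high_dz ea ea (ed.mul ed) (by norm_num) (by norm_num) (by norm_num) e e l
          simpa only [mul_comm (fa n _ * fa n _)] using this
        · exact ⟨by rw [e]; ring,
            high_dz ed ed (ea.mul ea) (by norm_num) (by norm_num) (by norm_num) e e l⟩
      refine ⟨by rw [y0, y2.1]; simp [dlt, hmn], ?_⟩
      refine (y2.2.fun_add (y1.const_mul _)).congr_deriv ?_
      simp [dlt, hmn]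
  · refine hK _ (e1.mono (by norm_num) (by norm_num)) fun m hm hmK => ?_
    by_cases hmn : m = n
    · subst hmn
      rw [sub_self]
      exact ⟨by simp [s0, dlt], g1.congr_deriv (by simp [dlt])⟩
    · obtain ⟨y0, y1⟩ := z1 m hm hmK hmn
      exact ⟨by rw [y0]; simp [dlt], y1.congr_deriv (by simp [dlt, hmn])⟩

end Pool.Agent.Lib.MP_a619ca_an.Hx
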