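import Pool.Agent.Lib.MP_a619ca_an.HxOmega

/-! Finite exponential sums and the building blocks of the explicit basis functions. -/

namespace Pool.Agent.Lib.MP_a619ca_an.Hx

open MeasureTheory Set Real Finset Filter Topology

/-- finite exponential sums with frequencies at most `x` and total variation at most `T` -/
def ES (x T : ℝ) (G : ℝ → ℂ) : Prop :=
  ∃ (ι : Type) (S : Finset ι) (c : ι → ℂ) (t : ι → ℝ), (∀ i ∈ S, |t i| ≤ x) ∧
    ∑ i ∈ S, ‖c i‖ ≤ T ∧ ∀ v, G v = ∑ i ∈ S, c i * ex (t i * v)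

theorem ES.mono {x x' T T' : ℝ} {G} (h : ES x T G) (hx : x ≤ x') (hT : T ≤ T') : ES x' T' G := by
  obtain ⟨ι, S, c, t, h1, h2, h3⟩ := h
  exact ⟨ι, S, c, t, fun i hi => (h1 i hi).trans hx, h2.trans hT, h3⟩

theorem ES.congr {x T : ℝ} {G G'} (h : ES x T G) (e : ∀ v, G' v = G v) : ES x T G' :=
  (funext e : G' = G) ▸ h

theorem ES.nonneg {x T : ℝ} {G} (h : ES x T G) : 0 ≤ T := by
  obtain ⟨ι, S, c, t, -, h2, -⟩ := h
  exact (Finset.sum_nonneg fun i _ => norm_nonneg _).trans h2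

theorem es_ex {x t : ℝ} (h : |t| ≤ x) : ES x 1 fun v => ex (t * v) :=
  ⟨Unit, Finset.univ, fun _ => 1, fun _ => t, fun _ _ => h, by simp, by simp⟩

theorem es_zero (x : ℝ) : ES x 0 fun _ => 0 :=
  ⟨Unit, ∅, fun _ => 1, fun _ => 0, by simp, by simp, by simp⟩

theorem ES.smul {x T b : ℝ} {G} (h : ES x T G) {a : ℂ} (ha : ‖a‖ ≤ b) :
    ES x (b * T) fun v => a * G v := by
  have h0 := h.nonneg
  obtain ⟨ι, S, c, t, h1, h2, h3⟩ := h
  refine ⟨ι, S, fun i => a * c i, t, h1, ?_, fun v => ?_⟩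
  · simp only [norm_mul, ← Finset.mul_sum]
    exact mul_le_mul ha h2 (Finset.sum_nonneg fun i _ => norm_nonneg _) ((norm_nonneg _).trans ha)
  · beta_reduce
    rw [h3, Finset.mul_sum]; simp only [mul_assoc]

theorem ES.add {x T T' : ℝ} {G G'} (h : ES x T G) (h' : ES x T' G') :
    ES x (T + T') fun v => G v + G' v := by
  obtain ⟨ι, S, c, t, h1, h2, h3⟩ := h
  obtain ⟨ι', S', c', t', h1', h2', h3'⟩ := h'
  refine ⟨ι ⊕ ι', S.disjSum S', Sum.elim c c', Sum.elim t t', ?_, ?_, fun v => ?_⟩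
  · rintro (i | i) hi
    · exact h1 i (by simpa using hi)
    · exact h1' i (by simpa using hi)
  · rw [Finset.sum_disjSum]; exact add_le_add h2 h2'
  · beta_reduce
    rw [Finset.sum_disjSum, h3, h3']; rfl

theorem ES.mul {x x' T T' : ℝ} {G G'} (h : ES x T G) (h' : ES x' T' G') :
    ES (x + x') (T * T') fun v => G v * G' v := by
  have h0 := h.nonneg
  obtain ⟨ι, S, c, t, h1, h2, h3⟩ := h
  obtain ⟨ι', S', c', t', h1', h2', h3'⟩ := h'
  refine ⟨ι × ι', S ×ˢ S', fun p => c p.1 * c' p.2, fun p => t p.1 + t' p.2, ?_, ?_, fun v => ?_⟩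
  · intro p hp
    obtain ⟨ha, hb⟩ := Finset.mem_product.1 hp
    exact (abs_add_le _ _).trans (add_le_add (h1 _ ha) (h1' _ hb))
  · simp only [norm_mul]
    rw [Finset.sum_product' S S' fun a b => ‖c a‖ * ‖c' b‖, ← Finset.sum_mul_sum]
    exact mul_le_mul h2 h2' (Finset.sum_nonneg fun i _ => norm_nonneg _) h0
  · beta_reduce
    rw [h3, h3', Finset.sum_mul_sum, Finset.sum_product]
    refine Finset.sum_congr rfl fun a _ => Finset.sum_congr rfl fun b _ => ?_
    rw [add_mul, ex_add]; ring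

theorem ES.sum {x : ℝ} {κ : Type} (K : Finset κ) {T : κ → ℝ} {G : κ → ℝ → ℂ}
    (h : ∀ k ∈ K, ES x (T k) (G k)) : ES x (∑ k ∈ K, T k) fun v => ∑ k ∈ K, G k v := by
  classical
  induction K using Finset.induction_on with
  | empty => simpa using es_zero x
  | insert a K ha ih =>
    simp only [Finset.sum_insert ha]
    exact (h a (Finset.mem_insert_self _ _)).add (ih fun k hk => h k (Finset.mem_insert_of_mem hk))

/-- the angular unit -/
noncomputable def th : ℂ := (2 * π / 36 : ℝ) * Complex.I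

theorem ex_eq (t v : ℝ) : ex (t * v) = Complex.exp (th * t * v) := by
  unfold ex th; congr 1; push_cast; ring

theorem norm_th : ‖th‖ = π / 18 := by
  unfold th
  rw [norm_mul, Complex.norm_I, Complex.norm_real, Real.norm_eq_abs, abs_of_pos (by positivity)]
  ring

theorem th_ne : th ≠ 0 := norm_pos_iff.1 (by rw [norm_th]; positivity)

theorem hasDerivAt_cexp (l : ℂ) (v : ℝ) :
    HasDerivAt (fun v : ℝ => Complex.exp (l * v)) (l * Complex.exp (l * v)) v := by
  have h := ((hasDerivAt_id (v : ℂ)).const_mul l).cexp.comp_ofReal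
  simpa [mul_comm] using h

theorem hasDerivAt_ex (t v : ℝ) : HasDerivAt (fun v => ex (t * v)) (th * t * ex (t * v)) v := by
  simp only [ex_eq]; exact hasDerivAt_cexp _ _

theorem ES.deriv {x T : ℝ} {G} (h : ES x T G) (hx : 0 ≤ x) (v : ℝ) :
    ∃ d, HasDerivAt G d v ∧ ‖d‖ ≤ T * x / 5 := by
  obtain ⟨ι, S, c, t, h1, h2, h3⟩ := h
  refine ⟨∑ i ∈ S, c i * (th * t i * ex (t i * v)), ?_, ?_⟩
  · rw [show G = fun v => ∑ i ∈ S, c i * ex (t i * v) from funext h3]
    exact HasDerivAt.fun_sum fun i _ => (hasDerivAt_ex (t i) v).const_mul _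
  · refine (norm_sum_le _ _).trans ?_
    have : ∀ i ∈ S, ‖c i * (th * t i * ex (t i * v))‖ ≤ ‖c i‖ * (x / 5) := by
      intro i hi
      rw [norm_mul, norm_mul, norm_mul, norm_ex, norm_th, Complex.norm_real, Real.norm_eq_abs]
      gcongr
      nlinarith [h1 i hi, abs_nonneg (t i), pi_lt_d2, pi_pos]
    refine (Finset.sum_le_sum this).trans ?_
    rw [← Finset.sum_mul, mul_div_assoc]
    gcongr

/-- the coefficients of `PX` -/
noncomputable def pc : ℕ → ℂ
  | 1 => 1 - eps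
  | 3 => 1 - eps
  | 4 => 1
  | 5 => eps
  | 7 => eps
  | 8 => -(1 - eps)
  | 10 => -(1 - eps)
  | 11 => -1
  | 12 => -eps
  | 14 => -eps
  | 15 => 1
  | _ => 0

/-- the exponents of `PX` -/
def JS : Finset ℕ := {1, 3, 4, 5, 7, 8, 10, 11, 12, 14, 15}

theorem norm_pc {j : ℕ} (hj : j ∈ JS) : ‖pc j‖ ≤ 1 ∧ j ≤ 15 := by
  simp only [JS, Finset.mem_insert, Finset.mem_singleton] at hj
  rcases hj with rfl | rfl | rfl | rfl | rfl | rfl | rfl | rfl | rfl | rfl | rfl <;>
    simp only [pc, norm_neg, norm_eps, norm_one_sub_eps, norm_one] <;> norm_num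

/-- the quotient of `PX` by a linear factor -/
noncomputable def PN (z Y : ℂ) : ℂ := ∑ j ∈ JS, pc j * z ^ (j - 1) * ∑ k ∈ range j, Y ^ k

theorem PN_one (z : ℂ) : PN z 1 = PD z := by
  simp [PN, JS, pc, PD]; ring

theorem PN_mul (z Y : ℂ) : z * (Y - 1) * PN z Y = PX (z * Y) - PX z := by
  simp [PN, JS, pc, PX, Finset.sum_range_succ]; ring

/-- the normalised quotient -/
noncomputable def fa (n : ℕ) (v : ℝ) : ℂ := (PD (ex n))⁻¹ * (ex (-7 * v) * PN (ex n) (ex v))

theorem es_fa {n : ℕ} (hn : node n) : ES 7 180 (fa n) := by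
  have h1 : ∀ j ∈ JS, ES 7 (1 * ∑ k ∈ range j, (1 : ℝ)) fun v =>
      (pc j * ex n ^ (j - 1)) * ∑ k ∈ range j, ex ((k - 7 : ℝ) * v) := by
    intro j hj
    refine (ES.sum _ fun k hk => es_ex ?_).smul ?_
    · have : k ≤ 14 := by have := (norm_pc hj).2; have := Finset.mem_range.1 hk; omega
      have h2 : (k : ℝ) ≤ 14 := by exact_mod_cast this
      have h3 : (0 : ℝ) ≤ k := k.cast_nonneg
      rw [abs_le]; constructor <;> linarith
    · rw [norm_mul, norm_pow, norm_ex, one_pow, mul_one]; exact (norm_pc hj).1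
  have h2 : ‖(PD (ex n))⁻¹‖ ≤ 2 := by
    rw [norm_inv]
    exact (inv_anti₀ (by norm_num) (PD_node hn)).trans (by norm_num)
  refine (((ES.sum JS h1).smul h2).mono le_rfl ?_).congr fun v => ?_
  · simp [JS]; norm_num
  · unfold fa PN
    rw [Finset.mul_sum]
    congr 1
    refine Finset.sum_congr rfl fun j _ => ?_
    rw [mul_left_comm, Finset.mul_sum]
    congr 1
    refine Finset.sum_congr rfl fun k _ => ?_
    rw [ex_pow, ← ex_add]; congr 1; ring

theorem fa_zero {n : ℕ} (hn : node n) : fa n 0 = 1 := by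
  have : PD (ex n) ≠ 0 := norm_pos_iff.1 (lt_of_lt_of_le (by norm_num) (PD_node hn))
  unfold fa
  rw [mul_zero, ex_zero, PN_one, one_mul, inv_mul_cancel₀ this]

theorem fa_node {n m : ℕ} (hn : node n) (hm : node m) (h : dd (m - n - 0) ≠ 0) :
    fa n (m - n) = 0 := by
  have h1 := PN_mul (ex n) (ex (m - n))
  rw [← ex_add, add_sub_cancel, PX_node hm, PX_node hn, sub_self] at h1
  have h2 := ex_sub_ne h
  push_cast at h2
  rw [ex_zero] at h2
  unfold fa
  rw [(mul_eq_zero.1 h1).resolve_left (mul_ne_zero (ex_ne _) h2), mul_zero, mul_zero]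

/-- the Dirichlet kernel -/
noncomputable def fd (J : ℕ) (v : ℝ) : ℂ := (J : ℂ)⁻¹ * ∑ k ∈ range J, ex ((k / J - 1 / 2 : ℝ) * v)

theorem es_fd {J : ℕ} (hJ : 0 < J) : ES (1 / 2) 1 (fd J) := by
  have hJ' : (0 : ℝ) < J := by exact_mod_cast hJ
  refine ((ES.sum (range J) fun k hk => es_ex ?_).smul (b := (J : ℝ)⁻¹) (by simp)).mono le_rfl ?_
  · have h1 : (k : ℝ) / J ≤ 1 := by
      rw [div_le_one hJ']; exact_mod_cast (Finset.mem_range.1 hk).le
    have h2 : 0 ≤ (k : ℝ) / J := by positivity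
    rw [abs_le]; constructor <;> linarith
  · simp [hJ'.ne']

theorem fd_zero {J : ℕ} (hJ : 0 < J) : fd J 0 = 1 := by
  have : (J : ℂ) ≠ 0 := by exact_mod_cast hJ.ne'
  simp [fd, ex_zero, this]

theorem fd_int {J : ℕ} {s : ℤ} (h0 : s ≠ 0) (hs : |s| < J) : fd J (36 * s) = 0 := by
  have hJ : (0 : ℤ) < J := (abs_nonneg s).trans_lt hs
  have hJ' : (J : ℝ) ≠ 0 := by exact_mod_cast hJ.ne'
  have h1 : ex (36 * s / J) ^ J = 1 := by
    rw [ex_pow, mul_div_cancel₀ _ hJ', ex_int]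
  have h2 : ex (36 * s / J) ≠ 1 := by
    intro h
    obtain ⟨k, hk⟩ := Complex.exp_eq_one_iff.1 h
    have h3 := congrArg Complex.im hk
    simp at h3
    have h4 : (s : ℝ) = k * J := by
      field_simp at h3
      linarith
    have h5 : s = k * J := by exact_mod_cast h4
    rw [h5, abs_mul, abs_of_pos hJ] at hs
    have h6 : k ≠ 0 := by rintro rfl; simp at h5; exact h0 h5
    nlinarith [Int.one_le_abs h6]
  have h3 : ∑ k ∈ range J, ex (36 * s / J) ^ k = 0 := by
    rw [geom_sum_eq h2, h1, sub_self, zero_div]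
  have h4 : ∑ k ∈ range J, ex ((k / J - 1 / 2 : ℝ) * (36 * s)) =
      ex (-18 * s) * ∑ k ∈ range J, ex (36 * s / J) ^ k := by
    rw [Finset.mul_sum]
    refine Finset.sum_congr rfl fun k _ => ?_
    rw [ex_pow, ← ex_add]; congr 1; ring
  unfold fd
  rw [h4, h3, mul_zero, mul_zero]

/-- the sine factor -/
noncomputable def fs (v : ℝ) : ℂ := th⁻¹ * (ex (1 / 2 * v) + -1 * ex (-(1 / 2) * v))

theorem es_fs : ES (1 / 2) (23 / 2) fs := by
  have h : ‖th⁻¹‖ ≤ 23 / 4 := by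
    rw [norm_inv, norm_th, inv_div, div_le_iff₀ pi_pos]
    linarith [pi_gt_d2]
  refine (((es_ex (by norm_num [abs_of_pos])).add ((es_ex (by norm_num [abs_of_pos])).smul (b := 1)
    (by simp))).smul h).mono le_rfl (by norm_num)

theorem fs_int (s : ℤ) : fs (36 * s) = 0 := by
  have : ex (1 / 2 * (36 * s)) = ex (-(1 / 2) * (36 * s)) * ex (36 * s) := by
    rw [← ex_add]; congr 1; ring
  unfold fs
  rw [this, ex_int]; ring

theorem fs_deriv : HasDerivAt fs 1 0 := by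
  have h := ((hasDerivAt_ex (1 / 2) 0).add ((hasDerivAt_ex (-(1 / 2)) 0).const_mul (-1))).const_mul th⁻¹
  refine HasDerivAt.congr_deriv h ?_
  have := th_ne
  simp only [mul_zero, ex_zero]
  push_cast
  field_simp
  ring

end Pool.Agent.Lib.MP_a619ca_an.Hx
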