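import Pool.Agent.Lib.MP_a619ca_an.HxGood

/-!
Interpolation at the nodes by a Neumann series in `ℓ¹`.
-/

namespace Pool.Agent.Lib.MP_a619ca_an.Hx

open MeasureTheory Set Real Finset Filter Topology

section Neumann

variable {ι : Type*} {a : ι → ι → ℝ}

theorem neu_step (ha : ∀ i, Summable fun k => |a k i|) (ha' : ∀ i, ∑' k, |a k i| ≤ 1 / 2)
    {y : ι → ℝ} (hy : Summable fun i => |y i|) :
    (Summable fun k => |∑' i, a k i * y i|) ∧ ∑' k, |∑' i, a k i * y i| ≤ 1 / 2 * ∑' i, |y i| := by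
  have h1 : ∀ i, ∑' k, |a k i| * |y i| ≤ 1 / 2 * |y i| := fun i => by
    rw [tsum_mul_right]
    exact mul_le_mul_of_nonneg_right (ha' i) (abs_nonneg _)
  have h2 : Summable fun i => ∑' k, |a k i| * |y i| :=
    (hy.mul_left (1 / 2)).of_nonneg_of_le (fun i => tsum_nonneg fun k => by positivity) h1
  have hs : Summable (Function.uncurry fun i k => |a k i| * |y i|) :=
    (summable_prod_of_nonneg fun p => by
      simp only [Function.uncurry, Pi.zero_apply]; positivity).2
      ⟨fun i => (ha i).mul_right |y i|, h2⟩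
  have h3 : ∀ k, |∑' i, a k i * y i| ≤ ∑' i, |a k i| * |y i| := fun k =>
    tsum_of_norm_bounded (f := fun i => a k i * y i) (hs.prod_symm.prod_factor k).hasSum
      fun i => le_of_eq (abs_mul _ _)
  have h4 : Summable fun k => ∑' i, |a k i| * |y i| := hs.prod_symm.prod
  have h5 := h4.of_nonneg_of_le (fun k => abs_nonneg _) h3
  refine ⟨h5, (h5.tsum_le_tsum h3 h4).trans ?_⟩
  rw [hs.tsum_comm, ← tsum_mul_left]
  exact h2.tsum_le_tsum h1 (hy.mul_left _)

theorem neumann (ha : ∀ i, Summable fun k => |a k i|) (ha' : ∀ i, ∑' k, |a k i| ≤ 1 / 2)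
    {t : ι → ℝ} (ht : Summable fun i => |t i|) :
    ∃ y : ι → ℝ, (Summable fun i => |y i|) ∧ ∑' i, |y i| ≤ 2 * ∑' i, |t i| ∧
      ∀ k, y k - ∑' i, a k i * y i = t k := by
  let Y : ℕ → ι → ℝ := fun n => (fun y k => ∑' i, a k i * y i)^[n] t
  have hY : ∀ n k, Y (n + 1) k = ∑' i, a k i * Y n i := fun n k => by
    simp only [Y, Function.iterate_succ_apply']
  have h1 : ∀ n, (Summable fun i => |Y n i|) ∧ ∑' i, |Y n i| ≤ (1 / 2) ^ n * ∑' i, |t i| := by
    intro n
    induction n with
    | zero => exact ⟨ht, by simp [Y]⟩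
    | succ n ih =>
      obtain ⟨h2, h3⟩ := neu_step ha ha' ih.1
      simp only [hY]
      refine ⟨h2, h3.trans ?_⟩
      rw [pow_succ', mul_assoc]
      exact mul_le_mul_of_nonneg_left ih.2 (by norm_num)
  have hg : Summable fun n : ℕ => (1 / 2 : ℝ) ^ n * ∑' i, |t i| := summable_geometric_two.mul_right _
  have h2 : Summable fun n => ∑' i, |Y n i| :=
    hg.of_nonneg_of_le (fun n => tsum_nonneg fun i => abs_nonneg _) fun n => (h1 n).2
  have hs : Summable (Function.uncurry fun n i => |Y n i|) :=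
    (summable_prod_of_nonneg fun p => abs_nonneg _).2 ⟨fun n => (h1 n).1, h2⟩
  have h3 : ∀ i, |∑' n, Y n i| ≤ ∑' n, |Y n i| := fun i =>
    tsum_of_norm_bounded (f := fun n => Y n i) (hs.prod_symm.prod_factor i).hasSum fun n => le_rfl
  have h4 : Summable fun i => ∑' n, |Y n i| := hs.prod_symm.prod
  have h5 := h4.of_nonneg_of_le (fun k => abs_nonneg _) h3
  refine ⟨fun i => ∑' n, Y n i, h5, (h5.tsum_le_tsum h3 h4).trans ?_, fun k => ?_⟩
  · rw [hs.tsum_comm]
    refine (h2.tsum_le_tsum (fun n => (h1 n).2) hg).trans (le_of_eq ?_)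
    rw [tsum_mul_right, tsum_geometric_two]
  · have h6 : Summable (Function.uncurry fun n i => a k i * Y n i) := by
      refine (hs.mul_left (1 / 2)).of_norm_bounded fun p => ?_
      simp only [Function.uncurry, Real.norm_eq_abs, abs_mul]
      exact mul_le_mul_of_nonneg_right
        (((ha p.2).le_tsum k fun _ _ => abs_nonneg _).trans (ha' p.2)) (abs_nonneg _)
    have h7 : Summable fun n => Y n k := Summable.of_abs (hs.prod_symm.prod_factor k)
    simp only [← tsum_mul_left]
    rw [h6.tsum_comm, h7.tsum_eq_zero_add]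
    simp only [hY]
    simp [Y]

end Neumann

/-- the index set of the interpolation data -/
abbrev Ix : Type := {n // node n} × Bool × Fin 2

theorem Small.sum_le {T : Bool → ℕ → ℕ → ℝ} {x : ℝ} (h : Small T x) (S : Finset Ix) :
    ∑ i ∈ S, |WW i.1 * T i.2.1 i.2.2 i.1| ≤ x := by
  obtain ⟨M, hM⟩ := (S.image fun i => (i.1 : ℕ)).exists_nat_subset_range
  refine le_trans (sum_le_sum_of_subset_of_nonneg
    (t := (Finset.range M).subtype node ×ˢ (Finset.univ : Finset (Bool × Fin 2)))
    (fun i hi => ?_) fun _ _ _ => abs_nonneg _) (le_trans (le_of_eq ?_) (h M))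
  · simpa using hM (mem_image_of_mem _ hi)
  · rw [← sum_filter, ← sum_subtype_eq_sum_filter, sum_product]
    refine sum_congr rfl fun n _ => ?_
    simp only [Fintype.sum_prod_type, Fintype.sum_bool, Fin.sum_univ_two, abs_mul,
      abs_of_pos (WW_pos _), Fin.val_zero, Fin.val_one]
    ring

theorem Small.summable {T : Bool → ℕ → ℕ → ℝ} {x : ℝ} (h : Small T x) :
    Summable fun i : Ix => |WW i.1 * T i.2.1 i.2.2 i.1| :=
  summable_of_sum_le (fun _ => abs_nonneg _) h.sum_le

theorem Small.tsum_le {T : Bool → ℕ → ℕ → ℝ} {x : ℝ} (h : Small T x) :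
    ∑' i : Ix, |WW i.1 * T i.2.1 i.2.2 i.1| ≤ x :=
  h.summable.tsum_le_of_sum_le h.sum_le

theorem Small.xor {T : Bool → ℕ → ℕ → ℝ} {x : ℝ} (h : Small T x) (s : Bool) :
    Small (fun r => T (xor s r)) x := by
  cases s
  · simpa using h
  · intro M
    refine le_trans (le_of_eq (sum_congr rfl fun m _ => ?_)) (h M)
    simp only [Bool.true_xor, Bool.not_false, Bool.not_true]
    split_ifs
    · ring
    · rfl

theorem Good.xor {a B : ℝ} {F} (h : Good a B F) (s : Bool) : Good a B (fun r => F (xor s r)) := by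
  cases s
  · simpa using h
  · have := h.swp
    unfold Hx.swp at this
    simpa using this

theorem dlt_xor (i k : Ix) :
    dlt i.1 i.2.2 (xor i.2.1 k.2.1) k.2.2 k.1 = if i = k then 1 else 0 := by
  obtain ⟨n, s, j⟩ := i
  obtain ⟨m, r, l⟩ := k
  unfold dlt
  refine if_congr ?_ rfl rfl
  simp only [Prod.mk.injEq, Fin.val_inj, Subtype.val_inj]
  cases s <;> cases r <;> simp [eq_comm, and_comm]

theorem interp (hb : ∀ n j, node n → j < 2 → Basis n j) {T : Bool → ℕ → ℕ → ℝ} {x : ℝ}
    (hT : Small T x) : ∃ F, Good (23 / 20) (2 * 10 ^ 9 * x) F ∧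
      ∀ m, node m → ∀ s, ∀ j < 2, F s j m = T s j m := by
  classical
  choose G hG hS using fun i : Ix => hb i.1 i.2.2 i.1.2 i.2.2.2
  have hW : ∀ i : Ix, 0 < WW i.1 := fun i => WW_pos _
  let a : Ix → Ix → ℝ := fun k i => WW k.1 *
    (dlt i.1 i.2.2 (xor i.2.1 k.2.1) k.2.2 k.1 - G i (xor i.2.1 k.2.1) k.2.2 (k.1 : ℕ)) / WW i.1
  obtain ⟨y, hy, hy', hk⟩ := neumann (a := a) (t := fun i => WW i.1 * T i.2.1 i.2.2 i.1)
    (fun i => by
      simp only [a, abs_div]
      exact ((hS i).xor i.2.1).summable.div_const _)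
    (fun i => by
      simp only [a, abs_div]
      rw [tsum_div_const, abs_of_pos (hW i), div_le_iff₀ (hW i)]
      exact ((hS i).xor i.2.1).tsum_le.trans (le_of_eq (by ring))) hT.summable
  have hg : ∀ i : Ix, Good (23 / 20) (10 ^ 9 * |y i|)
      fun s j u => y i / WW i.1 * G i (xor i.2.1 s) j u := fun i => by
    refine (((hG i).xor i.2.1).smul (y i / WW i.1)).mono (le_of_eq ?_)
    rw [abs_div, abs_of_pos (hW i)]
    field_simp [(hW i).ne']
  refine ⟨_, (Good.tsum (by norm_num) (hy.mul_left (10 ^ 9)) hg).mono ?_, fun m hm s j hj => ?_⟩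
  · rw [tsum_mul_left]
    linarith [hT.tsum_le]
  · let k : Ix := (⟨m, hm⟩, s, ⟨j, hj⟩)
    have h1 : Summable fun i : Ix => y i / WW i.1 * G i (xor i.2.1 s) j m :=
      ((hy.mul_left (10 ^ 9)).mul_right (exp (-(23 / 20 * (m : ℝ))))).of_norm_bounded
        fun i => (hg i).bd s j m hj.le (Nat.cast_nonneg m)
    have h2 : ∀ i : Ix, a k i * y i =
        (if i = k then y k else 0) - WW m * (y i / WW i.1 * G i (xor i.2.1 s) j m) := by
      intro i
      have := (hW i).ne'
      simp only [a, dlt_xor]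
      split_ifs with h
      · subst h
        simp only [k] at this ⊢
        field_simp
      · simp only [k]
        field_simp
        ring
    have h3 := hk k
    simp only [h2] at h3
    rw [(summable_of_ne_finset_zero (s := {k}) fun i hi => if_neg (by simpa using hi)).tsum_sub
      (h1.mul_left _), tsum_ite_eq, tsum_mul_left, sub_sub_cancel] at h3
    exact mul_left_cancel₀ (WW_pos m).ne' h3

end Pool.Agent.Lib.MP_a619ca_an.Hx
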