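import Pool.Agent.Lib.MP_a619ca_an.HxRes
import Pool.Agent.Lib.MP_a619ca_an.HxRunB2

/-!
Approximate basis functions at the first 18 nodes.
-/

namespace Pool.Agent.Lib.MP_a619ca_an.Hx

open Complex Finset
open scoped Real

set_option exponentiation.threshold 500

theorem unpack_length (n : ℕ) (y : ℤ) : (unpack n y).length = n := by
  induction n generalizing y with
  | zero => rfl
  | succ n ih => rw [unpack, List.length_cons, ih]

theorem allB_sound {E p : ℕ} {l : List ℤ} {a : ℕ} (h : allB E p l a = true) {c : ℕ}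
    (hc : c < l.length) :
    |l.getD c 0 - if a + c = p ∨ a + c = p + 5 then 2 ^ 320 else 0| + E ≤ 2 ^ 300 := by
  induction l generalizing a c with
  | nil => simp at hc
  | cons d l ih =>
    rw [allB, Bool.and_eq_true] at h
    rcases c with _ | c
    · exact of_decide_eq_true h.1
    · have := ih h.2 (c := c) (by simpa using hc)
      rwa [add_right_comm, add_assoc a] at this

noncomputable def tcB (a : ℕ) (i : ℕ × ℕ) (c : ℕ) : ℂ :=
  cf 128 (bw.getD ((a + c) / 4) []) (bv.getD ((a + c) / 4) []) ((a + c) % 4 / 2 == 1) i *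
    lam i ^ ((a + c) % 2)

theorem sub_LR {i : ℕ × ℕ} (h : i ∈ LS) : i ∈ LR :=
  List.mem_append_left _ (List.mem_append_left _ h)

theorem rows_B (a : ℕ) : Rows (tcB a) (tbB a) 72 LS := fun i hi => by
  have hi' : i ∈ LA := List.mem_append_right _ (sub_LR hi)
  refine ⟨by simp [tbB], fun k hk => ?_⟩
  rw [tbB, List.getD_eq_getElem _ _ (by simpa using hk), List.getElem_map, List.getElem_range', one_mul,
    tcB, colB]
  split_ifs with h
  · rw [h, pow_zero, mul_one]
    exact mem_cf _ _ _ _ hi'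
  · rw [show (a + k) % 2 = 1 by omega, pow_one]
    exact (mem_cf _ _ _ _ hi').mul (mem_lam hi')

theorem basis_col {a : ℕ} (h : runB a = true) {t : ℕ} (h1 : a ≤ 4 * t) (h2 : 4 * t + 3 < a + 72)
    {m : ℕ} (hm : node m) (s : Bool) {i : ℕ} (hi : i < 2) :
    |Real.exp (9 / 5 * m) * FS 128 (bw.getD t []) (bv.getD t []) s i m| ≤ 10 ^ 7 ∧ (m < 108 →
      |(if s = false ∧ i = t % 2 ∧ nl.idxOf m = t / 2 then 1 else 0) -
        Real.exp (9 / 5 * m) * FS 128 (bw.getD t []) (bv.getD t []) s i m| ≤ 1 / 2 ^ 20) := by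
  obtain ⟨c, c1, c2⟩ : ∃ c < 72, a + c = 4 * t + 2 * s.toNat + i :=
    ⟨4 * t + 2 * s.toNat + i - a, by have := s.toNat_le; omega, by omega⟩
  have e : ∀ j, cf 128 (bw.getD t []) (bv.getD t []) s j * lam j ^ i = tcB a j c := fun j => by
    have := s.toNat_le
    rw [tcB, c2, show (4 * t + 2 * s.toNat + i) / 4 = t by omega,
      show (4 * t + 2 * s.toNat + i) % 2 = i by omega,
      show (4 * t + 2 * s.toNat + i) % 4 / 2 = s.toNat by omega]
    cases s <;> rfl
  rw [rep_FS]
  simp only [e]
  refine ⟨(abs_re_le_norm _).trans ((rows_bound (fun i hi => norm_X (sub_LR hi) m.cast_nonneg)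
    (rows_B a) c1).trans ?_), fun h108 => ?_⟩
  · rw [div_le_iff₀ (by positivity)]
    exact_mod_cast of_decide_eq_true (Bool.and_eq_true_iff.1 h).2
  · obtain ⟨xs, e, g1, g2⟩ := run_sound (fun i hi => muR_ok i (sub_LR hi)) one_pos
      (Bool.and_eq_true_iff.1 h).1 m.zero_le (by omega)
    rw [testB, if_pos hm, Bool.and_eq_true] at g1
    simp only [zero_add, one_mul, Nat.cast_one, div_one] at g2
    have d := abs_le.1 (dots_sound g2 (rows_B a) g1.1 c1)
    have b := (Int.cast_le (R := ℝ)).2 (allB_sound g1.2 (c := c)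
      (by rw [Tab.dots, List.length_tail, unpack_length]; omega))
    have k : (a + c = 8 * nl.idxOf m ∨ a + c = 8 * nl.idxOf m + 5) ↔
        s = false ∧ i = t % 2 ∧ nl.idxOf m = t / 2 := by
      cases s <;> simp at c2 ⊢ <;> omega
    simp only [k] at b
    clear h g1 k
    generalize ((mkTab LS (tbB a)).dots 72 xs).getD c 0 = x at *
    split_ifs at b ⊢
    all_goals
      push_cast at b
      have b1 := abs_le.1 (le_sub_iff_add_le.2 b)
      exact abs_le.2 ⟨by linarith [d.1, d.2, b1.1, b1.2], by linarith [d.1, d.2, b1.1, b1.2]⟩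

theorem basis_low {n j : ℕ} (hn : node n) (h : n < 43) (hj : j < 2) : Basis n j := by
  obtain ⟨i1, i2⟩ := idx_nl n h hn
  obtain ⟨t, ht⟩ : ∃ t, t = 2 * nl.idxOf n + j := ⟨_, rfl⟩
  have w : WW n = Real.exp (9 / 5 * n) / 10 ^ 4 := if_pos h
  have p := Real.exp_pos (9 / 5 * n)
  refine ⟨_, ((good_FS 128 (bw.getD t []) (bv.getD t [])).smul (Real.exp (9 / 5 * n))).mono ?_,
    fun M => ?_⟩
  · have a : ∀ l, ∑ k ∈ range 46, 110 * ‖cv 128 l k‖ ≤
        110 * ((∑ k ∈ range 46, (cvB 128 l k).up : ℕ) / 2 ^ 160) := fun l => by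
      rw [← mul_sum, Nat.cast_sum, sum_div]
      gcongr with k
      exact (mem_cv 128 l k).up
    have b := (Nat.cast_le (α := ℝ)).2 (nrmB t (by omega))
    rw [Nat.cast_add] at b
    have c : ∑ k ∈ range 46, 110 * ‖cv 128 (bw.getD t []) k‖ +
        ∑ k ∈ range 46, 110 * ‖cv 128 (bv.getD t []) k‖ ≤ 10 ^ 5 := by
      have a1 := a (bw.getD t [])
      have a2 := a (bv.getD t [])
      generalize ∑ k ∈ range 46, (cvB 128 (bw.getD t []) k).up = x at *
      generalize ∑ k ∈ range 46, (cvB 128 (bv.getD t []) k).up = y at *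
      push_cast at b
      linarith
    rw [w, abs_of_pos p]
    linarith [mul_le_mul_of_nonneg_left c p.le]
  · refine le_trans (small_of (T := fun s i m => dlt n j s i m -
      Real.exp (9 / 5 * n) * FS 128 (bw.getD t []) (bv.getD t []) s i m)
      (τ := Real.exp (9 / 5 * n) * (1 / 2 ^ 20)) (x := 0) (y := 0)
      (B := Real.exp (9 / 5 * n) * 10 ^ 7) (by positivity) le_rfl le_rfl (by positivity)
      (fun m hm s i hi => ?_) M) (by rw [w]; linarith)
    have e : Real.exp (9 / 5 * m) * (dlt n j s i m -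
        Real.exp (9 / 5 * n) * FS 128 (bw.getD t []) (bv.getD t []) s i m) = Real.exp (9 / 5 * n) *
        (dlt n j s i m - Real.exp (9 / 5 * m) * FS 128 (bw.getD t []) (bv.getD t []) s i m) := by
      unfold dlt
      split_ifs with h
      · rw [h.2.2]
      · ring
    obtain ⟨b1, b2⟩ : _ ∧ _ := if h : t < 18 then basis_col runB1 (t := t) (by omega) (by omega) hm s hi
      else basis_col runB2 (t := t) (by omega) (by omega) hm s hi
    simp only [e, abs_mul, abs_of_pos p, ite_self, add_zero]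
    split_ifs with h108
    · have k : nl.idxOf m = t / 2 ↔ m = n :=
        ⟨fun h => i2 m h108 (by omega), fun h => by rw [h]; omega⟩
      rw [add_zero]
      have := b2 h108
      simp only [k, show t % 2 = j by omega] at this
      exact mul_le_mul_of_nonneg_left this p.le
    · rw [dlt, if_neg (fun h => by omega), zero_sub, abs_neg]
      linarith [mul_le_mul_of_nonneg_left b1 p.le]

end Pool.Agent.Lib.MP_a619ca_an.Hx
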