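import Pool.Agent.Lib.MP_a619ca_an.HxPos2
import Pool.Agent.Lib.MP_a619ca_an.HxInterp

/-!
The exact function from the approximate one.
-/

namespace Pool.Agent.Lib.MP_a619ca_an.Hx

open Set Real

theorem magic_of {B0 : ℝ} {F0} (hG : Good (23 / 20) B0 F0)
    (hb : ∀ n j, node n → j < 2 → Basis n j)
    (hres : Small (fun s j m => tgt s j m - F0 s j m) (1 / 10 ^ 15))
    (hA : ∀ i < 480, CellA F0 i) (hB : ∀ i, 480 ≤ i → CellB F0 i) :
    ∃ B F, Good (23 / 20) B F ∧ (∀ u, 0 < u → F false 0 u ≤ exp (-(aa * u)) / u) ∧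
      (∀ v, 0 < v → 0 ≤ AA * Ei v + F true 0 v) ∧
      ∀ m : ℕ, node m → F false 0 m = exp (-(aa * m)) / m ∧ F true 0 m = -(AA * Ei m) := by
  obtain ⟨D, hD, hn⟩ := interp hb hres
  exact magic_of_cor hG hD hn hA hB

end Pool.Agent.Lib.MP_a619ca_an.Hx
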