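import Pool.Agent.Lib.MP_a619ca_an.HxSphere2

/-!
The short range part of the lower bound on the sphere: stereographic windows.
-/

namespace Pool.Agent.Lib.MP_a619ca_an.Hx

open MeasureTheory Set Real Finset Filter Topology

/-- squared radius of the stereographic image -/
noncomputable def slT (L t : ℝ) : ℝ := L * (1 - t) / (1 + t)

theorem sl_norm_two (a b : ℝ) : ‖(!₂[a, b] : E2)‖ ^ 2 = a ^ 2 + b ^ 2 := by
  rw [EuclideanSpace.real_norm_sq_eq]
  simp

theorem sl_stereo {L : ℝ} (hL : 0 < L) (c : S2) : ∃ Y : S2 → E2, ∀ x, -1 < ip x c →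
    ‖Y x‖ ^ 2 = slT L (ip x c) ∧ ∀ y, -1 < ip y c → L / 4 * dist x y ^ 2 ≤ ‖Y x - Y y‖ ^ 2 := by
  obtain ⟨R, hR⟩ := exists_rot c (sp (0, 1))
  have h1 : ∀ x, ip x c = (rot R x : E3) 2 := fun x => by
    rw [← ip_rot R, hR, ip, sp_coe (by norm_num), inner_three]
    simp [sph]
  have h2 : ∀ x, (rot R x : E3) 0 ^ 2 + (rot R x : E3) 1 ^ 2 + (rot R x : E3) 2 ^ 2 = 1 := fun x => by
    rw [← norm_sq_three, S2.norm_eq, one_pow]
  have h3 : √L ^ 2 = L := sq_sqrt hL.le
  refine ⟨fun x => !₂[√L / (1 + ip x c) * (rot R x : E3) 0, √L / (1 + ip x c) * (rot R x : E3) 1],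
    fun x hx => ⟨?_, fun y hy => ?_⟩⟩
  · have h4 := h2 x
    have h5 : 1 + ip x c ≠ 0 := by linarith
    rw [sl_norm_two, slT, mul_pow, mul_pow, div_pow, h3, ← mul_add]
    rw [← h1] at h4
    field_simp
    linear_combination h4
  · have e : (!₂[√L / (1 + ip x c) * (rot R x : E3) 0, √L / (1 + ip x c) * (rot R x : E3) 1] : E2) -
        !₂[√L / (1 + ip y c) * (rot R y : E3) 0, √L / (1 + ip y c) * (rot R y : E3) 1] =
        !₂[√L * ((rot R x : E3) 0 / (1 + ip x c) - (rot R y : E3) 0 / (1 + ip y c)),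
          √L * ((rot R x : E3) 1 / (1 + ip x c) - (rot R y : E3) 1 / (1 + ip y c))] := by
      ext i
      fin_cases i <;> simp <;> ring
    have h4 := h2 x
    have h5 := h2 y
    have h6 : ip x y = (rot R y : E3) 0 * (rot R x : E3) 0 + (rot R y : E3) 1 * (rot R x : E3) 1 +
        ip y c * ip x c := by
      rw [← ip_rot R x y, ip, inner_three, h1, h1]
    rw [← h1] at h4 h5
    have a1 := (abs_le.1 (abs_ip_le x c)).2
    have a2 := (abs_le.1 (abs_ip_le y c)).2
    have a3 : 0 < 1 + ip x c := by linarith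
    have a4 : 0 < 1 + ip y c := by linarith
    have a5 : ((rot R x : E3) 0 / (1 + ip x c) - (rot R y : E3) 0 / (1 + ip y c)) ^ 2 +
        ((rot R x : E3) 1 / (1 + ip x c) - (rot R y : E3) 1 / (1 + ip y c)) ^ 2 =
        dist x y ^ 2 / ((1 + ip x c) * (1 + ip y c)) := by
      rw [dist_sq_eq, h6]
      field_simp
      linear_combination (1 + ip y c) ^ 2 * h4 + (1 + ip x c) ^ 2 * h5
    simp only
    rw [e, sl_norm_two, mul_pow, mul_pow, h3, ← mul_add, a5, div_mul_eq_mul_div, mul_div_assoc]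
    exact mul_le_mul_of_nonneg_left
      (div_le_div_of_nonneg_left (sq_nonneg _) (mul_pos a3 a4) (by nlinarith)) hL.le

theorem sl_subst {L : ℝ} (hL : 0 < L) (x : S2) {G : ℝ → ℝ} (hG : Measurable G) :
    ∫ c, G (slT L (ip x c)) * (2 / (1 + ip x c)) ^ 2 ∂sg = (∫ T in Ioi (0 : ℝ), G T) / L := by
  have hT : Measurable (slT L) := by unfold slT; fun_prop
  rw [integral_ip x (F := fun t => G (slT L t) * (2 / (1 + t)) ^ 2) (by fun_prop)]
  have h := integral_image_eq_integral_abs_deriv_smul (s := Ioo (-1 : ℝ) 1) (f := slT L)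
    (f' := fun t => -(L / 2 * (2 / (1 + t)) ^ 2)) measurableSet_Ioo (fun t ht => ?_)
    (fun s hs t ht h => ?_) G
  · have e : slT L '' Set.Ioo (-1) 1 = Set.Ioi 0 := by
      ext T
      constructor
      · rintro ⟨t, ⟨h1, h2⟩, rfl⟩
        exact div_pos (mul_pos hL (by linarith)) (by linarith)
      · intro h
        have h0 : 0 < L + T := add_pos hL h
        have h1 : (0 : ℝ) < T := h
        refine ⟨(L - T) / (L + T), ⟨?_, ?_⟩, ?_⟩
        · rw [lt_div_iff₀ h0]; linarith
        · rw [div_lt_one h0]; linarith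
        · rw [slT, div_eq_iff]
          · field_simp
            ring
          · rw [one_add_div h0.ne']
            exact div_ne_zero (by linarith) h0.ne'
    rw [e] at h
    rw [h, intervalIntegral.integral_of_le (by norm_num), integral_Ioc_eq_integral_Ioo,
      ← integral_const_mul, ← integral_div]
    refine integral_congr_ae (Eventually.of_forall fun t => ?_)
    simp only [smul_eq_mul]
    rw [abs_neg, abs_of_nonneg (by positivity)]
    field_simp
  · have h0 : 1 + t ≠ 0 := by linarith [ht.1]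
    refine (((((hasDerivAt_id t).const_sub 1).const_mul L).div ((hasDerivAt_id t).const_add 1)
      h0).congr_deriv ?_).hasDerivWithinAt
    simp only [id]
    field_simp
    ring
  · have h1 : 1 + s ≠ 0 := by linarith [hs.1]
    have h2 : 1 + t ≠ 0 := by linarith [ht.1]
    rw [slT, slT, div_eq_div_iff h1 h2, mul_assoc, mul_assoc] at h
    linarith [mul_left_cancel₀ hL.ne' h]

theorem sl_jac {L t : ℝ} (hL : 0 < L) (ht : -1 < t) : 2 / (1 + t) = 1 + slT L t / L := by
  have : 1 + t ≠ 0 := by linarith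
  unfold slT
  field_simp
  ring

theorem sl_exp {L T : ℝ} (hL : 0 < L) (hT : 0 ≤ T) : (1 + T / L) ^ 2 ≤ exp (2 / L * T) := by
  have h := pow_le_pow_left₀ (by positivity) (show 1 + T / L ≤ exp (T / L) by
    linarith [add_one_le_exp (T / L)]) 2
  rw [← exp_nat_mul] at h
  refine h.trans (le_of_eq ?_)
  congr 1
  push_cast
  ring

/-- the mean square of the weight -/
noncomputable def slA (b L : ℝ) : ℝ := ∫ T in Ioi (0 : ℝ), exp (-(2 * b * T)) * (1 + T / L) ^ 2

theorem slA_bounds {b L : ℝ} (hL : 0 < L) (hbL : 2 / L ≤ b) :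
    1 / (2 * b) ≤ slA b L ∧ slA b L ≤ 1 / (2 * b - 2 / L) := by
  have h0 : 0 < 2 / L := by positivity
  have e : ∀ a : ℝ, 0 < a → IntegrableOn (fun T : ℝ => exp (-(a * T))) (Ioi 0) ∧
      ∫ T in Ioi (0 : ℝ), exp (-(a * T)) = 1 / a := fun a ha => by
    have h1 := integrableOn_exp_mul_Ioi (neg_neg_of_pos ha) 0
    have h2 := integral_exp_mul_Ioi (neg_neg_of_pos ha) 0
    simp only [neg_mul] at h1 h2
    exact ⟨h1, by rw [h2]; simp⟩
  obtain ⟨a1, a2⟩ := e (2 * b) (by linarith)
  obtain ⟨a3, a4⟩ := e (2 * b - 2 / L) (by linarith)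
  have h1 : ∀ T ∈ Ioi (0 : ℝ), exp (-(2 * b * T)) * (1 + T / L) ^ 2 ≤ exp (-((2 * b - 2 / L) * T)) :=
    fun T hT => by
    refine (mul_le_mul_of_nonneg_left (sl_exp hL (le_of_lt hT)) (exp_pos _).le).trans (le_of_eq ?_)
    rw [← exp_add]
    congr 1
    ring
  have h2 : IntegrableOn (fun T : ℝ => exp (-(2 * b * T)) * (1 + T / L) ^ 2) (Ioi 0) :=
    Integrable.mono' a3 (Measurable.aestronglyMeasurable (by fun_prop))
      ((ae_restrict_iff' measurableSet_Ioi).2 (Eventually.of_forall fun T hT => by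
        rw [Real.norm_of_nonneg (by positivity)]
        exact h1 T hT))
  refine ⟨a2 ▸ setIntegral_mono_on a1 h2 measurableSet_Ioi fun T hT => ?_,
    a4 ▸ setIntegral_mono_on h2 a3 measurableSet_Ioi h1⟩
  have h3 : 0 ≤ T / L := div_nonneg (le_of_lt hT) hL.le
  exact le_mul_of_one_le_right (exp_pos _).le (one_le_pow₀ (by linarith))

/-- the short range estimate -/
theorem short_range {M : Measure E2} [IsFiniteMeasure M] {k φ : ℝ → ℝ}
    (hk : ∀ Y : E2, charFun M Y = (k (‖Y‖ ^ 2) : ℂ)) (h0 : ∀ u, 0 < u → 0 ≤ φ u)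
    (hφ : ∀ u v, 0 < u → u ≤ v → k v ≤ φ u) {b L : ℝ} (hL : 0 < L) (hbL : 2 / L ≤ b)
    {N : ℕ} (x : Fin N → S2) (hx : Function.Injective x) :
    (2 * N / L - AA) * (AA / (2 * b) * ∫ u in Ioi (0 : ℝ), exp (-(b / 2 * u)) * k u) -
      k 0 * N * (slA b L / L) ≤
      slA b L / L * ∑ i, ∑ j ∈ univ.erase i, φ (L / 4 * dist (x i) (x j) ^ 2) := by
  have hb : 0 < b := lt_of_lt_of_le (by positivity) hbL
  obtain ⟨Ψ, C, p1, p2, p3, p4⟩ := plane_ineq hk hb
  generalize AA / (2 * b) * ∫ u in Ioi (0 : ℝ), exp (-(b / 2 * u)) * k u = K at p3 p4 ⊢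
  have hT : Measurable (slT L) := by unfold slT; fun_prop
  obtain ⟨W, hW⟩ : ∃ W : ℝ → ℝ, W = fun t => exp (-(b * slT L t)) * (2 / (1 + t)) ^ 2 := ⟨_, rfl⟩
  have w0 : ∀ t, 0 ≤ W t := fun t => by rw [hW]; positivity
  have w1 : W (-1) = 0 := by simp [hW]
  have w2 : ∀ y c : S2, W (ip y c) = 0 ∨ -1 < ip y c := fun y c => by
    rcases (abs_le.1 (abs_ip_le y c)).1.eq_or_lt with h | h
    · exact Or.inl (h ▸ w1)
    · exact Or.inr h
  have w3 : ∀ y c : S2, W (ip y c) ≤ 1 := fun y c => by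
    rcases w2 y c with h | h
    · rw [h]; exact zero_le_one
    · have h1 : 0 ≤ slT L (ip y c) :=
        div_nonneg (mul_nonneg hL.le (by linarith [(abs_le.1 (abs_ip_le y c)).2])) (by linarith)
      simp only [hW]
      rw [sl_jac hL h]
      refine (mul_le_mul_of_nonneg_left (sl_exp hL h1) (exp_pos _).le).trans ?_
      rw [← exp_add, exp_le_one_iff]
      nlinarith
  have w4 : Measurable W := by rw [hW]; fun_prop
  have m : ∀ y : S2, Measurable (ip y) := fun y => (ip_preserving y).measurable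
  have i1 : ∀ y : S2, Integrable (fun c => W (ip y c) ^ 2) sg := fun y =>
    Integrable.of_bound ((w4.comp (m y)).pow_const 2).aestronglyMeasurable 1
      (Eventually.of_forall fun c => by
        rw [Real.norm_of_nonneg (sq_nonneg _)]
        exact pow_le_one₀ (w0 _) (w3 y c))
  have i2 : ∀ y : S2, Integrable (fun c => W (ip y c) * Ψ (slT L (ip y c))) sg := fun y =>
    Integrable.of_bound ((w4.comp (m y)).mul (p1.comp (hT.comp (m y)))).aestronglyMeasurable C
      (Eventually.of_forall fun c => by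
        rw [Real.norm_eq_abs, abs_mul, abs_of_nonneg (w0 _)]
        exact (mul_le_of_le_one_left (abs_nonneg _) (w3 y c)).trans (p2 _))
  have e1 : ∀ y : S2, ∫ c, W (ip y c) ^ 2 ∂sg = slA b L / L := fun y => by
    rw [slA, ← sl_subst hL y (by fun_prop)]
    refine integral_congr_ae (Eventually.of_forall fun c => ?_)
    rcases (abs_le.1 (abs_ip_le y c)).1.eq_or_lt with h | h
    · simp [← h, w1]
    · simp only [hW]
      rw [← sl_jac hL h, mul_pow, ← exp_nat_mul, mul_assoc, ← sq]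
      congr 2
      push_cast
      ring
  have e2 : ∀ y : S2, ∫ c, W (ip y c) * Ψ (slT L (ip y c)) ∂sg = K / L := fun y => by
    rw [← p3, ← sl_subst hL y (by fun_prop)]
    refine integral_congr_ae (Eventually.of_forall fun c => ?_)
    simp only [hW]
    ring
  have key : ∀ c : S2, 2 * ∑ i, W (ip (x i) c) * Ψ (slT L (ip (x i) c)) - AA * K -
      k 0 * ∑ i, W (ip (x i) c) ^ 2 ≤ ∑ i, ∑ j ∈ univ.erase i,
        (W (ip (x i) c) ^ 2 + W (ip (x j) c) ^ 2) * (φ (L / 4 * dist (x i) (x j) ^ 2) / 2) := by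
    intro c
    obtain ⟨Y, hY⟩ := sl_stereo hL c
    have h1 := p4 N (fun i => Y (x i)) fun i => W (ip (x i) c)
    have h2 : ∀ i, W (ip (x i) c) * Ψ (‖Y (x i)‖ ^ 2) = W (ip (x i) c) * Ψ (slT L (ip (x i) c)) :=
      fun i => by
      rcases w2 (x i) c with h | h
      · rw [h, zero_mul, zero_mul]
      · rw [(hY _ h).1]
    simp only [h2] at h1
    rw [sub_le_iff_le_add, mul_sum _ _ (k 0), ← sum_add_distrib]
    refine h1.trans (sum_le_sum fun i _ => ?_)
    rw [← sum_erase_add _ _ (mem_univ i), sub_self, norm_zero, zero_pow two_ne_zero]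
    refine add_le_add (sum_le_sum fun j hj => ?_) (le_of_eq (by ring))
    have h3 : 0 < L / 4 * dist (x i) (x j) ^ 2 :=
      mul_pos (by positivity) (pow_pos (dist_pos.2 (hx.ne (ne_of_mem_erase hj).symm)) 2)
    have h4 := h0 _ h3
    have h5 : W (ip (x i) c) * W (ip (x j) c) * k (‖Y (x i) - Y (x j)‖ ^ 2) ≤
        W (ip (x i) c) * W (ip (x j) c) * φ (L / 4 * dist (x i) (x j) ^ 2) := by
      rcases w2 (x i) c with h | h
      · simp [h]
      rcases w2 (x j) c with h' | h'
      · simp [h']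
      exact mul_le_mul_of_nonneg_left (hφ _ _ h3 ((hY _ h).2 _ h')) (mul_nonneg (w0 _) (w0 _))
    nlinarith [mul_nonneg (sq_nonneg (W (ip (x i) c) - W (ip (x j) c))) h4]
  have j1 := (integrable_finsetSum univ fun i _ => i2 (x i)).const_mul 2
  have j2 := (integrable_finsetSum univ fun i _ => i1 (x i)).const_mul (k 0)
  have j3 : ∀ i j, Integrable (fun c => (W (ip (x i) c) ^ 2 + W (ip (x j) c) ^ 2) *
      (φ (L / 4 * dist (x i) (x j) ^ 2) / 2)) sg := fun i j => ((i1 _).add (i1 _)).mul_const _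
  have j4 : Integrable (fun c => 2 * ∑ i, W (ip (x i) c) * Ψ (slT L (ip (x i) c)) - AA * K) sg :=
    j1.sub (integrable_const _)
  have s := integral_mono (j4.sub j2)
    (integrable_finsetSum univ fun i _ => integrable_finsetSum _ fun j _ => j3 i j) key
  simp only [Pi.sub_apply] at s
  rw [integral_sub j4 j2, integral_sub j1 (integrable_const _),
    integral_const_mul 2, integral_const_mul (k 0), integral_finsetSum _ fun i _ => i2 (x i),
    integral_finsetSum _ fun i _ => i1 (x i),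
    integral_finsetSum _ fun i _ => integrable_finsetSum _ fun j _ => j3 i j] at s
  simp only [integral_finsetSum _ fun j _ => j3 _ j, integral_mul_const,
    integral_add (i1 _) (i1 _), e1, e2, integral_const, probReal_univ, one_smul, sum_const,
    card_univ, Fintype.card_fin, nsmul_eq_mul] at s
  refine le_trans (le_of_eq (by ring)) (s.trans (le_of_eq ?_))
  simp only [mul_sum]
  exact sum_congr rfl fun i _ => sum_congr rfl fun j _ => by ring

end Pool.Agent.Lib.MP_a619ca_an.Hx
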