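import Pool.Agent.Lib.MP_a619ca_an.HxSphere1
import Pool.Agent.Lib.MP_a619ca_an.HxSphere3

/-!
The lower bound on the sphere coming from a planar positive definite minorant.
-/

namespace Pool.Agent.Lib.MP_a619ca_an.Hx

open MeasureTheory Set Real Finset Filter Topology

theorem sl_finite (f : ℝ → ℝ) (μ : Measure E2) [IsFiniteMeasure μ]
    (hf : ∀ Y : E2, charFun μ Y = (f (‖Y‖ ^ 2) : ℂ)) (hle : ∀ u, 0 < u → f u ≤ 1 / u)
    {α b : ℝ} (hα : 0 < α) (n : ℕ) {N : ℕ} (hN : 0 < N) (hb : 2 / (N / AA) ≤ b) :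
    1 / 4 * (N : ℝ) ^ 2 * log N + ((log α - log AA - log (n + 1) +
      harmonic n * (1 - (1 + 4 * (α * (N / AA) / (4 * (n + 1))))⁻¹)) / 4 - α / (4 * AA) +
      ((AA / (2 * b) * ∫ u in Ioi (0 : ℝ), f u * exp (-((α + b / 2) * u))) / slA b (N / AA) - f 0) /
        (4 * AA)) * (N : ℝ) ^ 2 ≤ EE N := by
  have hA := AA_pos
  have hN' : (0 : ℝ) < N := by exact_mod_cast hN
  have hL : 0 < N / AA := by positivity
  have hb0 : 0 < b := lt_of_lt_of_le (by positivity) hb
  refine le_csInf (energies_nonempty N) fun e he => ?_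
  obtain ⟨x, hx, rfl⟩ := mem_energies.1 he
  obtain ⟨M, hM, hk⟩ := sl_damp f μ hf hα.le
  have s := short_range (k := fun u => f u * exp (-(α * u))) (φ := fun u => exp (-(α * u)) / u) hk
    (fun u hu => by positivity) (fun u v hu huv => ?_) hL hb x hx
  swap
  · have h1 := hle v (hu.trans_le huv)
    have h2 : exp (-(α * v)) ≤ exp (-(α * u)) := exp_le_exp.2 (by nlinarith)
    rw [div_eq_mul_one_div, mul_comm]
    exact (mul_le_mul_of_nonneg_left (h1.trans (one_div_le_one_div_of_le hu huv))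
      (exp_pos _).le).trans (mul_le_mul_of_nonneg_right h2 (by positivity))
  have e1 : ∀ u, exp (-(b / 2 * u)) * (f u * exp (-(α * u))) = f u * exp (-((α + b / 2) * u)) :=
    fun u => by
    rw [mul_left_comm, ← exp_add]
    congr 2
    ring
  simp only [e1, mul_zero, neg_zero, exp_zero, mul_one] at s
  generalize AA / (2 * b) * ∫ u in Ioi (0 : ℝ), f u * exp (-((α + b / 2) * u)) = K at s ⊢
  have a0 : 0 < slA b (N / AA) := lt_of_lt_of_le (by positivity) (slA_bounds hL hb).1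
  generalize slA b (N / AA) = a at s a0 ⊢
  obtain ⟨c, hc⟩ : ∃ c, c = α * (N / AA) / (4 * (n + 1)) := ⟨_, rfl⟩
  have c0 : 0 < c := by rw [hc]; positivity
  have l := long_range x hx c0 n
  have c1 : (n + 1) * c = α * (N / AA / 4) := by rw [hc]; field_simp
  have c2 : log N + (log α - log AA - log (n + 1)) ≤ log (1 + 4 * c) := by
    refine le_trans (le_of_eq ?_) (log_le_log (show 0 < 4 * c by positivity) (by linarith))
    rw [show 4 * c = α * (N / AA) / (n + 1) by rw [hc]; field_simp,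
      log_div (by positivity) (by positivity), log_mul hα.ne' hL.ne', log_div hN'.ne' hA.ne']
    ring
  have e2 : ∑ i, ∑ j ∈ univ.erase i, (dist (x i) (x j) ^ 2)⁻¹ = ∑ i, ∑ j ∈ univ.erase i,
      (1 - exp (-((n + 1) * c * dist (x i) (x j) ^ 2))) / dist (x i) (x j) ^ 2 +
      N / AA / 4 * ∑ i, ∑ j ∈ univ.erase i, exp (-(α * (N / AA / 4 * dist (x i) (x j) ^ 2))) /
        (N / AA / 4 * dist (x i) (x j) ^ 2) := by
    simp only [mul_sum, ← sum_add_distrib]
    refine sum_congr rfl fun i _ => sum_congr rfl fun j hj => ?_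
    have h3 := (dist_pos.2 (hx.ne (ne_of_mem_erase hj).symm)).ne'
    rw [c1, mul_assoc α]
    generalize exp (-(α * (N / AA / 4 * dist (x i) (x j) ^ 2))) = y
    field_simp
    ring
  rw [e2, ← hc]
  rw [c1] at l ⊢
  generalize ∑ i, ∑ j ∈ univ.erase i, exp (-(α * (N / AA / 4 * dist (x i) (x j) ^ 2))) /
        (N / AA / 4 * dist (x i) (x j) ^ 2) = S at s ⊢
  have s2 := mul_le_mul_of_nonneg_left s (show 0 ≤ (N / AA) ^ 2 / (4 * a) by positivity)
  rw [show (N / AA) ^ 2 / (4 * a) * (a / (N / AA) * S) = N / AA / 4 * S by field_simp,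
    show (N / AA) ^ 2 / (4 * a) * ((2 * N / (N / AA) - AA) * K - f 0 * N * (a / (N / AA))) =
      (K / a - f 0) / (4 * AA) * (N : ℝ) ^ 2 by field_simp; ring] at s2
  have c3 := mul_le_mul_of_nonneg_left c2 (show 0 ≤ (N : ℝ) ^ 2 / 4 by positivity)
  rw [show α * (N / AA / 4) * N = α / (4 * AA) * (N : ℝ) ^ 2 by field_simp] at l
  linarith

theorem sl_fixed (f : ℝ → ℝ) (μ : Measure E2) [IsFiniteMeasure μ]
    (hf : ∀ Y : E2, charFun μ Y = (f (‖Y‖ ^ 2) : ℂ)) (hle : ∀ u, 0 < u → f u ≤ 1 / u)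
    {α b r : ℝ} (hα : 0 < α) (hb : 0 < b) (n : ℕ)
    (hr : r < (log α - log AA - log (n + 1) + harmonic n) / 4 - α / (4 * AA) +
      (AA * (∫ u in Ioi (0 : ℝ), f u * exp (-((α + b / 2) * u))) - f 0) / (4 * AA)) :
    ∀ᶠ N : ℕ in atTop, 1 / 4 * (N : ℝ) ^ 2 * log N + r * (N : ℝ) ^ 2 ≤ EE N := by
  have hA := AA_pos
  have t1 : Tendsto (fun N : ℕ => (N : ℝ) / AA) atTop atTop :=
    tendsto_natCast_atTop_atTop.atTop_div_const hA
  have t2 : Tendsto (fun N : ℕ => 2 / ((N : ℝ) / AA)) atTop (𝓝 0) := t1.const_div_atTop 2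
  have t3 : ∀ᶠ N : ℕ in atTop, 2 / ((N : ℝ) / AA) ≤ b := t2.eventually (eventually_le_nhds hb)
  have t4 : Tendsto (fun N : ℕ => slA b (N / AA)) atTop (𝓝 (1 / (2 * b))) := by
    have h : Tendsto (fun N : ℕ => 1 / (2 * b - 2 / ((N : ℝ) / AA))) atTop (𝓝 (1 / (2 * b - 0))) :=
      tendsto_const_nhds.div (t2.const_sub _) (by linarith)
    rw [sub_zero] at h
    refine tendsto_of_tendsto_of_tendsto_of_le_of_le' tendsto_const_nhds h ?_ ?_
    · filter_upwards [t3, t1.eventually_gt_atTop 0] with N h1 h2 using (slA_bounds h2 h1).1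
    · filter_upwards [t3, t1.eventually_gt_atTop 0] with N h1 h2 using (slA_bounds h2 h1).2
  have t5 : Tendsto (fun N : ℕ => (1 + 4 * (α * (N / AA) / (4 * (n + 1))))⁻¹) atTop (𝓝 0) :=
    (tendsto_atTop_add_const_left _ _ (((t1.const_mul_atTop hα).atTop_div_const
      (by positivity)).const_mul_atTop (by norm_num))).inv_tendsto_atTop
  have t6 := (((((t5.const_sub 1).const_mul (harmonic n : ℝ)).const_add
    (log α - log AA - log (n + 1))).div_const 4).sub_const (α / (4 * AA))).add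
    (((tendsto_const_nhds.div t4 (by positivity) (a := AA / (2 * b) * ∫ u in Ioi (0 : ℝ),
      f u * exp (-((α + b / 2) * u)))).sub_const (f 0)).div_const (4 * AA))
  have e : ∀ J : ℝ, AA / (2 * b) * J / (1 / (2 * b)) = AA * J := fun J => by field_simp
  rw [sub_zero, mul_one, e] at t6
  filter_upwards [t6.eventually (eventually_gt_nhds hr), t3, eventually_gt_atTop 0] with N h1 h2 h3
  exact le_trans (add_le_add le_rfl (mul_le_mul_of_nonneg_right h1.le (sq_nonneg _)))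
    (sl_finite f μ hf hle hα n h3 h2)

theorem sphere_lower (f : ℝ → ℝ) (μ : Measure E2) [IsFiniteMeasure μ]
    (hf : ∀ Y : E2, charFun μ Y = (f (‖Y‖ ^ 2) : ℂ)) (hle : ∀ u, 0 < u → f u ≤ 1 / u) {Φ : ℝ}
    (hΦ : Tendsto (fun α : ℝ => AA * (∫ u in Ioi (0 : ℝ), f u * exp (-(α * u))) + AA * log α)
      (𝓝[>] 0) (𝓝 Φ)) {ε : ℝ} (hε : 0 < ε) :
    ∀ᶠ N : ℕ in atTop, 1 / 4 * (N : ℝ) ^ 2 * log N +
      ((eulerMascheroniConstant - log AA) / 4 + (Φ - f 0) / (4 * AA) - ε) * (N : ℝ) ^ 2 ≤ EE N := by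
  have hA := AA_pos
  have hAε : 0 < AA * ε := mul_pos hA hε
  obtain ⟨n, hn⟩ := (tendsto_harmonic_sub_log_add_one.eventually
    (eventually_gt_nhds (sub_lt_self _ hε))).exists
  obtain ⟨a, a1, a2, a3⟩ := ((hΦ.eventually (eventually_gt_nhds (sub_lt_self _ hAε))).and
    ((eventually_nhdsWithin_of_eventually_nhds (eventually_lt_nhds hAε)).and
      (self_mem_nhdsWithin : Set.Ioi (0 : ℝ) ∈ 𝓝[>] 0))).exists
  have a0 : 0 < a := a3
  have h1 : 0 < 1 + ε := by linarith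
  refine sl_fixed f μ hf hle (α := a / (1 + ε)) (b := 2 * (ε * (a / (1 + ε)))) (by positivity)
    (by positivity) n ?_
  rw [show a / (1 + ε) + 2 * (ε * (a / (1 + ε))) / 2 = a by field_simp, log_div a0.ne' h1.ne']
  generalize ∫ u in Ioi (0 : ℝ), f u * exp (-(a * u)) = J at a1 ⊢
  have h2 : log (1 + ε) ≤ ε := by linarith [log_le_sub_one_of_pos h1]
  have h3 : a / (1 + ε) / (4 * AA) ≤ ε / 4 := by
    rw [div_le_iff₀ (by positivity)]
    linarith [div_le_self a0.le (show 1 ≤ 1 + ε by linarith)]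
  have h4 : (Φ - f 0) / (4 * AA) - ε / 4 - log a / 4 ≤ (AA * J - f 0) / (4 * AA) := by
    rw [show (Φ - f 0) / (4 * AA) - ε / 4 - log a / 4 =
      (Φ - AA * ε - AA * log a - f 0) / (4 * AA) by field_simp; ring]
    exact div_le_div_of_nonneg_right (by linarith) (by positivity)
  linarith

end Pool.Agent.Lib.MP_a619ca_an.Hx
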