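import Pool.Agent.Lib.MP_a619ca_an.HxDefs

/-!
The number of representations of `n` by `x ^ 2 + x y + y ^ 2` is at least `6 ∑_{d ∣ n} χ (d)`.
-/

namespace Pool.Agent.Lib.MP_a619ca_an.Hx

open ArithmeticFunction Finset
open scoped ArithmeticFunction.zeta

theorem two_le_rho {p : ℕ} (hp : p.Prime) (h3 : p % 3 = 1) (k : ℕ) : 2 ≤ rho (p ^ (k + 1)) := by
  classical
  have : NeZero (p ^ (k + 1)) := ⟨pow_ne_zero _ hp.ne_zero⟩
  have : Fact (Nat.Prime 3) := ⟨Nat.prime_three⟩
  obtain ⟨t, ht⟩ := exists_prime_orderOf_dvd_card (G := (ZMod (p ^ (k + 1)))ˣ) 3 (by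
    rw [ZMod.card_units_eq_totient, Nat.totient_prime_pow_succ hp]
    exact Dvd.dvd.mul_left (by omega) _)
  obtain ⟨T, hT⟩ := ZMod.intCast_surjective (t : ZMod (p ^ (k + 1)))
  have hp' : Prime (p : ℤ) := Nat.prime_iff_prime_int.1 hp
  have hp3 : ¬ (p : ℤ) ∣ 3 := fun h => by
    have := (Nat.prime_dvd_prime_iff_eq hp Nat.prime_three).1 (by exact_mod_cast h)
    omega
  have hz : ∀ Z : ℤ, (Z : ZMod (p ^ (k + 1))) = 0 ↔ (p : ℤ) ^ (k + 1) ∣ Z := fun Z => by
    rw [ZMod.intCast_zmod_eq_zero_iff_dvd, Nat.cast_pow]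
  have h1 : (p : ℤ) ^ (k + 1) ∣ (T - 1) * (T ^ 2 + T + 1) := by
    have h : (t : ZMod (p ^ (k + 1))) ^ 3 = 1 := by
      rw [← Units.val_pow_eq_pow_val, ← ht, pow_orderOf_eq_one, Units.val_one]
    rw [← hz]
    push_cast
    rw [hT]
    linear_combination h
  have h2 : ¬ (p : ℤ) ^ (k + 1) ∣ T - 1 := fun h => by
    rw [← hz] at h
    push_cast at h
    rw [hT, sub_eq_zero, Units.val_eq_one] at h
    rw [h, orderOf_one] at ht
    omega
  have h4 : (p : ℤ) ^ (k + 1) ∣ T ^ 2 + T + 1 := by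
    by_cases h5 : (p : ℤ) ∣ T - 1
    · refine absurd (hp'.pow_dvd_of_dvd_mul_right (k + 1) (fun h6 => hp3 ?_) h1) h2
      have := h6.sub (h5.mul_left (T + 2))
      rwa [show T ^ 2 + T + 1 - (T + 2) * (T - 1) = 3 by ring] at this
    · exact hp'.pow_dvd_of_dvd_mul_left (k + 1) h5 h1
  have h5 : (T : ZMod (p ^ (k + 1))) ^ 2 + T + 1 = 0 := by exact_mod_cast (hz _).2 h4
  have h6 : (T : ZMod (p ^ (k + 1))) ≠ -1 - T := fun h => by
    have h7 : (p : ℤ) ^ (k + 1) ∣ 2 * T + 1 := by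
      rw [← hz]
      push_cast
      linear_combination h
    have := (((dvd_pow_self _ k.succ_ne_zero).trans h4).mul_left 4).sub
      (((dvd_pow_self _ k.succ_ne_zero).trans h7).mul_left (2 * T + 1))
    rw [show 4 * (T ^ 2 + T + 1) - (2 * T + 1) * (2 * T + 1) = 3 by ring] at this
    exact hp3 this
  rw [rho_apply (NeZero.ne _), Nat.card_eq_fintype_card, Fintype.card_subtype]
  refine mod_cast (card_pair h6).symm.le.trans (card_le_card fun y hy => ?_)
  rw [mem_insert, mem_singleton] at hy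
  rw [mem_filter]
  rcases hy with rfl | rfl
  · exact ⟨mem_univ _, h5⟩
  · exact ⟨mem_univ _, by linear_combination h5⟩

theorem rho_prime_pow_ge {p : ℕ} (hp : p.Prime) (k : ℕ) :
    chi p ^ k + chi p ^ (k + 1) ≤ rho (p ^ (k + 1)) := by
  have h3 : p % 3 = 0 ∨ p % 3 = 1 ∨ p % 3 = 2 := by omega
  rcases h3 with h | h | h
  · obtain rfl : 3 = p := (Nat.prime_dvd_prime_iff_eq Nat.prime_three hp).1
      (Nat.dvd_of_mod_eq_zero h)
    rcases k with _ | k
    · rw [zero_add, pow_one (3 : ℕ), rho_apply (by norm_num), Nat.card_eq_fintype_card]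
      decide
    · simpa [chi_apply] using rho_nonneg _
  · simpa [chi_apply, h] using two_le_rho hp h k
  · simpa [chi_apply, h, pow_succ] using rho_nonneg _

theorem conv_ge (n : ℕ) : (ζ * chi) n ≤ (sqf * rho) n := by
  induction n using Nat.recOnPosPrimePosCoprime with
  | zero => simp
  | one => rw [(sqf_mult.mul rho_mult).1, (isMultiplicative_zeta.natCast.mul chi_mult).1]
  | coprime a b _ _ h ha hb =>
    rw [(sqf_mult.mul rho_mult).2 h, (isMultiplicative_zeta.natCast.mul chi_mult).2 h]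
    exact mul_le_mul ha hb ((conv_nonneg _).trans (conv_le _)) (conv_nonneg _)
  | prime_pow p k hp hk =>
    clear hk
    rw [coe_zeta_mul_apply, ArithmeticFunction.mul_apply,
      Nat.sum_divisorsAntidiagonal fun a b => sqf a * rho b, Nat.sum_divisors_prime_pow hp,
      Nat.sum_divisors_prime_pow hp,
      sum_congr (s₂ := range (k + 1)) (f := fun i => sqf (p ^ i) * rho (p ^ k / p ^ i)) rfl
        fun i hi => by rw [Nat.pow_div (Nat.lt_succ_iff.1 (mem_range.1 hi)) hp.pos]]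
    have s0 : sqf (p ^ 0) = 1 := sqf_mult.1
    have s1 : sqf (p ^ (0 + 1)) = 0 := by simp [sqf_apply, hp.prime.not_isSquare]
    simp only [chi_pow]
    induction k using Nat.twoStepInduction with
    | zero => simp [rho_mult.1, sqf_mult.1]
    | one =>
      have := rho_prime_pow_ge hp 0
      rw [sum_range_succ' (fun i => sqf (p ^ i) * _), sum_range_one, s0, s1, sum_range_succ,
        sum_range_one]
      simpa using this
    | more k ih _ =>
      have := rho_prime_pow_ge hp (k + 1)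
      rw [sum_range_succ' (fun i => sqf (p ^ i) * _),
        sum_range_succ' (fun i => sqf (p ^ (i + 1)) * _), s0, s1,
        sum_range_succ (fun i => chi p ^ i), sum_range_succ fun i => chi p ^ i]
      simp only [sqf_step hp, Nat.add_sub_add_right, tsub_zero]
      linarith

/-- every positive form of discriminant `-3` represents `1` -/
theorem rep_one (n : ℕ) : ∀ A B C : ℤ, 0 < A → A ≤ n → B ^ 2 - 4 * A * C = -3 →
    ∃ x y : ℤ, A * x ^ 2 + B * x * y + C * y ^ 2 = 1 := by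
  induction n with
  | zero => intro A B C h1 h2; omega
  | succ n ih =>
    intro A B C h1 h2 h
    rcases eq_or_lt_of_le (show 1 ≤ A from h1) with rfl | hA
    · exact ⟨1, 0, by ring⟩
    obtain ⟨k, r, hr, h3, h4⟩ : ∃ k r : ℤ, r = B + 2 * A * k ∧ 0 ≤ r ∧ r < 2 * A :=
      ⟨-(B / (2 * A)), B % (2 * A), by rw [Int.emod_def]; ring, Int.emod_nonneg _ (by omega),
        Int.emod_lt_of_pos _ (by omega)⟩
    have h5 : r ^ 2 - 4 * (A * k ^ 2 + B * k + C) * A = -3 := by
      rw [hr]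
      linear_combination h
    obtain ⟨x, y, hxy⟩ := ih (A * k ^ 2 + B * k + C) r A (by nlinarith)
      (by
        have : A * k ^ 2 + B * k + C < A := by nlinarith
        push_cast at h2
        omega) h5
    exact ⟨y + k * x, x, by rw [hr] at hxy; linear_combination hxy⟩

theorem exists_six {b : ℕ} (hb : b ≠ 0) (x : ZMod b) (hx : x ^ 2 + x + 1 = 0) :
    ∃ S : Finset (ℤ × ℤ), S.card = 6 ∧
      ∀ w ∈ S, IsCoprime w.1 w.2 ∧ Q w = b ∧ (w.1 : ZMod b) = x * w.2 := by
  obtain ⟨t, rfl⟩ := ZMod.intCast_surjective x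
  obtain ⟨c, hc⟩ : (b : ℤ) ∣ t ^ 2 + t + 1 := by
    rw [← ZMod.intCast_zmod_eq_zero_iff_dvd]
    exact_mod_cast hx
  obtain ⟨α, β, h⟩ := rep_one b b (2 * t + 1) c (by omega) le_rfl (by linear_combination 4 * hc)
  obtain ⟨u, hu⟩ : ∃ u, u = b * α + t * β := ⟨_, rfl⟩
  have h1 : α * u + ((t + 1) * α + c * β) * β = 1 := by rw [hu]; linear_combination h
  have h2 : u ^ 2 + u * β + β ^ 2 = b := by rw [hu]; linear_combination b * h + β ^ 2 * hc
  have h3 : (u : ZMod b) = t * β := by rw [hu]; simp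
  have h4 : u ≠ 0 ∨ β ≠ 0 := by
    by_contra! h5
    rw [h5.1, h5.2] at h1
    simp at h1
  generalize (t + 1) * α + c * β = γ at h1
  refine ⟨{(u, β), (-β, u + β), (-u - β, u), (-u, -β), (β, -u - β), (u + β, -u)}, ?_, ?_⟩
  · repeat rw [card_insert_of_notMem]
    · rfl
    all_goals
      simp only [mem_insert, mem_singleton, Prod.mk.injEq]
      omega
  · simp only [mem_insert, mem_singleton, forall_eq_or_imp, forall_eq, Q]
    push_cast
    rw [h3]
    refine ⟨⟨⟨α, γ, h1⟩, h2, rfl⟩, ⟨⟨α - γ, α, by linear_combination h1⟩, by linear_combination h2,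
      by linear_combination (-β : ZMod b) * hx⟩, ⟨⟨-γ, α - γ, by linear_combination h1⟩,
      by linear_combination h2, by linear_combination (-β : ZMod b) * hx⟩,
      ⟨⟨-α, -γ, by linear_combination h1⟩, by linear_combination h2, by ring⟩,
      ⟨⟨γ - α, -α, by linear_combination h1⟩, by linear_combination h2,
      by linear_combination (β : ZMod b) * hx⟩, ⟨γ, γ - α, by linear_combination h1⟩,
      by linear_combination h2, by linear_combination (β : ZMod b) * hx⟩

theorem exists_prim {b : ℕ} (hb : b ≠ 0) : ∃ W : Finset (ℤ × ℤ),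
    (∀ w ∈ W, IsCoprime w.1 w.2 ∧ Q w = b) ∧ 6 * rho b ≤ W.card := by
  classical
  have : NeZero b := ⟨hb⟩
  choose! S hS1 hS2 using exists_six hb
  refine ⟨(univ.filter fun x : ZMod b => x ^ 2 + x + 1 = 0).biUnion S, fun w hw => ?_, ?_⟩
  · obtain ⟨x, hx, hw⟩ := mem_biUnion.1 hw
    have := hS2 x (mem_filter.1 hx).2 w hw
    exact ⟨this.1, this.2.1⟩
  · rw [card_biUnion fun x hx y hy hxy => disjoint_left.2 fun w h1 h2 => hxy ?_,
      sum_congr rfl fun x hx => hS1 x (mem_filter.1 hx).2, rho_apply hb, Nat.card_eq_fintype_card,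
      Fintype.card_subtype]
    · simp [mul_comm]
    obtain ⟨⟨u, v, a1⟩, -, a2⟩ := hS2 x (mem_filter.1 hx).2 w h1
    obtain ⟨-, -, a3⟩ := hS2 y (mem_filter.1 hy).2 w h2
    have a4 := congrArg (Int.cast : ℤ → ZMod b) a1
    push_cast at a4
    linear_combination (y - x) * a4 + ((x - y) * u - (u * x + v)) * a2 + (u * x + v) * a3

theorem exists_repr {n : ℕ} (hn : n ≠ 0) : ∃ V : Finset (ℤ × ℤ),
    (∀ v ∈ V, Q v = n) ∧ 6 * (ζ * chi) n ≤ V.card := by
  classical
  have key : ∀ x : ℕ × ℕ, x ∈ n.divisorsAntidiagonal → ∃ V : Finset (ℤ × ℤ),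
      (∀ v ∈ V, Q v = n ∧ Int.gcd v.1 v.2 ^ 2 = x.1) ∧ 6 * (sqf x.1 * rho x.2) ≤ V.card := by
    intro x hx
    obtain ⟨hx1, -⟩ := Nat.mem_divisorsAntidiagonal.1 hx
    have hx2 : x.1 ≠ 0 ∧ x.2 ≠ 0 := mul_ne_zero_iff.1 (hx1 ▸ hn)
    by_cases h : IsSquare x.1
    · obtain ⟨W, h1, h2⟩ := exists_prim hx2.2
      obtain ⟨d, hd⟩ := id h
      have hd0 : (d : ℤ) ≠ 0 := by
        rintro h0
        exact hx2.1 (by rw [hd, Nat.cast_eq_zero.1 h0])
      refine ⟨W.image fun w => (d * w.1, d * w.2), fun v hv => ?_, ?_⟩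
      · obtain ⟨w, hw, rfl⟩ := mem_image.1 hv
        obtain ⟨a1, a2⟩ := h1 w hw
        constructor
        · rw [← hx1, hd]
          unfold Q at a2 ⊢
          push_cast
          linear_combination (d : ℤ) ^ 2 * a2
        · rw [Int.gcd_mul_left, Int.isCoprime_iff_gcd_eq_one.1 a1, hd, Int.natAbs_natCast]
          ring
      · rw [card_image_of_injective _ fun w w' e => ?_, sqf_apply, if_pos ⟨hx2.1, h⟩, one_mul]
        · exact h2
        obtain ⟨e1, e2⟩ := Prod.ext_iff.1 e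
        exact Prod.ext (mul_left_cancel₀ hd0 e1) (mul_left_cancel₀ hd0 e2)
    · exact ⟨∅, by simp, by simp [sqf_apply, h]⟩
  choose! V hV1 hV2 using key
  refine ⟨n.divisorsAntidiagonal.biUnion V, fun v hv => ?_, ?_⟩
  · obtain ⟨x, hx, hv⟩ := mem_biUnion.1 hv
    exact (hV1 x hx v hv).1
  · refine (mul_le_mul_of_nonneg_left (conv_ge n) (by norm_num)).trans ?_
    rw [card_biUnion fun x hx y hy hxy => disjoint_left.2 fun w h1 h2 => hxy ?_,
      ArithmeticFunction.mul_apply, mul_sum, Nat.cast_sum]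
    · exact sum_le_sum hV2
    have e : x.1 = y.1 := (hV1 x hx w h1).2.symm.trans (hV1 y hy w h2).2
    obtain ⟨a1, -⟩ := Nat.mem_divisorsAntidiagonal.1 hx
    obtain ⟨a2, -⟩ := Nat.mem_divisorsAntidiagonal.1 hy
    refine Prod.ext e (Nat.eq_of_mul_eq_mul_left (Nat.pos_of_ne_zero fun h => hn ?_)
      (a1.trans (e ▸ a2.symm)))
    rw [← a1, h, zero_mul]

theorem summable_Q_rpow {s : ℝ} (hs : 1 < s) :
    Summable fun v : ℤ × ℤ => if v = 0 then 0 else (Q v : ℝ) ^ (-s) := by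
  classical
  refine summable_of_sum_le (c := 6 * (riemannZeta s * LL s).re) (fun v => ?_) fun V => ?_
  · dsimp only
    split_ifs with h
    · exact le_rfl
    · exact Real.rpow_nonneg (by exact_mod_cast (Q_pos h).le) _
  · refine le_of_eq_of_le ?_ (lattice_sum_le hs (V.filter (· ≠ 0)) (by simp))
    rw [sum_filter]
    exact sum_congr rfl fun v _ => by simp

theorem lattice_sum_ge {s : ℝ} (hs : 1 < s) : 6 * (riemannZeta s * LL s).re ≤
    ∑' v : ℤ × ℤ, if v = 0 then 0 else (Q v : ℝ) ^ (-s) := by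
  classical
  have hs' : 1 < (s : ℂ).re := by simpa using hs
  have h1 := LSeriesHasSum_mul (f := ((ζ : ArithmeticFunction ℕ) : ArithmeticFunction ℂ))
    (g := (chi : ArithmeticFunction ℂ)) (LSeriesHasSum_zeta hs') (hasSum_chi hs')
  have h2 : HasSum (fun n : ℕ => ((ζ * chi : ArithmeticFunction ℤ) n : ℝ) * (n : ℝ) ^ (-s))
      (riemannZeta s * LL s).re := by
    refine (Complex.hasSum_re h1).congr_fun fun n => ?_
    rcases eq_or_ne n 0 with rfl | hn
    · simp
    rw [LSeries.term_of_ne_zero hn, ← coe_coe (R := ℂ), ← intCoe_mul, intCoe_apply,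
      ← Complex.ofReal_natCast, ← Complex.ofReal_cpow n.cast_nonneg, ← Complex.ofReal_intCast,
      ← Complex.ofReal_div, Complex.ofReal_re, Real.rpow_neg n.cast_nonneg, div_eq_mul_inv]
  have key : ∀ n : ℕ, ∃ V : Finset (ℤ × ℤ), (∀ v ∈ V, Q v = n) ∧
      6 * (((ζ * chi : ArithmeticFunction ℤ) n : ℝ) * (n : ℝ) ^ (-s)) ≤
        ∑ v ∈ V, if v = 0 then 0 else (Q v : ℝ) ^ (-s) := by
    intro n
    rcases eq_or_ne n 0 with rfl | hn
    · exact ⟨∅, by simp, by simp⟩
    obtain ⟨V, a1, a2⟩ := exists_repr hn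
    refine ⟨V, a1, ?_⟩
    rw [sum_congr rfl (g := fun _ => (n : ℝ) ^ (-s)) fun v hv => ?_, sum_const, nsmul_eq_mul,
      ← mul_assoc]
    · exact mul_le_mul_of_nonneg_right (by exact_mod_cast a2) (by positivity)
    · rw [if_neg, a1 v hv, Int.cast_natCast]
      rintro rfl
      exact hn (by simpa [Q] using (a1 0 hv).symm)
  choose V hV1 hV2 using key
  refine hasSum_le_of_sum_le (h2.mul_left 6) fun N => (sum_le_sum fun n _ => hV2 n).trans ?_
  rw [← sum_biUnion fun x _ y _ hxy => disjoint_left.2 fun w a1 a2 => hxy (by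
    exact_mod_cast (hV1 x w a1).symm.trans (hV1 y w a2))]
  refine (summable_Q_rpow hs).sum_le_tsum _ fun v _ => ?_
  split_ifs with h
  · exact le_rfl
  · exact Real.rpow_nonneg (by exact_mod_cast (Q_pos h).le) _

end Pool.Agent.Lib.MP_a619ca_an.Hx
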