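import Pool.Agent.Lib.MP_a619ca_an.HxTheta
import Pool.Agent.Lib.MP_a619ca_an.HxEi
import Pool.Agent.Lib.MP_a619ca_an.HxSum1

/-!
Riemann's splitting of the Epstein zeta function of the hexagonal lattice, and the constant term
at `s = 1`.
-/

namespace Pool.Agent.Lib.MP_a619ca_an.Hx

open MeasureTheory Set Real Finset Filter Topology Asymptotics HurwitzZeta

theorem theta_real {t : ℝ} (ht : 0 < t) : ∑' v : ℤ × ℤ, exp (-(t * (Q v : ℝ))) =
    AA / t * ∑' v : ℤ × ℤ, exp (-(AA ^ 2 / t * (Q v : ℝ))) := by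
  have h := theta (l := -(t : ℂ)) (by simpa using ht)
  rw [ph, SS, neg_div_neg_eq, div_neg] at h
  simp only [neg_mul] at h
  exact_mod_cast h

theorem gamma_split {x q : ℝ} (hx : 0 < x) (hxa : x < aa) (hq : 1 ≤ q) :
    (∫ t in Ioc 0 aa, t ^ x * exp (-(t * q))) ≤ Gamma (1 + x) * q ^ (-(1 + x)) ∧
    Gamma (1 + x) * q ^ (-(1 + x)) ≤ (∫ t in Ioc 0 aa, t ^ x * exp (-(t * q))) +
      aa ^ x / (1 - x / aa) * (exp (-(aa * q)) / q) := by
  have ha := aa_pos
  have hq0 : 0 < q := by linarith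
  have h1 : x / aa < 1 := (div_lt_one ha).2 hxa
  have h0 : 0 < x / aa := by positivity
  have hi : IntegrableOn (fun t : ℝ => t ^ x * exp (-(t * q))) (Ioi 0) := by
    have := integrableOn_rpow_mul_exp_neg_mul_rpow (s := x) (p := 1) (by linarith) one_pos hq0
    simpa [mul_comm q] using this
  have e : Gamma (1 + x) * q ^ (-(1 + x)) = (∫ t in Ioc 0 aa, t ^ x * exp (-(t * q))) +
      ∫ t in Ioi aa, t ^ x * exp (-(t * q)) := by
    rw [← setIntegral_union Ioc_disjoint_Ioi_same measurableSet_Ioi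
      (hi.mono_set Ioc_subset_Ioi_self) (hi.mono_set (Ioi_subset_Ioi ha.le)),
      Ioc_union_Ioi_eq_Ioi ha.le]
    have := integral_rpow_mul_exp_neg_mul_Ioi (a := 1 + x) (by linarith) hq0
    simp only [add_sub_cancel_left, mul_comm q] at this
    rw [this, mul_comm, one_div, inv_rpow hq0.le, rpow_neg hq0.le]
  rw [e]
  refine ⟨le_add_of_nonneg_right (setIntegral_nonneg measurableSet_Ioi fun t ht => ?_), ?_⟩
  · have : 0 < t := ha.trans ht
    positivity
  have h2 : x / aa - q < 0 := by linarith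
  have h3 : (∫ t in Ioi aa, t ^ x * exp (-(t * q))) ≤
      ∫ t in Ioi aa, aa ^ x * exp (-x) * exp ((x / aa - q) * t) := by
    refine setIntegral_mono_on (hi.mono_set (Ioi_subset_Ioi ha.le))
      ((integrableOn_exp_mul_Ioi h2 aa).const_mul _) measurableSet_Ioi fun t ht => ?_
    have ht0 : 0 < t := ha.trans ht
    have h4 : log t ≤ log aa + (t / aa - 1) := by
      have := log_le_sub_one_of_pos (div_pos ht0 ha)
      rw [log_div ht0.ne' ha.ne'] at this
      linarith
    rw [rpow_def_of_pos ht0, rpow_def_of_pos ha, ← exp_add, ← exp_add, ← exp_add, exp_le_exp]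
    have h5 := mul_le_mul_of_nonneg_right h4 hx.le
    have h6 : (x / aa - q) * t = t / aa * x - t * q := by ring
    linarith
  refine add_le_add_right (h3.trans ?_) _
  rw [integral_const_mul, integral_exp_mul_Ioi h2,
    show (x / aa - q) * aa = x + -(aa * q) by field_simp; ring, exp_add, exp_neg x,
    ← neg_sub q, neg_div_neg_eq]
  have h7 : (1 - x / aa) * q ≤ q - x / aa := by nlinarith
  have h8 : 0 < (1 - x / aa) * q := mul_pos (by linarith) hq0
  calc _ = aa ^ x * exp (-(aa * q)) / (q - x / aa) := by field_simp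
    _ ≤ aa ^ x * exp (-(aa * q)) / ((1 - x / aa) * q) := by gcongr
    _ = _ := by rw [div_mul_div_comm]

theorem dual_int {x q : ℝ} (hx : 0 < x) (hq : 0 ≤ q) :
    IntegrableOn (fun t : ℝ => t ^ x * (AA / t * exp (-(AA ^ 2 / t * q)))) (Ioc 0 aa) := by
  have hA := AA_pos
  have h1 : IntegrableOn (fun t : ℝ => t ^ (x - 1)) (Ioc 0 aa) :=
    (intervalIntegral.intervalIntegrable_rpow' (a := 0) (b := aa) (by linarith)).1
  refine Integrable.mono' (h1.const_mul AA) (Measurable.aestronglyMeasurable (by fun_prop)) ?_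
  refine (ae_restrict_iff' measurableSet_Ioc).2 (Eventually.of_forall fun t ht => ?_)
  have ht0 := ht.1
  have h2 : exp (-(AA ^ 2 / t * q)) ≤ 1 := exp_le_one_iff.2 (neg_nonpos.2 (by positivity))
  rw [norm_of_nonneg (by positivity), rpow_sub_one ht0.ne']
  calc _ ≤ t ^ x * (AA / t * 1) := by gcongr
    _ = _ := by ring

theorem dual_le {x q : ℝ} (hx : 0 < x) (hq : 0 < q) :
    (∫ t in Ioc 0 aa, t ^ x * (AA / t * exp (-(AA ^ 2 / t * q)))) ≤ aa ^ x * (AA * Ei q) := by
  have hA := AA_pos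
  have ha := aa_pos
  have hd : ∀ t ∈ Ioc (0 : ℝ) aa, HasDerivWithinAt (fun t => aa * q / t) (-(aa * q) / t ^ 2)
      (Ioc 0 aa) t := fun t ht => by
    have := ((hasDerivAt_inv ht.1.ne').const_mul (aa * q)).hasDerivWithinAt (s := Ioc 0 aa)
    simpa [div_eq_mul_inv] using this
  have hj : InjOn (fun t => aa * q / t) (Ioc 0 aa) := fun s hs t ht h => by
    have := hs.1
    have := ht.1
    dsimp only at h
    field_simp at h
    exact h.symm
  have him : (fun t => aa * q / t) '' Ioc 0 aa = Ici q := by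
    ext u
    constructor
    · rintro ⟨t, ht, rfl⟩
      exact (le_div_iff₀ ht.1).2 (by nlinarith [ht.2])
    · intro hu
      have hu0 : 0 < u := hq.trans_le hu
      exact ⟨aa * q / u, ⟨by positivity, (div_le_iff₀ hu0).2 (mul_le_mul_of_nonneg_left hu ha.le)⟩,
        by dsimp only; field_simp⟩
  have e : ∀ t ∈ Ioc (0 : ℝ) aa, |-(aa * q) / t ^ 2| • (exp (-(6 * (aa * q / t))) / (aa * q / t)) =
      exp (-(AA ^ 2 / t * q)) / t := fun t ht => by
    have := ht.1
    rw [neg_div, abs_neg, abs_of_pos (by positivity), smul_eq_mul,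
      show 6 * (aa * q / t) = AA ^ 2 / t * q by unfold aa; ring]
    field_simp
  have h1 := integral_image_eq_integral_abs_deriv_smul measurableSet_Ioc hd hj
    fun u => exp (-(6 * u)) / u
  have h2 := (integrableOn_image_iff_integrableOn_abs_deriv_smul measurableSet_Ioc hd hj
    fun u => exp (-(6 * u)) / u).1
    (by rw [him, integrableOn_Ici_iff_integrableOn_Ioi]; exact int_Ei hq)
  rw [him, integral_Ici_eq_integral_Ioi, setIntegral_congr_fun measurableSet_Ioc e] at h1
  rw [Ei, h1, ← integral_const_mul, ← integral_const_mul]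
  refine setIntegral_mono_on (dual_int hx hq.le)
    ((((integrableOn_congr_fun e measurableSet_Ioc).1 h2).const_mul _).const_mul _)
    measurableSet_Ioc fun t ht => ?_
  have := ht.1
  have := ht.2
  calc _ ≤ aa ^ x * (AA / t * exp (-(AA ^ 2 / t * q))) := by gcongr
    _ = _ := by ring

theorem summable_Ei_Q : Summable fun v : ℤ × ℤ => if v = 0 then 0 else AA * Ei (Q v) := by
  have hA := AA_pos
  refine ((summable_exp_Q (a := 6) (by norm_num)).mul_left AA).of_nonneg_of_le (fun v => ?_)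
    fun v => ?_ <;> split_ifs with h
  · exact le_rfl
  · exact mul_nonneg hA.le (Ei_nonneg (by exact_mod_cast Q_pos h))
  · positivity
  · have h1 : (1 : ℝ) ≤ Q v := by exact_mod_cast Q_pos h
    exact mul_le_mul_of_nonneg_left ((Ei_le (by linarith)).trans
      (div_le_self (exp_pos _).le (by linarith))) hA.le

theorem summable_value : Summable fun v : ℤ × ℤ =>
    if v = 0 then 0 else exp (-(aa * (Q v : ℝ))) / (Q v : ℝ) + AA * Ei (Q v) := by
  have h : Summable fun v : ℤ × ℤ => if v = 0 then 0 else exp (-(aa * (Q v : ℝ))) / (Q v : ℝ) := by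
    refine (summable_exp_Q aa_pos).of_nonneg_of_le (fun v => ?_) fun v => ?_ <;> split_ifs with h
    · exact le_rfl
    · have h1 : (0 : ℝ) < Q v := by exact_mod_cast Q_pos h
      positivity
    · positivity
    · exact div_le_self (exp_pos _).le (by exact_mod_cast Q_pos h)
  refine (h.add summable_Ei_Q).congr fun v => ?_
  split_ifs <;> simp

theorem riemann_split {x : ℝ} (hx : 0 < x) (hxa : x < aa) :
    Gamma (1 + x) * (∑' v : ℤ × ℤ, if v = 0 then 0 else (Q v : ℝ) ^ (-(1 + x))) +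
      (aa ^ (1 + x) / (1 + x) - AA * aa ^ x / x) ≤ aa ^ x / (1 - x / aa) *
      ∑' v : ℤ × ℤ, if v = 0 then 0 else exp (-(aa * (Q v : ℝ))) / (Q v : ℝ) + AA * Ei (Q v) := by
  have hA := AA_pos
  have ha := aa_pos
  have hQ : ∀ v : ℤ × ℤ, (0 : ℝ) ≤ Q v := fun v => by
    rcases eq_or_ne v 0 with rfl | h
    · simp [Q]
    · exact_mod_cast (Q_pos h).le
  have hZ := summable_Q_rpow (s := 1 + x) (by linarith)
  obtain ⟨a, ha'⟩ : ∃ a : ℤ × ℤ → ℝ, ∀ v, a v = ∫ t in Ioc 0 aa, t ^ x * exp (-(t * Q v)) :=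
    ⟨_, fun _ => rfl⟩
  obtain ⟨b, hb'⟩ : ∃ b : ℤ × ℤ → ℝ, ∀ v,
      b v = ∫ t in Ioc 0 aa, t ^ x * (AA / t * exp (-(AA ^ 2 / t * Q v))) := ⟨_, fun _ => rfl⟩
  have n1 : ∀ v : ℤ × ℤ, ∫ t in Ioc 0 aa, ‖t ^ x * exp (-(t * Q v))‖ = a v := fun v => by
    rw [ha']
    refine setIntegral_congr_fun measurableSet_Ioc fun t ht => norm_of_nonneg ?_
    have := ht.1
    positivity
  have n2 : ∀ v : ℤ × ℤ, ∫ t in Ioc 0 aa, ‖t ^ x * (AA / t * exp (-(AA ^ 2 / t * Q v)))‖ = b v :=
    fun v => by
    rw [hb']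
    refine setIntegral_congr_fun measurableSet_Ioc fun t ht => norm_of_nonneg ?_
    have := ht.1
    positivity
  have s1 : Summable a := by
    refine (hZ.mul_left (Gamma (1 + x))).of_norm_bounded_eventually ?_
    filter_upwards [(Set.finite_singleton (0 : ℤ × ℤ)).compl_mem_cofinite] with v hv
    have hv' : v ≠ 0 := hv
    rw [if_neg hv', norm_of_nonneg (n1 v ▸ integral_nonneg fun _ => norm_nonneg _), ha']
    exact (gamma_split hx hxa (by exact_mod_cast Q_pos hv')).1
  have s2 : Summable b := by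
    refine (summable_Ei_Q.mul_left (aa ^ x)).of_norm_bounded_eventually ?_
    filter_upwards [(Set.finite_singleton (0 : ℤ × ℤ)).compl_mem_cofinite] with v hv
    have hv' : v ≠ 0 := hv
    rw [if_neg hv', norm_of_nonneg (n2 v ▸ integral_nonneg fun _ => norm_nonneg _), hb']
    exact dual_le hx (by exact_mod_cast Q_pos hv')
  have t1 := hasSum_integral_of_summable_integral_norm (μ := volume.restrict (Ioc 0 aa))
    (F := fun (v : ℤ × ℤ) t => t ^ x * exp (-(t * Q v)))
    (fun v => (Continuous.integrableOn_Icc ((continuous_rpow_const hx.le).mul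
      (by fun_prop))).mono_set Ioc_subset_Icc_self) (by simpa only [n1] using s1)
  have t2 := hasSum_integral_of_summable_integral_norm (μ := volume.restrict (Ioc 0 aa))
    (F := fun (v : ℤ × ℤ) t => t ^ x * (AA / t * exp (-(AA ^ 2 / t * Q v))))
    (fun v => dual_int hx (hQ v)) (by simpa only [n2] using s2)
  have e : ∫ t in Ioc 0 aa, ∑' v : ℤ × ℤ, t ^ x * exp (-(t * Q v)) =
      ∫ t in Ioc 0 aa, ∑' v : ℤ × ℤ, t ^ x * (AA / t * exp (-(AA ^ 2 / t * Q v))) :=
    setIntegral_congr_fun measurableSet_Ioc fun t ht => by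
      simp only [tsum_mul_left, theta_real ht.1]
  simp only [← ha'] at t1
  simp only [← hb'] at t2
  have a0 : a 0 = aa ^ (1 + x) / (1 + x) := by
    rw [ha', ← intervalIntegral.integral_of_le ha.le]
    simp only [Q, Prod.fst_zero, Prod.snd_zero]
    norm_num
    rw [integral_rpow (Or.inl (by linarith)), zero_rpow (by linarith), sub_zero, add_comm]
  have b0 : b 0 = AA * aa ^ x / x := by
    rw [hb', setIntegral_congr_fun (g := fun t => AA * t ^ (x - 1)) measurableSet_Ioc
      fun t ht => ?_, integral_const_mul, ← intervalIntegral.integral_of_le ha.le,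
      integral_rpow (Or.inl (by linarith)), sub_add_cancel, zero_rpow hx.ne', sub_zero,
      mul_div_assoc]
    simp only [rpow_sub_one ht.1.ne', Q]
    norm_num
    ring
  have h1 : x / aa < 1 := (div_lt_one ha).2 hxa
  have h0 : 0 < x / aa := by positivity
  have hK : aa ^ x ≤ aa ^ x / (1 - x / aa) :=
    le_div_self (by positivity) (by linarith) (by linarith)
  have := hasSum_le (fun v => ?_)
    ((hZ.hasSum.mul_left (Gamma (1 + x))).add (hasSum_ite_eq (0 : ℤ × ℤ) (a 0 - b 0)))
    ((t1.sub t2).add (summable_value.hasSum.mul_left (aa ^ x / (1 - x / aa))))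
  · rwa [e, sub_self, zero_add, a0, b0] at this
  rcases eq_or_ne v 0 with rfl | hv
  · simp
  have hq : (0 : ℝ) < Q v := by exact_mod_cast Q_pos hv
  have c1 := (gamma_split hx hxa (q := Q v) (by exact_mod_cast Q_pos hv)).2
  have c2 := (dual_le hx hq).trans
    (mul_le_mul_of_nonneg_right hK (mul_nonneg hA.le (Ei_nonneg hq)))
  rw [← ha'] at c1
  rw [← hb'] at c2
  simp only [if_neg hv, mul_add]
  linarith

theorem lattice_sum {B : ℝ}
    (hB : Tendsto (fun x : ℝ => 6 * (riemannZeta (1 + x : ℝ) * LL (1 + x : ℝ)).re - AA / x)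
      (𝓝[>] 0) (𝓝 B)) :
    B ≤ AA * (eulerMascheroniConstant + log aa) - aa +
      ∑' v : ℤ × ℤ, if v = 0 then 0 else exp (-(aa * (Q v : ℝ))) / (Q v : ℝ) + AA * Ei (Q v) := by
  have ha := aa_pos
  have key := fun x => riemann_split (x := x)
  generalize (∑' v : ℤ × ℤ, if v = 0 then 0 else
    exp (-(aa * (Q v : ℝ))) / (Q v : ℝ) + AA * Ei (Q v)) = S at key ⊢
  have d1 : HasDerivAt (fun x : ℝ => Gamma (1 + x)) (-eulerMascheroniConstant) 0 :=
    HasDerivAt.comp_const_add 1 0 (by simpa using Real.hasDerivAt_Gamma_one)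
  have d2 : HasDerivAt (fun x : ℝ => aa ^ x) (log aa) 0 := by
    simpa using (hasStrictDerivAt_const_rpow ha 0).hasDerivAt
  have d3 : HasDerivAt (fun x : ℝ => aa ^ x / Gamma (1 + x))
      (eulerMascheroniConstant + log aa) 0 :=
    (d2.div d1 (by simp)).congr_deriv (by simp [add_comm])
  have c1 : ContinuousAt (fun x : ℝ =>
      (aa ^ x / (1 - x / aa) * S - aa * aa ^ x / (1 + x)) / Gamma (1 + x)) 0 :=
    (((d2.continuousAt.div (by fun_prop) (by simp)).mul continuousAt_const).sub
      ((continuousAt_const.mul d2.continuousAt).div (by fun_prop) (by simp))).div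
      d1.continuousAt (by simp)
  have t := (c1.tendsto.mono_left (nhdsWithin_le_nhds (s := Ioi 0))).add
    (d3.tendsto_slope_zero_right.const_mul AA)
  refine (le_of_tendsto_of_tendsto hB t ?_).trans_eq (by simp; ring)
  filter_upwards [Ioo_mem_nhdsGT ha] with x hx
  have hx0 := hx.1
  have hG : 0 < Gamma (1 + x) := Gamma_pos_of_pos (by linarith)
  have h1 := mul_le_mul_of_nonneg_left (lattice_sum_ge (s := 1 + x) (by linarith)) hG.le
  have h2 := key x hx.1 hx.2
  rw [rpow_add ha, rpow_one] at h2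
  have h3 : 6 * (riemannZeta (1 + x : ℝ) * LL (1 + x : ℝ)).re ≤
      (aa ^ x / (1 - x / aa) * S - aa * aa ^ x / (1 + x) + AA * aa ^ x / x) / Gamma (1 + x) := by
    rw [le_div_iff₀' hG]
    linarith
  refine (sub_le_sub_right h3 _).trans_eq ?_
  simp only [zero_add, add_zero, rpow_zero, Gamma_one, smul_eq_mul]
  ring

end Pool.Agent.Lib.MP_a619ca_an.Hx
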