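import Pool.Agent.Lib.MP_a619ca_an.HxLow
import Pool.Agent.Lib.MP_a619ca_an.HxCB
import Pool.Agent.Lib.MP_a619ca_an.HxPos
import Pool.Agent.Lib.MP_a619ca_an.HxGlue
import Pool.Agent.Lib.MP_a619ca_an.HxSum
import Pool.Agent.Lib.MP_a619ca_an.HxSphere

/-!
The sharp auxiliary function, the sharp lower bound and the two-term asymptotics.
-/

namespace Pool.Agent.Lib.MP_a619ca_an.Hx

open MeasureTheory Set Real Finset Filter Topology Asymptotics HurwitzZeta

theorem cellA {i : ℕ} (hi : i < 480) : CellA F0 i :=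
  if h : i < 120 then cellA_of runG1 runH1 i.zero_le (by omega)
  else if h2 : i < 240 then cellA_of runG2 runH2 (by omega) (by omega)
  else if h3 : i < 360 then cellA_of runG3 runH3 (by omega) (by omega)
  else cellA_of runG4 runH4 (by omega) (by omega)

theorem magic : ∃ B F, Good (23 / 20) B F ∧ (∀ u, 0 < u → F false 0 u ≤ exp (-(aa * u)) / u) ∧
    (∀ v, 0 < v → 0 ≤ AA * Ei v + F true 0 v) ∧
    ∀ m : ℕ, node m → F false 0 m = exp (-(aa * m)) / m ∧ F true 0 m = -(AA * Ei m) := by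
  obtain ⟨B, h⟩ := good_F0
  exact magic_of h (fun n j hn hj => if h : n < 43 then basis_low hn h hj
    else basis_high hn (by omega) hj) resid (fun _ => cellA) fun _ => cellB

theorem lower_sharp {B ε : ℝ} (hε : 0 < ε)
    (hB : Tendsto (fun x : ℝ => 6 * (riemannZeta (1 + x : ℝ) * LL (1 + x : ℝ)).re - AA / x)
      (𝓝[>] 0) (𝓝 B)) :
    ∀ᶠ N : ℕ in atTop, 1 / 4 * (N : ℝ) ^ 2 * log N +
      ((B - AA * log AA) / (4 * AA) - ε) * (N : ℝ) ^ 2 ≤ EE N := by
  obtain ⟨B0, F, hF, hg, hh, hn⟩ := magic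
  obtain ⟨f, μ, hμ, h1, h2, h3, h4⟩ := glue hF hg hh
  have h5 := lattice_sum hB
  rw [← value hF hn] at h5
  filter_upwards [sphere_lower f μ h1 h2 h3 hε] with N hN
  refine le_trans ?_ hN
  have hA := AA_pos
  gcongr
  rw [h4, div_le_iff₀ (by positivity)]
  field_simp
  linarith

theorem sharp :
    ∃ c₁ c₂ d₁ d₂ : ℝ,
      (fun s : ℂ => hurwitzZeta ((1 / 3 : ℝ) : UnitAddCircle) s - 1 / (s - 1)
          - (c₁ : ℂ) - (d₁ : ℂ) * (1 - s)) =o[𝓝[≠] (1 : ℂ)] (fun s : ℂ => s - 1) ∧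
      (fun s : ℂ => hurwitzZeta ((2 / 3 : ℝ) : UnitAddCircle) s - 1 / (s - 1)
          - (c₂ : ℂ) - (d₂ : ℂ) * (1 - s)) =o[𝓝[≠] (1 : ℂ)] (fun s : ℂ => s - 1) ∧
      (fun N : ℕ => EE N - (1 / 4 : ℝ) * (N : ℝ) ^ 2 * log (N : ℝ)
            - ((1 / 4 : ℝ) * (eulerMascheroniConstant - log (2 * √3 * π))
                + √3 / (4 * π) * (d₂ - d₁)) * (N : ℝ) ^ 2)
        =o[atTop] (fun N : ℕ => (N : ℝ) ^ 2) := by
  obtain ⟨c₁, d₁, h1⟩ := hurwitz_exp (a := 1 / 3) (by norm_num)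
  obtain ⟨c₂, d₂, h2⟩ := hurwitz_exp (a := 2 / 3) (by norm_num)
  refine ⟨c₁, c₂, d₁, d₂, h1, h2, isLittleO_iff.2 fun ε hε => ?_⟩
  have hA := AA_pos
  filter_upwards [upper (η := 4 * AA * ε) (by positivity) (laurent h1 h2),
    lower_sharp hε (laurent h1 h2)] with N hN hN'
  have s3 : √3 * √3 = 3 := Real.mul_self_sqrt (by norm_num)
  have e : log (2 * √3 * π) = log AA + log 3 := by
    rw [← Real.log_mul hA.ne' (by norm_num), AA]
    congr 1
    field_simp
    linear_combination s3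
  have e1 : (2 * π / √3 * (eulerMascheroniConstant - log 3) + 2 * (d₂ - d₁) - AA * log AA) / (4 * AA) =
      1 / 4 * (eulerMascheroniConstant - log (2 * √3 * π)) + √3 / (4 * π) * (d₂ - d₁) := by
    rw [e]
    generalize log AA = L
    unfold AA
    field_simp
    ring
  rw [add_div, e1, mul_div_cancel_left₀ _ (by positivity)] at hN
  rw [e1] at hN'
  rw [Real.norm_eq_abs, Real.norm_of_nonneg (by positivity), abs_le]
  constructor <;> linarith

end Pool.Agent.Lib.MP_a619ca_an.Hx
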