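import Pool.Agent.Lib.MP_a619ca_an.HxDefs2
import Pool.Agent.Lib.MP_a619ca_an.HxEi

/-!
From the inequalities on the cells and the double zeros at the nodes to the sign conditions.
-/

namespace Pool.Agent.Lib.MP_a619ca_an.Hx

open Set Real

theorem mono_of_der {k k1 : ℝ → ℝ} {a b : ℝ} (hk : ∀ u ∈ Icc a b, HasDerivAt k (k1 u) u)
    (h1 : ∀ u ∈ Icc a b, 0 ≤ k1 u) : MonotoneOn k (Icc a b) :=
  monotoneOn_of_deriv_nonneg (convex_Icc a b)
    (fun u hu => (hk u hu).continuousAt.continuousWithinAt)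
    (fun u hu => (hk u (interior_subset hu)).differentiableAt.differentiableWithinAt)
    (fun u hu => by rw [(hk u (interior_subset hu)).deriv]; exact h1 u (interior_subset hu))

theorem anti_of_der {k k1 : ℝ → ℝ} {a b : ℝ} (hk : ∀ u ∈ Icc a b, HasDerivAt k (k1 u) u)
    (h1 : ∀ u ∈ Icc a b, k1 u ≤ 0) : AntitoneOn k (Icc a b) :=
  antitoneOn_of_deriv_nonpos (convex_Icc a b)
    (fun u hu => (hk u hu).continuousAt.continuousWithinAt)
    (fun u hu => (hk u (interior_subset hu)).differentiableAt.differentiableWithinAt)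
    (fun u hu => by rw [(hk u (interior_subset hu)).deriv]; exact h1 u (interior_subset hu))

/-- a function with a zero at `n` whose derivative is a positive multiple of a monotone function
vanishing at `n` is non-negative -/
theorem valley {h k k1 w : ℝ → ℝ} {a b n : ℝ} (hn : n ∈ Icc a b)
    (hh : ∀ u ∈ Icc a b, HasDerivAt h (w u * k u) u) (hw : ∀ u ∈ Icc a b, 0 ≤ w u)
    (hk : ∀ u ∈ Icc a b, HasDerivAt k (k1 u) u) (h1 : ∀ u ∈ Icc a b, 0 ≤ k1 u)
    (h0 : h n = 0) (k0 : k n = 0) : ∀ u ∈ Icc a b, 0 ≤ h u := by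
  have hm := mono_of_der hk h1
  intro u hu
  rcases le_total u n with hun | hun
  · have hs : Icc u n ⊆ Icc a b := Icc_subset_Icc hu.1 hn.2
    have := anti_of_der (fun x hx => hh x (hs hx)) (fun x hx =>
      mul_nonpos_of_nonneg_of_nonpos (hw x (hs hx)) (k0 ▸ hm (hs hx) hn hx.2))
      (left_mem_Icc.2 hun) (right_mem_Icc.2 hun) hun
    linarith
  · have hs : Icc n u ⊆ Icc a b := Icc_subset_Icc hn.1 hu.2
    have := mono_of_der (fun x hx => hh x (hs hx)) (fun x hx =>
      mul_nonneg (hw x (hs hx)) (k0 ▸ hm hn (hs hx) hx.1))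
      (left_mem_Icc.2 hun) (right_mem_Icc.2 hun) hun
    linarith

theorem cell_exists {p q : ℕ} (hpq : p < q) {u : ℝ} (hu : u ∈ Icc ((p : ℝ) / 16) (q / 16)) :
    ∃ i : ℕ, p ≤ i ∧ i < q ∧ u ∈ Icc ((i : ℝ) / 16) ((i + 1) / 16) := by
  have hp : (0 : ℝ) ≤ p := Nat.cast_nonneg p
  have h0 : 0 ≤ 16 * u := by linarith [hu.1]
  by_cases h : ⌊16 * u⌋₊ < q
  · refine ⟨⌊16 * u⌋₊, Nat.le_floor (by linarith [hu.1]), h, ?_, ?_⟩
    · linarith [Nat.floor_le h0]
    · linarith [Nat.lt_floor_add_one (16 * u)]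
  · obtain ⟨r, rfl⟩ : ∃ r, q = r + 1 := ⟨q - 1, by omega⟩
    have h2 : ((r + 1 : ℕ) : ℝ) ≤ 16 * u := (Nat.le_floor_iff h0).1 (not_lt.1 h)
    refine ⟨r, by omega, by omega, ?_, ?_⟩
    · push_cast at h2
      linarith
    · have := hu.2
      push_cast at this
      exact this

theorem sub_cell {p q i : ℕ} (h1 : p ≤ i) (h2 : i < q) {u : ℝ}
    (hu : u ∈ Icc ((i : ℝ) / 16) ((i + 1) / 16)) : u ∈ Icc ((p : ℝ) / 16) (q / 16) := by
  have a1 : (p : ℝ) ≤ i := by exact_mod_cast h1
  have a2 : (i : ℝ) + 1 ≤ q := by exact_mod_cast h2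
  exact ⟨by linarith [hu.1], by linarith [hu.2]⟩

theorem err_abs {c X Y u : ℝ} (h : c ≤ exp (23 / 20 * u) * X)
    (hY : |Y - X| ≤ c * exp (-(23 / 20 * u))) : 0 ≤ Y := by
  have e := exp_pos (-(23 / 20 * u))
  have e1 : exp (23 / 20 * u) * exp (-(23 / 20 * u)) = 1 := by rw [← exp_add]; simp
  have : c * exp (-(23 / 20 * u)) ≤ X := by
    calc _ ≤ exp (23 / 20 * u) * X * exp (-(23 / 20 * u)) := by gcongr
      _ = X * (exp (23 / 20 * u) * exp (-(23 / 20 * u))) := by ring
      _ = X := by rw [e1, mul_one]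
  linarith [(abs_le.1 hY).1]

/-- the sign conditions on the cells, without margins -/
structure Sg (F : Bool → ℕ → ℝ → ℝ) : Prop where
  der : ∀ s j u, j < 2 → 0 < u → HasDerivAt (F s j) (F s (j + 1) u) u
  val : ∀ m, node m → ∀ s, ∀ j < 2, F s j m = tgt s j m
  cA : ∀ i : ℕ, i < 480 → ∀ u ∈ Icc ((i : ℝ) / 16) ((i + 1) / 16),
    (tC 2 i → 0 ≤ aa ^ 2 * exp (-(aa * u)) - 2 * F false 1 u - u * F false 2 u ∧
      0 ≤ 6 * AA * exp (-(6 * u)) + F true 1 u + u * F true 2 u) ∧
    (¬tC 2 i → 0 ≤ exp (-(aa * u)) - u * F false 0 u ∧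
      (i < 16 → 0 ≤ AA * exp (-(6 * u)) - u * F true 1 u) ∧ (16 ≤ i → 0 ≤ F true 0 u))
  cB : ∀ i : ℕ, 480 ≤ i → ∀ u ∈ Icc ((i : ℝ) / 16) ((i + 1) / 16),
    (tC 1 i → 0 ≤ -F false 2 u ∧ 0 ≤ F true 2 u) ∧ (¬tC 1 i → 0 ≤ -F false 0 u ∧ 0 ≤ F true 0 u)

theorem sg_of {F0 D : Bool → ℕ → ℝ → ℝ}
    (hder : ∀ s j u, j < 2 → 0 < u →
      HasDerivAt (fun u => F0 s j u + D s j u) (F0 s (j + 1) u + D s (j + 1) u) u)
    (hD : ∀ s j u, j ≤ 2 → 0 ≤ u → |D s j u| ≤ 2 / 10 ^ 6 * exp (-(23 / 20 * u)))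
    (hn : ∀ m, node m → ∀ s, ∀ j < 2, D s j m = tgt s j m - F0 s j m)
    (hA : ∀ i < 480, CellA F0 i) (hB : ∀ i, 480 ≤ i → CellB F0 i) :
    Sg (fun s j u => F0 s j u + D s j u) := by
  refine ⟨hder, fun m hm s j hj => by simp only [hn m hm s j hj]; ring, ?_, ?_⟩
  · intro i hi u hu
    have hi' : (i : ℝ) + 1 ≤ 480 := by exact_mod_cast hi
    have u0 : 0 ≤ u := le_trans (by positivity) hu.1
    have u1 : u ≤ 30 := by linarith [hu.2]
    have e := exp_pos (-(23 / 20 * u))
    have hd : ∀ s j, j ≤ 2 → |u * D s j u| ≤ 30 * (2 / 10 ^ 6 * exp (-(23 / 20 * u))) := by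
      intro s j hj
      rw [abs_mul, abs_of_nonneg u0]
      exact mul_le_mul u1 (hD s j u hj u0) (abs_nonneg _) (by norm_num)
    have f0 := abs_le.1 (hd false 0 (by norm_num))
    have f2 := abs_le.1 (hd false 2 (by norm_num))
    have t1 := abs_le.1 (hd true 1 (by norm_num))
    have t2 := abs_le.1 (hd true 2 (by norm_num))
    have g1 := abs_le.1 (hD false 1 u (by norm_num) u0)
    have r0 := abs_le.1 (hD true 0 u (by norm_num) u0)
    have r1 := abs_le.1 (hD true 1 u (by norm_num) u0)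
    obtain ⟨h1, h2⟩ := hA i hi u hu
    refine ⟨fun ht => ⟨err_abs (h1 ht).1 ?_, err_abs (h1 ht).2 ?_⟩, fun ht =>
      ⟨err_abs (h2 ht).1 ?_, fun h => err_abs ((h2 ht).2.1 h) ?_,
        fun h => err_abs ((h2 ht).2.2 h) ?_⟩⟩ <;>
    · rw [abs_le]
      constructor <;> linarith [f0.1, f0.2, f2.1, f2.2, t1.1, t1.2, t2.1, t2.2, g1.1, g1.2, r0.1,
        r0.2, r1.1, r1.2]
  · intro i hi u hu
    have u0 : 0 ≤ u := le_trans (by positivity) hu.1
    have e := exp_pos (-(23 / 20 * u))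
    have f0 := abs_le.1 (hD false 0 u (by norm_num) u0)
    have f2 := abs_le.1 (hD false 2 u (by norm_num) u0)
    have t0 := abs_le.1 (hD true 0 u (by norm_num) u0)
    have t2 := abs_le.1 (hD true 2 u (by norm_num) u0)
    obtain ⟨h1, h2⟩ := hB i hi u hu
    refine ⟨fun ht => ⟨err_abs (X := -F0 false 2 u) (u := u) (c := 1 / 10 ^ 3) (by linarith [(h1 ht).1]) ?_,
      err_abs (h1 ht).2 ?_⟩, fun ht =>
      ⟨err_abs (X := -F0 false 0 u) (u := u) (c := 4 / 10 ^ 6) (by linarith [(h2 ht).1]) ?_,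
        err_abs (h2 ht).2 ?_⟩⟩ <;>
    · rw [abs_le]
      constructor <;> linarith [f0.1, f0.2, f2.1, f2.2, t0.1, t0.2, t2.1, t2.2]

theorem hasDerivAt_expn (a u : ℝ) :
    HasDerivAt (fun u => exp (-(a * u))) (-(a * exp (-(a * u)))) u := by
  have := ((hasDerivAt_id u).const_mul a).neg.exp
  simpa [mul_comm] using this

namespace Sg

variable {F : Bool → ℕ → ℝ → ℝ}

theorem der_h (h : Sg F) {u : ℝ} (hu : 0 < u) :
    HasDerivAt (fun u => AA * Ei u + F true 0 u)
      (u⁻¹ * (u * F true 1 u - AA * exp (-(6 * u)))) u := by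
  refine HasDerivAt.congr_deriv (((hasDerivAt_Ei hu).const_mul AA).add (h.der true 0 u (by norm_num) hu)) ?_
  field_simp
  ring

/-- near a small node -/
theorem nearA (h : Sg F) {n : ℕ} (hn : node n) (h30 : n < 30) {u : ℝ}
    (hu : u ∈ Icc (((16 * n - 2 : ℕ) : ℝ) / 16) ((16 * n + 2 : ℕ) / 16)) :
    0 ≤ exp (-(aa * u)) - u * F false 0 u ∧ 0 ≤ AA * Ei u + F true 0 u := by
  have n0 := hn.1
  have n0' : (0 : ℝ) < n := by exact_mod_cast n0
  have hpos : ∀ x ∈ Icc (((16 * n - 2 : ℕ) : ℝ) / 16) ((16 * n + 2 : ℕ) / 16), 0 < x := by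
    intro x hx
    have : (0 : ℝ) < ((16 * n - 2 : ℕ) : ℝ) := by exact_mod_cast (by omega : 0 < 16 * n - 2)
    linarith [hx.1]
  have hc : ∀ x ∈ Icc (((16 * n - 2 : ℕ) : ℝ) / 16) ((16 * n + 2 : ℕ) / 16),
      0 ≤ aa ^ 2 * exp (-(aa * x)) - 2 * F false 1 x - x * F false 2 x ∧
      0 ≤ 6 * AA * exp (-(6 * x)) + F true 1 x + x * F true 2 x := by
    intro x hx
    obtain ⟨i, i1, i2, hi⟩ := cell_exists (by omega) hx
    refine (h.cA i (by omega) x hi).1 ⟨?_, by omega⟩
    rwa [show (i + 2) / 16 = n by omega]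
  have hmem : (n : ℝ) ∈ Icc (((16 * n - 2 : ℕ) : ℝ) / 16) ((16 * n + 2 : ℕ) / 16) := by
    have a1 : ((16 * n - 2 : ℕ) : ℝ) ≤ (16 * n : ℕ) := by exact_mod_cast Nat.sub_le _ _
    push_cast at a1 ⊢
    exact ⟨by linarith, by linarith⟩
  have v0 := h.val n hn false 0 (by norm_num)
  have v1 := h.val n hn false 1 (by norm_num)
  have w0 := h.val n hn true 0 (by norm_num)
  have w1 := h.val n hn true 1 (by norm_num)
  simp only [tgt, Bool.false_eq_true, if_false, if_true, one_ne_zero] at v0 v1 w0 w1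
  constructor
  · refine valley (h := fun u => exp (-(aa * u)) - u * F false 0 u) (w := fun _ => 1)
      (k := fun u => -(aa * exp (-(aa * u))) - (F false 0 u + u * F false 1 u)) hmem ?_
      (fun _ _ => zero_le_one) ?_ (fun x hx => (hc x hx).1) ?_ ?_ u hu
    · intro x hx
      refine HasDerivAt.congr_deriv ((hasDerivAt_expn aa x).sub
        ((hasDerivAt_id x).mul (h.der false 0 x (by norm_num) (hpos x hx)))) ?_
      simp
    · intro x hx
      refine HasDerivAt.congr_deriv (((hasDerivAt_expn aa x).const_mul aa).neg.sub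
        ((h.der false 0 x (by norm_num) (hpos x hx)).add
          ((hasDerivAt_id x).mul (h.der false 1 x (by norm_num) (hpos x hx))))) ?_
      simp
      ring
    · simp only [v0]
      field_simp
      ring
    · simp only [v0, v1]
      field_simp
      ring
  · refine valley (h := fun u => AA * Ei u + F true 0 u) (w := fun u => u⁻¹)
      (k := fun u => u * F true 1 u - AA * exp (-(6 * u))) hmem
      (fun x hx => h.der_h (hpos x hx)) (fun x hx => (inv_pos.2 (hpos x hx)).le) ?_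
      (fun x hx => (hc x hx).2) ?_ ?_ u hu
    · intro x hx
      refine HasDerivAt.congr_deriv (((hasDerivAt_id x).mul (h.der true 1 x (by norm_num) (hpos x hx))).sub
        ((hasDerivAt_expn 6 x).const_mul AA)) ?_
      simp
      ring
    · simp only [w0]
      ring
    · simp only [w1]
      field_simp
      ring

/-- near a large node -/
theorem nearB (h : Sg F) {n : ℕ} (hn : node n) (h30 : 30 < n) {u : ℝ}
    (hu : u ∈ Icc (((16 * n - 1 : ℕ) : ℝ) / 16) ((16 * n + 1 : ℕ) / 16)) :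
    0 ≤ exp (-(aa * u)) / u - F false 0 u ∧ 0 ≤ AA * Ei u + F true 0 u := by
  have n0 := hn.1
  have n0' : (0 : ℝ) < n := by exact_mod_cast n0
  have hA := AA_pos
  have ha := aa_pos
  have hpos : ∀ x ∈ Icc (((16 * n - 1 : ℕ) : ℝ) / 16) ((16 * n + 1 : ℕ) / 16), 0 < x := by
    intro x hx
    have : (0 : ℝ) < ((16 * n - 1 : ℕ) : ℝ) := by exact_mod_cast (by omega : 0 < 16 * n - 1)
    linarith [hx.1]
  have hc : ∀ x ∈ Icc (((16 * n - 1 : ℕ) : ℝ) / 16) ((16 * n + 1 : ℕ) / 16),
      0 ≤ -F false 2 x ∧ 0 ≤ F true 2 x := by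
    intro x hx
    obtain ⟨i, i1, i2, hi⟩ := cell_exists (by omega) hx
    refine (h.cB i (by omega) x hi).1 ⟨?_, by omega⟩
    rwa [show (i + 1) / 16 = n by omega]
  have hmem : (n : ℝ) ∈ Icc (((16 * n - 1 : ℕ) : ℝ) / 16) ((16 * n + 1 : ℕ) / 16) := by
    have a1 : ((16 * n - 1 : ℕ) : ℝ) ≤ (16 * n : ℕ) := by exact_mod_cast Nat.sub_le _ _
    push_cast at a1 ⊢
    exact ⟨by linarith, by linarith⟩
  have v0 := h.val n hn false 0 (by norm_num)
  have v1 := h.val n hn false 1 (by norm_num)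
  have w0 := h.val n hn true 0 (by norm_num)
  have w1 := h.val n hn true 1 (by norm_num)
  simp only [tgt, Bool.false_eq_true, if_false, if_true, one_ne_zero] at v0 v1 w0 w1
  constructor
  · refine valley (h := fun u => exp (-(aa * u)) / u - F false 0 u) (w := fun _ => 1)
      (k := fun u => -((aa * u⁻¹ + u⁻¹ * u⁻¹) * exp (-(aa * u))) - F false 1 u)
      (k1 := fun u => (aa ^ 2 * u⁻¹ + 2 * aa * u⁻¹ ^ 2 + 2 * u⁻¹ ^ 3) * exp (-(aa * u)) +
        -F false 2 u) hmem ?_ (fun _ _ => zero_le_one) ?_ ?_ ?_ ?_ u hu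
    · intro x hx
      have x0 := hpos x hx
      refine HasDerivAt.congr_deriv (((hasDerivAt_expn aa x).div (hasDerivAt_id x) x0.ne').sub
        (h.der false 0 x (by norm_num) x0)) ?_
      simp only [id]
      field_simp
      ring
    · intro x hx
      have x0 := hpos x hx
      have hi := hasDerivAt_inv x0.ne'
      refine HasDerivAt.congr_deriv ((((hi.const_mul aa).add (hi.mul hi)).mul (hasDerivAt_expn aa x)).neg.sub
        (h.der false 1 x (by norm_num) x0)) ?_
      simp only [Pi.add_apply, Pi.mul_apply]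
      field_simp
      ring
    · intro x hx
      have x0 := hpos x hx
      exact add_nonneg (by positivity) (hc x hx).1
    · simp only [v0]
      ring
    · simp only [v1]
      field_simp
      ring
  · refine valley (h := fun u => AA * Ei u + F true 0 u) (w := fun _ => 1)
      (k := fun u => F true 1 u - AA * (u⁻¹ * exp (-(6 * u))))
      (k1 := fun u => AA * ((6 * u⁻¹ + u⁻¹ ^ 2) * exp (-(6 * u))) + F true 2 u) hmem ?_
      (fun _ _ => zero_le_one) ?_ ?_ ?_ ?_ u hu
    · intro x hx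
      have x0 := hpos x hx
      refine HasDerivAt.congr_deriv (h.der_h x0) ?_
      field_simp
    · intro x hx
      have x0 := hpos x hx
      refine HasDerivAt.congr_deriv ((h.der true 1 x (by norm_num) x0).sub
        (((hasDerivAt_inv x0.ne').mul (hasDerivAt_expn 6 x)).const_mul AA)) ?_
      field_simp
      ring
    · intro x hx
      have x0 := hpos x hx
      exact add_nonneg (by positivity) (hc x hx).2
    · simp only [w0]
      ring
    · simp only [w1]
      field_simp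
      ring

theorem first (h : Sg F) {u : ℝ} (hu : 0 < u) (h1 : u ≤ 14 / 16) : 0 ≤ AA * Ei u + F true 0 u := by
  have e := (h.nearA (n := 1) (by decide) (by norm_num) (u := 14 / 16) (by norm_num)).2
  have hm := anti_of_der (k := fun u => AA * Ei u + F true 0 u) (a := u) (b := 14 / 16)
    (fun x hx => h.der_h (hu.trans_le hx.1)) (fun x hx => by
      have x0 := hu.trans_le hx.1
      obtain ⟨i, -, i2, hi⟩ := cell_exists (p := 0) (q := 14) (by norm_num) (u := x)
        ⟨by simpa using x0.le, by simpa using hx.2⟩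
      have := ((h.cA i (by omega) x hi).2 (fun ht => by
        have := ht.1.1
        omega)).2.1 (by omega)
      exact mul_nonpos_of_nonneg_of_nonpos (inv_pos.2 x0).le (by linarith))
    (left_mem_Icc.2 h1) (right_mem_Icc.2 h1) h1
  exact e.trans hm

theorem pos (h : Sg F) {u : ℝ} (hu : 0 < u) :
    F false 0 u ≤ exp (-(aa * u)) / u ∧ 0 ≤ AA * Ei u + F true 0 u := by
  have hE : 0 ≤ AA * Ei u := mul_nonneg AA_pos.le (Ei_nonneg hu)
  rcases le_total u 30 with h30 | h30
  · obtain ⟨i, -, i2, hi⟩ := cell_exists (p := 0) (q := 480) (by norm_num) (u := u)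
      ⟨by simpa using hu.le, by norm_num; exact h30⟩
    rw [le_div_iff₀ hu]
    by_cases ht : tC 2 i
    · obtain ⟨t1, t2⟩ := ht
      have n30 : (i + 2) / 16 ≠ 30 := fun e => by
        rw [e] at t1
        exact absurd t1 (by decide)
      have := h.nearA t1 (by omega) (sub_cell (by omega) (by omega) hi)
      exact ⟨by linarith [this.1], this.2⟩
    · obtain ⟨c1, -, c3⟩ := (h.cA i i2 u hi).2 ht
      refine ⟨by linarith, ?_⟩
      rcases lt_or_ge i 16 with h16 | h16
      · have i14 : i < 14 := by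
          by_contra hc
          have : i = 14 ∨ i = 15 := by omega
          rcases this with rfl | rfl <;> exact ht (by decide)
        have := (sub_cell (Nat.zero_le i) i14 hi).2
        exact h.first hu (by simpa using this)
      · linarith [c3 h16]
  · obtain ⟨q, hq⟩ := exists_nat_gt (16 * u)
    have q0 : 480 < q := by
      have : (480 : ℝ) < q := by linarith
      exact_mod_cast this
    obtain ⟨i, i1, -, hi⟩ := cell_exists q0 (u := u) ⟨by norm_num; exact h30, by linarith⟩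
    by_cases ht : tC 1 i
    · obtain ⟨t1, t2⟩ := ht
      have n30 : (i + 1) / 16 ≠ 30 := fun e => by
        rw [e] at t1
        exact absurd t1 (by decide)
      have := h.nearB t1 (by omega) (sub_cell (by omega) (by omega) hi)
      exact ⟨by linarith [this.1], this.2⟩
    · obtain ⟨c1, c2⟩ := (h.cB i i1 u hi).2 ht
      have : 0 ≤ exp (-(aa * u)) / u := by positivity
      exact ⟨by linarith, by linarith⟩

end Sg

end Pool.Agent.Lib.MP_a619ca_an.Hx
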