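import Pool.Agent.Lib.MP_a619ca_an.HxPos1
import Pool.Agent.Lib.MP_a619ca_an.HxGood

/-!
The exact function from the approximate one and a small correction.
-/

namespace Pool.Agent.Lib.MP_a619ca_an.Hx

open Set Real

theorem magic_of_cor {B0 : ℝ} {F0 D : Bool → ℕ → ℝ → ℝ} (hG : Good (23 / 20) B0 F0)
    (hD : Good (23 / 20) (2 * 10 ^ 9 * (1 / 10 ^ 15)) D)
    (hn : ∀ m, node m → ∀ s, ∀ j < 2, D s j m = tgt s j m - F0 s j m)
    (hA : ∀ i < 480, CellA F0 i) (hB : ∀ i, 480 ≤ i → CellB F0 i) :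
    ∃ B F, Good (23 / 20) B F ∧ (∀ u, 0 < u → F false 0 u ≤ exp (-(aa * u)) / u) ∧
      (∀ v, 0 < v → 0 ≤ AA * Ei v + F true 0 v) ∧
      ∀ m : ℕ, node m → F false 0 m = exp (-(aa * m)) / m ∧ F true 0 m = -(AA * Ei m) := by
  have hF := Good.add (by norm_num) hG hD
  have hS := sg_of hF.der (fun s j u hj hu => (hD.bd s j u hj hu).trans_eq (by norm_num)) hn hA hB
  refine ⟨_, _, hF, fun u hu => (hS.pos hu).1, fun u hu => (hS.pos hu).2, fun m hm => ⟨?_, ?_⟩⟩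
  · simpa [tgt] using hS.val m hm false 0 (by norm_num)
  · simpa [tgt] using hS.val m hm true 0 (by norm_num)

end Pool.Agent.Lib.MP_a619ca_an.Hx
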