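import Pool.Agent.Lib.MP_a619ca_an.HxTest

/-!
The tests for the approximate basis functions at the first 18 nodes.
-/

namespace Pool.Agent.Lib.MP_a619ca_an.Hx

def muR (i : ℕ × ℕ) : Bl := (lamB i).add (ratB 9 5)

def nl : List ℕ := [1, 3, 4, 7, 9, 12, 13, 16, 19, 21, 25, 27, 28, 31, 36, 37, 39, 40]

def colB (i : ℕ × ℕ) (k : ℕ) : Bl :=
  if k % 2 = 0 then cfB 128 (bw.getD (k / 4) []) (bv.getD (k / 4) []) (k % 4 / 2 == 1) i
  else (cfB 128 (bw.getD (k / 4) []) (bv.getD (k / 4) []) (k % 4 / 2 == 1) i).mul (lamB i)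

def tbB (a : ℕ) (i : ℕ × ℕ) : List Bl := (List.range' a 72).map (colB i)

def allB (E p : ℕ) : List ℤ → ℕ → Bool
  | [], _ => true
  | d :: l, k => decide (|d - if k = p ∨ k = p + 5 then 2 ^ 320 else 0| + E ≤ 2 ^ 300) &&
      allB E p l (k + 1)

noncomputable def testB (a m : ℕ) (xs : List Z2) (e : ℕ) : Bool :=
  if node m then (mkTab LS (tbB a)).ok e &&
    allB ((mkTab LS (tbB a)).err e) (8 * nl.idxOf m) ((mkTab LS (tbB a)).dots 72 xs) a
  else true

noncomputable def runB (a : ℕ) : Bool := run LS muR 0 1 1 (testB a) 108 0 &&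
  decide ((mkTab LS (tbB a)).tn + (mkTab LS (tbB a)).rn ≤ 10 ^ 7 * 2 ^ 160)

set_option maxRecDepth 100000 in
theorem nrmB : ∀ t < 36, ∑ k ∈ Finset.range 46, (cvB 128 (bw.getD t []) k).up +
    ∑ k ∈ Finset.range 46, (cvB 128 (bv.getD t []) k).up ≤ 900 * 2 ^ 160 := by decide +kernel

theorem idx_nl : ∀ n < 43, node n → nl.idxOf n < 18 ∧ ∀ m < 108, nl.idxOf m = nl.idxOf n → m = n := by
  decide +kernel

end Pool.Agent.Lib.MP_a619ca_an.Hx
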