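import Pool.Agent.Lib.MP_a619ca_an.HxRunG4
import Pool.Agent.Lib.MP_a619ca_an.HxTestB
import Pool.Agent.Lib.MP_a619ca_an.HxEi

/-!
Kernel evaluation of the interpolation residual at the nodes below 108.
-/

namespace Pool.Agent.Lib.MP_a619ca_an.Hx

set_option exponentiation.threshold 500

def tbR (i : ℕ × ℕ) : List Bl :=
  [c0 false i, c1 false i, c0 true i, c1 true i, onK 4 (Bl.int 1 0 0) i, onK 4 aaB i, onK 5 AAB i]

def lin (d : List ℤ) (E : ℕ) (a b c : ℤ) (x y z : ℕ) (N : ℤ) : Bool :=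
  decide (|a * d.getD x 0 + b * d.getD y 0 + c * d.getD z 0| + (|a| + |b| + |c|) * E ≤ N)

def lin4 (d : List ℤ) (E : ℕ) (m t : ℤ) : Bool :=
  lin d E 1 (-m) 0 4 0 0 (m * t) && lin d E m 1 (m ^ 2) 5 4 1 (m ^ 2 * t) &&
    lin d E 1 (-m) 0 6 3 0 (m * t) &&
    lin d E (horner padeA (6 * m)) (horner padeB (6 * m)) 0 6 2 0 (horner padeB (6 * m) * t)

def thr (m : ℕ) : ℤ := 2 ^ 270 + (if m < 60 then 0 else 2 ^ 291) + if m < 84 then 0 else 2 ^ 313

noncomputable def testR (m : ℕ) (xs : List Z2) (e : ℕ) : Bool :=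
  if node m then
    (mkTab LR tbR).ok e && lin4 ((mkTab LR tbR).dots 7 xs) ((mkTab LR tbR).err e) m (thr m)
  else true

set_option maxRecDepth 100000 in
theorem runR : (run LR muR 0 1 1 testR 108 0 &&
  decide ((mkTab LR tbR).tn + (mkTab LR tbR).rn ≤ 4000 * 2 ^ 160)) = true := by decide +kernel

end Pool.Agent.Lib.MP_a619ca_an.Hx
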