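import Pool.Agent.Lib.MP_a619ca_an.HxSm
import Pool.Agent.Lib.MP_a619ca_an.HxRunR

/-!
The interpolation residual of the approximate solution is small.
-/

namespace Pool.Agent.Lib.MP_a619ca_an.Hx

open Complex Finset
open scoped Real

set_option exponentiation.threshold 500

theorem lin_sound {d : List ℤ} {E : ℕ} {V : ℕ → ℝ}
    (h : ∀ k < 7, |(d.getD k 0 : ℝ) / 2 ^ 320 - V k| ≤ (E : ℝ) / 2 ^ 320) {a b c N : ℤ} {x y z : ℕ}
    (hx : x < 7) (hy : y < 7) (hz : z < 7) (hl : lin d E a b c x y z N = true) :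
    |a * V x + b * V y + c * V z| ≤ N / 2 ^ 320 := by
  have h1 := (Int.cast_le (R := ℝ)).2 (of_decide_eq_true hl)
  have k : ∀ (a : ℤ) {x}, x < 7 → |a * ((d.getD x 0 : ℝ) / 2 ^ 320 - V x)| ≤ |(a : ℝ)| * (E / 2 ^ 320) :=
    fun a x hx => by rw [abs_mul]; exact mul_le_mul_of_nonneg_left (h x hx) (abs_nonneg _)
  have k1 := abs_le.1 (k a hx)
  have k2 := abs_le.1 (k b hy)
  have k3 := abs_le.1 (k c hz)
  push_cast at h1
  have k4 := le_abs_self ((a : ℝ) * d.getD x 0 + b * d.getD y 0 + c * d.getD z 0)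
  have k5 := neg_abs_le ((a : ℝ) * d.getD x 0 + b * d.getD y 0 + c * d.getD z 0)
  exact abs_le.2 ⟨by linarith, by linarith⟩

noncomputable def tcR (i : ℕ × ℕ) (k : ℕ) : ℂ :=
  [cf 90 mw mv false i * lam i ^ 0, cf 90 mw mv false i * lam i ^ 1, cf 90 mw mv true i * lam i ^ 0,
    cf 90 mw mv true i * lam i ^ 1, if i.1 = 4 then ((1 : ℝ) : ℂ) else 0,
    if i.1 = 4 then (aa : ℂ) else 0, if i.1 = 5 then (AA : ℂ) else 0].getD k 0

theorem rows_R : Rows tcR tbR 7 LR := fun i hi => by
  have hi' : i ∈ LA := List.mem_append_right _ hi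
  have m0 := fun s => (mem_cf 90 mw mv s hi').of_eq (mul_one _ : _ * lam i ^ 0 = _)
  have m1 := fun s => ((mem_cf 90 mw mv s hi').mul (mem_lam hi')).of_eq (w := _ * lam i ^ 1)
    (by rw [pow_one])
  refine ⟨rfl, fun k hk => ?_⟩
  interval_cases k
  exacts [m0 _, m1 _, m0 _, m1 _, mem_onK 4 ((Mem.int0 1).of_eq (by simp)) i, mem_onK 4 mem_aa i,
    mem_onK 5 mem_AA i]

theorem muR_ok : ∀ i ∈ LR, Mem (lam i + (9 / 5 : ℝ)) (muR i) ∧ (lam i + (9 / 5 : ℝ)).re ≤ 0 :=
  fun i hi => ⟨((mem_lam (List.mem_append_right _ hi)).add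
    (mem_ratB 9 (q := 5) (by norm_num))).of_eq (by push_cast; rfl),
    by rw [add_re, ofReal_re]; linarith [re_LR hi]⟩

theorem norm_X {i : ℕ × ℕ} (hi : i ∈ LR) {u : ℝ} (hu : 0 ≤ u) :
    ‖cexp ((lam i + (9 / 5 : ℝ)) * u)‖ ≤ 1 := by
  rw [norm_exp, Real.exp_le_one_iff, re_mul_ofReal]
  exact mul_nonpos_of_nonpos_of_nonneg (muR_ok i hi).2 hu

theorem resid : Small (fun s j m => tgt s j m - F0 s j m) (1 / 10 ^ 15) := by
  intro M
  refine le_trans (small_of (T := fun s j m => tgt s j m - F0 s j m) (τ := 1 / 2 ^ 50 + 1 / 10 ^ 14)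
    (x := 1 / 2 ^ 29) (y := 1 / 2 ^ 7) (B := 12000) (by norm_num) (by norm_num) (by norm_num)
    (by norm_num) (fun m hm s j hj => ?_) M) (by norm_num)
  obtain ⟨V, hV⟩ : ∃ V : ℕ → ℝ, V = fun k =>
    (LR.map fun i => tcR i k * cexp ((lam i + (9 / 5 : ℝ)) * (m : ℝ))).sum.re := ⟨_, rfl⟩
  have m1 : (1 : ℝ) ≤ m := by exact_mod_cast hm.1
  have v : ∀ s, ∀ j < 2, Real.exp (9 / 5 * m) * F0 s j m =
      (LR.map fun i => cf 90 mw mv s i * lam i ^ j * cexp ((lam i + (9 / 5 : ℝ)) * (m : ℝ))).sum.re :=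
    fun s j hj => by rw [← rep_LR, FO, omega_zero hm hj, mul_zero, sub_zero]
  have w : ∀ {K : ℕ} (c r : ℝ), K = 4 ∨ K = 5 → lam (K, 0) = -r →
      Real.exp (9 / 5 * m) * (c * Real.exp (-(r * m))) = (LR.map fun i =>
        (if i.1 = K then (c : ℂ) else 0) * cexp ((lam i + (9 / 5 : ℝ)) * (m : ℝ))).sum.re :=
    fun c r hK hr => by
      rw [(sum_on hK _ _).1, ← shift, hr, re_ofReal_mul, ← exp_ofReal_re (-(r * m))]
      push_cast
      ring_nf
  have v0 : _ = V 0 := (v false 0 (by norm_num)).trans (congrFun hV 0).symm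
  have v1 : _ = V 1 := (v false 1 (by norm_num)).trans (congrFun hV 1).symm
  have v2 : _ = V 2 := (v true 0 (by norm_num)).trans (congrFun hV 2).symm
  have v3 : _ = V 3 := (v true 1 (by norm_num)).trans (congrFun hV 3).symm
  have v4 : _ = V 4 := (w 1 aa (.inl rfl) rfl).trans (congrFun hV 4).symm
  have v5 : _ = V 5 := (w aa aa (.inl rfl) rfl).trans (congrFun hV 5).symm
  have v6 : _ = V 6 := (w AA 6 (.inr rfl) (by simp [lam])).trans (congrFun hV 6).symm
  have hA := AA_pos
  have t0 : Real.exp (9 / 5 * m) * (tgt false 0 m - F0 false 0 m) = (V 4 - m * V 0) / m := by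
    rw [← v4, ← v0]; norm_num [tgt]; field_simp
  have t1 : Real.exp (9 / 5 * m) * (tgt false 1 m - F0 false 1 m) =
      -((m * V 5 + V 4 + m ^ 2 * V 1) / m ^ 2) := by
    rw [← v4, ← v5, ← v1]; norm_num [tgt]; field_simp; ring
  have t2 : Real.exp (9 / 5 * m) * (tgt true 0 m - F0 true 0 m) =
      -(Real.exp (9 / 5 * m) * AA * Ei m + V 2) := by
    rw [← v2]; simp only [tgt]; simp; ring
  have t3 : Real.exp (9 / 5 * m) * (tgt true 1 m - F0 true 1 m) = (V 6 - m * V 3) / m := by
    rw [← v6, ← v3]; norm_num [tgt]; field_simp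
  have b6 : V 6 ≤ 1 / 10 := by
    rw [← v6, mul_left_comm, ← Real.exp_add]
    have a1 : Real.exp (9 / 5 * m + -(6 * m)) ≤ Real.exp (-1) ^ 4 := by
      rw [← Real.exp_nat_mul, Real.exp_le_exp]
      push_cast
      linarith
    have a2 := pow_le_pow_left₀ (Real.exp_pos _).le Real.exp_neg_one_lt_d9.le 4
    have a3 : AA ≤ 4 := by
      refine (abs_le_of_sq_le_sq' ?_ (by norm_num)).2
      have := Real.pi_lt_d2
      have := Real.pi_pos
      rw [AA_sq]
      nlinarith
    exact (mul_le_mul a3 (a1.trans a2) (by positivity) (by norm_num)).trans (by norm_num)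
  by_cases h108 : m < 108
  · obtain ⟨xs, e, g1, g2⟩ := run_sound muR_ok one_pos (Bool.and_eq_true_iff.1 runR).1 m.zero_le
      (by omega)
    rw [testR, if_pos hm, Bool.and_eq_true] at g1
    simp only [zero_add, one_mul, Nat.cast_one, div_one] at g2
    have d := fun k hk => dots_sound g2 rows_R g1.1 (k := k) hk
    have g3 := g1.2
    simp only [lin4, Bool.and_eq_true] at g3
    obtain ⟨⟨⟨l0, l1⟩, l3⟩, l2⟩ := g3
    have l0 := lin_sound (V := V) (hV ▸ d) (by norm_num) (by norm_num) (by norm_num) l0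
    have l1 := lin_sound (V := V) (hV ▸ d) (by norm_num) (by norm_num) (by norm_num) l1
    have l2 := lin_sound (V := V) (hV ▸ d) (by norm_num) (by norm_num) (by norm_num) l2
    have l3 := lin_sound (V := V) (hV ▸ d) (by norm_num) (by norm_num) (by norm_num) l3
    have th : ((thr m : ℤ) : ℝ) / 2 ^ 320 = 1 / 2 ^ 50 + (if m < 60 then 0 else 1 / 2 ^ 29) +
        if m < 84 then 0 else 1 / 2 ^ 7 := by
      unfold thr
      split_ifs <;> norm_num
    rw [if_pos h108, add_zero, add_right_comm (1 / 2 ^ 50 : ℝ), add_right_comm, ← th]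
    push_cast at l0 l1 l2 l3
    rw [mul_div_assoc] at l0 l1 l2 l3
    generalize ((thr m : ℤ) : ℝ) / 2 ^ 320 = t at *
    obtain rfl | rfl : j = 0 ∨ j = 1 := by omega
    all_goals cases s
    · rw [t0, abs_div, abs_of_pos (by positivity : (0 : ℝ) < m), div_le_iff₀ (by positivity)]
      refine le_trans (le_of_eq (by congr 1; ring)) (l0.trans (by linarith))
    · have p1 := Ei_pade (m := m) hm.1
      have p2 : (0 : ℝ) < horner padeB (6 * m) := by
        rw [horner_cast]
        exact lt_of_lt_of_le (by norm_num) (padeB_ge (by push_cast; linarith))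
      generalize ((horner padeA (6 * m) : ℤ) : ℝ) = A at *
      generalize ((horner padeB (6 * m) : ℤ) : ℝ) = B at *
      have p3 : |A / B * V 6 + V 2| ≤ t := by
        refine le_of_mul_le_mul_left ?_ p2
        rw [← abs_of_pos p2, ← abs_mul, abs_of_pos p2]
        refine le_trans (le_of_eq ?_) l2
        congr 1
        field_simp
        ring
      have p4 := mul_le_mul_of_nonneg_left p1
        (show 0 ≤ Real.exp (9 / 5 * m) * AA by positivity)
      rw [← abs_of_pos (show 0 < Real.exp (9 / 5 * m) * AA by positivity), ← abs_mul,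
        abs_of_pos (show 0 < Real.exp (9 / 5 * m) * AA by positivity)] at p4
      rw [t2, abs_neg]
      rw [abs_le] at *
      rw [← v6] at p3 b6
      constructor <;> linarith [p3.1, p3.2, p4.1, p4.2]
    · rw [t1, abs_neg, abs_div, abs_of_pos (by positivity : (0 : ℝ) < m ^ 2),
        div_le_iff₀ (by positivity)]
      rw [one_mul] at l1
      linarith [sq_nonneg (m : ℝ)]
    · rw [t3, abs_div, abs_of_pos (by positivity : (0 : ℝ) < m), div_le_iff₀ (by positivity)]
      refine le_trans (le_of_eq (by congr 1; ring)) (l3.trans (by linarith))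
  · have b : ∀ k < 7, |V k| ≤ 4000 := fun k hk => by
      rw [hV]
      refine (abs_re_le_norm _).trans ((rows_bound (fun i hi => norm_X hi (by linarith)) rows_R
        hk).trans ?_)
      rw [div_le_iff₀ (by positivity)]
      exact_mod_cast of_decide_eq_true (Bool.and_eq_true_iff.1 runR).2
    rw [if_neg h108]
    refine le_trans ?_ (le_add_of_nonneg_left (by split_ifs <;> positivity))
    have b0 := abs_le.1 (b 0 (by norm_num))
    have b1 := abs_le.1 (b 1 (by norm_num))
    have b2 := abs_le.1 (b 2 (by norm_num))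
    have b3 := abs_le.1 (b 3 (by norm_num))
    have b4 := abs_le.1 (b 4 (by norm_num))
    have b5 := abs_le.1 (b 5 (by norm_num))
    have b7 := abs_le.1 (b 6 (by norm_num))
    obtain rfl | rfl : j = 0 ∨ j = 1 := by omega
    all_goals cases s
    · rw [t0, abs_div, abs_of_pos (by positivity : (0 : ℝ) < m), div_le_iff₀ (by positivity), abs_le]
      have a2 := mul_le_mul_of_nonneg_left b0.1 m.cast_nonneg
      have a3 := mul_le_mul_of_nonneg_left b0.2 m.cast_nonneg
      constructor <;> linarith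
    · have p1 := mul_le_mul_of_nonneg_left (Ei_le (v := m) (by linarith))
        (show 0 ≤ Real.exp (9 / 5 * m) * AA by positivity)
      have p2 := mul_nonneg (show 0 ≤ Real.exp (9 / 5 * m) * AA by positivity)
        (Ei_nonneg (v := m) (by linarith))
      have p3 : Real.exp (9 / 5 * m) * AA * (Real.exp (-(6 * m)) / (6 * m)) ≤ V 6 := by
        rw [← v6, mul_assoc]
        gcongr
        exact div_le_self (Real.exp_pos _).le (by linarith)
      rw [t2, abs_neg, abs_le]
      constructor <;> linarith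
    · rw [t1, abs_neg, abs_div, abs_of_pos (by positivity : (0 : ℝ) < m ^ 2),
        div_le_iff₀ (by positivity), abs_le]
      have a1 : (m : ℝ) ≤ m ^ 2 := by nlinarith
      have a2 := mul_le_mul_of_nonneg_left b5.1 m.cast_nonneg
      have a3 := mul_le_mul_of_nonneg_left b5.2 m.cast_nonneg
      have a4 := mul_le_mul_of_nonneg_left b1.1 (sq_nonneg (m : ℝ))
      have a5 := mul_le_mul_of_nonneg_left b1.2 (sq_nonneg (m : ℝ))
      constructor <;> linarith
    · rw [t3, abs_div, abs_of_pos (by positivity : (0 : ℝ) < m), div_le_iff₀ (by positivity), abs_le]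
      have a2 := mul_le_mul_of_nonneg_left b3.1 m.cast_nonneg
      have a3 := mul_le_mul_of_nonneg_left b3.2 m.cast_nonneg
      constructor <;> linarith

end Pool.Agent.Lib.MP_a619ca_an.Hx
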