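import Pool.Agent.Lib.MP_a619ca_an.HxRunH4
import Pool.Agent.Lib.MP_a619ca_an.HxTestB

/-!
Kernel evaluation of 18 approximate basis functions at the nodes below 108.
-/

namespace Pool.Agent.Lib.MP_a619ca_an.Hx

set_option maxRecDepth 100000 in
theorem runB1 : runB 0 = true := by decide +kernel

end Pool.Agent.Lib.MP_a619ca_an.Hx
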