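import Pool.Agent.Lib.MP_a619ca_an.HxRunH3

/-!
Kernel evaluation of a cell test on 120 cells.
-/

namespace Pool.Agent.Lib.MP_a619ca_an.Hx

set_option maxRecDepth 100000 in
theorem runH4 : run LA muA 1 2 32 testH 120 360 = true := by decide +kernel

end Pool.Agent.Lib.MP_a619ca_an.Hx
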