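import Pool.Agent.Lib.MP_a619ca_an.HxCA
import Pool.Agent.Lib.MP_a619ca_an.HxHigh
import Pool.Agent.Lib.MP_a619ca_an.HxGood

/-!
Weighted sums of interpolation data from uniform bounds, and admissibility of the finite families.
-/

namespace Pool.Agent.Lib.MP_a619ca_an.Hx

open Complex Finset
open scoped Real

set_option exponentiation.threshold 500

theorem exp_r : Real.exp (-(13 / 20)) ≤ 5221 / 10000 := by
  refine le_of_pow_le_pow_left₀ (n := 20) (by norm_num) (by norm_num) ?_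
  rw [← Real.exp_nat_mul, show ((20 : ℕ) : ℝ) * -(13 / 20) = (13 : ℕ) * (-1) by norm_num,
    Real.exp_nat_mul]
  exact (pow_le_pow_left₀ (Real.exp_pos _).le Real.exp_neg_one_lt_d9.le _).trans (by norm_num)

theorem small_of {T : Bool → ℕ → ℕ → ℝ} {τ x y B : ℝ} (hτ : 0 ≤ τ) (hx : 0 ≤ x) (hy : 0 ≤ y)
    (hB : 0 ≤ B) (h : ∀ m, node m → ∀ s, ∀ j < 2, |Real.exp (9 / 5 * m) * T s j m| ≤
      τ + (if m < 60 then 0 else x) + (if m < 84 then 0 else y) + if m < 108 then 0 else B) :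
    Small T (24 / 1000 * τ + 1 / 10 ^ 7 * x + 2 / 10 ^ 14 * y + 3 / 10 ^ 21 * B) := by
  intro M
  have g := fun K => high_geo (r := 5221 / 10000) (by norm_num) (by norm_num) K M
  refine (sum_le_sum (g := fun m => 4 / 10 * τ * (if m < 43 then (1 / 1000 : ℝ) else 0) +
    4 * 10 ^ 9 * τ * (if m < 43 then 0 else (5221 / 10000) ^ m) +
    4 * 10 ^ 9 * x * (if m < 60 then 0 else (5221 / 10000) ^ m) +
    4 * 10 ^ 9 * y * (if m < 84 then 0 else (5221 / 10000) ^ m) +
    4 * 10 ^ 9 * B * (if m < 108 then 0 else (5221 / 10000) ^ m)) fun m _ => ?_).trans ?_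
  · by_cases h0 : node m
    swap
    · rw [if_neg h0]
      split_ifs <;> positivity
    have a := h m h0
    simp only [abs_mul, abs_of_pos (Real.exp_pos _)] at a
    have a5 := add_le_add (add_le_add (add_le_add (a false 0 (by norm_num))
      (a false 1 (by norm_num))) (a true 0 (by norm_num))) (a true 1 (by norm_num))
    have e : Real.exp (23 / 20 * m) = Real.exp (-(13 / 20)) ^ m * Real.exp (9 / 5 * m) := by
      rw [← Real.exp_nat_mul, ← Real.exp_add]
      ring_nf
    have b := mul_le_mul (pow_le_pow_left₀ (Real.exp_pos _).le exp_r m) a5 (by positivity)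
      (by positivity)
    rw [if_pos h0, WW, e]
    split_ifs at a5 b ⊢
    any_goals omega
    all_goals linarith
  · simp only [sum_add_distrib, ← mul_sum]
    have k1 := mul_le_mul_of_nonneg_left ((g 43).trans (show _ ≤ 16 / 10 ^ 13 by norm_num)) hτ
    have k2 := mul_le_mul_of_nonneg_left ((g 108).trans (show _ ≤ 7 / 10 ^ 31 by norm_num)) hB
    have k3 := mul_le_mul_of_nonneg_left (high_cnt M) hτ
    have k4 := mul_le_mul_of_nonneg_left ((g 60).trans (show _ ≤ 25 / 10 ^ 18 by norm_num)) hx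
    have k5 := mul_le_mul_of_nonneg_left ((g 84).trans (show _ ≤ 5 / 10 ^ 24 by norm_num)) hy
    linarith

theorem good_at {w l : ℂ} {P S C : ℝ} (h1 : l.re ≤ -(23 / 20)) (h2 : ‖l‖ ≤ 16 / 5)
    (h3 : ‖ph l‖ ≤ P) (h4 : ‖SS l‖ ≤ S) (h5 : (SS l).re ≤ -(46 / 25)) (hS : 1 ≤ S)
    (hC : P * S ^ 2 ≤ C) (hC' : 11 ≤ C) : Good (23 / 20) (C * ‖w‖) (atm w l) := by
  refine good_atm (by norm_num) h1 (by linarith) (fun j hj => ?_) fun j hj => ?_
  · rw [mul_comm C]
    gcongr
    calc ‖l‖ ^ j ≤ (16 / 5) ^ j := by gcongr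
      _ ≤ (16 / 5) ^ 2 := pow_le_pow_right₀ (by norm_num) hj
      _ ≤ C := by linarith
  · rw [mul_comm C, mul_assoc]
    gcongr
    calc ‖ph l‖ * ‖SS l‖ ^ j ≤ P * S ^ j := by
          gcongr
          exact (norm_nonneg _).trans h3
      _ ≤ P * S ^ 2 := mul_le_mul_of_nonneg_left (pow_le_pow_right₀ hS hj)
          ((norm_nonneg _).trans h3)
      _ ≤ C := hC

theorem good_FS (q : ℕ) (w v : List (ℤ × ℤ)) : Good (23 / 20)
    (∑ k ∈ range 46, 110 * ‖cv q w k‖ + ∑ k ∈ range 46, 110 * ‖cv q v k‖) (FS q w v) := by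
  have h : ∀ w, Good (23 / 20) (∑ k ∈ range 46, 110 * ‖cv q w k‖)
      fun s j u => ∑ k ∈ range 46, atm (cv q w k) (sl k) s j u := fun w =>
    Good.sum (by norm_num) _ fun k hk => by
      obtain ⟨a, -, b, c, d, e⟩ := sl_bounds (mem_range.1 hk)
      exact good_at (by linarith) b c d e (by norm_num) (by norm_num) (by norm_num)
  exact (h w).add (by norm_num) (h v).swp

theorem good_F0 : ∃ B, Good (23 / 20) B F0 := by
  have h : Good (23 / 20) (∑ k ∈ range 16, 420 * ‖oc k‖) FO :=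
    Good.sum (by norm_num) _ fun k hk => by
      obtain ⟨a, -, b, c, d, e⟩ := ol_bounds (mem_range.1 hk)
      exact good_at a.le b c d e (by norm_num) (by norm_num) (by norm_num)
  exact ⟨_, (good_FS 90 mw mv).add (by norm_num)
    ((h.smul (-(1 / 40))).add (by norm_num) (h.swp.smul (1 / 40)))⟩

end Pool.Agent.Lib.MP_a619ca_an.Hx
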