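import Pool.Agent.Lib.MP_a619ca_an.HxDefs

/-!
The long range part of the lower bound on the sphere.
-/

namespace Pool.Agent.Lib.MP_a619ca_an.Hx

open MeasureTheory Set Real Finset Filter Topology

theorem sl_gram_pow {q : Polynomial ℝ} (hq : Gram q) (k : ℕ) : Gram (q ^ k) := by
  induction k with
  | zero => simpa [PP_zero] using gram_PP 0
  | succ k ih => rw [pow_succ]; exact ih.mul hq

theorem sl_gram_X : Gram Polynomial.X := by simpa [PP_one] using gram_PP 1

/-- bounded pointwise limits of Gram polynomials satisfy the basic inequality -/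
theorem sl_limit {q : ℕ → Polynomial ℝ} (hq : ∀ m, Gram (q m)) {F : ℝ → ℝ} {B : ℝ}
    (hB : ∀ m t, |t| ≤ 1 → |(q m).eval t| ≤ B)
    (hF : ∀ t, |t| ≤ 1 → Tendsto (fun m => (q m).eval t) atTop (𝓝 (F t)))
    {N : ℕ} (x : Fin N → S2) (z : S2) :
    (N : ℝ) ^ 2 * ∫ y, F (ip z y) ∂sg ≤ ∑ i, ∑ j, F (ip (x i) (x j)) := by
  have h1 : Tendsto (fun m => ∫ y, (q m).eval (ip z y) ∂sg) atTop (𝓝 (∫ y, F (ip z y) ∂sg)) := by
    refine tendsto_integral_of_dominated_convergence (fun _ => B) (fun m => ?_) (integrable_const _)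
      (fun m => Eventually.of_forall fun y => hB m _ (abs_ip_le _ _))
      (Eventually.of_forall fun y => hF _ (abs_ip_le _ _))
    exact ((q m).continuous.comp (continuous_ip.comp (.prodMk_right z))).aestronglyMeasurable
  refine le_of_tendsto_of_tendsto' (h1.const_mul _)
    (tendsto_finsetSum _ fun i _ => tendsto_finsetSum _ fun j _ => hF _ (abs_ip_le _ _))
    fun m => ?_
  have h := (hq m).sum_ge x
  rwa [Fintype.card_fin, ← integral_eval z] at h

theorem sl_pd {c : ℝ} (hc : 0 < c) (n : ℕ) {N : ℕ} (x : Fin N → S2) (z : S2) :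
    (N : ℝ) ^ 2 * ∫ y, ∑ k ∈ range (n + 1), ((1 + c * dist z y ^ 2)⁻¹) ^ (k + 1) ∂sg ≤
      ∑ i, ∑ j, ∑ k ∈ range (n + 1), ((1 + c * dist (x i) (x j) ^ 2)⁻¹) ^ (k + 1) := by
  simp only [dist_sq_eq]
  have hA : 0 < 1 + 2 * c := by linarith
  obtain ⟨r, hr⟩ : ∃ r, r = 2 * c / (1 + 2 * c) := ⟨_, rfl⟩
  have r0 : 0 ≤ r := by rw [hr]; positivity
  have r1 : r < 1 := by rw [hr, div_lt_one hA]; linarith
  obtain ⟨p, hp⟩ : ∃ p : ℕ → Polynomial ℝ, p = fun m => Polynomial.C (1 + 2 * c)⁻¹ *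
    ∑ j ∈ range m, (Polynomial.C r * Polynomial.X) ^ j := ⟨_, rfl⟩
  have pe : ∀ m t, (p m).eval t = (1 + 2 * c)⁻¹ * ∑ j ∈ range m, (r * t) ^ j := fun m t => by
    simp [hp, Polynomial.eval_finsetSum]
  have p1 : ∀ m t, |t| ≤ 1 → |(p m).eval t| ≤ 1 := fun m t ht => by
    have h1 : |∑ j ∈ range m, (r * t) ^ j| ≤ (1 - r)⁻¹ := by
      refine (abs_sum_le_sum_abs _ _).trans (le_trans (sum_le_sum fun j _ => ?_)
        (sum_le_hasSum (range m) (fun j _ => pow_nonneg r0 j) (hasSum_geometric_of_lt_one r0 r1)))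
      rw [abs_pow, abs_mul, abs_of_nonneg r0]
      exact pow_le_pow_left₀ (by positivity) (mul_le_of_le_one_right r0 ht) j
    rw [pe, abs_mul, abs_of_pos (inv_pos.2 hA)]
    refine (mul_le_mul_of_nonneg_left h1 (inv_pos.2 hA).le).trans (le_of_eq ?_)
    rw [hr]
    field_simp
    ring
  have p2 : ∀ t, |t| ≤ 1 → Tendsto (fun m => (p m).eval t) atTop (𝓝 (1 + c * (2 - 2 * t))⁻¹) :=
    fun t ht => by
    have h1 : |r * t| < 1 := by
      rw [abs_mul, abs_of_nonneg r0]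
      exact (mul_le_of_le_one_right r0 ht).trans_lt r1
    have h2 := ((hasSum_geometric_of_abs_lt_one h1).tendsto_sum_nat).const_mul (1 + 2 * c)⁻¹
    have e : (1 + 2 * c)⁻¹ * (1 - r * t)⁻¹ = (1 + c * (2 - 2 * t))⁻¹ := by
      rw [← mul_inv, hr]
      congr 1
      field_simp
      ring
    simpa only [pe, e] using h2
  refine sl_limit (q := fun m => ∑ k ∈ range (n + 1), p m ^ (k + 1))
    (F := fun t => ∑ k ∈ range (n + 1), ((1 + c * (2 - 2 * t))⁻¹) ^ (k + 1)) (B := (n + 1 : ℕ))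
    (fun m => Gram.sum _ fun k _ => sl_gram_pow ?_ _) (fun m t ht => ?_) (fun t ht => ?_) x z
  · rw [hp]
    exact (Gram.sum _ fun j _ => sl_gram_pow (sl_gram_X.C_mul r0) j).C_mul (inv_pos.2 hA).le
  · rw [Polynomial.eval_finsetSum]
    refine (abs_sum_le_sum_abs _ _).trans ((sum_le_card_nsmul _ _ 1 fun k _ => ?_).trans (by simp))
    rw [Polynomial.eval_pow, abs_pow]
    exact pow_le_one₀ (abs_nonneg _) (p1 m t ht)
  · simp only [Polynomial.eval_finsetSum, Polynomial.eval_pow]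
    exact tendsto_finsetSum _ fun k _ => (p2 t ht).pow _

theorem sl_int {c : ℝ} (hc : 0 < c) (n : ℕ) :
    log (1 + 4 * c) + harmonic n * (1 - (1 + 4 * c)⁻¹) ≤
      c * ∫ u in (0 : ℝ)..4, ∑ k ∈ range (n + 1), ((1 + c * u)⁻¹) ^ (k + 1) := by
  have hd : ∀ u ∈ uIcc (0 : ℝ) 4, HasDerivAt (fun u => log (1 + c * u) -
      ∑ k ∈ range n, ((1 + c * u)⁻¹) ^ (k + 1) / (k + 1))
      (c * ∑ k ∈ range (n + 1), ((1 + c * u)⁻¹) ^ (k + 1)) u := by
    intro u hu
    rw [Set.uIcc_of_le (by norm_num)] at hu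
    have h0 : 1 + c * u ≠ 0 := by have := hu.1; positivity
    have h1 : HasDerivAt (fun u => 1 + c * u) c u := by
      simpa using ((hasDerivAt_id u).const_mul c).const_add 1
    refine ((h1.log h0).sub (HasDerivAt.fun_sum fun k _ =>
      ((h1.inv h0).pow (k + 1)).div_const ((k : ℝ) + 1))).congr_deriv ?_
    rw [sum_range_succ', mul_add, mul_sum, add_comm (∑ _ ∈ _, _), sub_eq_add_neg, ← sum_neg_distrib]
    congr 1
    · simp [div_eq_mul_inv]
    · refine sum_congr rfl fun k _ => ?_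
      have : (k : ℝ) + 1 ≠ 0 := by positivity
      simp only [Pi.inv_apply, Nat.add_sub_cancel, pow_succ]
      push_cast
      field_simp
  have hi : IntervalIntegrable (fun u => c * ∑ k ∈ range (n + 1), ((1 + c * u)⁻¹) ^ (k + 1))
      volume 0 4 := by
    refine ContinuousOn.intervalIntegrable (continuousOn_const.mul
      (continuousOn_finsetSum _ fun k _ => ContinuousOn.pow (ContinuousOn.inv₀ (by fun_prop)
        fun u hu => ?_) _))
    rw [Set.uIcc_of_le (by norm_num)] at hu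
    have := hu.1
    positivity
  rw [← intervalIntegral.integral_const_mul, intervalIntegral.integral_eq_sub_of_hasDerivAt hd hi]
  have y0 : 0 ≤ (1 + 4 * c)⁻¹ := by positivity
  have y1 : (1 + 4 * c)⁻¹ ≤ 1 := inv_le_one_of_one_le₀ (by linarith)
  have hs : ∑ k ∈ range n, ((1 + 4 * c)⁻¹) ^ (k + 1) / ((k : ℝ) + 1) ≤
      harmonic n * (1 + 4 * c)⁻¹ := by
    simp only [harmonic, Rat.cast_sum, sum_mul]
    refine sum_le_sum fun k _ => ?_
    push_cast
    rw [div_eq_inv_mul]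
    exact mul_le_mul_of_nonneg_left (pow_le_of_le_one y0 y1 (Nat.succ_ne_zero k)) (by positivity)
  have hh : (harmonic n : ℝ) = ∑ k ∈ range n, 1 / ((k : ℝ) + 1) := by
    simp [harmonic]
  simp only [mul_zero, add_zero, log_one, inv_one, one_pow, mul_comm c 4]
  rw [← hh]
  linarith

theorem sl_point {c d : ℝ} (hc : 0 < c) (hd : 0 < d) (n : ℕ) :
    c * ∑ k ∈ range (n + 1), ((1 + c * d)⁻¹) ^ (k + 1) ≤ (1 - exp (-((n + 1) * c * d))) / d := by
  have h0 : 0 < 1 + c * d := by positivity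
  have h1 : ∀ m : ℕ, c * d * ∑ k ∈ range m, ((1 + c * d)⁻¹) ^ (k + 1) = 1 - ((1 + c * d)⁻¹) ^ m := by
    intro m
    induction m with
    | zero => simp
    | succ m ih =>
      rw [sum_range_succ, mul_add, ih, pow_succ]
      field_simp
      ring
  have h2 : exp (-(c * d)) ≤ (1 + c * d)⁻¹ := by
    rw [exp_neg]
    exact inv_anti₀ h0 (by linarith [add_one_le_exp (c * d)])
  have h3 := pow_le_pow_left₀ (exp_pos _).le h2 (n + 1)
  rw [← exp_nat_mul] at h3
  rw [le_div_iff₀ hd, mul_right_comm, h1]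
  have e : ((n + 1 : ℕ) : ℝ) * -(c * d) = -((n + 1) * c * d) := by push_cast; ring
  rw [e] at h3
  linarith

/-- the long range estimate -/
theorem long_range {N : ℕ} (x : Fin N → S2) (hx : Function.Injective x) {c : ℝ} (hc : 0 < c)
    (n : ℕ) :
    (N : ℝ) ^ 2 / 4 * (log (1 + 4 * c) + harmonic n * (1 - (1 + 4 * c)⁻¹)) - (n + 1) * c * N ≤
      ∑ i, ∑ j ∈ univ.erase i,
        (1 - exp (-((n + 1) * c * dist (x i) (x j) ^ 2))) / dist (x i) (x j) ^ 2 := by
  have h1 := mul_le_mul_of_nonneg_left (sl_pd hc n x (sp (0, 1))) hc.le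
  rw [integral_dist _ (F := fun u => ∑ k ∈ range (n + 1), ((1 + c * u)⁻¹) ^ (k + 1))
    (by fun_prop)] at h1
  have h2 := mul_le_mul_of_nonneg_left (sl_int hc n) (show 0 ≤ (N : ℝ) ^ 2 / 4 by positivity)
  have h3 : c * ∑ i, ∑ j, ∑ k ∈ range (n + 1), ((1 + c * dist (x i) (x j) ^ 2)⁻¹) ^ (k + 1) ≤
      ∑ i : Fin N, ((n + 1) * c + ∑ j ∈ univ.erase i,
        (1 - exp (-((n + 1) * c * dist (x i) (x j) ^ 2))) / dist (x i) (x j) ^ 2) := by
    rw [mul_sum]
    refine sum_le_sum fun i _ => ?_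
    rw [← add_sum_erase _ _ (mem_univ i), mul_add, mul_sum (univ.erase i)]
    refine add_le_add (le_of_eq ?_) (sum_le_sum fun j hj => sl_point hc ?_ n)
    · simp [mul_comm]
    · exact pow_pos (dist_pos.2 (hx.ne (ne_of_mem_erase hj).symm)) 2
  rw [sum_add_distrib, sum_const, card_univ, Fintype.card_fin, nsmul_eq_mul] at h3
  linarith

end Pool.Agent.Lib.MP_a619ca_an.Hx
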