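import Pool.Agent.Lib.MP_a619ca_an.HxGlue

/-!
The basic inequality for a radial positive definite kernel of the plane, tested against a Gaussian.
-/

namespace Pool.Agent.Lib.MP_a619ca_an.Hx

open MeasureTheory Set Real Finset Filter Topology
open scoped InnerProductSpace

theorem sl_damp (f : ℝ → ℝ) (μ : Measure E2) [IsFiniteMeasure μ]
    (hf : ∀ Y : E2, charFun μ Y = (f (‖Y‖ ^ 2) : ℂ)) {α : ℝ} (hα : 0 ≤ α) :
    ∃ M : Measure E2, IsFiniteMeasure M ∧
      ∀ Y : E2, charFun M Y = ((f (‖Y‖ ^ 2) * exp (-(α * ‖Y‖ ^ 2)) : ℝ) : ℂ) := by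
  refine ⟨μ.conv ((ProbabilityTheory.stdGaussian E2).map (√(2 * α) • ·)), inferInstance, fun Y => ?_⟩
  rw [charFun_conv, charFun_map_smul, ProbabilityTheory.charFun_stdGaussian, hf, Complex.ofReal_mul,
    Complex.ofReal_exp]
  congr 2
  have h : ‖√(2 * α) • Y‖ ^ 2 = 2 * α * ‖Y‖ ^ 2 := by
    rw [norm_smul, mul_pow, Real.norm_eq_abs, sq_abs, sq_sqrt (by linarith)]
  rw [← Complex.ofReal_pow, h]
  push_cast
  ring

variable {M : Measure E2} [IsFiniteMeasure M] {k : ℝ → ℝ}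

theorem sl_cos (hk : ∀ Y : E2, charFun M Y = (k (‖Y‖ ^ 2) : ℂ)) (Y : E2) :
    ∫ ξ, cos ⟪ξ, Y⟫_ℝ ∂M = k (‖Y‖ ^ 2) := by
  have hi : Integrable (fun ξ : E2 => Complex.exp (⟪ξ, Y⟫_ℝ * Complex.I)) M :=
    Integrable.of_bound (Measurable.aestronglyMeasurable (by fun_prop)) 1
      (Eventually.of_forall fun ξ => (Complex.norm_exp_ofReal_mul_I _).le)
  have h1 := integral_re hi
  simp only [RCLike.re_to_complex, Complex.exp_ofReal_mul_I_re] at h1
  rw [h1, ← charFun_apply, hk, Complex.ofReal_re]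

theorem sl_rot (hk : ∀ Y : E2, charFun M Y = (k (‖Y‖ ^ 2) : ℂ)) (R : E2 ≃ₗᵢ[ℝ] E2) :
    M.map R = M := by
  refine Measure.ext_of_charFun (funext fun Y => ?_)
  rw [hk, ← R.symm.norm_map, ← hk, charFun_apply, charFun_apply,
    integral_map R.continuous.measurable.aemeasurable
      (Measurable.aestronglyMeasurable (by fun_prop))]
  refine integral_congr_ae (Eventually.of_forall fun ξ => ?_)
  simp only
  rw [← R.inner_map_map ξ, R.apply_symm_apply]

theorem sl_swap {h g : E2 → ℝ} (hh : Integrable h M) (hg : Integrable g) :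
    ∫ Y, g Y * ∫ ξ, cos ⟪ξ, Y⟫_ℝ * h ξ ∂M = ∫ ξ, h ξ * (∫ Y, g Y * cos (1 * ⟪Y, ξ⟫_ℝ)) ∂M := by
  simp only [← integral_const_mul]
  rw [integral_integral_swap]
  · refine integral_congr_ae (Eventually.of_forall fun ξ =>
      integral_congr_ae (Eventually.of_forall fun Y => ?_))
    simp only
    rw [one_mul, real_inner_comm]
    ring
  · refine ((hg.mul_prod hh).mul_bdd (c := 1) (g := fun p : E2 × E2 => cos ⟪p.2, p.1⟫_ℝ)
      (Measurable.aestronglyMeasurable (by fun_prop))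
      (Eventually.of_forall fun p => abs_cos_le_one _)).congr (Eventually.of_forall fun p => ?_)
    simp only [Function.uncurry]
    ring

theorem sl_trig {N : ℕ} (θ w : Fin N → ℝ) (h : ℝ) :
    2 * ∑ i, w i * (cos (θ i) * h) - h ^ 2 ≤ ∑ i, ∑ j, w i * w j * cos (θ i - θ j) := by
  have e : ∑ i, ∑ j, w i * w j * cos (θ i - θ j) =
      (∑ i, w i * cos (θ i)) ^ 2 + (∑ i, w i * sin (θ i)) ^ 2 := by
    simp only [sq, sum_mul_sum, ← sum_add_distrib, cos_sub]
    exact sum_congr rfl fun i _ => sum_congr rfl fun j _ => by ring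
  have e2 : ∑ i, w i * (cos (θ i) * h) = (∑ i, w i * cos (θ i)) * h := by
    simp only [sum_mul, mul_assoc]
  rw [e, e2]
  nlinarith [sq_nonneg (∑ i, w i * cos (θ i) - h), sq_nonneg (∑ i, w i * sin (θ i))]

theorem plane_ineq (hk : ∀ Y : E2, charFun M Y = (k (‖Y‖ ^ 2) : ℂ)) {b : ℝ} (hb : 0 < b) :
    ∃ (Ψ : ℝ → ℝ) (C : ℝ), Measurable Ψ ∧ (∀ T, |Ψ T| ≤ C) ∧
      ∫ T in Ioi (0 : ℝ), exp (-(b * T)) * Ψ T =
        AA / (2 * b) * ∫ u in Ioi (0 : ℝ), exp (-(b / 2 * u)) * k u ∧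
      ∀ (N : ℕ) (Y : Fin N → E2) (w : Fin N → ℝ), 2 * ∑ i, w i * Ψ (‖Y i‖ ^ 2) -
        AA * (AA / (2 * b) * ∫ u in Ioi (0 : ℝ), exp (-(b / 2 * u)) * k u) ≤
          ∑ i, ∑ j, w i * w j * k (‖Y i - Y j‖ ^ 2) := by
  have hA := AA_pos
  obtain ⟨h, hh⟩ : ∃ h : E2 → ℝ, h = fun ξ => AA / b * exp (-(1 ^ 2 * ‖ξ‖ ^ 2 / (4 * b))) := ⟨_, rfl⟩
  have h0 : Continuous h := by rw [hh]; fun_prop
  have h1 : ∀ ξ, |h ξ| ≤ AA / b := fun ξ => by
    rw [hh, abs_of_pos (by positivity)]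
    exact mul_le_of_le_one_right (by positivity) (exp_le_one_iff.2 (neg_nonpos.2 (by positivity)))
  have h2 : Integrable h M := Integrable.of_bound h0.aestronglyMeasurable _ (Eventually.of_forall h1)
  have h3 : Integrable (fun ξ => h ξ ^ 2) M := by
    simp only [sq]
    exact h2.mul_bdd h0.aestronglyMeasurable (Eventually.of_forall h1)
  have h4 : ∀ Y : E2, Integrable (fun ξ => cos ⟪ξ, Y⟫_ℝ * h ξ) M := fun Y =>
    h2.bdd_mul (c := 1) (Measurable.aestronglyMeasurable (by fun_prop))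
      (Eventually.of_forall fun p => abs_cos_le_one _)
  have h5 : ∀ Y : E2, Integrable (fun ξ => cos ⟪ξ, Y⟫_ℝ) M := fun Y =>
    Integrable.of_bound (Measurable.aestronglyMeasurable (by fun_prop)) 1
      (Eventually.of_forall fun p => abs_cos_le_one _)
  obtain ⟨e, he⟩ : ∃ e : E2, ‖e‖ = 1 := exists_norm_eq E2 zero_le_one
  obtain ⟨Ψ, hΨ⟩ : ∃ Ψ : ℝ → ℝ, Ψ = fun T => ∫ ξ, cos ⟪ξ, √T • e⟫_ℝ * h ξ ∂M := ⟨_, rfl⟩
  have p1 : ∀ Y : E2, Ψ (‖Y‖ ^ 2) = ∫ ξ, cos ⟪ξ, Y⟫_ℝ * h ξ ∂M := fun Y => by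
    obtain ⟨R, hR⟩ : ∃ R : E2 ≃ₗᵢ[ℝ] E2, R (‖Y‖ • e) = Y :=
      ⟨_, Submodule.reflection_sub (by rw [norm_smul, he, norm_norm, mul_one])⟩
    rw [hΨ]
    simp only [sqrt_sq (norm_nonneg Y)]
    conv_rhs => rw [← sl_rot hk R]
    rw [integral_map R.continuous.measurable.aemeasurable
      (Continuous.aestronglyMeasurable (by fun_prop))]
    refine integral_congr_ae (Eventually.of_forall fun ξ => ?_)
    simp only [hh]
    rw [← R.inner_map_map ξ, hR, R.norm_map]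
  have p2 : ∫ ξ, h ξ ^ 2 ∂M = AA * (AA / (2 * b) * ∫ u in Ioi (0 : ℝ), exp (-(b / 2 * u)) * k u) := by
    have s := sl_swap (M := M) (h := fun _ => 1) (integrable_const _) (int_gauss (half_pos hb))
    simp only [mul_one, sl_cos hk, gauss_cos (half_pos hb), one_mul (π / _ * _)] at s
    rw [polar fun u => exp (-(b / 2 * u)) * k u, integral_const_mul] at s
    have e1 : ∀ ξ, h ξ ^ 2 = (AA / b) ^ 2 * exp (-(1 ^ 2 * ‖ξ‖ ^ 2 / (4 * (b / 2)))) := fun ξ => by
      rw [hh, mul_pow, ← exp_nat_mul]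
      congr 2
      push_cast
      field_simp
    simp only [e1]
    rw [integral_const_mul]
    have s2 := mul_left_cancel₀ pi_ne_zero (s.trans (by rw [div_eq_mul_inv π, mul_assoc]))
    rw [s2]
    generalize ∫ a : E2, exp (-(1 ^ 2 * ‖a‖ ^ 2 / (4 * (b / 2)))) ∂M = J
    field_simp
  refine ⟨Ψ, ∫ ξ, |h ξ| ∂M, ?_, fun T => ?_, ?_, fun N Y w => ?_⟩
  · rw [hΨ]
    exact (StronglyMeasurable.integral_prod_right (f := fun (T : ℝ) (ξ : E2) =>
      cos ⟪ξ, √T • e⟫_ℝ * h ξ) (Continuous.stronglyMeasurable (by fun_prop))).measurable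
  · rw [hΨ, ← Real.norm_eq_abs]
    refine norm_integral_le_of_norm_le h2.abs (Eventually.of_forall fun ξ => ?_)
    rw [Real.norm_eq_abs, abs_mul]
    exact mul_le_of_le_one_left (abs_nonneg _) (abs_cos_le_one _)
  · have s := sl_swap h2 (int_gauss hb)
    simp only [← p1, gauss_cos hb] at s
    rw [polar fun u => exp (-(b * u)) * Ψ u] at s
    have e1 : ∀ ξ, h ξ * (π / b * exp (-(1 ^ 2 * ‖ξ‖ ^ 2 / (4 * b)))) = π / AA * h ξ ^ 2 := fun ξ => by
      rw [hh]
      field_simp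
    simp only [e1] at s
    rw [integral_const_mul, p2] at s
    refine mul_left_cancel₀ pi_ne_zero (s.trans ?_)
    field_simp
  · have s := integral_mono (((integrable_finsetSum univ fun i _ =>
      (h4 (Y i)).const_mul (w i)).const_mul 2).sub h3)
      (integrable_finsetSum univ fun i _ => integrable_finsetSum univ fun j _ =>
        (h5 (Y i - Y j)).const_mul (w i * w j)) fun ξ => by
          simp only [inner_sub_right, Pi.sub_apply]
          exact sl_trig (fun i => ⟪ξ, Y i⟫_ℝ) w (h ξ)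
    simp only [Pi.sub_apply] at s
    rw [integral_sub ((integrable_finsetSum univ fun i _ =>
      (h4 (Y i)).const_mul (w i)).const_mul 2) h3, integral_const_mul,
      integral_finsetSum _ fun i _ => (h4 (Y i)).const_mul (w i),
      integral_finsetSum _ fun i _ => integrable_finsetSum univ fun j _ =>
        (h5 (Y i - Y j)).const_mul (w i * w j), p2] at s
    simp only [integral_finsetSum _ fun j _ => (h5 (_ - Y j)).const_mul (_ * w j),
      integral_const_mul, ← p1, sl_cos hk] at s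
    exact s

end Pool.Agent.Lib.MP_a619ca_an.Hx
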