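import Pool.Agent.Lib.MP_a619ca_an.HxAtoms
import Pool.Agent.Lib.MP_a619ca_an.HxDefs2

/-!
The tests on the cells `i < 480`.
-/

namespace Pool.Agent.Lib.MP_a619ca_an.Hx

def z0 : Bl := Bl.int 0 0 0
def onK (a : ℕ) (b : Bl) (i : ℕ × ℕ) : Bl := if i.1 = a then b else z0
def c0 (s : Bool) (i : ℕ × ℕ) : Bl := cfB 90 mw mv s i
def c1 (s : Bool) (i : ℕ × ℕ) : Bl := (c0 s i).mul (lamB i)
def c2 (s : Bool) (i : ℕ × ℕ) : Bl := (c1 s i).mul (lamB i)
def muA (i : ℕ × ℕ) : Bl := (lamB i).add (ratB 23 20)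
def tgP : CT := mkCT LA (onK 4 (Bl.int 1 0 0)) (fun i => (c0 false i).neg) muA
def tgC : CT := mkCT LA
  (fun i => (onK 4 (aaB.mul aaB) i).add ((c1 false i).mul (Bl.int (-2) 0 0)))
  (fun i => (c2 false i).neg) muA
def thP : CT := mkCT LA (c0 true) (fun _ => z0) muA
def thD : CT := mkCT LA (onK 5 AAB) (fun i => (c1 true i).neg) muA
def thC : CT := mkCT LA (fun i => (onK 5 (AAB.mul (Bl.int 6 0 0)) i).add (c1 true i)) (c2 true) muA
def tau : ℕ := 7 * 2 ^ 160 / 10 ^ 5 + 1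

noncomputable def testG (i : ℕ) (xs : List Z2) (e : ℕ) : Bool :=
  if tC 2 i then tgC.chk tau i xs e else tgP.chk tau i xs e

noncomputable def testH (i : ℕ) (xs : List Z2) (e : ℕ) : Bool :=
  if tC 2 i then thC.chk tau i xs e
  else if i < 16 then thD.chk tau i xs e else thP.chk tau i xs e

end Pool.Agent.Lib.MP_a619ca_an.Hx
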