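import Pool.Agent.Lib.MP_a619ca_an.Config

/-!
The number of representations of `n` by `x ^ 2 + x y + y ^ 2` is at most `6 ∑_{d ∣ n} χ (d)`, with
`χ` the non-trivial character modulo three.
-/

namespace Pool.Agent.Lib.MP_a619ca_an

open ArithmeticFunction Finset
open scoped ArithmeticFunction.zeta

def chi : ArithmeticFunction ℤ :=
  ⟨fun n => if n % 3 = 1 then 1 else if n % 3 = 2 then -1 else 0, by simp⟩

theorem chi_apply (n : ℕ) : chi n = if n % 3 = 1 then 1 else if n % 3 = 2 then -1 else 0 := rfl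

theorem chi_mul (m n : ℕ) : chi (m * n) = chi m * chi n := by
  simp only [chi_apply, Nat.mul_mod m n 3]
  have h1 := Nat.mod_lt m (show 0 < 3 by norm_num)
  have h2 := Nat.mod_lt n (show 0 < 3 by norm_num)
  generalize m % 3 = a at *
  generalize n % 3 = b at *
  interval_cases a <;> interval_cases b <;> simp

theorem chi_pow (m k : ℕ) : chi (m ^ k) = chi m ^ k := by
  induction k with
  | zero => simp [chi_apply]
  | succ k ih => rw [pow_succ, chi_mul, ih, pow_succ]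

theorem chi_mult : chi.IsMultiplicative := ⟨rfl, fun _ => chi_mul _ _⟩

open Classical in
noncomputable def sqf : ArithmeticFunction ℤ := ⟨fun n => if n ≠ 0 ∧ IsSquare n then 1 else 0, by simp⟩

open Classical in
theorem sqf_apply (n : ℕ) : sqf n = if n ≠ 0 ∧ IsSquare n then 1 else 0 := rfl

theorem sqf_mult : sqf.IsMultiplicative := by
  refine IsMultiplicative.iff_ne_zero.2 ⟨by simp [sqf_apply], fun {m n} hm hn h => ?_⟩
  have : IsSquare (m * n) ↔ IsSquare m ∧ IsSquare n := by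
    refine ⟨fun ⟨r, hr⟩ => ?_, fun h => h.1.mul h.2⟩
    rw [← sq] at hr
    obtain ⟨a, ha⟩ := exists_eq_pow_of_mul_eq_pow (Nat.isUnit_iff.2 h) hr
    obtain ⟨b, hb⟩ := exists_eq_pow_of_mul_eq_pow (Nat.isUnit_iff.2 h.symm) (mul_comm m n ▸ hr)
    exact ⟨ha ▸ IsSquare.sq a, hb ▸ IsSquare.sq b⟩
  by_cases h1 : IsSquare m <;> by_cases h2 : IsSquare n <;> simp [sqf_apply, hm, hn, this, h1, h2]

theorem sqf_step {p : ℕ} (hp : p.Prime) (i : ℕ) : sqf (p ^ (i + 1 + 1)) = sqf (p ^ i) := by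
  have : IsSquare (p ^ (i + 1 + 1)) ↔ IsSquare (p ^ i) := by
    rw [pow_succ, pow_succ, mul_assoc]
    refine ⟨fun ⟨r, hr⟩ => ?_, fun h => h.mul (IsSquare.mul_self p)⟩
    obtain ⟨t, rfl⟩ : p ∣ r := by
      have : p ∣ r * r := hr ▸ Dvd.intro_left (p ^ i * p) (by ring)
      exact (hp.dvd_mul.1 this).elim id id
    exact ⟨t, Nat.eq_of_mul_eq_mul_right (Nat.mul_pos hp.pos hp.pos) (by rw [hr]; ring)⟩
  simp [sqf_apply, this, hp.ne_zero]

noncomputable def rho : ArithmeticFunction ℤ :=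
  ⟨fun n => if n = 0 then 0 else Nat.card {x : ZMod n // x ^ 2 + x + 1 = 0}, by simp⟩

theorem rho_apply {n : ℕ} (hn : n ≠ 0) : rho n = Nat.card {x : ZMod n // x ^ 2 + x + 1 = 0} :=
  if_neg hn

theorem rho_nonneg (n : ℕ) : 0 ≤ rho n := by
  rcases eq_or_ne n 0 with rfl | hn
  · simp
  · rw [rho_apply hn]; positivity

theorem rho_mult : rho.IsMultiplicative := by
  refine IsMultiplicative.iff_ne_zero.2 ⟨?_, fun {m n} hm hn h => ?_⟩
  · rw [rho_apply one_ne_zero, Nat.card_eq_fintype_card]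
    decide
  · rw [rho_apply hm, rho_apply hn, rho_apply (mul_ne_zero hm hn), ← Nat.cast_mul, ← Nat.card_prod]
    congr 1
    refine Nat.card_congr (((ZMod.chineseRemainder h).toEquiv.subtypeEquiv fun x => ?_).trans
      Equiv.subtypeProdEquivProd)
    rw [← (ZMod.chineseRemainder h).map_eq_zero_iff, map_add, map_add, map_pow, map_one,
      Prod.ext_iff]
    rfl

theorem rho_eq_zero {n d : ℕ} (hn : n ≠ 0) (hd : d ∣ n) (h : ∀ y : ZMod d, y ^ 2 + y + 1 ≠ 0) :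
    rho n = 0 := by
  rw [rho_apply hn, Nat.cast_eq_zero, Nat.card_eq_zero]
  refine Or.inl ⟨fun x => h (ZMod.castHom hd (ZMod d) x.1) ?_⟩
  have := congrArg (ZMod.castHom hd (ZMod d)) x.2
  rwa [map_add, map_add, map_pow, map_one, _root_.map_zero] at this

theorem rho_le_two {p : ℕ} (hp : p.Prime) (h3 : p ≠ 3) (k : ℕ) : rho (p ^ k) ≤ 2 := by
  classical
  have : NeZero (p ^ k) := ⟨pow_ne_zero _ hp.ne_zero⟩
  rw [rho_apply (NeZero.ne _), Nat.card_eq_fintype_card, Fintype.card_subtype]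
  rcases (univ.filter fun x : ZMod (p ^ k) => x ^ 2 + x + 1 = 0).eq_empty_or_nonempty with h | ⟨x, hx⟩
  · simp [h]
  refine mod_cast (card_le_card (t := {x, -1 - x}) fun y hy => ?_).trans card_le_two
  obtain ⟨X, rfl⟩ := ZMod.intCast_surjective x
  obtain ⟨Y, rfl⟩ := ZMod.intCast_surjective y
  have h1 : ((p ^ k : ℕ) : ℤ) ∣ X ^ 2 + X + 1 := by
    rw [← ZMod.intCast_zmod_eq_zero_iff_dvd]; simpa using hx
  have h2 : ((p ^ k : ℕ) : ℤ) ∣ (Y - X) * (Y - (-1 - X)) := by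
    rw [← ZMod.intCast_zmod_eq_zero_iff_dvd]
    push_cast
    linear_combination (mem_filter.1 hy).2 - (mem_filter.1 hx).2
  have h4 : ∀ Z : ℤ, ((p ^ k : ℕ) : ℤ) ∣ Y - Z → (Y : ZMod (p ^ k)) = Z := fun Z h => by
    rw [← ZMod.intCast_zmod_eq_zero_iff_dvd] at h
    exact sub_eq_zero.1 (by simpa using h)
  have hp' : Prime (p : ℤ) := Nat.prime_iff_prime_int.1 hp
  rw [mem_insert, mem_singleton]
  rcases Nat.eq_zero_or_pos k with rfl | hk
  · exact Or.inl (h4 _ (by simp))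
  rw [Nat.cast_pow] at h1 h2 h4
  by_cases h5 : (p : ℤ) ∣ Y - X
  · by_cases h6 : (p : ℤ) ∣ Y - (-1 - X)
    · have h7 := (dvd_pow_self _ hk.ne').trans h1
      have h8 : (p : ℤ) ∣ 3 := by
        have := (h7.mul_left 4).sub ((h6.sub h5).mul_left (2 * X + 1))
        rwa [show 4 * (X ^ 2 + X + 1) - (2 * X + 1) * (Y - (-1 - X) - (Y - X)) = 3 by ring] at this
      exact absurd ((Nat.prime_dvd_prime_iff_eq hp Nat.prime_three).1 (by exact_mod_cast h8)) h3
    · exact Or.inl (h4 _ (hp'.pow_dvd_of_dvd_mul_right k h6 h2))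
  · exact Or.inr (by simpa using h4 _ (hp'.pow_dvd_of_dvd_mul_left k h5 h2))

theorem rho_prime_pow {p : ℕ} (hp : p.Prime) (k : ℕ) :
    rho (p ^ (k + 1)) ≤ chi p ^ k + chi p ^ (k + 1) := by
  have h0 := pow_ne_zero (k + 1) hp.ne_zero
  have h3 : p % 3 = 0 ∨ p % 3 = 1 ∨ p % 3 = 2 := by omega
  rcases h3 with h | h | h
  · obtain rfl : 3 = p := (Nat.prime_dvd_prime_iff_eq Nat.prime_three hp).1
      (Nat.dvd_of_mod_eq_zero h)
    rcases k with _ | k
    · rw [zero_add, pow_one, rho_apply (by norm_num), Nat.card_eq_fintype_card]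
      decide
    · rw [rho_eq_zero (d := 9) h0 ⟨3 ^ k, by ring⟩ (by decide)]
      simp [chi_apply]
  · simpa [chi_apply, h] using rho_le_two hp (by omega) (k + 1)
  · have : Fact p.Prime := ⟨hp⟩
    rw [rho_eq_zero h0 (dvd_pow_self p k.succ_ne_zero) fun y hy => ?_]
    · simp [chi_apply, h, pow_succ]
    have h1 : y ^ 3 = 1 := by linear_combination (y - 1) * hy
    have h2 : y ≠ 0 := by rintro rfl; simp at hy
    have h4 := ZMod.pow_card_sub_one_eq_one h2
    rw [show p - 1 = 3 * (p / 3) + 1 by omega, pow_succ, pow_mul, h1, one_pow, one_mul] at h4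
    have h5 : ((3 : ℕ) : ZMod p) = 0 := by rw [h4] at hy; rw [← hy]; norm_num
    have := (Nat.prime_dvd_prime_iff_eq hp Nat.prime_three).1 ((ZMod.natCast_eq_zero_iff _ _).1 h5)
    omega

theorem sqf_nonneg (n : ℕ) : 0 ≤ sqf n := by rw [sqf_apply]; split_ifs <;> norm_num

theorem conv_nonneg (n : ℕ) : 0 ≤ (sqf * rho) n := by
  rw [ArithmeticFunction.mul_apply]
  exact sum_nonneg fun _ _ => mul_nonneg (sqf_nonneg _) (rho_nonneg _)

theorem conv_le (n : ℕ) : (sqf * rho) n ≤ (ζ * chi) n := by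
  induction n using Nat.recOnPosPrimePosCoprime with
  | zero => simp
  | one => rw [(sqf_mult.mul rho_mult).1, (isMultiplicative_zeta.natCast.mul chi_mult).1]
  | coprime a b _ _ h ha hb =>
    rw [(sqf_mult.mul rho_mult).2 h, (isMultiplicative_zeta.natCast.mul chi_mult).2 h]
    exact mul_le_mul ha hb (conv_nonneg _) ((conv_nonneg _).trans ha)
  | prime_pow p k hp hk =>
    clear hk
    rw [coe_zeta_mul_apply, ArithmeticFunction.mul_apply,
      Nat.sum_divisorsAntidiagonal fun a b => sqf a * rho b, Nat.sum_divisors_prime_pow hp,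
      Nat.sum_divisors_prime_pow hp,
      sum_congr rfl fun i hi => by rw [Nat.pow_div (Nat.lt_succ_iff.1 (mem_range.1 hi)) hp.pos]]
    have s0 : sqf (p ^ 0) = 1 := sqf_mult.1
    have s1 : sqf (p ^ (0 + 1)) = 0 := by simp [sqf_apply, hp.prime.not_isSquare]
    simp only [chi_pow]
    induction k using Nat.twoStepInduction with
    | zero => simp [rho_mult.1, sqf_mult.1]
    | one =>
      have := rho_prime_pow hp 0
      rw [sum_range_succ', sum_range_one, s0, s1, sum_range_succ, sum_range_one]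
      simpa using this
    | more k ih _ =>
      have := rho_prime_pow hp (k + 1)
      rw [sum_range_succ', sum_range_succ', s0, s1, sum_range_succ (fun i => chi p ^ i),
        sum_range_succ fun i => chi p ^ i]
      simp only [sqf_step hp, Nat.add_sub_add_right, tsub_zero]
      linarith

theorem Q_pos {v : ℤ × ℤ} (hv : v ≠ 0) : 0 < Q v := by
  by_contra h
  have h1 : v.2 = 0 := by unfold Q at h; nlinarith [sq_nonneg (2 * v.1 + v.2), sq_nonneg v.2]
  have h2 : v.1 = 0 := by unfold Q at h; rw [h1] at h; nlinarith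
  exact hv (Prod.ext h2 h1)

theorem card_prim {b : ℕ} (hb : b ≠ 0) (W : Finset (ℤ × ℤ))
    (hW : ∀ w ∈ W, IsCoprime w.1 w.2 ∧ Q w = b) : (W.card : ℤ) ≤ 6 * rho b := by
  classical
  have : NeZero b := ⟨hb⟩
  have h1 : ∀ w ∈ W, ∃ x : ZMod b, x ^ 2 + x + 1 = 0 ∧ (w.1 : ZMod b) = x * w.2 := by
    intro w hw
    obtain ⟨h1, h2⟩ := hW w hw
    have h3 : IsUnit (w.2 : ZMod b) := by
      rw [ZMod.coe_int_isUnit_iff_isCoprime, ← h2,
        show Q w = w.1 ^ 2 + w.2 * (w.1 + w.2) by unfold Q; ring]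
      exact h1.pow_left.add_mul_left_left _
    obtain ⟨u, hu⟩ := h3.exists_right_inv
    have h4 : ((Q w : ℤ) : ZMod b) = 0 := by rw [h2]; simp
    unfold Q at h4
    push_cast at h4
    exact ⟨w.1 * u, by linear_combination u ^ 2 * h4 - (w.1 * u + w.2 * u + 1) * hu,
      by linear_combination (-w.1 : ZMod b) * hu⟩
  choose! f hf1 hf2 using h1
  rw [rho_apply hb, Nat.card_eq_fintype_card, Fintype.card_subtype]
  refine mod_cast card_le_mul_card_image_of_maps_to (f := f)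
    (fun w hw => mem_filter.2 ⟨mem_univ _, hf1 w hw⟩) 6 fun x hx => ?_
  rcases (W.filter fun w => f w = x).eq_empty_or_nonempty with h | ⟨v, hv⟩
  · simp [h]
  have hb' : (b : ℤ) ≠ 0 := by exact_mod_cast hb
  obtain ⟨hv1, hv2⟩ := mem_filter.1 hv
  have key : ∀ w ∈ W.filter fun w => f w = x, v.1 * w.1 + v.2 * w.2 + v.1 * w.2 =
      b * ((v.1 * w.1 + v.2 * w.2 + v.1 * w.2) / b) ∧
      v.1 * w.2 - v.2 * w.1 = b * ((v.1 * w.2 - v.2 * w.1) / b) := by
    intro w hw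
    obtain ⟨hw1, hw2⟩ := mem_filter.1 hw
    have a1 := hf2 v hv1
    have a2 := hf2 w hw1
    rw [hv2] at a1
    rw [hw2] at a2
    constructor <;> refine (Int.mul_ediv_cancel' ?_).symm <;>
      rw [← ZMod.intCast_zmod_eq_zero_iff_dvd] <;> push_cast <;> rw [a1, a2]
    · linear_combination (v.2 * w.2 : ZMod b) * (mem_filter.1 hx).2
    · ring
  refine (card_le_card_of_injOn (t := (Icc (-1) 1 ×ˢ Icc (-1) 1).filter
      fun u : ℤ × ℤ => u.1 ^ 2 - u.1 * u.2 + u.2 ^ 2 = 1)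
    (fun w => ((v.1 * w.1 + v.2 * w.2 + v.1 * w.2) / b, (v.1 * w.2 - v.2 * w.1) / b))
    (fun w hw => ?_) fun w hw w' hw' h => ?_).trans (by decide)
  · obtain ⟨a1, a2⟩ := key w hw
    have a3 := (hW v hv1).2
    have a4 := (hW w (mem_filter.1 hw).1).2
    unfold Q at a3 a4
    rw [mem_coe, mem_filter, mem_product, mem_Icc, mem_Icc]
    dsimp only
    generalize (v.1 * w.1 + v.2 * w.2 + v.1 * w.2) / b = U at *
    generalize (v.1 * w.2 - v.2 * w.1) / b = V at *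
    have a5 : U ^ 2 - U * V + V ^ 2 = 1 := by
      refine mul_left_cancel₀ (pow_ne_zero 2 hb') ?_
      calc _ = (b * U) ^ 2 - (b * U) * (b * V) + (b * V) ^ 2 := by ring
        _ = (v.1 ^ 2 + v.1 * v.2 + v.2 ^ 2) * (w.1 ^ 2 + w.1 * w.2 + w.2 ^ 2) := by
          rw [← a1, ← a2]; ring
        _ = _ := by rw [a3, a4]; ring
    refine ⟨⟨⟨?_, ?_⟩, ?_, ?_⟩, a5⟩ <;> nlinarith [sq_nonneg (2 * V - U), sq_nonneg (2 * U - V)]
  · obtain ⟨a1, a2⟩ := key w hw
    obtain ⟨a3, a4⟩ := key w' hw'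
    obtain ⟨h1, h2⟩ := Prod.ext_iff.1 h
    dsimp only at h1 h2
    rw [h1, ← a3] at a1
    rw [h2, ← a4] at a2
    have a5 := (hW v hv1).2
    unfold Q at a5
    refine Prod.ext (mul_left_cancel₀ hb' ?_) (mul_left_cancel₀ hb' ?_) <;> rw [← a5]
    · linear_combination v.1 * a1 - (v.1 + v.2) * a2
    · linear_combination v.2 * a1 + v.1 * a2

theorem card_repr {n : ℕ} (hn : n ≠ 0) (V : Finset (ℤ × ℤ)) (hV : ∀ v ∈ V, Q v = n) :
    (V.card : ℤ) ≤ 6 * (ζ * chi) n := by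
  classical
  refine le_trans ?_ (mul_le_mul_of_nonneg_left (conv_le n) (by norm_num))
  have key : ∀ v ∈ V, 0 < Int.gcd v.1 v.2 ∧ v.1 = Int.gcd v.1 v.2 * (v.1 / Int.gcd v.1 v.2) ∧
      v.2 = Int.gcd v.1 v.2 * (v.2 / Int.gcd v.1 v.2) ∧
      (n : ℤ) = Int.gcd v.1 v.2 ^ 2 * Q (v.1 / Int.gcd v.1 v.2, v.2 / Int.gcd v.1 v.2) := by
    intro v hv
    have a1 := (Int.mul_ediv_cancel' (Int.gcd_dvd_left v.1 v.2)).symm
    have a2 := (Int.mul_ediv_cancel' (Int.gcd_dvd_right v.1 v.2)).symm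
    have a3 : (n : ℤ) =
        Int.gcd v.1 v.2 ^ 2 * Q (v.1 / Int.gcd v.1 v.2, v.2 / Int.gcd v.1 v.2) := by
      rw [← hV v hv]
      unfold Q
      dsimp only
      generalize v.1 / Int.gcd v.1 v.2 = x at *
      generalize v.2 / Int.gcd v.1 v.2 = y at *
      generalize ((Int.gcd v.1 v.2 : ℕ) : ℤ) = g at *
      rw [a1, a2]
      ring
    refine ⟨Nat.pos_of_ne_zero fun h => hn ?_, a1, a2, a3⟩
    rw [h] at a3
    simpa using a3
  rw [card_eq_sum_card_fiberwise (t := n.divisorsAntidiagonal)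
    (f := fun v => (Int.gcd v.1 v.2 ^ 2, n / Int.gcd v.1 v.2 ^ 2)) fun v hv => ?_,
    ArithmeticFunction.mul_apply, mul_sum, Nat.cast_sum]
  swap
  · refine mem_coe.2 (Nat.mem_divisorsAntidiagonal.2 ⟨Nat.mul_div_cancel' ?_, hn⟩)
    exact_mod_cast Dvd.intro _ (key v hv).2.2.2.symm
  refine sum_le_sum fun x hx => ?_
  obtain ⟨hx1, -⟩ := Nat.mem_divisorsAntidiagonal.1 hx
  rcases (V.filter fun v => (Int.gcd v.1 v.2 ^ 2, n / Int.gcd v.1 v.2 ^ 2) = x).eq_empty_or_nonempty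
    with h | ⟨v, hv⟩
  · rw [h]
    exact mul_nonneg (by norm_num) (mul_nonneg (sqf_nonneg _) (rho_nonneg _))
  have hx2 : x.1 ≠ 0 ∧ x.2 ≠ 0 := mul_ne_zero_iff.1 (hx1 ▸ hn)
  have e : Int.gcd v.1 v.2 ^ 2 = x.1 := congrArg Prod.fst (mem_filter.1 hv).2
  have e' : ∀ w ∈ V.filter fun v => (Int.gcd v.1 v.2 ^ 2, n / Int.gcd v.1 v.2 ^ 2) = x,
      Int.gcd w.1 w.2 = Int.gcd v.1 v.2 := fun w hw =>
    Nat.pow_left_injective two_ne_zero ((congrArg Prod.fst (mem_filter.1 hw).2).trans e.symm)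
  rw [sqf_apply, if_pos ⟨hx2.1, e ▸ IsSquare.sq _⟩, one_mul, ← card_image_of_injOn
    (f := fun w : ℤ × ℤ => ((w.1 / Int.gcd w.1 w.2, w.2 / Int.gcd w.1 w.2) : ℤ × ℤ))
      fun w hw w' hw' h => ?_]
  · refine card_prim hx2.2 _ fun u hu => ?_
    obtain ⟨w, hw, rfl⟩ := mem_image.1 hu
    obtain ⟨a1, -, -, a2⟩ := key w (mem_filter.1 hw).1
    refine ⟨Int.isCoprime_iff_gcd_eq_one.2 (Int.gcd_div_gcd_div_gcd a1), ?_⟩
    refine mul_left_cancel₀ (a := ((Int.gcd w.1 w.2 : ℕ) : ℤ) ^ 2) (by positivity) ?_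
    rw [← a2, ← hx1, ← e, e' w hw]
    push_cast
    rfl
  · obtain ⟨-, a1, a2, -⟩ := key w (mem_filter.1 hw).1
    obtain ⟨-, a3, a4, -⟩ := key w' (mem_filter.1 hw').1
    obtain ⟨h1, h2⟩ := Prod.ext_iff.1 h
    dsimp only at h1 h2
    rw [h1] at a1
    rw [h2] at a2
    have a5 : (Int.gcd w.1 w.2 : ℤ) = Int.gcd w'.1 w'.2 := by rw [e' w hw, e' w' hw']
    exact Prod.ext (by linear_combination a1 - a3 + (w'.1 / Int.gcd w'.1 w'.2) * a5)
      (by linear_combination a2 - a4 + (w'.2 / Int.gcd w'.1 w'.2) * a5)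

end Pool.Agent.Lib.MP_a619ca_an
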