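import Mathlib

/-!
Legendre polynomials: recurrence, orthogonality, Christoffel-Darboux kernel at `1`.
-/

namespace Pool.Agent.Lib.MP_a619ca_an

open Polynomial Finset

/-- Legendre polynomials -/
noncomputable def PP : ℕ → ℝ[X]
  | 0 => 1
  | 1 => X
  | j + 2 => C (1 / ((j : ℝ) + 2)) * (C (2 * (j : ℝ) + 3) * X * PP (j + 1) - C ((j : ℝ) + 1) * PP j)

theorem PP_zero : PP 0 = 1 := rfl
theorem PP_one : PP 1 = X := rfl

theorem PP_rec (j : ℕ) : C ((j : ℝ) + 2) * PP (j + 2) =
    C (2 * (j : ℝ) + 3) * X * PP (j + 1) - C ((j : ℝ) + 1) * PP j := by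
  rw [PP, ← mul_assoc, ← C_mul, mul_one_div_cancel (by positivity), C_1, one_mul]

theorem PP_rec' (j : ℕ) : ((j : ℝ[X]) + 2) * PP (j + 2) =
    (2 * (j : ℝ[X]) + 3) * X * PP (j + 1) - ((j : ℝ[X]) + 1) * PP j := by
  have h := PP_rec j
  simp only [map_add, map_mul, map_natCast, map_ofNat, map_one] at h
  exact h

theorem eval_rec (j : ℕ) (t : ℝ) : ((j : ℝ) + 2) * (PP (j + 2)).eval t =
    (2 * (j : ℝ) + 3) * t * (PP (j + 1)).eval t - ((j : ℝ) + 1) * (PP j).eval t := by
  have h := congrArg (eval t) (PP_rec j)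
  simpa only [eval_mul, eval_C, eval_sub, eval_X] using h

theorem PP_eval_one (j : ℕ) : (PP j).eval 1 = 1 := by
  induction j using Nat.twoStepInduction with
  | zero => simp [PP_zero]
  | one => simp [PP_one]
  | more j h1 h2 =>
    have h := eval_rec j 1
    rw [h1, h2] at h
    have : (0 : ℝ) < (j : ℝ) + 2 := by positivity
    nlinarith

theorem PP_eval_neg_one (j : ℕ) : (PP j).eval (-1) = (-1) ^ j := by
  induction j using Nat.twoStepInduction with
  | zero => simp [PP_zero]
  | one => simp [PP_one]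
  | more j h1 h2 =>
    have h := eval_rec j (-1)
    rw [h1, h2] at h
    have : ((j : ℝ) + 2) ≠ 0 := by positivity
    apply mul_left_cancel₀ this
    rw [h]
    ring

theorem cast_ne (j : ℕ) : ((j : ℝ[X]) + 2) ≠ 0 := by
  have : ((j + 2 : ℕ) : ℝ[X]) ≠ 0 := Nat.cast_ne_zero.2 (by omega)
  simpa using this

theorem deriv_ids (j : ℕ) :
    derivative (PP (j + 1)) = ((j : ℝ[X]) + 1) * PP j + X * derivative (PP j) ∧
    derivative (PP j) = X * derivative (PP (j + 1)) - ((j : ℝ[X]) + 1) * PP (j + 1) ∧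
    (1 - X ^ 2) * derivative (PP (j + 1)) = ((j : ℝ[X]) + 1) * (PP j - X * PP (j + 1)) := by
  induction j with
  | zero =>
    simp only [PP_zero, zero_add, PP_one, derivative_X, derivative_one, Nat.cast_zero]
    exact ⟨by ring, by ring, by ring⟩
  | succ j ih =>
    obtain ⟨-, h2, h3⟩ := ih
    have r := PP_rec' j
    have d := congrArg derivative r
    simp only [derivative_mul, derivative_add, derivative_natCast, derivative_ofNat, derivative_X,
      derivative_sub, derivative_one, zero_add, zero_mul, mul_zero, add_zero, mul_one] at d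
    have a : derivative (PP (j + 2)) = ((j : ℝ[X]) + 2) * PP (j + 1) + X * derivative (PP (j + 1)) := by
      apply mul_left_cancel₀ (cast_ne j)
      linear_combination d - ((j : ℝ[X]) + 1) * h2
    push_cast
    refine ⟨by linear_combination a, ?_, ?_⟩
    · linear_combination h3 - X * a + r
    · linear_combination (1 - X ^ 2) * a + X * h3 + X * r

/-- the mean value on `[-1, 1]` -/
noncomputable def La : ℝ[X] →ₗ[ℝ] ℝ where
  toFun q := (1 / 2) * ∫ t in (-1 : ℝ)..1, q.eval t
  map_add' p q := by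
    simp only [eval_add]
    rw [intervalIntegral.integral_add (p.continuous.intervalIntegrable _ _)
      (q.continuous.intervalIntegrable _ _), mul_add]
  map_smul' c q := by
    simp only [eval_smul, smul_eq_mul, intervalIntegral.integral_const_mul, RingHom.id_apply]
    ring

theorem La_apply (q : ℝ[X]) : La q = (1 / 2) * ∫ t in (-1 : ℝ)..1, q.eval t := rfl

theorem La_C_mul (c : ℝ) (q : ℝ[X]) : La (C c * q) = c * La q := by
  rw [← smul_eq_C_mul, map_smul, smul_eq_mul]

theorem La_deriv (q : ℝ[X]) : La (derivative q) = (q.eval 1 - q.eval (-1)) / 2 := by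
  rw [La_apply, intervalIntegral.integral_eq_sub_of_hasDerivAt (fun t _ => q.hasDerivAt t)
    ((derivative q).continuous.intervalIntegrable _ _)]
  ring

theorem La_one : La 1 = 1 := by
  have h := La_deriv X
  simpa using h

theorem La_PP (j : ℕ) : La (PP (j + 1)) = 0 := by
  have h : C (2 * (j : ℝ) + 3) * PP (j + 1) = derivative (PP (j + 2) - PP j) := by
    have a := (deriv_ids (j + 1)).1
    have b := (deriv_ids j).2.1
    simp only [map_add, map_mul, map_natCast, map_ofNat, map_sub]
    push_cast at a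
    linear_combination b - a
  have h2 := congrArg La h
  rw [La_C_mul, La_deriv] at h2
  simp only [eval_sub, PP_eval_one, PP_eval_neg_one, pow_add] at h2
  have : (2 * (j : ℝ) + 3) ≠ 0 := by positivity
  apply mul_left_cancel₀ this
  rw [h2]
  ring

/-- moving the variable from one factor to the other -/
theorem La_X (q : ℝ[X]) (j : ℕ) : (2 * (j : ℝ) + 3) * La (X * q * PP (j + 1)) =
    ((j : ℝ) + 2) * La (q * PP (j + 2)) + ((j : ℝ) + 1) * La (q * PP j) := by
  rw [← La_C_mul, ← La_C_mul, ← La_C_mul, ← map_add]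
  congr 1
  linear_combination -q * PP_rec j

theorem orth (i : ℕ) : ∀ j, i < j → La (PP i * PP j) = 0 := by
  induction i using Nat.twoStepInduction with
  | zero =>
    intro j hj
    obtain ⟨j, rfl⟩ : ∃ k, j = k + 1 := ⟨j - 1, by omega⟩
    rw [PP_zero, one_mul, La_PP]
  | one =>
    intro j hj
    obtain ⟨j, rfl⟩ : ∃ k, j = k + 2 := ⟨j - 2, by omega⟩
    have h := La_X 1 (j + 1)
    rw [one_mul, one_mul, mul_one, La_PP, La_PP] at h
    have : (2 * ((j + 1 : ℕ) : ℝ) + 3) ≠ 0 := by positivity
    rw [PP_one]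
    apply mul_left_cancel₀ this
    rw [h]
    ring
  | more i h1 h2 =>
    intro j hj
    obtain ⟨j, rfl⟩ : ∃ k, j = k + 1 := ⟨j - 1, by omega⟩
    have h := La_X (PP (i + 1)) j
    rw [h2 _ (by omega), h2 _ (by omega)] at h
    have h3 : La (X * PP (i + 1) * PP (j + 1)) = 0 := by
      have : (2 * (j : ℝ) + 3) ≠ 0 := by positivity
      apply mul_left_cancel₀ this
      rw [h]
      ring
    have h4 := La_X (PP (j + 1)) i
    rw [mul_right_comm, h3, mul_comm _ (PP i), h1 _ (by omega), mul_comm _ (PP (i + 2))] at h4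
    have : ((i : ℝ) + 2) ≠ 0 := by positivity
    apply mul_left_cancel₀ this
    linarith

theorem orth' {i j : ℕ} (h : i ≠ j) : La (PP i * PP j) = 0 := by
  rcases h.lt_or_gt with h | h
  · exact orth _ _ h
  · rw [mul_comm]; exact orth _ _ h

theorem La_sq (j : ℕ) : (2 * (j : ℝ) + 1) * La (PP j * PP j) = 1 := by
  induction j with
  | zero => simp [PP_zero, La_one]
  | succ j ih =>
    have h := La_X (PP j) j
    rw [orth j (j + 2) (by omega)] at h
    rcases j with _ | j
    · simp only [PP_zero, PP_one, zero_add, Nat.cast_zero, mul_one, La_one, Nat.cast_one] at *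
      linarith
    · have h2 := La_X (PP (j + 2)) j
      rw [orth' (show j + 2 ≠ j by omega), mul_right_comm] at h2
      push_cast at *
      have : ((j : ℝ) + 2) ≠ 0 := by positivity
      have h3 : (2 * (j : ℝ) + 3) ≠ 0 := by positivity
      apply mul_left_cancel₀ this
      apply mul_left_cancel₀ h3
      linear_combination (2 * (j : ℝ) + 3) * (2 * (j : ℝ) + 3) * h - (2 * (j : ℝ) + 3) *
        (2 * (j : ℝ) + 5) * h2 + (2 * (j : ℝ) + 3) * ((j : ℝ) + 2) * ih

/-- the span of the first Legendre polynomials -/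
noncomputable def VV (d : ℕ) : Submodule ℝ ℝ[X] := Submodule.span ℝ (PP '' Set.Iic d)

theorem PP_mem {j d : ℕ} (h : j ≤ d) : PP j ∈ VV d := Submodule.subset_span ⟨j, h, rfl⟩

theorem VV_mono {d e : ℕ} (h : d ≤ e) : VV d ≤ VV e :=
  Submodule.span_mono (Set.image_mono (Set.Iic_subset_Iic.2 h))

theorem C_mul_mem {d : ℕ} {q : ℝ[X]} (c : ℝ) (h : q ∈ VV d) : C c * q ∈ VV d := by
  rw [← smul_eq_C_mul]
  exact Submodule.smul_mem _ _ h

theorem X_mul_mem {d : ℕ} {q : ℝ[X]} (h : q ∈ VV d) : X * q ∈ VV (d + 1) := by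
  induction h using Submodule.span_induction with
  | mem q hq =>
    obtain ⟨j, hj, rfl⟩ := hq
    have hj : j ≤ d := hj
    rcases j with _ | j
    · rw [PP_zero, mul_one, ← PP_one]
      exact PP_mem (by omega)
    · have : X * PP (j + 1) = C (1 / (2 * (j : ℝ) + 3)) *
          (C ((j : ℝ) + 2) * PP (j + 2) + C ((j : ℝ) + 1) * PP j) := by
        rw [PP_rec, sub_add_cancel, ← mul_assoc, ← mul_assoc, ← C_mul,
          one_div_mul_cancel (by positivity), C_1, one_mul]
      rw [this]
      exact C_mul_mem _ (add_mem (C_mul_mem _ (PP_mem (by omega))) (C_mul_mem _ (PP_mem (by omega))))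
  | zero => simp
  | add p q _ _ hp hq => rw [mul_add]; exact add_mem hp hq
  | smul c q _ hq => rw [mul_smul_comm]; exact Submodule.smul_mem _ _ hq

theorem expand {d : ℕ} {q : ℝ[X]} (h : q ∈ VV d) :
    q = ∑ j ∈ range (d + 1), C ((2 * (j : ℝ) + 1) * La (q * PP j)) * PP j := by
  induction h using Submodule.span_induction with
  | mem q hq =>
    obtain ⟨i, hi, rfl⟩ := hq
    have hi : i ≤ d := hi
    rw [sum_eq_single i, La_sq, C_1, one_mul]
    · intro j _ hj
      rw [orth' hj.symm, mul_zero, C_0, zero_mul]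
    · intro h
      exact absurd (mem_range.2 (by omega)) h
  | zero => simp
  | add p q _ _ hp hq =>
    simp only [add_mul, map_add, mul_add, sum_add_distrib] at *
    linear_combination hp + hq
  | smul c q _ hq =>
    conv_lhs => rw [hq]
    rw [smul_sum]
    refine sum_congr rfl fun j _ => ?_
    rw [smul_mul_assoc, map_smul, smul_eq_mul, smul_eq_C_mul, ← mul_assoc, ← C_mul]
    congr 2
    ring

/-- the reproducing kernel -/
noncomputable def DD (m : ℕ) : ℝ[X] := ∑ j ∈ range (m + 1), C (2 * (j : ℝ) + 1) * PP j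

theorem DD_mem (m : ℕ) : DD m ∈ VV m :=
  sum_mem fun j hj => C_mul_mem _ (PP_mem (by have := mem_range.1 hj; omega))

theorem DD_cd (m : ℕ) : (1 - X) * DD m = C ((m : ℝ) + 1) * (PP m - PP (m + 1)) := by
  induction m with
  | zero => simp [DD, PP_zero, PP_one]
  | succ m ih =>
    rw [DD, sum_range_succ, ← DD, mul_add, ih]
    have r := PP_rec' m
    simp only [map_add, map_mul, map_natCast, map_ofNat, map_one]
    push_cast
    linear_combination r

theorem DD_eval (m : ℕ) : (DD m).eval 1 = ((m : ℝ) + 1) ^ 2 := by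
  induction m with
  | zero => simp [DD, PP_zero]
  | succ m ih =>
    rw [DD, sum_range_succ, ← DD, eval_add, ih, eval_mul, eval_C, PP_eval_one]
    push_cast
    ring

theorem La_DD {d : ℕ} {q : ℝ[X]} (h : q ∈ VV d) : La (q * DD d) = q.eval 1 := by
  conv_rhs => rw [expand h]
  rw [DD, mul_sum, map_sum, eval_finsetSum]
  refine sum_congr rfl fun j _ => ?_
  rw [mul_left_comm, La_C_mul, eval_mul, eval_C, PP_eval_one, mul_one]

/-- the quotient `(1 - P k) / (1 - X)` -/
noncomputable def QQ (k : ℕ) : ℝ[X] := ∑ m ∈ range k, C (1 / ((m : ℝ) + 1)) * DD m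

theorem QQ_mem (k : ℕ) : QQ k ∈ VV k :=
  sum_mem fun m hm => C_mul_mem _ (VV_mono (mem_range.1 hm).le (DD_mem m))

theorem QQ_mul (k : ℕ) : (1 - X) * QQ k = 1 - PP k := by
  induction k with
  | zero => simp [QQ, PP_zero]
  | succ k ih =>
    rw [QQ, sum_range_succ, ← QQ, mul_add, ih, mul_left_comm, DD_cd, ← mul_assoc, ← C_mul,
      one_div_mul_cancel (by positivity), C_1]
    ring

theorem QQ_eval (k : ℕ) : (QQ k).eval 1 = k * ((k : ℝ) + 1) / 2 := by
  induction k with
  | zero => simp [QQ]
  | succ k ih =>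
    rw [QQ, sum_range_succ, ← QQ, eval_add, ih, eval_mul, eval_C, DD_eval]
    push_cast
    field_simp
    ring

theorem La_QQ (k : ℕ) : La (QQ k) = harmonic k := by
  induction k with
  | zero => simp [QQ]
  | succ k ih =>
    have h := La_DD (d := k) (q := 1) (PP_mem (Nat.zero_le k))
    rw [one_mul, eval_one] at h
    rw [QQ, sum_range_succ, ← QQ, map_add, ih, La_C_mul, h, harmonic_succ]
    push_cast
    ring

end Pool.Agent.Lib.MP_a619ca_an
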