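import Pool.Agent.Lib.MP_a619ca_an.Tgt
import Pool.Agent.Lib.MP_a619ca_an.Config

/-!
Comparison of the minimal energies at two scales, and existence of the limit.
-/

namespace Pool.Agent.Lib.MP_a619ca_an

open MeasureTheory Real Finset Filter Topology

/-- the tiles of the target sphere -/
noncomputable def tile (τ : ℝ) (j : Idx) : Tile := ⟨ph τ j, zz τ j, cb τ j.1, τ ^ 4⟩

theorem tile_ok {τ ε : ℝ} (h0 : 0 < τ) (h1 : 2 * τ ≤ ε) (h2 : ε ≤ 1 / 10) {j : Idx}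
    (hj : j ∈ JJ τ) : (tile τ j).OK ε := by
  have h3 : τ ≤ 1 / 10 := by linarith
  obtain ⟨a1, a2, a3, a4, a5, -⟩ := idx h0 h3 hj
  obtain ⟨-, -, -, b1, -, -, -, -, b2, b3⟩ := band h0 h3 a1
  have t3 : 0 < τ ^ 3 := by positivity
  refine ⟨b1, pow_pos h0 4, ?_, h2, a4, a5.trans (by linarith), fun w c1 c2 => ?_⟩
  · exact ((div_le_iff₀ b1).1 b2).trans (mul_le_mul_of_nonneg_right (by linarith) b1.le)
  · have c2 : w ≤ zz τ j + hb τ j.1 := c2
    exact (b3 w (a2.trans c1) (by linarith)).trans (mul_le_mul_of_nonneg_right h1 (sq_nonneg _))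

theorem tile_disj {τ ε : ℝ} (h0 : 0 < τ) (h1 : 2 * τ ≤ ε) (h2 : ε ≤ 1 / 10) {i j : Idx}
    (hi : i ∈ JJ τ) (hj : j ∈ JJ τ) {y : S2} (yi : y ∈ (tile τ i).set) (yj : y ∈ (tile τ j).set) :
    i = j := by
  have h3 : τ ≤ 1 / 10 := by linarith
  have key : ∀ j ∈ JJ τ, y ∈ (tile τ j).set → (ph τ j < (co y).1 ∧ (co y).1 < ph τ j + wb τ j.1) ∧
      zz τ j < (co y).2 ∧ (co y).2 < zz τ j + hb τ j.1 := fun j hj yj => by
    have h := tile_ok h0 h1 h2 hj
    rw [← h.aff_B y]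
    exact ⟨⟨lt_add_of_pos_right _ (mul_pos h.w0 yj.1.1),
      add_lt_add_of_le_of_lt le_rfl (mul_lt_of_lt_one_right h.w0 yj.1.2)⟩,
      lt_add_of_pos_right _ (mul_pos h.h0 yj.2.1),
      add_lt_add_of_le_of_lt le_rfl (mul_lt_of_lt_one_right h.h0 yj.2.2)⟩
  obtain ⟨c1, c2⟩ := key i hi yi
  obtain ⟨c3, c4⟩ := key j hj yj
  generalize (co y).1 = a at *
  generalize (co y).2 = b at *
  have t3 : 0 < τ ^ 3 := by positivity
  obtain ⟨a1, a2, a3, -, -, a4⟩ := idx h0 h3 hi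
  obtain ⟨-, a5, a6, -, -, a7⟩ := idx h0 h3 hj
  obtain ⟨-, -, -, -, b1, -, -, b2, -⟩ := band h0 h3 a1
  obtain ⟨i1, i2, i3⟩ := i
  obtain ⟨j1, j2, j3⟩ := j
  simp only at *
  obtain rfl : i1 = j1 := by
    unfold zb at *
    exact eq_of_mem (x := b + 1 - τ) (y := τ ^ 2) (by positivity) (by linarith) (by linarith)
      (by linarith) (by linarith)
  obtain rfl : i2 = j2 := by
    simp only [zz] at c2 c4
    exact eq_of_mem (x := b - zb τ i1) b1 (by linarith) (by linarith) (by linarith) (by linarith)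
  obtain rfl : i3 = j3 :=
    eq_of_mem (x := a - (i2 % 2 : ℕ) / 2 * wb τ i1) b2 (by linarith) (by linarith) (by linarith)
      (by linarith)
  rfl

theorem numer {ε Λ M I R α β ρ A G s w r : ℝ} (e0 : 0 ≤ ε) (l0 : 0 ≤ Λ) (hα : α = β * Λ)
    (I0 : 0 ≤ I) (hI : I ≤ α * A) (hR : R ≤ α * M ^ 2 * ρ) (hs : s ≤ β * w) :
    (1 + 5 * ε) * Λ * (M ^ 2 * I + R) + r * β * Λ ^ 2 * M ^ 2 +
      M ^ 2 * (Λ * Λ * (β * G + s) - Λ * I / (1 + 5 * ε)) ≤
      β * ((M * Λ) ^ 2 * ((1 + 5 * ε) * ρ + 10 * ε * A + G + w + r)) := by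
  have h1 : (1 - 5 * ε) * (Λ * I) ≤ Λ * I / (1 + 5 * ε) := by
    rw [le_div_iff₀ (by positivity)]
    nlinarith [mul_nonneg (mul_nonneg l0 I0) (sq_nonneg ε)]
  have h2 := mul_le_mul_of_nonneg_left h1 (sq_nonneg M)
  have h3 := mul_le_mul_of_nonneg_left hR (show 0 ≤ (1 + 5 * ε) * Λ by positivity)
  have h4 := mul_le_mul_of_nonneg_left hI (show 0 ≤ 10 * ε * Λ * M ^ 2 by positivity)
  have h5 := mul_le_mul_of_nonneg_left hs (show 0 ≤ M ^ 2 * (Λ * Λ) by positivity)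
  subst hα
  linarith

theorem step {M : ℕ} {x : Fin M → S2} (hx : Function.Injective x) {r A e τ y Z : ℝ} (r0 : 0 < r)
    (r1 : r ≤ 1 / 4) (hM : M * r ^ 16 = 1)
    (he : e * M ^ 2 = ∑ i, ∑ j ∈ univ.erase i, (dist (x i) (x j) ^ 2)⁻¹) (hA : e ≤ A)
    (hG : GG0 (r ^ 16) ≤ A) (t0 : 0 < τ) (t1 : 2 * τ ≤ r ^ 2) (hy : y * τ ^ 8 = M * r ^ 4)
    (hZ : log y / 4 + (e - log M / 4) + 2000 * r * (A + 1) ≤ Z) (Z0 : 0 ≤ Z)
    (Z1 : Z * τ ^ 6 ≤ r ^ 9 / 20) {N : ℕ} (hN : N ≤ (1 - 5 * τ) * y) :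
    sInf (energies N) ≤ y ^ 2 * Z := by
  classical
  have p3 := pi_gt_three
  have p4 := pi_lt_d2
  obtain ⟨k0, k1⟩ := kap_bounds
  have r2 : r ^ 2 ≤ 1 / 16 := (pow_le_pow_left₀ r0.le r1 2).trans (by norm_num)
  have rp : ∀ k, r ^ k ≤ 1 := fun k => pow_le_one₀ r0.le (by linarith)
  have M0 : (0 : ℝ) < M := by
    by_contra h
    nlinarith [pow_pos r0 16]
  have hS : (⟨0, 0, 1, r ^ 2⟩ : Tile).OK (r ^ 2) := by
    refine ⟨one_pos, pow_pos r0 2, by simp, by linarith, le_rfl, by simp only; linarith,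
      fun w c1 c2 => ?_⟩
    simp only [zero_add, mul_one, one_pow] at *
    rw [show 1 - w ^ 2 - 1 = -w ^ 2 by ring, abs_neg, abs_of_nonneg (sq_nonneg _)]
    have : w ≤ r ^ 2 := c2.trans (mul_le_of_le_one_left (sq_nonneg _) k1)
    nlinarith
  obtain ⟨S, hSe⟩ : ∃ S : Tile, S = ⟨0, 0, 1, r ^ 2⟩ := ⟨_, rfl⟩
  rw [← hSe] at hS
  have Ss : S.s = r ^ 2 := by rw [hSe]
  have Sa : S.area = kap * r ^ 4 / (4 * π) := by rw [Tile.area, Ss]; ring
  have a0 := hS.area_pos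
  have hT : ∀ a : JJ τ, (tile τ a).OK (r ^ 2) := fun a => tile_ok t0 t1 (by linarith) a.2
  have hd : ∀ (a b : JJ τ) y, y ∈ (tile τ a).set → y ∈ (tile τ b).set → a = b :=
    fun a b y h1 h2 => Subtype.ext (tile_disj t0 t1 (by linarith) a.2 b.2 h1 h2)
  obtain ⟨β, hβ⟩ : ∃ β, β = kap * τ ^ 8 / (4 * π) := ⟨_, rfl⟩
  have Ta : ∀ a : JJ τ, (tile τ a).area = β := fun a => by rw [hβ, Tile.area, tile]; ring
  obtain ⟨Λ, hΛ⟩ : ∃ Λ, Λ = r ^ 4 / τ ^ 8 := ⟨_, rfl⟩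
  have b0 : 0 < β := by rw [hβ]; positivity
  have l0 : 0 < Λ := by rw [hΛ]; positivity
  have l1 : S.area = β * Λ := by rw [Sa, hβ, hΛ]; field_simp
  have l2 : y = M * Λ := by rw [hΛ, ← mul_div_assoc, eq_div_iff (by positivity), hy]
  have l3 : 1 ≤ Λ := by
    rw [hΛ, le_div_iff₀ (by positivity), one_mul, show τ ^ 8 = τ ^ 6 * τ ^ 2 by ring,
      show r ^ 4 = 1 * (r ^ 2) ^ 2 by ring]
    exact mul_le_mul (pow_le_one₀ t0.le (by linarith)) (pow_le_pow_left₀ t0.le (by linarith) 2)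
      (sq_nonneg _) zero_le_one
  have y0 : 0 < y := by rw [l2]; positivity
  have J1 : Fintype.card (JJ τ) * β ≤ 1 := by
    have h := sum_measureReal_le_measureReal_univ (μ := sg) (s := univ)
      (t := fun a : JJ τ => (tile τ a).set) (fun a _ => Tile.measurableSet_set _)
      fun a _ b _ hab => Set.disjoint_left.2 fun y h1 h2 => hab (hd a b y h1 h2)
    simpa only [(hT _).real_set, Ta, sum_const, card_univ, nsmul_eq_mul, probReal_univ] using h
  have J2 : 1 - 4 * τ ≤ Fintype.card (JJ τ) * β := by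
    rw [Fintype.card_coe, hβ, ← mul_div_assoc, le_div_iff₀ (by positivity)]
    exact card_ge t0 (by linarith)
  obtain ⟨n, hn⟩ : ∃ n, n = ⌈(r ^ 6)⁻¹⌉₊ := ⟨_, rfl⟩
  have r6 := pow_pos r0 6
  have n1 : 1 ≤ n * r ^ 6 := by
    rw [← div_le_iff₀ r6, one_div, hn]
    exact Nat.le_ceil _
  have n2 : n * r ^ 6 ≤ 2 := by
    have h := mul_le_mul_of_nonneg_right (Nat.ceil_lt_add_one (inv_pos.2 r6).le).le r6.le
    rw [← hn, add_mul, inv_mul_cancel₀ r6.ne'] at h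
    linarith [rp 6]
  have d0 := pow_pos r0 16
  have d4 : r ^ 16 ≤ 4 := by linarith [rp 16]
  have hR := source S.measurableSet_set n hS.s0.le hS.lip (a := 2 * r ^ 3) (by positivity)
    (by rw [div_le_iff₀ (by positivity)]; nlinarith) d0 d4 hx he
  rw [hS.real_set, Ss, add_assoc, add_assoc] at hR
  have G0 : 0 ≤ GG0 (r ^ 16) :=
    div_nonneg (add_nonneg zero_le_one (log_nonneg ((one_le_div d0).2 d4))) (by norm_num)
  have I1 := II_add S.measurableSet_set d0 d4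
  rw [hS.integral_ch] at I1
  have I2 : II (r ^ 16) S.set S.set ≤ S.area * A := by
    linarith [II_nonneg d0 S.set S.setᶜ, mul_le_mul_of_nonneg_left hG a0.le]
  have A0 : 0 ≤ A := G0.trans hG
  have q1 : r ^ 5 ≤ 16 * r * S.area := by
    rw [Sa, ← mul_div_assoc, le_div_iff₀ (by positivity)]
    nlinarith [pow_pos r0 5]
  have R1 : S.area * (e * M ^ 2 - M ^ 2 * GG0 (r ^ 16)) +
      (8 * r ^ 2 * (2 * r ^ 3) * (e * M ^ 2 + M ^ 2 * GG0 (r ^ 16)) +
        M * (n * (2 * n + 1) / 2) * (S.area + 4 * r ^ 2 * (2 * r ^ 3))) ≤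
      S.area * M ^ 2 * (e - GG0 (r ^ 16) + 512 * r * A + 165 * r) := by
    have c1 : r ^ 5 * (e + GG0 (r ^ 16)) ≤ 16 * r * S.area * (2 * A) :=
      (mul_le_mul_of_nonneg_left (by linarith) (by positivity)).trans
        (mul_le_mul_of_nonneg_right q1 (by positivity))
    have c2 : S.area + 4 * r ^ 2 * (2 * r ^ 3) ≤ 33 * S.area := by nlinarith
    have c3 : (n : ℝ) * (2 * n + 1) / 2 ≤ 5 * r * M := by
      refine le_of_mul_le_mul_right (a := r ^ 16) ?_ d0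
      have c4 : (n * r ^ 6) * (2 * (n * r ^ 6) + r ^ 6) ≤ 2 * (2 * 2 + 1) :=
        mul_le_mul n2 (by linarith [rp 6]) (by positivity) (by norm_num)
      have c5 : r ^ 4 ≤ r := by
        rw [pow_succ]
        exact mul_le_of_le_one_left r0.le (rp 3)
      calc _ = (n * r ^ 6) * (2 * (n * r ^ 6) + r ^ 6) / 2 * r ^ 4 := by ring
        _ ≤ 5 * r := mul_le_mul (by linarith) c5 (by positivity) (by norm_num)
        _ = _ := by rw [mul_assoc (5 * r), hM, mul_one]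
    have c4 := mul_le_mul (mul_le_mul_of_nonneg_left c3 M0.le) c2 (by positivity) (by positivity)
    have c5 := mul_le_mul_of_nonneg_left c1 (show (0 : ℝ) ≤ 16 * M ^ 2 by positivity)
    linarith
  have s1 : τ ^ 4 * (√(r ^ 16 / Λ) / 2) ≤ β * (8 * r) := by
    rw [show r ^ 16 / Λ = (r ^ 6 * τ ^ 4) ^ 2 by rw [hΛ]; field_simp, sqrt_sq (by positivity), hβ,
      div_mul_eq_mul_div, le_div_iff₀ (by positivity)]
    have c5 : r ^ 6 ≤ r := by
      rw [pow_succ]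
      exact mul_le_of_le_one_left r0.le (rp 5)
    have c6 : r ^ 6 * (2 * π) ≤ r * (8 * kap) := mul_le_mul c5 (by linarith) (by positivity) r0.le
    nlinarith [mul_le_mul_of_nonneg_left c6 (pow_pos t0 8).le]
  have X1 := numer (G := GG0 (r ^ 16 / Λ)) (r := r) (sq_nonneg r) l0.le l1 (II_nonneg d0 _ _) I2 R1 s1
  have X2 : (1 + 5 * r ^ 2) * (e - GG0 (r ^ 16) + 512 * r * A + 165 * r) + 10 * r ^ 2 * A +
      GG0 (r ^ 16 / Λ) + 8 * r + r ≤ Z := by
    have c1 : GG0 (r ^ 16 / Λ) = GG0 (r ^ 16) + (log y - log M) / 4 := by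
      rw [GG0, GG0, div_div_eq_mul_div, mul_div_right_comm, log_mul (by positivity) l0.ne', l2,
        log_mul M0.ne' l0.ne']
      ring
    have c2 : r ^ 2 * (e - GG0 (r ^ 16)) ≤ r ^ 2 * A :=
      mul_le_mul_of_nonneg_left (by linarith) (sq_nonneg _)
    have c3 := mul_nonneg r0.le A0
    have c4 := mul_le_mul_of_nonneg_left r1 c3
    have c5 := mul_le_mul_of_nonneg_left r2 c3
    have c6 := mul_le_mul_of_nonneg_left r2 r0.le
    rw [c1]
    linarith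
  refine target hS hT (s := τ ^ 4) (fun a => rfl) Ta (by rw [l1]; field_simp) hd hx d0
    ((div_le_self d0.le l3).trans d4) l0 (l := r * β * Λ ^ 2) (by positivity) (t := τ * y)
    (by positivity) hR ?_ ?_ ?_
  · rw [← l2] at X1
    refine (mul_le_mul_of_nonneg_left (X1.trans (mul_le_mul_of_nonneg_left
      (mul_le_mul_of_nonneg_left X2 (sq_nonneg y)) b0.le)) (Nat.cast_nonneg _)).trans ?_
    rw [← mul_assoc]
    exact mul_le_of_le_one_left (by positivity) J1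
  · rw [show r * β * Λ ^ 2 * (τ * y) ^ 2 = y ^ 2 * (kap / (4 * π) * r ^ 9 / τ ^ 6) by
      rw [hβ, hΛ]; field_simp]
    refine mul_le_mul_of_nonneg_left ?_ (sq_nonneg _)
    rw [le_div_iff₀ (by positivity)]
    refine Z1.trans ?_
    rw [div_eq_inv_mul]
    refine mul_le_mul_of_nonneg_right ?_ (by positivity)
    rw [le_div_iff₀ (by positivity)]
    linarith
  · rw [l1, show (Fintype.card (JJ τ) : ℝ) * (M * (β * Λ)) = Fintype.card (JJ τ) * β * y by
      rw [l2]; ring]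
    linarith [mul_le_mul_of_nonneg_right J2 y0.le]

theorem compare {M : ℕ} {x : Fin M → S2} (hx : Function.Injective x) {r A e ξ : ℝ} (r0 : 0 < r)
    (r1 : r ≤ 1 / 4) (hM : M * r ^ 16 = 1)
    (he : e * M ^ 2 = ∑ i, ∑ j ∈ univ.erase i, (dist (x i) (x j) ^ 2)⁻¹) (hA : e ≤ A)
    (hG : GG0 (r ^ 16) ≤ A) (hξ : 0 < ξ) : ∀ᶠ N : ℕ in atTop, sInf (energies N) ≤
      (N : ℝ) ^ 2 * (log N / 4 + (e - log M / 4 + 2000 * r * (A + 1) + ξ)) := by
  have M0 : (0 : ℝ) < M := by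
    by_contra h
    nlinarith [pow_pos r0 16]
  obtain ⟨f, hf⟩ : ∃ f, f = e - log M / 4 + 2000 * r * (A + 1) := ⟨_, rfl⟩
  obtain ⟨c, hc⟩ : ∃ c, c = M * r ^ 4 := ⟨_, rfl⟩
  have c0 : 0 < c := by rw [hc]; positivity
  let σ : ℕ → ℝ := fun N => c ^ (1 / 8 : ℝ) * (N : ℝ) ^ (-(1 / 8) : ℝ)
  have hσ : Tendsto σ atTop (𝓝 0) := by
    have := ((tendsto_rpow_neg_atTop (by norm_num : (0 : ℝ) < 1 / 8)).comp
      tendsto_natCast_atTop_atTop).const_mul (c ^ (1 / 8 : ℝ))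
    rwa [mul_zero] at this
  have hσl : Tendsto (fun N : ℕ => σ N * log N) atTop (𝓝 0) := by
    have := (((isLittleO_log_rpow_atTop (by norm_num : (0 : ℝ) < 1 / 8)).tendsto_div_nhds_zero).comp
      tendsto_natCast_atTop_atTop).const_mul (c ^ (1 / 8 : ℝ))
    rw [mul_zero] at this
    refine this.congr fun N => ?_
    simp only [σ, Function.comp, rpow_neg N.cast_nonneg]
    ring
  have h1 : Tendsto (fun N : ℕ => 20 * (σ N * log N) + σ N * (80 * (|f| + 1))) atTop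
      (𝓝 (20 * 0 + 0 * (80 * (|f| + 1)))) := (hσl.const_mul _).add (hσ.mul_const _)
  have h2 : Tendsto (fun N : ℕ => log N) atTop atTop :=
    tendsto_log_atTop.comp tendsto_natCast_atTop_atTop
  filter_upwards [h1.eventually_le_const (u := min ξ (r ^ 9 / 20)) (by rw [mul_zero, zero_mul, add_zero]; positivity),
    hσ.eventually_le_const (show (0 : ℝ) < r ^ 2 / 2 by positivity),
    h2.eventually_ge_atTop (4 * |f|), eventually_ge_atTop 1] with N a1 a2 a3 a4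
  have hN : (0 : ℝ) < N := by exact_mod_cast a4
  have s0 : 0 < σ N := by positivity
  have s8 : σ N ^ 8 = c / N := by
    simp only [σ]
    rw [mul_pow, ← rpow_natCast, ← rpow_natCast, ← rpow_mul (by positivity), ← rpow_mul hN.le]
    norm_num [rpow_neg_one, div_eq_mul_inv]
  have r2 : r ^ 2 ≤ 1 / 16 := (pow_le_pow_left₀ r0.le r1 2).trans (by norm_num)
  generalize σ N = s at *
  have s4 : 0 < 1 - 5 * s := by linarith
  obtain ⟨τ, hτ⟩ : ∃ τ, τ = s * (1 - 5 * s) ^ (1 / 8 : ℝ) := ⟨_, rfl⟩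
  have t0 : 0 < τ := by rw [hτ]; positivity
  have t1 : τ ≤ s := hτ ▸ mul_le_of_le_one_right s0.le
    (rpow_le_one s4.le (by linarith) (by norm_num))
  have t8 : τ ^ 8 = c / N * (1 - 5 * s) := by
    rw [hτ, mul_pow, s8, ← rpow_natCast, ← rpow_mul s4.le]
    norm_num
  have f1 := le_abs_self f
  have f2 := neg_abs_le f
  have f0 := abs_nonneg f
  have b1 : (1 - 5 * s)⁻¹ ≤ 1 + 6 * s := by
    rw [inv_eq_one_div, div_le_iff₀ s4]
    nlinarith
  have b2 : log (N / (1 - 5 * s)) ≤ log N + 6 * s := by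
    rw [div_eq_mul_inv, log_mul hN.ne' (inv_pos.2 s4).ne']
    linarith [log_le_sub_one_of_pos (inv_pos.2 s4)]
  have b3 := mul_nonneg s0.le (show 0 ≤ log N by linarith)
  have b4 := mul_nonneg s0.le f0
  obtain ⟨a5, a6⟩ := le_min_iff.1 a1
  have Z0 : 0 ≤ log N / 4 + 2 * s + f := by linarith
  have b5 : s * (log N / 4 + 2 * s + f) ≤ s * (log N / 4 + 1 + |f|) :=
    mul_le_mul_of_nonneg_left (by linarith) s0.le
  refine (step hx r0 r1 hM he hA hG t0 (by linarith) (y := N / (1 - 5 * s))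
    (by rw [t8, ← hc]; field_simp) (Z := log N / 4 + 2 * s + f) (by rw [hf]; linarith) Z0 ?_
    ?_).trans ?_
  · have : τ ^ 6 ≤ s := by
      rw [pow_succ]
      exact (mul_le_of_le_one_left t0.le (pow_le_one₀ t0.le (by linarith))).trans t1
    linarith [mul_le_mul_of_nonneg_left this Z0]
  · rw [mul_div_assoc', le_div_iff₀ s4]
    nlinarith
  · rw [← hf, div_eq_mul_inv, mul_pow, mul_assoc]
    refine mul_le_mul_of_nonneg_left ?_ (sq_nonneg _)
    have b6 : (1 - 5 * s)⁻¹ ^ 2 ≤ 1 + 14 * s :=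
      (pow_le_pow_left₀ (inv_pos.2 s4).le b1 2).trans (by nlinarith)
    linarith [mul_le_mul_of_nonneg_right b6 Z0]

theorem exists_tendsto {F : ℕ → ℝ} {K : ℝ} (h1 : ∀ᶠ N in atTop, |F N| ≤ K)
    (h2 : ∀ ε > 0, ∀ᶠ M in atTop, ∀ᶠ N in atTop, F N ≤ F M + ε) :
    ∃ C, Tendsto F atTop (𝓝 C) := by
  have b1 : IsBoundedUnder (· ≤ ·) atTop F := ⟨K, h1.mono fun N h => (abs_le.1 h).2⟩
  have b2 : IsBoundedUnder (· ≥ ·) atTop F := ⟨-K, h1.mono fun N h => (abs_le.1 h).1⟩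
  refine ⟨liminf F atTop, tendsto_order.2 ⟨fun a ha => eventually_lt_of_lt_liminf ha b2,
    fun a ha => ?_⟩⟩
  obtain ⟨M, h3, h4⟩ := ((frequently_lt_of_liminf_lt b1.isCoboundedUnder_ge
    (show liminf F atTop < (liminf F atTop + a) / 2 by linarith)).and_eventually
    (h2 ((a - liminf F atTop) / 2) (by linarith))).exists
  exact h4.mono fun N h => by linarith

theorem limit_exists : ∃ C, Tendsto (fun N : ℕ => sInf (energies N) / (N : ℝ) ^ 2 - log N / 4)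
    atTop (𝓝 C) := by
  obtain ⟨F, hF⟩ : ∃ F : ℕ → ℝ, F = fun N : ℕ => sInf (energies N) / (N : ℝ) ^ 2 - log N / 4 :=
    ⟨_, rfl⟩
  let r : ℕ → ℝ := fun N => (N : ℝ) ^ (-(1 / 16) : ℝ)
  have hr : Tendsto r atTop (𝓝 0) :=
    (tendsto_rpow_neg_atTop (by norm_num : (0 : ℝ) < 1 / 16)).comp tendsto_natCast_atTop_atTop
  have hrl : Tendsto (fun N : ℕ => r N * log N) atTop (𝓝 0) := by
    refine (((isLittleO_log_rpow_atTop (by norm_num : (0 : ℝ) < 1 / 16)).tendsto_div_nhds_zero).comp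
      tendsto_natCast_atTop_atTop).congr fun N => ?_
    simp only [r, Function.comp, rpow_neg N.cast_nonneg]
    ring
  have key : ∀ᶠ M in atTop, ∀ ξ > 0, ξ ≤ 1 → ∀ᶠ N in atTop,
      F N ≤ F M + 2000 * r M * (|F M| + log M + 3) + 2 * ξ := by
    filter_upwards [hr.eventually_le_const (show (0 : ℝ) < 1 / 4 by norm_num),
      eventually_ge_atTop 1] with M a1 a2 ξ ξ0 ξ1
    have M1 : (1 : ℝ) ≤ M := by exact_mod_cast a2
    have M2 : (0 : ℝ) < M ^ 2 := by positivity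
    have L0 := log_nonneg M1
    have hM : M * r M ^ 16 = 1 := by
      simp only [r]
      rw [← rpow_natCast, ← rpow_mul (by linarith)]
      norm_num [rpow_neg_one]
      field_simp
    obtain ⟨E, h1, h2⟩ := exists_lt_of_csInf_lt (energies_nonempty M)
      (lt_add_of_pos_right _ (mul_pos ξ0 M2))
    obtain ⟨x, hx, hE⟩ := mem_energies.1 h1
    have h3 : E / M ^ 2 ≤ F M + log M / 4 + ξ := by
      rw [hF, sub_add_cancel, div_add' _ _ _ M2.ne']
      exact div_le_div_of_nonneg_right h2.le M2.le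
    have h4 : GG0 (r M ^ 16) ≤ |F M| + log M + 2 := by
      rw [GG0, eq_one_div_of_mul_eq_one_right hM, div_div_eq_mul_div, div_one,
        log_mul (by norm_num) (by linarith)]
      linarith [log_le_sub_one_of_pos (show (0 : ℝ) < 4 by norm_num), abs_nonneg (F M)]
    filter_upwards [compare hx (by positivity) a1 hM ((div_mul_cancel₀ _ M2.ne').trans hE)
      (by linarith [le_abs_self (F M)]) h4 ξ0, eventually_ge_atTop 1] with N b1 b2
    have N2 : (0 : ℝ) < N ^ 2 := by positivity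
    rw [← div_le_iff₀' N2] at b1
    have e : F N = sInf (energies N) / (N : ℝ) ^ 2 - log N / 4 := by rw [hF]
    linarith
  obtain ⟨M₀, h0⟩ := key.exists
  obtain ⟨K, hK⟩ : ∃ K, ∀ᶠ N in atTop, |F N| ≤ K := by
    refine ⟨max 3 (F M₀ + 2000 * r M₀ * (|F M₀| + log M₀ + 3) + 2 * 1), ?_⟩
    filter_upwards [h0 1 one_pos le_rfl, eventually_ge_atTop 1] with N b1 b2
    refine abs_le.2 ⟨le_trans (neg_le_neg (le_max_left _ _)) ?_, b1.trans (le_max_right _ _)⟩
    have N1 : (1 : ℝ) ≤ N := by exact_mod_cast b2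
    have b3 := lower b2
    rw [hF, le_sub_iff_add_le, le_div_iff₀ (by positivity)]
    nlinarith [one_half_lt_eulerMascheroniConstant, sq_nonneg (N : ℝ)]
  rw [← hF]
  refine exists_tendsto hK fun ε hε => ?_
  have h1 : Tendsto (fun N : ℕ => 2000 * (r N * log N + r N * (K + 3))) atTop
      (𝓝 (2000 * (0 + 0 * (K + 3)))) := (hrl.add (hr.mul_const _)).const_mul _
  filter_upwards [key, hK, h1.eventually_le_const (u := ε / 2) (by simpa using hε)] with M a1 a2 a3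
  filter_upwards [a1 (min (ε / 4) 1) (by positivity) (min_le_right _ _)] with N b1
  have r0 : 0 ≤ r M := by positivity
  linarith [min_le_left (ε / 4) 1, mul_le_mul_of_nonneg_left a2 r0]

end Pool.Agent.Lib.MP_a619ca_an
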