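import Pool.Agent.Lib.MP_a619ca_an.HxSum

/-!
An upper bound with the sharp constant for the damped lattice sum.
-/

namespace Pool.Agent.Lib.MP_a619ca_an.Hx

open MeasureTheory Set Real Finset Filter Topology Asymptotics HurwitzZeta

theorem gamma_ge {a x q : ℝ} (ha : 0 < a) (hx : 0 < x) (hq0 : 0 < q) :
    (∫ t in Ioc 0 a, t ^ x * exp (-(t * q))) + a ^ x * (exp (-(a * q)) / q) ≤
      Gamma (1 + x) * q ^ (-(1 + x)) := by
  have hi : IntegrableOn (fun t : ℝ => t ^ x * exp (-(t * q))) (Ioi 0) := by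
    have := integrableOn_rpow_mul_exp_neg_mul_rpow (s := x) (p := 1) (by linarith) one_pos hq0
    simpa [mul_comm q] using this
  have e : Gamma (1 + x) * q ^ (-(1 + x)) = (∫ t in Ioc 0 a, t ^ x * exp (-(t * q))) +
      ∫ t in Ioi a, t ^ x * exp (-(t * q)) := by
    rw [← setIntegral_union Ioc_disjoint_Ioi_same measurableSet_Ioi
      (hi.mono_set Ioc_subset_Ioi_self) (hi.mono_set (Ioi_subset_Ioi ha.le)),
      Ioc_union_Ioi_eq_Ioi ha.le]
    have := integral_rpow_mul_exp_neg_mul_Ioi (a := 1 + x) (by linarith) hq0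
    simp only [add_sub_cancel_left, mul_comm q] at this
    rw [this, mul_comm, one_div, inv_rpow hq0.le, rpow_neg hq0.le]
  rw [e]
  have h2 : -q < 0 := by linarith
  have h3 : (∫ t in Ioi a, a ^ x * exp (-q * t)) ≤ ∫ t in Ioi a, t ^ x * exp (-(t * q)) := by
    refine setIntegral_mono_on ((integrableOn_exp_mul_Ioi h2 a).const_mul _)
      (hi.mono_set (Ioi_subset_Ioi ha.le)) measurableSet_Ioi fun t ht => ?_
    rw [show -q * t = -(t * q) by ring]
    exact mul_le_mul_of_nonneg_right (rpow_le_rpow ha.le (le_of_lt ht) hx.le) (exp_pos _).le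
  rw [integral_const_mul, integral_exp_mul_Ioi h2, neg_div_neg_eq,
    show -q * a = -(a * q) by ring] at h3
  linarith

theorem theta_ge {t : ℝ} (ht : 0 < t) : AA / t ≤ ∑' v : ℤ × ℤ, exp (-(t * (Q v : ℝ))) := by
  have hA := AA_pos
  rw [theta_real ht]
  refine le_mul_of_one_le_right (by positivity) ?_
  have := (summable_exp_Q (a := AA ^ 2 / t) (by positivity)).le_tsum 0 fun v _ => (exp_pos _).le
  simpa [Q] using this

theorem split_ge {a x : ℝ} (ha : 0 < a) (hx : 0 < x) (V : Finset (ℤ × ℤ)) (hV : 0 ∉ V) :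
    AA * a ^ x / x + a ^ x * ∑ v ∈ V, exp (-(a * (Q v : ℝ))) / (Q v : ℝ) ≤
      Gamma (1 + x) * (6 * (riemannZeta (1 + x : ℝ) * LL (1 + x : ℝ)).re) +
        a ^ (1 + x) / (1 + x) := by
  classical
  have hA := AA_pos
  have hG : 0 < Gamma (1 + x) := Gamma_pos_of_pos (by linarith)
  have hZ := summable_Q_rpow (s := 1 + x) (by linarith)
  have hZ2 : (∑' v : ℤ × ℤ, if v = 0 then 0 else (Q v : ℝ) ^ (-(1 + x))) ≤
      6 * (riemannZeta (1 + x : ℝ) * LL (1 + x : ℝ)).re := by
    refine hZ.tsum_le_of_sum_le fun W => ?_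
    refine le_trans (le_of_eq ?_) (lattice_sum_le (s := 1 + x) (by linarith) (W.erase 0) (by simp))
    rw [← sum_erase W (a := 0) (by simp)]
    exact sum_congr rfl fun v hv => if_neg (ne_of_mem_erase hv)
  obtain ⟨c, hc⟩ : ∃ c : ℤ × ℤ → ℝ, ∀ v, c v = ∫ t in Ioc 0 a, t ^ x * exp (-(t * Q v)) :=
    ⟨_, fun _ => rfl⟩
  have n1 : ∀ v : ℤ × ℤ, ∫ t in Ioc 0 a, ‖t ^ x * exp (-(t * Q v))‖ = c v := fun v => by
    rw [hc]
    refine setIntegral_congr_fun measurableSet_Ioc fun t ht => norm_of_nonneg ?_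
    have := ht.1
    positivity
  have c0 : ∀ v, 0 ≤ c v := fun v => n1 v ▸ integral_nonneg fun _ => norm_nonneg _
  have s1 : Summable c := by
    refine (hZ.mul_left (Gamma (1 + x))).of_norm_bounded_eventually ?_
    filter_upwards [(Set.finite_singleton (0 : ℤ × ℤ)).compl_mem_cofinite] with v hv
    have hv' : v ≠ 0 := hv
    have hq : (0 : ℝ) < Q v := by exact_mod_cast Q_pos hv'
    rw [if_neg hv', norm_of_nonneg (c0 v), hc]
    exact le_trans (le_add_of_nonneg_right (by positivity)) (gamma_ge ha hx hq)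
  have t1 := hasSum_integral_of_summable_integral_norm (μ := volume.restrict (Ioc 0 a))
    (F := fun (v : ℤ × ℤ) t => t ^ x * exp (-(t * Q v)))
    (fun v => (Continuous.integrableOn_Icc ((continuous_rpow_const hx.le).mul
      (by fun_prop))).mono_set Ioc_subset_Icc_self) (by simpa only [n1] using s1)
  simp only [← hc] at t1
  have a0 : c 0 = a ^ (1 + x) / (1 + x) := by
    rw [hc, ← intervalIntegral.integral_of_le ha.le]
    simp only [Q, Prod.fst_zero, Prod.snd_zero]
    norm_num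
    rw [integral_rpow (Or.inl (by linarith)), zero_rpow (by linarith), sub_zero, add_comm]
  have hint : Integrable (fun t : ℝ => ∑' v : ℤ × ℤ, t ^ x * exp (-(t * Q v)))
      (volume.restrict (Ioc 0 a)) := by
    by_contra hcon
    rw [integral_undef hcon] at t1
    have h1 := le_hasSum t1 0 fun v _ => c0 v
    rw [a0] at h1
    exact absurd h1 (not_le.2 (by positivity))
  have b0 : AA * a ^ x / x ≤ ∫ t in Ioc 0 a, ∑' v : ℤ × ℤ, t ^ x * exp (-(t * Q v)) := by
    have h1 : IntegrableOn (fun t : ℝ => t ^ (x - 1)) (Ioc 0 a) :=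
      (intervalIntegral.intervalIntegrable_rpow' (a := 0) (b := a) (by linarith)).1
    have h2 : ∫ t in Ioc 0 a, AA * t ^ (x - 1) = AA * a ^ x / x := by
      rw [integral_const_mul, ← intervalIntegral.integral_of_le ha.le,
        integral_rpow (Or.inl (by linarith)), sub_add_cancel, zero_rpow hx.ne', sub_zero,
        mul_div_assoc]
    rw [← h2]
    refine setIntegral_mono_on (h1.const_mul AA) hint measurableSet_Ioc fun t ht => ?_
    have ht0 := ht.1
    rw [tsum_mul_left, rpow_sub_one ht0.ne']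
    calc _ = t ^ x * (AA / t) := by ring
      _ ≤ _ := mul_le_mul_of_nonneg_left (theta_ge ht0) (by positivity)
  have t2 : HasSum (fun v : ℤ × ℤ => if v ∈ V then exp (-(a * (Q v : ℝ))) / (Q v : ℝ) else 0)
      (∑ v ∈ V, exp (-(a * (Q v : ℝ))) / (Q v : ℝ)) := by
    have := hasSum_sum_of_ne_finset_zero (s := V) (L := SummationFilter.unconditional _)
      (f := fun v : ℤ × ℤ => if v ∈ V then exp (-(a * (Q v : ℝ))) / (Q v : ℝ) else 0)
      fun v hv => if_neg hv
    rwa [sum_congr rfl fun v hv => if_pos hv] at this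
  have := hasSum_le (fun v => ?_) (t1.add (t2.mul_left (a ^ x)))
    ((hZ.hasSum.mul_left (Gamma (1 + x))).add (hasSum_ite_eq (0 : ℤ × ℤ) (c 0)))
  · rw [a0] at this
    linarith [mul_le_mul_of_nonneg_left hZ2 hG.le]
  rcases eq_or_ne v 0 with rfl | hv
  · simp [hV]
  have hq : (0 : ℝ) < Q v := by exact_mod_cast Q_pos hv
  have c1 := gamma_ge ha hx hq
  rw [← hc] at c1
  simp only [if_neg hv, add_zero]
  refine le_trans (add_le_add le_rfl (mul_le_mul_of_nonneg_left ?_ (by positivity))) c1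
  split_ifs
  · exact le_rfl
  · positivity

theorem damped_sum_le {B : ℝ}
    (hB : Tendsto (fun x : ℝ => 6 * (riemannZeta (1 + x : ℝ) * LL (1 + x : ℝ)).re - AA / x)
      (𝓝[>] 0) (𝓝 B)) {a : ℝ} (ha : 0 < a) (V : Finset (ℤ × ℤ)) (hV : 0 ∉ V) :
    ∑ v ∈ V, exp (-(a * (Q v : ℝ))) / (Q v : ℝ) ≤
      B - AA * (eulerMascheroniConstant + log a) + a := by
  have key := fun x hx => split_ge (x := x) ha hx V hV
  generalize ∑ v ∈ V, exp (-(a * (Q v : ℝ))) / (Q v : ℝ) = S at key ⊢
  have d1 : HasDerivAt (fun x : ℝ => Gamma (1 + x)) (-eulerMascheroniConstant) 0 :=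
    HasDerivAt.comp_const_add 1 0 (by simpa using Real.hasDerivAt_Gamma_one)
  have d2 : HasDerivAt (fun x : ℝ => a ^ x) (log a) 0 := by
    simpa using (hasStrictDerivAt_const_rpow ha 0).hasDerivAt
  have d3 : HasDerivAt (fun x : ℝ => a ^ x / Gamma (1 + x))
      (eulerMascheroniConstant + log a) 0 :=
    (d2.div d1 (by simp)).congr_deriv (by simp [add_comm])
  have c1 : ContinuousAt (fun x : ℝ => (a ^ x * S - a * a ^ x / (1 + x)) / Gamma (1 + x)) 0 :=
    ((d2.continuousAt.mul continuousAt_const).sub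
      ((continuousAt_const.mul d2.continuousAt).div (by fun_prop) (by simp))).div
      d1.continuousAt (by simp)
  have t := (c1.tendsto.mono_left (nhdsWithin_le_nhds (s := Ioi 0))).add
    (d3.tendsto_slope_zero_right.const_mul AA)
  have h := le_of_tendsto_of_tendsto t hB ?_
  · simp at h
    linarith
  filter_upwards [self_mem_nhdsWithin] with x hx
  have hx0 : 0 < x := hx
  have hG : 0 < Gamma (1 + x) := Gamma_pos_of_pos (by linarith)
  have h2 := key x hx0
  rw [rpow_add ha, rpow_one] at h2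
  have h3 : (a ^ x * S - a * a ^ x / (1 + x) + AA * a ^ x / x) / Gamma (1 + x) ≤
      6 * (riemannZeta (1 + x : ℝ) * LL (1 + x : ℝ)).re := by
    rw [div_le_iff₀' hG]
    linarith
  refine le_trans (le_of_eq ?_) (sub_le_sub_right h3 _)
  simp only [zero_add, add_zero, rpow_zero, Gamma_one, smul_eq_mul]
  ring

end Pool.Agent.Lib.MP_a619ca_an.Hx
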