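import Pool.Agent.Lib.MP_a619ca_an.HxGlue
import Pool.Agent.Lib.MP_a619ca_an.HxSphere

/-!
A power saving form of the lower bound on the sphere.
-/

namespace Pool.Agent.Lib.MP_a619ca_an.Hx

open MeasureTheory Set Real Finset Filter Topology

theorem rate_exp_Ioo {a u : ℝ} (ha : 0 < a) (hu : 0 < u) :
    ∫ s in Ioo 0 a, exp (-(s * u)) = (1 - exp (-(a * u))) / u := by
  rw [← integral_Ioc_eq_integral_Ioo, ← intervalIntegral.integral_of_le ha.le]
  have h : ∀ s ∈ uIcc 0 a, HasDerivAt (fun s => -exp (-(s * u)) / u) (exp (-(s * u))) s := by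
    intro s _
    have h1 : HasDerivAt (fun s : ℝ => s * u) u s := by simpa using (hasDerivAt_id s).mul_const u
    refine (h1.neg.exp.neg.div_const u).congr_deriv ?_
    simp only [Pi.neg_apply]
    field_simp
  rw [intervalIntegral.integral_eq_sub_of_hasDerivAt h
    (Continuous.intervalIntegrable (by fun_prop) _ _)]
  simp only [zero_mul, neg_zero, exp_zero]
  ring

theorem rate_int {a α : ℝ} (hα : 0 < α) : Integrable (Function.uncurry fun (u s : ℝ) =>
    exp (-(s * u)) * exp (-(α * u))) ((volume.restrict (Ioi 0)).prod (volume.restrict (Ioo 0 a))) := by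
  have h0 : IntegrableOn (fun u : ℝ => exp (-(α * u))) (Ioi 0) := by
    simpa using exp_neg_integrableOn_Ioi 0 hα
  have h1 := Integrable.mul_prod h0 (integrable_const (μ := volume.restrict (Ioo 0 a)) (1 : ℝ))
  refine Integrable.mono' h1 (Measurable.aestronglyMeasurable (by fun_prop)) ?_
  rw [Measure.prod_restrict]
  filter_upwards [ae_restrict_mem (measurableSet_Ioi.prod measurableSet_Ioo)] with p hp
  have h2 : 0 < p.1 := hp.1
  have h3 : 0 < p.2 := hp.2.1
  simp only [Function.uncurry]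
  rw [Real.norm_of_nonneg (by positivity), mul_one]
  have : exp (-(p.2 * p.1)) ≤ 1 := exp_le_one_iff.2 (by nlinarith [mul_pos h2 h3])
  have h4 := exp_pos (-(α * p.1))
  nlinarith

theorem rate_frullani {a α : ℝ} (ha : 0 < a) (hα : 0 < α) :
    ∫ u in Ioi (0 : ℝ), (∫ s in Ioo 0 a, exp (-(s * u))) * exp (-(α * u)) =
      log (α + a) - log α := by
  simp only [← integral_mul_const]
  rw [integral_integral_swap (rate_int hα)]
  have e : ∀ s ∈ Ioo (0 : ℝ) a,
      ∫ u in Ioi (0 : ℝ), exp (-(s * u)) * exp (-(α * u)) = (s + α)⁻¹ := by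
    intro s hs
    have h1 := hs.1
    have h := integral_exp_mul_Ioi (a := -(s + α)) (by linarith) 0
    simp only [← exp_add]
    have e2 : ∀ u : ℝ, -(s * u) + -(α * u) = -(s + α) * u := fun u => by ring
    simp only [e2, h]
    simp only [mul_zero, exp_zero]
    field_simp
  rw [setIntegral_congr_fun measurableSet_Ioo e, ← integral_Ioc_eq_integral_Ioo,
    ← intervalIntegral.integral_of_le ha.le,
    intervalIntegral.integral_comp_add_right (fun x : ℝ => x⁻¹) α,
    integral_inv_of_pos (by linarith) (by linarith), log_div (by linarith) (by linarith)]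
  simp [add_comm]

theorem rate_damp_int (f : ℝ → ℝ) (μ : Measure E2) [IsFiniteMeasure μ]
    (hf : ∀ Y : E2, charFun μ Y = (f (‖Y‖ ^ 2) : ℂ)) {α : ℝ} (hα : 0 < α) :
    IntegrableOn (fun u => f u * exp (-(α * u))) (Ioi 0) := by
  have h0 : IntegrableOn (fun u : ℝ => exp (-(α * u))) (Ioi 0) := by
    simpa using exp_neg_integrableOn_Ioi 0 hα
  have e : ∀ u ∈ Ioi (0 : ℝ), f u = (charFun μ (!₂[√u, 0] : E2)).re := by
    intro u hu
    rw [hf, sl_norm_two, Real.sq_sqrt (le_of_lt hu)]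
    simp
  have hc : Continuous fun u : ℝ => (charFun μ (!₂[√u, 0] : E2)).re :=
    Complex.continuous_re.comp (continuous_charFun.comp (by fun_prop))
  have h1 : IntegrableOn (fun u => (charFun μ (!₂[√u, 0] : E2)).re * exp (-(α * u))) (Ioi 0) :=
    Integrable.bdd_mul (c := μ.real Set.univ) h0 hc.aestronglyMeasurable
      (Eventually.of_forall fun u => (Complex.abs_re_le_norm _).trans (norm_charFun_le _))
  refine h1.congr_fun (fun u hu => ?_) measurableSet_Ioi
  simp only [e u hu]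

theorem rate_mono (f : ℝ → ℝ) (μ : Measure E2) [IsFiniteMeasure μ]
    (hf : ∀ Y : E2, charFun μ Y = (f (‖Y‖ ^ 2) : ℂ)) (hle : ∀ u, 0 < u → f u ≤ 1 / u) {Φ : ℝ}
    (hΦ : Tendsto (fun α : ℝ => AA * (∫ u in Ioi (0 : ℝ), f u * exp (-(α * u))) + AA * log α)
      (𝓝[>] 0) (𝓝 Φ)) {α : ℝ} (hα : 0 < α) :
    Φ ≤ AA * (∫ u in Ioi (0 : ℝ), f u * exp (-(α * u))) + AA * log α := by
  have hA := AA_pos
  refine le_of_tendsto hΦ ?_
  filter_upwards [self_mem_nhdsWithin, eventually_nhdsWithin_of_eventually_nhds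
    (eventually_lt_nhds hα)] with β hβ hβα
  have hβ0 : 0 < β := hβ
  have hw : 0 < α - β := by linarith
  have h1 := rate_frullani hw hβ0
  have i1 : Integrable (fun u => (∫ s in Ioo 0 (α - β), exp (-(s * u))) * exp (-(β * u)))
      (volume.restrict (Ioi 0)) := by
    simpa only [Function.uncurry, integral_mul_const] using
      (rate_int (a := α - β) hβ0).integral_prod_left
  have h2 : (∫ u in Ioi (0 : ℝ), f u * exp (-(β * u))) - ∫ u in Ioi (0 : ℝ), f u * exp (-(α * u)) ≤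
      log α - log β := by
    rw [← integral_sub (rate_damp_int f μ hf hβ0) (rate_damp_int f μ hf hα)]
    rw [show β + (α - β) = α by ring] at h1
    rw [← h1]
    refine setIntegral_mono_on ((rate_damp_int f μ hf hβ0).sub (rate_damp_int f μ hf hα)) i1
      measurableSet_Ioi fun u hu => ?_
    have hu0 : 0 < u := hu
    rw [rate_exp_Ioo hw hu0]
    have e : exp (-(α * u)) = exp (-((α - β) * u)) * exp (-(β * u)) := by
      rw [← exp_add]
      congr 1
      ring
    have h3 : exp (-((α - β) * u)) ≤ 1 := exp_le_one_iff.2 (by nlinarith [mul_pos hw hu0])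
    have h4 := mul_le_mul_of_nonneg_right (hle u hu0)
      (show 0 ≤ (1 - exp (-((α - β) * u))) * exp (-(β * u)) from
        mul_nonneg (by linarith) (exp_pos _).le)
    rw [e]
    calc _ = f u * ((1 - exp (-((α - β) * u))) * exp (-(β * u))) := by ring
      _ ≤ _ := h4
      _ = _ := by ring
  nlinarith

theorem rate_cube (f : ℝ → ℝ) (μ : Measure E2) [IsFiniteMeasure μ]
    (hf : ∀ Y : E2, charFun μ Y = (f (‖Y‖ ^ 2) : ℂ)) (hle : ∀ u, 0 < u → f u ≤ 1 / u) {Φ : ℝ}
    (hΦ : Tendsto (fun α : ℝ => AA * (∫ u in Ioi (0 : ℝ), f u * exp (-(α * u))) + AA * log α)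
      (𝓝[>] 0) (𝓝 Φ)) {N : ℕ} {y : ℝ} (hy : y ^ 3 = N) (h2 : 2 ≤ y) (h3 : 2 * AA ≤ y)
    (h4 : 1 ≤ log y) (h5 : |Φ| + AA ≤ AA * log y) :
    1 / 4 * (N : ℝ) ^ 2 * log N + ((eulerMascheroniConstant - log AA) / 4 + (Φ - f 0) / (4 * AA) -
      (1 + 2 * AA + 1 / AA + |Φ|) * (log y / y)) * (N : ℝ) ^ 2 ≤ EE N := by
  have hA := AA_pos
  have y0 : 0 < y := by linarith
  have hN' : (0 : ℝ) < N := by rw [← hy]; positivity
  have hN : 0 < N := by exact_mod_cast hN'
  have hL : 0 < (N : ℝ) / AA := by positivity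
  have hb : 2 / ((N : ℝ) / AA) ≤ 1 / y ^ 2 := by
    rw [← hy, div_div_eq_mul_div, div_le_div_iff₀ (by positivity) (by positivity)]
    nlinarith [mul_le_mul_of_nonneg_right h3 (sq_nonneg y)]
  refine le_trans ?_ (sl_finite f μ hf hle (α := 1 / y) (b := 1 / y ^ 2) (by positivity) ⌈y⌉₊ hN hb)
  refine add_le_add le_rfl (mul_le_mul_of_nonneg_right ?_ (sq_nonneg _))
  have n1 : y ≤ (⌈y⌉₊ : ℝ) := Nat.le_ceil y
  have n2 : (⌈y⌉₊ : ℝ) + 1 ≤ 2 * y := by linarith [Nat.ceil_lt_add_one y0.le]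
  have n0 : ⌈y⌉₊ ≠ 0 := by
    intro h
    rw [h] at n1
    simp at n1
    linarith
  generalize ⌈y⌉₊ = n at n1 n2 n0
  have n3 : (0 : ℝ) < n := by linarith
  have g1 : eulerMascheroniConstant < harmonic n - log n := by
    have := eulerMascheroniConstant_lt_eulerMascheroniSeq' n
    rwa [eulerMascheroniSeq', if_neg n0] at this
  have g2 : log (n + 1) ≤ log n + 1 / y := by
    have h6 := log_le_sub_one_of_pos (show 0 < ((n : ℝ) + 1) / n by positivity)
    rw [log_div (by positivity) n3.ne', show ((n : ℝ) + 1) / n - 1 = 1 / n by field_simp; ring] at h6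
    linarith [one_div_le_one_div_of_le y0 n1]
  have g3 : (harmonic n : ℝ) ≤ 3 * log y := by
    have h6 := harmonic_le_one_add_log n
    have h7 : log n ≤ log (2 * y) := log_le_log n3 (by linarith)
    rw [log_mul two_ne_zero y0.ne'] at h7
    linarith [log_le_sub_one_of_pos (show (0 : ℝ) < 2 by norm_num)]
  have g4 : (1 + 4 * (1 / y * (N / AA) / (4 * (n + 1))))⁻¹ ≤ 2 * AA / y := by
    rw [← hy, ← inv_div y (2 * AA)]
    refine inv_anti₀ (by positivity) ?_
    have : y / (2 * AA) ≤ 4 * (1 / y * (y ^ 3 / AA) / (4 * (n + 1))) := by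
      rw [show 4 * (1 / y * (y ^ 3 / AA) / (4 * (n + 1))) = y ^ 2 / (AA * (n + 1)) by field_simp,
        div_le_div_iff₀ (by positivity) (by positivity)]
      nlinarith [mul_le_mul_of_nonneg_left n2 (mul_pos y0 hA).le]
    linarith
  have g5 : (0 : ℝ) ≤ harmonic n := by
    have : (0 : ℚ) ≤ harmonic n := (harmonic_pos n0).le
    exact_mod_cast this
  have g6 : (harmonic n : ℝ) * (1 + 4 * (1 / y * (N / AA) / (4 * (n + 1))))⁻¹ ≤
      6 * AA * (log y / y) := by
    calc _ ≤ (3 * log y) * (2 * AA / y) := mul_le_mul g3 g4 (by positivity) (by linarith)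
      _ = _ := by ring
  have m1 := rate_mono f μ hf hle hΦ (α := 1 / y + 1 / y ^ 2 / 2) (by positivity)
  have l1 : log (1 / y) = -log y := by rw [one_div, log_inv]
  have l2 : log (1 / y + 1 / y ^ 2 / 2) ≤ -log y + 1 / (2 * y) := by
    rw [show 1 / y + 1 / y ^ 2 / 2 = 1 / y * (1 + 1 / (2 * y)) by field_simp,
      log_mul (by positivity) (by positivity), l1]
    linarith [log_le_sub_one_of_pos (show 0 < 1 + 1 / (2 * y) by positivity)]
  obtain ⟨s1, s2⟩ := slA_bounds hL hb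
  generalize ∫ u in Ioi (0 : ℝ), f u * exp (-((1 / y + 1 / y ^ 2 / 2) * u)) = J at m1 ⊢
  have s0 : 0 < slA (1 / y ^ 2) (N / AA) := lt_of_lt_of_le (by positivity) s1
  generalize slA (1 / y ^ 2) (N / AA) = a at s0 s1 s2 ⊢
  have iy : 1 / y ≤ log y / y := div_le_div_of_nonneg_right h4 y0.le
  have iy1 : 1 / (2 * y) ≤ 1 := by
    rw [div_le_one (by positivity)]
    linarith
  obtain ⟨W, hW⟩ : ∃ W, W = Φ + AA * log y - AA * (1 / (2 * y)) := ⟨_, rfl⟩
  have w1 : W ≤ AA * J := by nlinarith [mul_le_mul_of_nonneg_left l2 hA.le]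
  have w0 : 0 ≤ W := by nlinarith [neg_abs_le Φ, mul_le_mul_of_nonneg_left iy1 hA.le]
  have w2 : W ≤ (|Φ| + AA) * log y := by
    have := le_abs_self Φ
    have h6 : 0 ≤ AA * (1 / (2 * y)) := by positivity
    nlinarith [mul_le_mul_of_nonneg_left h4 (abs_nonneg Φ)]
  have q0 : 0 < 1 - AA / y := by
    rw [sub_pos, div_lt_one y0]
    linarith
  have s3 : a ≤ y ^ 2 / 2 / (1 - AA / y) := by
    refine s2.trans (le_of_eq ?_)
    rw [← hy]
    have : y - AA ≠ 0 := by linarith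
    field_simp
  have w3 : W * (1 - AA / y) ≤ AA / (2 * (1 / y ^ 2)) * J / a := by
    rw [le_div_iff₀ s0]
    calc W * (1 - AA / y) * a ≤ W * (1 - AA / y) * (y ^ 2 / 2 / (1 - AA / y)) :=
          mul_le_mul_of_nonneg_left s3 (mul_nonneg w0 q0.le)
      _ = y ^ 2 / 2 * W := by rw [mul_assoc, mul_div_cancel₀ _ q0.ne', mul_comm]
      _ ≤ y ^ 2 / 2 * (AA * J) := mul_le_mul_of_nonneg_left w1 (by positivity)
      _ = _ := by field_simp
  have w4 : (Φ - f 0) / (4 * AA) + log y / 4 - 1 / y / 8 - (|Φ| + AA) * (log y / y) / 4 ≤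
      (AA / (2 * (1 / y ^ 2)) * J / a - f 0) / (4 * AA) := by
    have h6 : W * (AA / y) ≤ (|Φ| + AA) * log y * (AA / y) :=
      mul_le_mul_of_nonneg_right w2 (by positivity)
    rw [show (Φ - f 0) / (4 * AA) + log y / 4 - 1 / y / 8 - (|Φ| + AA) * (log y / y) / 4 =
      (W - (|Φ| + AA) * log y * (AA / y) - f 0) / (4 * AA) by rw [hW]; field_simp; ring]
    exact div_le_div_of_nonneg_right (by linarith) (by positivity)
  have w5 : 1 / y / (4 * AA) ≤ 1 / AA * (log y / y) := by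
    rw [show 1 / y / (4 * AA) = 1 / AA * (1 / y / 4) by field_simp]
    refine mul_le_mul_of_nonneg_left ?_ (by positivity)
    have : 0 < 1 / y := by positivity
    linarith
  rw [l1, mul_sub, mul_one]
  have p0 : 0 ≤ log y / y := by positivity
  have p1 := mul_nonneg hA.le p0
  have p2 := mul_nonneg (abs_nonneg Φ) p0
  nlinarith

theorem sphere_lower_rate (f : ℝ → ℝ) (μ : Measure E2) [IsFiniteMeasure μ]
    (hf : ∀ Y : E2, charFun μ Y = (f (‖Y‖ ^ 2) : ℂ)) (hle : ∀ u, 0 < u → f u ≤ 1 / u) {Φ : ℝ}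
    (hΦ : Tendsto (fun α : ℝ => AA * (∫ u in Ioi (0 : ℝ), f u * exp (-(α * u))) + AA * log α)
      (𝓝[>] 0) (𝓝 Φ)) :
    ∃ K : ℝ, ∀ᶠ N : ℕ in atTop, 1 / 4 * (N : ℝ) ^ 2 * log N +
      ((eulerMascheroniConstant - log AA) / 4 + (Φ - f 0) / (4 * AA)) * (N : ℝ) ^ 2 -
      K * ((N : ℝ) ^ (5 / 3 : ℝ) * log N) ≤ EE N := by
  have hA := AA_pos
  have t1 : Tendsto (fun N : ℕ => (N : ℝ) ^ (1 / 3 : ℝ)) atTop atTop :=
    (tendsto_rpow_atTop (by norm_num)).comp tendsto_natCast_atTop_atTop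
  have t2 := tendsto_log_atTop.comp t1
  refine ⟨(1 + 2 * AA + 1 / AA + |Φ|) / 3, ?_⟩
  filter_upwards [t1.eventually_ge_atTop 2, t1.eventually_ge_atTop (2 * AA),
    t2.eventually_ge_atTop 1, (t2.const_mul_atTop hA).eventually_ge_atTop (|Φ| + AA),
    eventually_gt_atTop 0] with N h2 h3 h4 h5 h6
  have hN : (0 : ℝ) < N := by exact_mod_cast h6
  have hy : ((N : ℝ) ^ (1 / 3 : ℝ)) ^ 3 = N := by
    rw [← rpow_natCast, ← rpow_mul hN.le]
    norm_num
  refine le_trans (le_of_eq ?_) (rate_cube f μ hf hle hΦ hy h2 h3 h4 h5)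
  have e : (N : ℝ) ^ (5 / 3 : ℝ) = (N : ℝ) ^ 2 / (N : ℝ) ^ (1 / 3 : ℝ) := by
    rw [← rpow_natCast, ← rpow_sub hN]
    norm_num
  rw [e, log_rpow hN]
  ring

end Pool.Agent.Lib.MP_a619ca_an.Hx
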