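import Pool.Agent.Lib.MP_a619ca_an.RateRank
import Pool.Agent.Lib.MP_a619ca_an.RateLat

/-!
A power saving form of the upper bound.
-/

namespace Pool.Agent.Lib.MP_a619ca_an

open Real Finset Filter Topology

theorem energy_le2 {τ a P F : ℝ} {k₀ m N : ℕ} (h0 : 0 < τ) (h1 : τ ≤ 1 / 10) (ha : 0 < a)
    (hP : 0 < P) (hPτ : P * τ ≤ 1) (hk : 16 * AA ≤ k₀) (hm0 : 0 < m) (hm : a * N / AA ≤ m)
    (hNτ : N * τ ^ 8 ≤ (1 - 4 * τ) * (4 * AA))
    (hF : ∀ V : Finset (ℤ × ℤ), 0 ∉ V →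
      ∑ v ∈ V, exp (-(a * (1 - 3 * τ) * (Q v : ℝ))) / (Q v : ℝ) ≤ F) :
    EE N ≤ N * ((τ ^ 8)⁻¹ * ((1 - 3 * τ)⁻¹ * F + N * (exp (-(a * P ^ 2)) / P ^ 2) +
      (k₀ * a + AA * harmonic m + 32 * (AA * √AA) / √k₀))) := by
  classical
  have t4 : 0 < τ ^ 4 := by positivity
  have t8 : 0 < τ ^ 8 := by positivity
  have s3 : (0 : ℝ) < √3 := by positivity
  have hA : √3 / 2 * AA = π := by unfold AA; field_simp
  have hA0 := AA_pos
  have hJ : N ≤ (JJ τ).card := by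
    have h2 := card_ge h0 h1
    have h3 := mul_le_mul_of_nonneg_left hNτ (show 0 ≤ √3 / 2 by positivity)
    have h4 : (N : ℝ) * (√3 / 2 * τ ^ 8) ≤ (JJ τ).card * (√3 / 2 * τ ^ 8) := by
      refine le_trans ?_ h2
      rw [← hA]
      linarith
    exact_mod_cast le_of_mul_le_mul_right h4 (by positivity)
  obtain ⟨f, hf'⟩ := Function.Embedding.exists_of_card_le_finset (α := Fin N) (s := JJ τ)
    (by simpa using hJ)
  have hf : ∀ i, f i ∈ JJ τ := fun i => hf' ⟨i, rfl⟩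
  have h43 : P * τ ^ 4 ≤ τ ^ 3 := by
    rw [pow_succ' τ 3, ← mul_assoc]
    exact mul_le_of_le_one_left (by positivity) hPτ
  have hQ : ∀ i j, j ≠ i → (f j).1 = (f i).1 → vv (f j) - vv (f i) ≠ 0 := fun i j h a1 h2 =>
    h (f.injective (vv_inj a1 (sub_eq_zero.1 h2)))
  have hinj : ∀ i j, pt τ (f j) = pt τ (f i) → j = i := by
    intro i j h
    obtain ⟨a1, a2⟩ := near h0 h1 (hf i) (hf j) (by rw [h, sub_self, norm_zero]; positivity)
    by_contra h2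
    have h3 : (0 : ℝ) < Q (vv (f j) - vv (f i)) := by exact_mod_cast Q_pos (hQ i j h2 a1)
    rw [h, sub_self, norm_zero, zero_pow two_ne_zero] at a2
    exact absurd a2 (not_le.2 (mul_pos (by linarith) (by positivity)))
  refine le_trans (csInf_le ⟨0, ?_⟩ ⟨fun i => pt τ (f i), fun i j h => hinj j i h,
    fun i => pt_norm h0 h1 (hf i), rfl⟩) ?_
  · rintro _ ⟨x, -, -, rfl⟩
    positivity
  refine (sum_le_card_nsmul _ _ _ fun i _ => ?_).trans (by rw [card_fin, nsmul_eq_mul])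
  have hc : ((univ.erase i).card : ℝ) ≤ N := by
    have : (univ.erase i).card ≤ N := by simp
    exact_mod_cast this
  have h2 := pot_le2 (fun j => ‖pt τ (f j) - pt τ (f i)‖ / τ ^ 4) (univ.erase i) AA_pos ha hP hk hm0
    (le_trans (div_le_div_of_nonneg_right (mul_le_mul_of_nonneg_left hc ha.le) hA0.le) hm)
    (fun j hj => div_pos (norm_sub_pos_iff.2 fun h => ne_of_mem_erase hj (hinj i j h)) t4)
    fun K _ r hr => ?_
  swap
  · have h3 := count h0 h1 (K := K.map f) (fun j hj => by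
      obtain ⟨k, -, rfl⟩ := mem_map.1 hj
      exact hf k) (pt_norm h0 h1 (hf i)) (r := r * τ ^ 4) fun j hj => by
        obtain ⟨k, hk, rfl⟩ := mem_map.1 hj
        exact (div_le_iff₀ t4).1 (hr k hk)
    rw [card_map, ← hA] at h3
    refine le_of_mul_le_mul_right (h3.trans_eq (by ring)) (show 0 < √3 / 2 * τ ^ 8 by positivity)
  have h3 : ∑ j ∈ univ.erase i with ‖pt τ (f j) - pt τ (f i)‖ / τ ^ 4 ≤ P,
      exp (-(a * (‖pt τ (f j) - pt τ (f i)‖ / τ ^ 4) ^ 2)) /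
        (‖pt τ (f j) - pt τ (f i)‖ / τ ^ 4) ^ 2 ≤ (1 - 3 * τ)⁻¹ * F := by
    have key : ∀ j ∈ (univ.erase i).filter fun j => ‖pt τ (f j) - pt τ (f i)‖ / τ ^ 4 ≤ P, _ :=
      fun j hj => near h0 h1 (hf i) (hf j) (((div_le_iff₀ t4).1 (mem_filter.1 hj).2).trans h43)
    have h4 := hF (((univ.erase i).filter fun j => ‖pt τ (f j) - pt τ (f i)‖ / τ ^ 4 ≤ P).image
      fun j => vv (f j) - vv (f i)) fun h => by
        obtain ⟨j, hj, h⟩ := mem_image.1 h
        exact hQ i j (ne_of_mem_erase (mem_filter.1 hj).1) (key j hj).1 h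
    rw [sum_image fun j hj k hk h => f.injective (vv_inj ((key j hj).1.trans (key k hk).1.symm)
      (sub_left_injective h))] at h4
    have h5 : 0 < 1 - 3 * τ := by linarith
    refine le_trans ?_ (mul_le_mul_of_nonneg_left h4 (by positivity))
    rw [mul_sum]
    refine sum_le_sum fun j hj => ?_
    have h6 : (0 : ℝ) < Q (vv (f j) - vv (f i)) := by
      exact_mod_cast Q_pos (hQ i j (ne_of_mem_erase (mem_filter.1 hj).1) (key j hj).1)
    have h7 : (1 - 3 * τ) * Q (vv (f j) - vv (f i)) ≤ (‖pt τ (f j) - pt τ (f i)‖ / τ ^ 4) ^ 2 := by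
      rw [div_pow, le_div_iff₀ (by positivity)]
      exact le_trans (le_of_eq (by ring)) (key j hj).2
    rw [← div_eq_inv_mul, div_div, mul_assoc a]
    exact div_le_div₀ (exp_pos _).le
      (exp_le_exp.2 (neg_le_neg (mul_le_mul_of_nonneg_left h7 ha.le))) (mul_pos h6 h5)
      ((mul_comm _ _).trans_le h7)
  have h8 := mul_le_mul_of_nonneg_right hc
    (show 0 ≤ exp (-(a * P ^ 2)) / P ^ 2 by positivity)
  calc _ = (τ ^ 8)⁻¹ * ∑ j ∈ univ.erase i, ((‖pt τ (f j) - pt τ (f i)‖ / τ ^ 4) ^ 2)⁻¹ := by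
        rw [mul_sum]
        refine sum_congr rfl fun j _ => ?_
        rw [norm_sub_rev, div_pow, inv_div, ← pow_mul, ← mul_div_assoc, inv_mul_cancel₀ t8.ne',
          one_div]
    _ ≤ _ := mul_le_mul_of_nonneg_left (by linarith) (by positivity)

theorem log_inv_le {r : ℝ} (hr : 0 < r) : r * (-log r) ≤ 1 := by
  have := log_le_sub_one_of_pos (inv_pos.2 hr)
  rw [log_inv] at this
  have h2 := mul_le_mul_of_nonneg_left this hr.le
  rw [mul_sub, mul_inv_cancel₀ hr.ne'] at h2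
  linarith

theorem far_le {r : ℝ} (hr : 0 < r) : exp (-r⁻¹) ≤ 6227020800 * r ^ 13 := by
  have h := pow_div_factorial_le_exp (x := r⁻¹) (by positivity) 13
  rw [exp_neg, inv_le_comm₀ (exp_pos _) (by positivity)]
  refine le_trans (le_of_eq ?_) h
  norm_num [Nat.factorial]
  field_simp

theorem small_mul {r : ℝ} (r0 : 0 < r) (r1 : r ≤ 1 / 10) (x : ℝ) : r * x ≤ |x| := by
  nlinarith [le_abs_self x, abs_nonneg x]

theorem inv_one_sub_le {s t : ℝ} (h0 : 0 ≤ s) (h1 : s ≤ 1 / 2) (h2 : 2 * s ≤ t) :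
    (1 - s)⁻¹ ≤ 1 + t := by
  rw [inv_le_iff_one_le_mul₀ (by linarith)]
  nlinarith

theorem upper_root {B : ℝ}
    (hB : Tendsto (fun x : ℝ => 6 * (riemannZeta (1 + x : ℝ) * LL (1 + x : ℝ)).re - AA / x)
      (𝓝[>] 0) (𝓝 B)) :
    ∃ K : ℝ, ∀ (N : ℕ) (r : ℝ), 0 < r → r ≤ 1 / 10 → 16 * AA * r ^ 2 ≤ 1 → N * r ^ 16 = 4 * AA →
      EE N ≤ 1 / 4 * (N : ℝ) ^ 2 * log N + (B - AA * log AA) / (4 * AA) * (N : ℝ) ^ 2 +
        K * r * (N : ℝ) ^ 2 := by
  have hA := AA_pos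
  obtain ⟨D, hD⟩ : ∃ D, D = |B| + AA * |eulerMascheroniConstant| + 4 * AA + 1 := ⟨_, rfl⟩
  obtain ⟨K1, hK1⟩ : ∃ K1, K1 = 6 * D + 2 * AA + 3 + 4 * AA * 6227020800 + 32 * (AA * √AA) :=
    ⟨_, rfl⟩
  obtain ⟨K2, hK2⟩ : ∃ K2, K2 = 17 * AA + AA * |log (4 * AA)| + |B - AA * log AA| + K1 := ⟨_, rfl⟩
  have D0 : 0 ≤ D := by rw [hD]; positivity
  have K10 : 0 ≤ K1 := by rw [hK1]; positivity
  refine ⟨(K1 + 8 * K2) / (4 * AA), fun N r r0 r1 r2 hN => ?_⟩
  have N0 : (0 : ℝ) < N := by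
    by_contra hcon
    have : (N : ℝ) = 0 := le_antisymm (not_lt.1 hcon) N.cast_nonneg
    rw [this, zero_mul] at hN
    linarith
  have q0 : 0 < r ^ 2 := by positivity
  have q1 : r ^ 2 ≤ r / 10 := by nlinarith
  have s4 : 0 < 1 - 4 * r ^ 2 := by linarith
  obtain ⟨τ, hτ⟩ : ∃ τ, τ = r ^ 2 * (1 - 4 * r ^ 2) ^ (1 / 8 : ℝ) := ⟨_, rfl⟩
  have t0 : 0 < τ := by rw [hτ]; positivity
  have t1 : τ ≤ r ^ 2 := hτ ▸ mul_le_of_le_one_right q0.le
    (rpow_le_one s4.le (by linarith) (by norm_num))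
  have t8 : τ ^ 8 = r ^ 16 * (1 - 4 * r ^ 2) := by
    have e : ((1 - 4 * r ^ 2) ^ (1 / 8 : ℝ)) ^ 8 = 1 - 4 * r ^ 2 := by
      rw [← rpow_natCast, ← rpow_mul s4.le]
      norm_num
    rw [hτ, mul_pow, e]
    ring
  obtain ⟨c, hc⟩ : ∃ c, c = 1 - 3 * τ := ⟨_, rfl⟩
  have c0 : 1 / 2 ≤ c := by rw [hc]; linarith
  have c1 : c ≤ 1 := by rw [hc]; linarith
  have c2 : c⁻¹ ≤ 1 + 6 * r ^ 2 := by
    rw [hc]
    exact inv_one_sub_le (by linarith) (by linarith) (by linarith)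
  have c3 : -log c ≤ 6 * r ^ 2 := by
    have := log_le_sub_one_of_pos (inv_pos.2 (show 0 < c by linarith))
    rw [log_inv] at this
    linarith
  have k1 : (r ^ 2)⁻¹ ≤ (⌈(r ^ 2)⁻¹⌉₊ : ℝ) := Nat.le_ceil _
  have k2 : (⌈(r ^ 2)⁻¹⌉₊ : ℝ) ≤ (r ^ 2)⁻¹ + 1 := (Nat.ceil_lt_add_one (by positivity)).le
  generalize ⌈(r ^ 2)⁻¹⌉₊ = k at k1 k2
  have z0 : 0 < r ^ 3 * N / AA := by positivity
  have m1 : r ^ 3 * N / AA ≤ (⌈r ^ 3 * N / AA⌉₊ : ℝ) := Nat.le_ceil _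
  have m2 : (⌈r ^ 3 * N / AA⌉₊ : ℝ) ≤ r ^ 3 * N / AA + 1 := (Nat.ceil_lt_add_one z0.le).le
  have m0 : 0 < ⌈r ^ 3 * N / AA⌉₊ := Nat.ceil_pos.2 z0
  generalize ⌈r ^ 3 * N / AA⌉₊ = m at m0 m1 m2
  have b1 := energy_le2 (N := N) (P := (r ^ 2)⁻¹) (k₀ := k) (a := r ^ 3) t0 (by linarith)
    (by positivity) (by positivity) (by rw [inv_mul_le_iff₀ q0]; linarith)
    (le_trans (by rw [← one_div, le_div_iff₀ q0]; exact r2) k1) m0 m1
    (by rw [t8, ← mul_assoc, hN, mul_comm]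
        exact mul_le_mul_of_nonneg_right (by linarith) (by positivity))
    (Hx.damped_sum_le hB (mul_pos (by positivity) (by linarith)))
  rw [← hc] at b1
  have l0 : 0 ≤ -log r := by linarith [log_nonpos r0.le (by linarith : r ≤ 1)]
  have l1 := log_inv_le r0
  have l2 : log (r ^ 3 * c) = 3 * log r + log c := by
    rw [log_mul (by positivity) (by linarith), log_pow]
    norm_num
  have l3 : log N = log (4 * AA) - 16 * log r := by
    rw [← hN, log_mul N0.ne' (by positivity), log_pow]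
    push_cast
    ring
  have g1 : (harmonic m : ℝ) ≤ eulerMascheroniConstant + 3 * log r + log N - log AA + r := by
    have h2 := eulerMascheroniSeq_lt_eulerMascheroniConstant m
    rw [eulerMascheroniSeq] at h2
    have h3 : (m : ℝ) + 1 ≤ r ^ 3 * N / AA * (1 + r) := by
      have h4 : r ^ 3 * N / AA * r * r ^ 12 = 4 := by
        rw [show r ^ 3 * N / AA * r * r ^ 12 = N * r ^ 16 / AA by ring, hN]
        field_simp
      have h5 : r ^ 12 ≤ 1 := pow_le_one₀ r0.le (by linarith)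
      have h6 := mul_le_mul_of_nonneg_left h5 (show 0 ≤ r ^ 3 * N / AA * r by positivity)
      linarith
    have h7 := log_le_log (by positivity) h3
    rw [log_mul z0.ne' (by positivity), log_div (by positivity) hA.ne',
      log_mul (by positivity) N0.ne', log_pow] at h7
    have h8 := log_le_sub_one_of_pos (show 0 < 1 + r by positivity)
    push_cast at h7
    linarith
  have g2 : (N : ℝ) * (exp (-(r ^ 3 * (r ^ 2)⁻¹ ^ 2)) / (r ^ 2)⁻¹ ^ 2) ≤ 4 * AA * 6227020800 * r := by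
    rw [show r ^ 3 * (r ^ 2)⁻¹ ^ 2 = r⁻¹ by field_simp, ← hN]
    calc _ = N * r ^ 4 * exp (-r⁻¹) := by field_simp
      _ ≤ N * r ^ 4 * (6227020800 * r ^ 13) := mul_le_mul_of_nonneg_left (far_le r0) (by positivity)
      _ = _ := by ring
  have g3 : (k : ℝ) * r ^ 3 ≤ 2 * r := by
    have h2 := mul_le_mul_of_nonneg_right k2 (show 0 ≤ r ^ 3 by positivity)
    rw [add_mul, show (r ^ 2)⁻¹ * r ^ 3 = r by field_simp] at h2
    linarith [pow_le_of_le_one r0.le (by linarith : r ≤ 1) (show 3 ≠ 0 by norm_num)]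
  have g4 : 32 * (AA * √AA) / √(k : ℝ) ≤ 32 * (AA * √AA) * r := by
    have h2 : r⁻¹ ≤ √(k : ℝ) := le_sqrt_of_sq_le (by rwa [inv_pow])
    rw [div_eq_mul_inv]
    exact mul_le_mul_of_nonneg_left (by rwa [inv_le_comm₀ ((inv_pos.2 r0).trans_le h2) r0])
      (by positivity)
  obtain ⟨Y, hY⟩ : ∃ Y, Y = B - AA * (eulerMascheroniConstant + log (r ^ 3 * c)) + r ^ 3 * c :=
    ⟨_, rfl⟩
  have Y0 : 0 ≤ Y := by
    have := Hx.damped_sum_le hB (a := r ^ 3 * c) (mul_pos (by positivity) (by linarith)) ∅ (by simp)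
    rw [← hY] at this
    simpa using this
  rw [← hY] at b1
  have r3 : r ^ 3 ≤ r := pow_le_of_le_one r0.le (by linarith) (by norm_num)
  have y1 : r ^ 3 * c ≤ r := (mul_le_of_le_one_right (by positivity) c1).trans r3
  have y2 : Y ≤ B - AA * eulerMascheroniConstant - 3 * AA * log r + AA * r + r := by
    rw [hY, l2]
    linarith [mul_le_mul_of_nonneg_left c3 hA.le, mul_le_mul_of_nonneg_left q1 hA.le,
      mul_pos hA r0]
  have y3 : r * Y ≤ D := by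
    have h2 := mul_le_mul_of_nonneg_left y2 r0.le
    have h3 := mul_le_mul_of_nonneg_left l1 hA.le
    have h4 := small_mul r0 r1 B
    have h5 := small_mul r0 r1 (-eulerMascheroniConstant)
    rw [abs_neg] at h5
    have h6 := mul_le_mul_of_nonneg_left h5 hA.le
    rw [hD]
    linarith [mul_le_mul_of_nonneg_left q1 hA.le, mul_le_mul_of_nonneg_left r1 hA.le]
  have y4 : c⁻¹ * Y ≤ Y + 6 * D * r := by
    linarith [mul_le_mul_of_nonneg_right c2 Y0, mul_le_mul_of_nonneg_left y3 r0.le]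
  obtain ⟨U, hU⟩ : ∃ U, U = AA * log N + (B - AA * log AA) + K1 * r := ⟨_, rfl⟩
  have u1 : c⁻¹ * Y + N * (exp (-(r ^ 3 * (r ^ 2)⁻¹ ^ 2)) / (r ^ 2)⁻¹ ^ 2) +
      (k * r ^ 3 + AA * harmonic m + 32 * (AA * √AA) / √k) ≤ U := by
    have h2 := mul_le_mul_of_nonneg_left g1 hA.le
    rw [hU, hK1]
    linarith
  have u0 : 0 ≤ U := by
    refine le_trans ?_ u1
    have : (0 : ℝ) ≤ harmonic m := by
      have : (0 : ℚ) ≤ harmonic m := (harmonic_pos m0.ne').le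
      exact_mod_cast this
    have : 0 < c := by linarith
    positivity
  have u2 : r * U ≤ K2 := by
    have h3 := mul_le_mul_of_nonneg_left l1 hA.le
    have h4 := small_mul r0 r1 (log (4 * AA))
    have h5 := small_mul r0 r1 (B - AA * log AA)
    have h6 := mul_le_mul_of_nonneg_left h4 hA.le
    have h7 : K1 * r ^ 2 ≤ K1 := mul_le_of_le_one_right K10 (by linarith)
    rw [hU, hK2, l3]
    linarith
  have u3 : (1 - 4 * r ^ 2)⁻¹ * U ≤ U + 8 * K2 * r := by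
    have h2 : (1 - 4 * r ^ 2)⁻¹ ≤ 1 + 8 * r ^ 2 := by
      exact inv_one_sub_le (by linarith) (by linarith) (by linarith)
    linarith [mul_le_mul_of_nonneg_right h2 u0, mul_le_mul_of_nonneg_left u2 r0.le]
  calc EE N ≤ N * ((τ ^ 8)⁻¹ * U) := b1.trans
        (mul_le_mul_of_nonneg_left (mul_le_mul_of_nonneg_left u1 (by positivity)) N0.le)
    _ = (N : ℝ) ^ 2 / (4 * AA) * ((1 - 4 * r ^ 2)⁻¹ * U) := by
        rw [t8, ← hN]
        field_simp
    _ ≤ (N : ℝ) ^ 2 / (4 * AA) * (U + 8 * K2 * r) := mul_le_mul_of_nonneg_left u3 (by positivity)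
    _ = _ := by
        rw [hU]
        field_simp
        ring

theorem upper_rate {B : ℝ}
    (hB : Tendsto (fun x : ℝ => 6 * (riemannZeta (1 + x : ℝ) * LL (1 + x : ℝ)).re - AA / x)
      (𝓝[>] 0) (𝓝 B)) :
    ∃ K : ℝ, ∀ᶠ N : ℕ in atTop,
      EE N ≤ 1 / 4 * (N : ℝ) ^ 2 * log N + (B - AA * log AA) / (4 * AA) * (N : ℝ) ^ 2 +
        K * (N : ℝ) ^ (31 / 16 : ℝ) := by
  have hA := AA_pos
  obtain ⟨K, hK⟩ := upper_root hB
  let σ : ℕ → ℝ := fun N => (4 * AA) ^ (1 / 16 : ℝ) * (N : ℝ) ^ (-(1 / 16) : ℝ)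
  have hσ : Tendsto σ atTop (𝓝 0) := by
    have := ((tendsto_rpow_neg_atTop (by norm_num : (0 : ℝ) < 1 / 16)).comp
      tendsto_natCast_atTop_atTop).const_mul ((4 * AA) ^ (1 / 16 : ℝ))
    rwa [mul_zero] at this
  refine ⟨K * (4 * AA) ^ (1 / 16 : ℝ), ?_⟩
  filter_upwards [hσ.eventually_le_const (show (0 : ℝ) < 1 / 10 by norm_num),
    ((hσ.pow 2).const_mul (16 * AA)).eventually_le_const (u := 1) (by simp),
    eventually_gt_atTop 0] with N a1 a2 a3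
  have hN : (0 : ℝ) < N := by exact_mod_cast a3
  have s0 : 0 < σ N := by positivity
  have s16 : N * σ N ^ 16 = 4 * AA := by
    simp only [σ]
    rw [mul_pow, ← rpow_natCast, ← rpow_natCast, ← rpow_mul (by positivity), ← rpow_mul hN.le]
    norm_num [rpow_neg_one]
    field_simp
  refine (hK N (σ N) s0 a1 a2 s16).trans (le_of_eq ?_)
  have e : (N : ℝ) ^ (31 / 16 : ℝ) = (N : ℝ) ^ (-(1 / 16) : ℝ) * (N : ℝ) ^ 2 := by
    rw [← rpow_natCast, ← rpow_add hN]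
    norm_num
  rw [e]
  simp only [σ]
  ring

end Pool.Agent.Lib.MP_a619ca_an
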