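import Pool.Agent.Lib.MP_a619ca_an.HxMain
import Pool.Agent.Lib.MP_a619ca_an.RateLow
import Pool.Agent.Lib.MP_a619ca_an.RateUp

/-!
The two-term asymptotics with power saving error terms.
-/

namespace Pool.Agent.Lib.MP_a619ca_an.Hx

open MeasureTheory Set Real Finset Filter Topology Asymptotics HurwitzZeta

theorem all_of_eventually {g w : ℕ → ℝ} (hw : ∀ N, 2 ≤ N → 0 < w N) {K : ℝ}
    (h : ∀ᶠ N in atTop, g N ≤ K * w N) : ∃ K' : ℝ, 0 ≤ K' ∧ ∀ N, 2 ≤ N → g N ≤ K' * w N := by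
  obtain ⟨N0, hN0⟩ := eventually_atTop.1 h
  obtain ⟨M, hM⟩ := ((Set.finite_Iio N0).image fun N => g N / w N).bddAbove
  refine ⟨max 0 (max K M), le_max_left _ _, fun N hN => ?_⟩
  have h0 := hw N hN
  rcases le_or_gt N0 N with h1 | h1
  · exact (hN0 N h1).trans (mul_le_mul_of_nonneg_right
      ((le_max_left _ _).trans (le_max_right _ _)) h0.le)
  · have h2 : g N / w N ≤ M := hM ⟨N, h1, rfl⟩
    rw [div_le_iff₀ h0] at h2
    exact h2.trans (mul_le_mul_of_nonneg_right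
      ((le_max_right _ _).trans (le_max_right _ _)) h0.le)

theorem lower_rate {B : ℝ}
    (hB : Tendsto (fun x : ℝ => 6 * (riemannZeta (1 + x : ℝ) * LL (1 + x : ℝ)).re - AA / x)
      (𝓝[>] 0) (𝓝 B)) :
    ∃ K : ℝ, ∀ᶠ N : ℕ in atTop, 1 / 4 * (N : ℝ) ^ 2 * log N +
      (B - AA * log AA) / (4 * AA) * (N : ℝ) ^ 2 - K * ((N : ℝ) ^ (5 / 3 : ℝ) * log N) ≤ EE N := by
  obtain ⟨B0, F, hF, hg, hh, hn⟩ := magic
  obtain ⟨f, μ, hμ, h1, h2, h3, h4⟩ := glue hF hg hh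
  have h5 := lattice_sum hB
  rw [← value hF hn] at h5
  obtain ⟨K, hK⟩ := sphere_lower_rate f μ h1 h2 h3
  refine ⟨K, ?_⟩
  filter_upwards [hK] with N hN
  refine le_trans ?_ hN
  have hA := AA_pos
  gcongr
  rw [h4, div_le_iff₀ (by positivity)]
  field_simp
  linarith

theorem sharp_rate :
    ∃ c₁ c₂ d₁ d₂ : ℝ,
      (fun s : ℂ => hurwitzZeta ((1 / 3 : ℝ) : UnitAddCircle) s - 1 / (s - 1)
          - (c₁ : ℂ) - (d₁ : ℂ) * (1 - s)) =o[𝓝[≠] (1 : ℂ)] (fun s : ℂ => s - 1) ∧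
      (fun s : ℂ => hurwitzZeta ((2 / 3 : ℝ) : UnitAddCircle) s - 1 / (s - 1)
          - (c₂ : ℂ) - (d₂ : ℂ) * (1 - s)) =o[𝓝[≠] (1 : ℂ)] (fun s : ℂ => s - 1) ∧
      ∃ K : ℝ, ∀ N : ℕ, 2 ≤ N →
        -(K * ((N : ℝ) ^ (5 / 3 : ℝ) * log N)) ≤ EE N - 1 / 4 * (N : ℝ) ^ 2 * log N -
          (√3 / (4 * π) * (d₂ - d₁) + eulerMascheroniConstant / 4 - 1 / 4 * log (2 * √3 * π)) *
            (N : ℝ) ^ 2 ∧
        EE N - 1 / 4 * (N : ℝ) ^ 2 * log N -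
          (√3 / (4 * π) * (d₂ - d₁) + eulerMascheroniConstant / 4 - 1 / 4 * log (2 * √3 * π)) *
            (N : ℝ) ^ 2 ≤ K * (N : ℝ) ^ (31 / 16 : ℝ) := by
  obtain ⟨c₁, d₁, h1⟩ := hurwitz_exp (a := 1 / 3) (by norm_num)
  obtain ⟨c₂, d₂, h2⟩ := hurwitz_exp (a := 2 / 3) (by norm_num)
  refine ⟨c₁, c₂, d₁, d₂, h1, h2, ?_⟩
  have hA := AA_pos
  obtain ⟨K1, hK1⟩ := lower_rate (laurent h1 h2)
  obtain ⟨K2, hK2⟩ := upper_rate (laurent h1 h2)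
  have s3 : √3 * √3 = 3 := Real.mul_self_sqrt (by norm_num)
  have e : log (2 * √3 * π) = log AA + log 3 := by
    rw [← Real.log_mul hA.ne' (by norm_num), AA]
    congr 1
    field_simp
    linear_combination s3
  have e1 : (2 * π / √3 * (eulerMascheroniConstant - log 3) + 2 * (d₂ - d₁) - AA * log AA) /
      (4 * AA) =
      √3 / (4 * π) * (d₂ - d₁) + eulerMascheroniConstant / 4 - 1 / 4 * log (2 * √3 * π) := by
    rw [e]
    generalize log AA = L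
    unfold AA
    field_simp
    ring
  rw [e1] at hK1 hK2
  generalize √3 / (4 * π) * (d₂ - d₁) + eulerMascheroniConstant / 4 - 1 / 4 * log (2 * √3 * π) = C
    at hK1 hK2 ⊢
  have w1 : ∀ N : ℕ, 2 ≤ N → 0 < (N : ℝ) ^ (5 / 3 : ℝ) * log N := fun N hN => by
    have : (1 : ℝ) < N := by exact_mod_cast hN
    exact mul_pos (rpow_pos_of_pos (by linarith) _) (log_pos this)
  have w2 : ∀ N : ℕ, 2 ≤ N → 0 < (N : ℝ) ^ (31 / 16 : ℝ) := fun N hN => by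
    have : (1 : ℝ) < N := by exact_mod_cast hN
    exact rpow_pos_of_pos (by linarith) _
  obtain ⟨L1, l0, hL1⟩ := all_of_eventually (K := K1)
    (g := fun N : ℕ => -(EE N - 1 / 4 * (N : ℝ) ^ 2 * log N - C * (N : ℝ) ^ 2)) w1
    (hK1.mono fun N hN => by linarith)
  obtain ⟨L2, l1, hL2⟩ := all_of_eventually (K := K2)
    (g := fun N : ℕ => EE N - 1 / 4 * (N : ℝ) ^ 2 * log N - C * (N : ℝ) ^ 2) w2
    (hK2.mono fun N hN => by linarith)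
  refine ⟨L1 + L2, fun N hN => ⟨?_, ?_⟩⟩
  · linarith [hL1 N hN, mul_nonneg l1 (w1 N hN).le]
  · linarith [hL2 N hN, mul_nonneg l0 (w2 N hN).le]

end Pool.Agent.Lib.MP_a619ca_an.Hx
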