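import Pool.Agent.Lib.MP_a619ca_an.Rank

/-!
The counting bound with a Gaussian splitting of the potential.
-/

namespace Pool.Agent.Lib.MP_a619ca_an

open Real Finset

theorem psi_small {a u : ℝ} (hu : 0 < u) : (1 - exp (-(a * u))) / u ≤ a := by
  rw [div_le_iff₀ hu]
  linarith [add_one_le_exp (-(a * u))]

theorem psi_anti {a u v : ℝ} (hu : 0 < u) (huv : u ≤ v) :
    (1 - exp (-(a * v))) / v ≤ (1 - exp (-(a * u))) / u := by
  have hv : 0 < v := hu.trans_le huv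
  have h1 : 1 ≤ v / u := (one_le_div hu).2 huv
  have h2 := one_add_mul_self_le_rpow_one_add (s := exp (-(a * u)) - 1)
    (by linarith [exp_pos (-(a * u))]) h1
  rw [add_sub_cancel, ← exp_mul, show -(a * u) * (v / u) = -(a * v) by field_simp] at h2
  rw [div_le_iff₀ hv]
  have e : (1 - exp (-(a * u))) / u * v = -(v / u * (exp (-(a * u)) - 1)) := by field_simp; ring
  linarith

theorem inv_shift {ρ κ : ℝ} (hρ : 0 < ρ) (hκ : 16 ≤ κ) (h : κ ≤ (ρ + 2) ^ 2) (h1 : ρ ^ 2 ≤ κ) :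
    (ρ ^ 2)⁻¹ - κ⁻¹ ≤ 16 / (κ * √κ) := by
  have hκ0 : 0 < κ := by linarith
  have hu : 0 < ρ ^ 2 := by positivity
  obtain ⟨w, hw0, rfl⟩ : ∃ w, 0 ≤ w ∧ κ = w ^ 2 := ⟨√κ, sqrt_nonneg _, (sq_sqrt hκ0.le).symm⟩
  have b1 : 4 ≤ w := by nlinarith
  have b2 : w ≤ ρ + 2 := abs_le_of_sq_le_sq' h (by linarith) |>.2
  have b3 : ρ ≤ w := abs_le_of_sq_le_sq' h1 hw0 |>.2
  rw [sqrt_sq hw0, inv_sub_inv hu.ne' hκ0.ne', div_le_div_iff₀ (by positivity) (by positivity)]
  have b4 : w ^ 2 - ρ ^ 2 ≤ 4 * w := by nlinarith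
  have b5 : w ^ 2 ≤ 4 * ρ ^ 2 := by nlinarith
  calc _ ≤ 4 * w * (w ^ 2 * w) := mul_le_mul_of_nonneg_right b4 (by positivity)
    _ = 4 * w ^ 2 * w ^ 2 := by ring
    _ ≤ 4 * (4 * ρ ^ 2) * w ^ 2 := by gcongr
    _ = _ := by ring

theorem psi_large {a ρ κ : ℝ} (ha : 0 < a) (hρ : 0 < ρ) (hκ : 16 ≤ κ) (h : κ ≤ (ρ + 2) ^ 2) :
    (1 - exp (-(a * ρ ^ 2))) / ρ ^ 2 ≤ (1 - exp (-(a * κ))) / κ + 16 / (κ * √κ) := by
  have hκ0 : 0 < κ := by linarith
  have hu : 0 < ρ ^ 2 := by positivity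
  rcases le_total κ (ρ ^ 2) with h1 | h1
  · exact (psi_anti hκ0 h1).trans (le_add_of_nonneg_right (by positivity))
  · have h2 := inv_shift hρ hκ h h1
    have h3 : exp (-(a * κ)) / κ ≤ exp (-(a * ρ ^ 2)) / ρ ^ 2 :=
      div_le_div₀ (exp_pos _).le (exp_le_exp.2 (by nlinarith)) hu h1
    rw [sub_div, sub_div, one_div, one_div]
    linarith

theorem sqrt_step {x : ℝ} (hx : 0 < x) :
    1 / ((x + 1) * √(x + 1)) ≤ 2 * (1 / √x - 1 / √(x + 1)) := by
  have hy : 0 < x + 1 := by linarith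
  have s1 := sq_sqrt hx.le
  have s2 := sq_sqrt hy.le
  have p1 := sqrt_pos.2 hx
  have p2 := sqrt_pos.2 hy
  have p3 : √x ≤ √(x + 1) := sqrt_le_sqrt (by linarith)
  generalize √x = u at *
  generalize √(x + 1) = w at *
  rw [← s2, div_sub_div _ _ p1.ne' p2.ne', ← mul_div_assoc, div_le_div_iff₀ (by positivity)
    (by positivity)]
  have e : (w - u) * (w + u) = 1 := by linarith
  have h5 : 0 ≤ (w - u) * (2 * w ^ 2 - u * (w + u)) :=
    mul_nonneg (by linarith) (by nlinarith)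
  have h6 : u ≤ 2 * (w - u) * w ^ 2 := by nlinarith
  nlinarith [mul_le_mul_of_nonneg_right h6 p2.le]

theorem pow_step {w h : ℝ} (hw : 0 ≤ w) (hh : 0 ≤ h) (i : ℕ) :
    h * (i + 1) * w ^ i ≤ (w + h) ^ (i + 1) - w ^ (i + 1) := by
  induction i with
  | zero => simp
  | succ i ih =>
    have h1 : w ^ (i + 1) ≤ (w + h) ^ (i + 1) := pow_le_pow_left₀ hw (by linarith) _
    have h2 := mul_le_mul_of_nonneg_left ih hw
    have h3 := mul_le_mul_of_nonneg_left h1 hh
    push_cast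
    calc h * (i + 1 + 1) * w ^ (i + 1) = w * (h * (i + 1) * w ^ i) + h * w ^ (i + 1) := by ring
      _ ≤ w * ((w + h) ^ (i + 1) - w ^ (i + 1)) + h * (w + h) ^ (i + 1) := add_le_add h2 h3
      _ = _ := by ring

theorem pow_sum {h : ℝ} (hh : 0 < h) (i M : ℕ) (hM : M * h ≤ 1) :
    h * (i + 1) * ∑ k ∈ range M, (1 - (k + 1) * h) ^ i ≤ 1 - (1 - M * h) ^ (i + 1) := by
  induction M with
  | zero => simp
  | succ M ih =>
    push_cast at hM ⊢
    have h1 := ih (by linarith)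
    have h2 := pow_step (w := 1 - (M + 1) * h) (by linarith) hh.le i
    rw [show 1 - (M + 1) * h + h = 1 - M * h by ring] at h2
    rw [sum_range_succ, mul_add]
    linarith

theorem psi_sum {A a : ℝ} (hA : 0 < A) (ha : 0 < a) (M m : ℕ) (hm0 : 0 < m) (hm : a * M / A ≤ m) :
    ∑ k ∈ range M, (1 - exp (-(a * ((k + 1) / A)))) / ((k + 1) / A) ≤ A * harmonic m := by
  have m0 : (0 : ℝ) < m := by exact_mod_cast hm0
  obtain ⟨h, hh⟩ : ∃ h, h = a / (A * m) := ⟨_, rfl⟩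
  have h0 : 0 < h := by rw [hh]; positivity
  have hM : M * h ≤ 1 := by
    rw [hh, ← mul_div_assoc, div_le_one (by positivity)]
    rw [div_le_iff₀ hA] at hm
    linarith
  have h1 : ∀ k ∈ range M, (1 - exp (-(a * ((k + 1) / A)))) / ((k + 1) / A) ≤
      a / m * ∑ i ∈ range m, (1 - (k + 1) * h) ^ i := by
    intro k hk
    have k1 : (k : ℝ) + 1 ≤ M := by exact_mod_cast mem_range.1 hk
    have k0 : (0 : ℝ) < k + 1 := by positivity
    have w0 : 0 ≤ 1 - (k + 1) * h := by nlinarith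
    have e1 : (1 - (k + 1) * h) ^ m ≤ exp (-(a * ((k + 1) / A))) := by
      have := pow_le_pow_left₀ w0 (show 1 - (k + 1) * h ≤ exp (-((k + 1) * h)) by
        linarith [add_one_le_exp (-((k + 1) * h))]) m
      rw [← exp_nat_mul] at this
      refine this.trans (le_of_eq ?_)
      congr 1
      rw [hh]
      field_simp
    have e2 := mul_neg_geom_sum (1 - (k + 1) * h) m
    rw [div_le_iff₀ (by positivity)]
    have e3 : a / m * (∑ i ∈ range m, (1 - (k + 1) * h) ^ i) * ((k + 1) / A) =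
        (1 - (1 - (k + 1) * h)) * ∑ i ∈ range m, (1 - (k + 1) * h) ^ i := by
      generalize ∑ i ∈ range m, (1 - (k + 1) * h) ^ i = S
      rw [hh]
      field_simp
      ring
    rw [e3, e2]
    linarith
  refine (sum_le_sum h1).trans ?_
  rw [← mul_sum, sum_comm, harmonic, mul_sum]
  push_cast
  rw [mul_sum]
  refine sum_le_sum fun i _ => ?_
  have h2 := pow_sum h0 i M hM
  have h3 : 0 ≤ (1 - M * h) ^ (i + 1) := pow_nonneg (by linarith) _
  generalize ∑ k ∈ range M, (1 - ((k : ℝ) + 1) * h) ^ i = S at h2 ⊢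
  have i0 : (0 : ℝ) < i + 1 := by positivity
  have h4 : a / m = A * h := by rw [hh]; field_simp
  rw [h4, mul_assoc]
  refine mul_le_mul_of_nonneg_left ?_ hA.le
  rw [← one_div, le_div_iff₀ i0]
  linarith

theorem pot_le2 {ι : Type*} [DecidableEq ι] (ρ : ι → ℝ) (K : Finset ι) {A a P : ℝ} {k₀ m : ℕ}
    (hA : 0 < A) (ha : 0 < a) (hP : 0 < P) (hk : 16 * A ≤ k₀) (hm0 : 0 < m)
    (hm : a * K.card / A ≤ m) (hρ : ∀ j ∈ K, 0 < ρ j)
    (hc : ∀ K' ⊆ K, ∀ r, (∀ j ∈ K', ρ j ≤ r) → K'.card ≤ A * (r + 2) ^ 2) :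
    ∑ j ∈ K, (ρ j ^ 2)⁻¹ ≤ ∑ j ∈ K with ρ j ≤ P, exp (-(a * ρ j ^ 2)) / ρ j ^ 2 +
      K.card * (exp (-(a * P ^ 2)) / P ^ 2) +
      (k₀ * a + A * harmonic m + 32 * (A * √A) / √k₀) := by
  have hk0 : (0 : ℝ) < k₀ := by linarith
  have h1 := rank_sum ρ (fun j => (1 - exp (-(a * ρ j ^ 2))) / ρ j ^ 2) _
    (fun k => (1 - exp (-(a * ((k + 1) / A)))) / ((k + 1) / A) +
      if k < k₀ then a else 32 * (A * √A) * (1 / √k - 1 / √(k + 1))) K hc fun j hj k h => by
      have p0 : 0 ≤ (1 - exp (-(a * ((k + 1) / A)))) / ((k + 1) / A) :=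
        div_nonneg (sub_nonneg.2 (exp_le_one_iff.2 (neg_nonpos.2 (by positivity)))) (by positivity)
      split_ifs with h2
      · exact (psi_small (pow_pos (hρ j hj) 2)).trans (le_add_of_nonneg_left p0)
      · have h3 : (k₀ : ℝ) ≤ k := by exact_mod_cast not_lt.1 h2
        refine le_trans (psi_large (κ := (k + 1) / A) ha (hρ j hj) ?_ ?_) (add_le_add le_rfl ?_)
        · rw [le_div_iff₀ hA]; linarith
        · rw [div_le_iff₀ hA]; linarith
        · have e3 : 16 / (((k : ℝ) + 1) / A * √((k + 1) / A)) =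
              16 * (A * √A) * (1 / ((k + 1) * √(k + 1))) := by
            rw [sqrt_div (by positivity)]
            field_simp
          have b3 := mul_le_mul_of_nonneg_left (sqrt_step (x := k) (by linarith))
            (show 0 ≤ 16 * (A * √A) by positivity)
          rw [e3]
          linarith
  have h2 : ∀ n : ℕ, ∑ k ∈ range n,
      (if k < k₀ then a else 32 * (A * √A) * (1 / √(k : ℝ) - 1 / √(k + 1))) ≤
      k₀ * a + 32 * (A * √A) / √k₀ := by
    have h3 : ∀ n, k₀ ≤ n → ∑ k ∈ range n,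
        (if k < k₀ then a else 32 * (A * √A) * (1 / √(k : ℝ) - 1 / √(k + 1))) =
        k₀ * a + 32 * (A * √A) * (1 / √k₀ - 1 / √n) := by
      intro n hn
      induction n, hn using Nat.le_induction with
      | base => rw [sum_congr rfl fun k hk => if_pos (mem_range.1 hk)]; simp
      | succ n hn ih => rw [sum_range_succ, ih, if_neg (not_lt.2 hn)]; push_cast; ring
    intro n
    rcases le_total k₀ n with hn | hn
    · rw [h3 n hn, mul_sub, mul_one_div]
      have : 0 ≤ 32 * (A * √A) * (1 / √(n : ℝ)) := by positivity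
      linarith
    · rw [sum_congr rfl fun k hk => if_pos ((mem_range.1 hk).trans_le hn)]
      have h4 : (n : ℝ) ≤ k₀ := by exact_mod_cast hn
      have h5 : 0 ≤ 32 * (A * √A) / √(k₀ : ℝ) := by positivity
      simp only [sum_const, card_range, nsmul_eq_mul]
      nlinarith
  rw [sum_add_distrib] at h1
  have h4 := psi_sum hA ha K.card m hm0 hm
  have h5 : ∑ j ∈ K, exp (-(a * ρ j ^ 2)) / ρ j ^ 2 ≤
      ∑ j ∈ K with ρ j ≤ P, exp (-(a * ρ j ^ 2)) / ρ j ^ 2 +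
        K.card * (exp (-(a * P ^ 2)) / P ^ 2) := by
    rw [sum_filter, ← nsmul_eq_mul, ← sum_const, ← sum_add_distrib]
    refine sum_le_sum fun j _ => ?_
    split_ifs with h
    · exact le_add_of_nonneg_right (by positivity)
    · have h6 : P ^ 2 ≤ ρ j ^ 2 := pow_le_pow_left₀ hP.le (not_le.1 h).le 2
      rw [zero_add]
      exact div_le_div₀ (exp_pos _).le (exp_le_exp.2 (by nlinarith)) (by positivity) h6
  have h6 : ∑ j ∈ K, (ρ j ^ 2)⁻¹ = ∑ j ∈ K, exp (-(a * ρ j ^ 2)) / ρ j ^ 2 +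
      ∑ j ∈ K, (1 - exp (-(a * ρ j ^ 2))) / ρ j ^ 2 := by
    rw [← sum_add_distrib]
    refine sum_congr rfl fun j _ => ?_
    rw [← add_div, add_sub_cancel, one_div]
  linarith [h2 K.card]

end Pool.Agent.Lib.MP_a619ca_an
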