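import Pool.Agent.Lib.MP_a619ca_an.Fis

/-!
The normalised surface measure of the sphere in Archimedes' coordinates, its invariance, and the
basic inequality for positive definite kernels.
-/

namespace Pool.Agent.Lib.MP_a619ca_an

open MeasureTheory Set Real

/-- clamp to `[-1, 1]` -/
noncomputable def clamp (z : ℝ) : ℝ := max (-1) (min 1 z)

theorem clamp_sq (z : ℝ) : clamp z ^ 2 ≤ 1 :=
  (sq_le_one_iff_abs_le_one _).2 (abs_le.2 ⟨le_max_left _ _, max_le (by norm_num) (min_le_left _ _)⟩)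

theorem clamp_eq {z : ℝ} (h : z ^ 2 ≤ 1) : clamp z = z := by
  obtain ⟨h1, h2⟩ := abs_le.1 ((sq_le_one_iff_abs_le_one _).1 h)
  rw [clamp, min_eq_right h2, max_eq_right h1]

/-- the point of the sphere with given coordinates -/
noncomputable def sp (p : ℝ × ℝ) : S2 :=
  ⟨sph p.1 (clamp p.2), by simpa using norm_sph _ (clamp_sq _)⟩

theorem sp_coe {p : ℝ × ℝ} (h : p.2 ^ 2 ≤ 1) : (sp p : E3) = sph p.1 p.2 := by
  simp only [sp, clamp_eq h]

theorem continuous_sp : Continuous sp := by
  refine Continuous.subtype_mk ?_ _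
  unfold sph clamp
  refine (PiLp.continuous_toLp 2 _).comp (continuous_pi fun i => ?_)
  fin_cases i <;> simp <;> fun_prop

/-- the coordinate rectangle -/
def rect : Set (ℝ × ℝ) := Ioo 0 (2 * π) ×ˢ Ioo (-1) 1

theorem measurableSet_rect : MeasurableSet rect := measurableSet_Ioo.prod measurableSet_Ioo

theorem rect_sq {p : ℝ × ℝ} (h : p ∈ rect) : p.2 ^ 2 < 1 := by
  obtain ⟨-, h1, h2⟩ := h
  nlinarith

/-- the normalised surface measure -/
noncomputable def sg : Measure S2 :=
  ENNReal.ofReal (1 / (4 * π)) • (volume.restrict rect).map sp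

theorem sg_apply {B : Set S2} (hB : MeasurableSet B) :
    sg B = ENNReal.ofReal (1 / (4 * π)) * volume (sp ⁻¹' B ∩ rect) := by
  rw [sg, Measure.smul_apply, Measure.map_apply continuous_sp.measurable hB,
    Measure.restrict_apply (continuous_sp.measurable hB), smul_eq_mul]

theorem vol_rect : volume rect = ENNReal.ofReal (4 * π) := by
  rw [rect, Measure.volume_eq_prod, Measure.prod_prod, volume_Ioo, volume_Ioo,
    ← ENNReal.ofReal_mul (by linarith [pi_pos])]
  congr 1
  ring

instance : IsProbabilityMeasure sg := ⟨by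
  rw [sg_apply MeasurableSet.univ, preimage_univ, univ_inter, vol_rect,
    ← ENNReal.ofReal_mul (by positivity), one_div_mul_cancel (by positivity), ENNReal.ofReal_one]⟩

/-- the cone over a subset of the sphere -/
def cone (B : Set S2) : Set E3 := Metric.ball 0 1 ∩ (fun v => ‖v‖⁻¹ • v) ⁻¹' ((↑) '' B)

theorem measurableSet_cone {B : Set S2} (hB : MeasurableSet B) : MeasurableSet (cone B) :=
  Metric.isOpen_ball.measurableSet.inter ((by fun_prop : Measurable fun v : E3 => ‖v‖⁻¹ • v)
    ((MeasurableEmbedding.subtype_coe Metric.isClosed_sphere.measurableSet).measurableSet_image.2 hB))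

theorem sg_le {B : Set S2} (hB : MeasurableSet B) :
    sg B ≤ ENNReal.ofReal (3 / (4 * π)) * volume (cone B) := by
  have e1 := ((MeasurePreserving.id (volume : Measure ℝ)).prod
    (volume_preserving_finTwoArrow ℝ)).comp (volume_preserving_piFinSuccAbove (fun _ : Fin 3 => ℝ) 0)
  have hA : MeasurableSet (Ioo (0 : ℝ) 1 ×ˢ (sp ⁻¹' B ∩ rect)) :=
    measurableSet_Ioo.prod ((continuous_sp.measurable hB).inter measurableSet_rect)
  have h1 := vol_le (e1.measurable hA) (A := cone B) (fun v hv => ⟨hv.1, hv.2.2.1, hv.2.2.2⟩)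
    (measurableSet_cone hB) fun v hv => ?_
  · rw [e1.measure_preimage hA.nullMeasurableSet, Measure.prod_prod, volume_Ioo, sub_zero,
      ENNReal.ofReal_one, one_mul] at h1
    rw [sg_apply hB, show 1 / (4 * π) = 3 / (4 * π) * (1 / 3) by ring,
      ENNReal.ofReal_mul (by positivity), mul_assoc]
    gcongr
  · have hv' : Box v := ⟨hv.1, hv.2.2.1, hv.2.2.2⟩
    have h0 := rpow_pos_of_pos hv'.1.1 (1 / 3 : ℝ)
    refine ⟨?_, sp (v 1, v 2), hv.2.1, ?_⟩
    · rw [mem_ball_zero_iff, norm_psi hv']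
      exact rpow_lt_one hv'.1.1.le hv'.1.2 (by norm_num)
    · simp only
      rw [sp_coe hv'.sq_lt.le, norm_psi hv', toLp_psi, smul_smul, inv_mul_cancel₀ h0.ne', one_smul]

theorem sg_eq {B : Set S2} (hB : MeasurableSet B) :
    sg B = ENNReal.ofReal (3 / (4 * π)) * volume (cone B) := by
  refine le_antisymm (sg_le hB) ?_
  have h1 := sg_le hB.compl
  have h2 : volume (cone B) + volume (cone Bᶜ) ≤ volume (Metric.ball (0 : E3) 1) := by
    rw [← measure_union ?_ (measurableSet_cone hB.compl)]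
    · exact measure_mono (union_subset inter_subset_left inter_subset_left)
    · refine disjoint_left.2 ?_
      rintro v ⟨-, x, hx, h⟩ ⟨-, y, hy, h'⟩
      exact hy (Subtype.ext (h.trans h'.symm) ▸ hx)
  rw [EuclideanSpace.volume_ball_fin_three, ENNReal.ofReal_one, one_pow, one_mul] at h2
  have h3 : ENNReal.ofReal (3 / (4 * π)) * volume (cone B) + sg Bᶜ ≤ sg B + sg Bᶜ := by
    rw [prob_add_prob_compl hB]
    refine (add_le_add le_rfl h1).trans ?_
    rw [← mul_add]
    refine (mul_le_mul_right h2 _).trans (le_of_eq ?_)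
    rw [← ENNReal.ofReal_mul (by positivity), ← ENNReal.ofReal_one]
    congr 1
    field_simp
  exact ENNReal.le_of_add_le_add_right (measure_ne_top _ _) h3

/-- an isometry acting on the sphere -/
noncomputable def rot (R : E3 ≃ₗᵢ[ℝ] E3) (x : S2) : S2 := ⟨R x, by simp⟩

theorem continuous_rot (R : E3 ≃ₗᵢ[ℝ] E3) : Continuous (rot R) :=
  Continuous.subtype_mk (R.continuous.comp continuous_subtype_val) _

theorem ip_rot (R : E3 ≃ₗᵢ[ℝ] E3) (x y : S2) : ip (rot R x) (rot R y) = ip x y :=
  R.inner_map_map _ _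

theorem rot_preserving (R : E3 ≃ₗᵢ[ℝ] E3) : MeasurePreserving (rot R) sg sg := by
  refine ⟨(continuous_rot R).measurable, Measure.ext fun B hB => ?_⟩
  rw [Measure.map_apply (continuous_rot R).measurable hB, sg_eq hB,
    sg_eq ((continuous_rot R).measurable hB),
    ← R.measurePreserving.measure_preimage (measurableSet_cone hB).nullMeasurableSet]
  congr 2
  ext v
  simp only [cone, mem_inter_iff, mem_ball_zero_iff, mem_preimage, LinearIsometryEquiv.norm_map,
    ← map_smul]
  refine and_congr_right fun _ => ⟨?_, ?_⟩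
  · rintro ⟨x, hx, h⟩
    exact ⟨rot R x, hx, by rw [← h]; rfl⟩
  · rintro ⟨x, hx, h⟩
    refine ⟨rot R.symm x, ?_, ?_⟩
    · have : rot R (rot R.symm x) = x := Subtype.ext (R.apply_symm_apply _)
      rwa [mem_preimage, this]
    · change R.symm x = _
      rw [h, R.symm_apply_apply]

theorem exists_rot (x y : S2) : ∃ R, rot R x = y :=
  ⟨_, Subtype.ext (Submodule.reflection_sub (by rw [S2.norm_eq, S2.norm_eq]))⟩

theorem exists_rot₂ {x y x' y' : S2} (h : ip x y = ip x' y') : ∃ R, rot R x = x' ∧ rot R y = y' := by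
  obtain ⟨R, rfl⟩ := exists_rot y y'
  have h1 : Submodule.reflection (ℝ ∙ ((rot R x : E3) - x'))ᗮ (rot R x : E3) = x' :=
    Submodule.reflection_sub (by rw [S2.norm_eq, S2.norm_eq])
  have h2 : Submodule.reflection (ℝ ∙ ((rot R x : E3) - x'))ᗮ (rot R y : E3) = rot R y := by
    refine Submodule.reflection_mem_subspace_eq_self ?_
    rw [Submodule.mem_orthogonal_singleton_iff_inner_right, inner_sub_left, sub_eq_zero]
    exact (ip_rot R x y).trans h
  generalize Submodule.reflection (ℝ ∙ ((rot R x : E3) - x'))ᗮ = T at h1 h2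
  exact ⟨R.trans T, Subtype.ext h1, Subtype.ext h2⟩

theorem continuous_ip : Continuous fun p : S2 × S2 => ip p.1 p.2 := by
  unfold ip
  fun_prop

theorem ip_comm (x y : S2) : ip x y = ip y x := real_inner_comm _ _

theorem abs_ip_le (x y : S2) : |ip x y| ≤ 1 := by
  simpa only [S2.norm_eq, mul_one, ip] using abs_real_inner_le_norm (x : E3) y

theorem dist_sq_eq (x y : S2) : dist x y ^ 2 = 2 - 2 * ip x y := by
  rw [Subtype.dist_eq, dist_eq_norm, norm_sub_sq_real, S2.norm_eq, S2.norm_eq, ip]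
  ring

/-- Archimedes' theorem -/
theorem ip_preserving (x : S2) :
    MeasurePreserving (ip x) sg (ENNReal.ofReal (1 / 2) • volume.restrict (Ioo (-1) 1)) := by
  obtain ⟨R, hR⟩ := exists_rot x (sp (0, 1))
  have hm : ∀ x, Measurable (ip x) := fun x => (continuous_ip.comp (.prodMk_right x)).measurable
  have h : MeasurePreserving (ip (sp (0, 1))) sg
      (ENNReal.ofReal (1 / 2) • volume.restrict (Ioo (-1) 1)) := by
    refine ⟨hm _, Measure.ext fun B hB => ?_⟩
    have e : sp ⁻¹' (ip (sp (0, 1)) ⁻¹' B) ∩ rect = Ioo 0 (2 * π) ×ˢ (B ∩ Ioo (-1) 1) := by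
      ext p
      have : p ∈ rect → ip (sp (0, 1)) (sp p) = p.2 := fun h => by
        rw [ip, sp_coe (rect_sq h).le, sp_coe (by norm_num), inner_three]
        simp [sph]
      exact ⟨fun h => ⟨h.2.1, this h.2 ▸ h.1, h.2.2⟩,
        fun h => ⟨by rw [mem_preimage, mem_preimage, this ⟨h.1, h.2.2⟩]; exact h.2.1, h.1, h.2.2⟩⟩
    rw [Measure.map_apply (hm _) hB, sg_apply (hm _ hB), e, Measure.volume_eq_prod,
      Measure.prod_prod, volume_Ioo, Measure.smul_apply, Measure.restrict_apply hB, ← mul_assoc,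
      ← ENNReal.ofReal_mul (by positivity), smul_eq_mul]
    congr 2
    field_simp
    ring
  have e : ip x = ip (sp (0, 1)) ∘ rot R := funext fun y => by rw [← hR]; exact (ip_rot R x y).symm
  rw [e]
  exact h.comp (rot_preserving R)

theorem integral_ip (x : S2) {F : ℝ → ℝ} (hF : Measurable F) :
    ∫ y, F (ip x y) ∂sg = (1 / 2) * ∫ t in (-1 : ℝ)..1, F t := by
  rw [← integral_map (ip_preserving x).measurable.aemeasurable hF.aestronglyMeasurable,
    (ip_preserving x).map_eq, integral_smul_measure, intervalIntegral.integral_of_le (by norm_num),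
    integral_Ioc_eq_integral_Ioo, ENNReal.toReal_ofReal (by norm_num), smul_eq_mul]

theorem integral_dist (x : S2) {F : ℝ → ℝ} (hF : Measurable F) :
    ∫ y, F (dist x y ^ 2) ∂sg = (1 / 4) * ∫ u in (0 : ℝ)..4, F u := by
  simp only [dist_sq_eq]
  rw [integral_ip x (F := fun t => F (2 - 2 * t)) (hF.comp (by fun_prop)),
    intervalIntegral.integral_comp_sub_mul F two_ne_zero]
  norm_num
  ring

theorem integral_eval (x : S2) (q : Polynomial ℝ) : ∫ y, q.eval (ip x y) ∂sg = La q :=
  integral_ip x q.continuous.measurable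

theorem intC {X : Type*} [TopologicalSpace X] [CompactSpace X] [MeasurableSpace X]
    [OpensMeasurableSpace X] {μ : Measure X} [IsFiniteMeasure μ] {f : X → ℝ} (hf : Continuous f) :
    Integrable f μ :=
  (BoundedContinuousFunction.mkOfCompact ⟨f, hf⟩).integrable μ

open Finset in
/-- the basic inequality -/
theorem Gram.sum_ge {q : Polynomial ℝ} (hq : Gram q) {ι : Type*} [Fintype ι] (x : ι → S2) :
    (Fintype.card ι : ℝ) ^ 2 * La q ≤ ∑ i, ∑ j, q.eval (ip (x i) (x j)) := by
  obtain ⟨κ, A, f, hf, h⟩ := hq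
  have h1 : ∀ y, La q = ∑ a ∈ A, f a y * ∫ z, f a z ∂sg := fun y => by
    rw [← integral_eval y]
    simp only [h]
    rw [integral_finsetSum _ fun a _ => (intC (hf a)).const_mul _]
    simp only [integral_const_mul]
  have h2 : La q = ∑ a ∈ A, (∫ z, f a z ∂sg) ^ 2 := by
    have h3 : ∫ _, La q ∂sg = ∫ y, ∑ a ∈ A, f a y * ∫ z, f a z ∂sg ∂sg := by simp only [← h1]
    rw [integral_finsetSum _ fun a _ => (intC (hf a)).mul_const _] at h3
    simpa only [integral_mul_const, integral_const, probReal_univ, one_smul, sq] using h3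
  have h3 : (Fintype.card ι : ℝ) * La q = ∑ a ∈ A, (∑ i, f a (x i)) * ∫ z, f a z ∂sg := by
    simp only [sum_mul]
    rw [sum_comm]
    simp only [← h1, sum_const, card_univ, nsmul_eq_mul]
  have h4 : ∑ i, ∑ j, q.eval (ip (x i) (x j)) = ∑ a ∈ A, (∑ i, f a (x i)) ^ 2 := by
    simp only [h, sq, sum_mul_sum]
    rw [eq_comm, sum_comm]
    exact sum_congr rfl fun i _ => sum_comm
  have h5 : ∑ a ∈ A, (2 * Fintype.card ι * ((∑ i, f a (x i)) * ∫ z, f a z ∂sg) -
      (Fintype.card ι : ℝ) ^ 2 * (∫ z, f a z ∂sg) ^ 2) ≤ ∑ a ∈ A, (∑ i, f a (x i)) ^ 2 :=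
    sum_le_sum fun a _ => by
      nlinarith [sq_nonneg (∑ i, f a (x i) - Fintype.card ι * ∫ z, f a z ∂sg)]
  rw [sum_sub_distrib, ← mul_sum, ← mul_sum, ← h2, ← h3, ← h4] at h5
  linarith

end Pool.Agent.Lib.MP_a619ca_an
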