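import Pool.Agent.Lib.MP_a619ca_an.Grp

/-!
The energy seen through a randomly rotated window.
-/

namespace Pool.Agent.Lib.MP_a619ca_an

open MeasureTheory Real Polynomial

/-- functions on the circle of the form `A c + s B c` -/
def Good (d : ℕ) (f : ℝ → ℝ → ℝ) : Prop :=
  ∃ A ∈ VV d, ∃ B ∈ VV d, ∀ s c, s ^ 2 + c ^ 2 = 1 → f s c = A.eval c + s * B.eval c

theorem good_integral {Ω : Type*} [MeasurableSpace Ω] (μ : Measure Ω) [IsFiniteMeasure μ]
    {a b : Ω → ℝ} (ha : BM a) (hb : BM b) (k : ℕ) : ∀ {ψ : Ω → ℝ}, BM ψ →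
      Good (2 * k) fun s c => ∫ w, (1 + a w * s + b w * c) ^ k * ψ w ∂μ := by
  induction k with
  | zero =>
    intro ψ _
    exact ⟨_, C_mul_mem (∫ w, ψ w ∂μ) (PP_mem le_rfl), 0, zero_mem _, fun s c _ => by simp [PP_zero]⟩
  | succ k ih =>
    intro ψ hψ
    obtain ⟨A0, a0, B0, b0, h0⟩ := ih hψ
    obtain ⟨A1, a1, B1, b1, h1⟩ := ih (ha.mul hψ)
    obtain ⟨A2, a2, B2, b2, h2⟩ := ih (hb.mul hψ)
    have m2 : VV (2 * k) ≤ VV (2 * (k + 1)) := VV_mono (by omega)
    have m1 : VV (2 * k + 1) ≤ VV (2 * (k + 1)) := VV_mono (by omega)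
    refine ⟨A0 + (B1 - X * (X * B1)) + X * A2,
      add_mem (add_mem (m2 a0) (sub_mem (m2 b1) (X_mul_mem (X_mul_mem b1)))) (m1 (X_mul_mem a2)),
      B0 + A1 + X * B2, add_mem (add_mem (m2 b0) (m2 a1)) (m1 (X_mul_mem b2)), fun s c h => ?_⟩
    have hk : BM fun w => (1 + a w * s + b w * c) ^ k :=
      (((BM.const 1).add (ha.mul (.const s))).add (hb.mul (.const c))).pow k
    have e : ∀ w, (1 + a w * s + b w * c) ^ (k + 1) * ψ w = (1 + a w * s + b w * c) ^ k * ψ w +
        s * ((1 + a w * s + b w * c) ^ k * (a w * ψ w)) +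
        c * ((1 + a w * s + b w * c) ^ k * (b w * ψ w)) := fun w => by ring
    have i0 := hk.mul hψ
    have i1 := (BM.const s).mul (hk.mul (ha.mul hψ))
    have i2 := (BM.const c).mul (hk.mul (hb.mul hψ))
    have h0 := h0 s c h
    have h1 := h1 s c h
    have h2 := h2 s c h
    simp only [e] at *
    rw [integral_add ((i0.add i1).int _) (i2.int _), integral_add (i0.int _) (i1.int _),
      integral_const_mul, integral_const_mul, h0, h1, h2]
    simp only [eval_add, eval_sub, eval_mul, eval_X]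
    linear_combination (B1.eval c) * h

/-- the smoothing kernel -/
noncomputable def WW (n : ℕ) (t : ℝ) : ℝ := (n + 1) * ((1 + t) / 2) ^ n

theorem WW_nonneg (n : ℕ) (x y : S2) : 0 ≤ WW n (ip x y) := by
  have := (abs_le.1 (abs_ip_le x y)).1
  exact mul_nonneg (by positivity) (pow_nonneg (by linarith) _)

theorem continuous_WW (n : ℕ) : Continuous (WW n) := by unfold WW; fun_prop

theorem bm_WW (n : ℕ) : BM fun p : S2 × S2 => WW n (ip p.1 p.2) :=
  .of_continuous ((continuous_WW n).comp continuous_ip)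

theorem integral_pow_ip (x : S2) (k : ℕ) : ∫ y, ((1 + ip x y) / 2) ^ k ∂sg = 1 / (k + 1) := by
  rw [integral_ip x (F := fun t => ((1 + t) / 2) ^ k) (by fun_prop)]
  simp only [div_pow, intervalIntegral.integral_div]
  rw [intervalIntegral.integral_comp_add_left (fun t => t ^ k), integral_pow]
  norm_num
  field_simp
  ring

theorem integral_WW (x : S2) (n : ℕ) : ∫ y, WW n (ip x y) ∂sg = 1 := by
  simp only [WW, integral_const_mul, integral_pow_ip]
  field_simp

theorem integral_dist_WW (x : S2) {n : ℕ} {a : ℝ} (ha : 0 < a) (h : 4 / ((n : ℝ) + 2) ≤ a ^ 2) :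
    ∫ y, dist x y * WW n (ip x y) ∂sg ≤ a := by
  have hc : Continuous (ip x) := continuous_ip.comp (.prodMk_right x)
  have h1 : ∫ y, dist x y * WW n (ip x y) ∂sg ≤ ∫ y, (a / 2 * WW n (ip x y) +
      2 * (n + 1) / a * (((1 + ip x y) / 2) ^ n - ((1 + ip x y) / 2) ^ (n + 1))) ∂sg := by
    refine integral_mono (intC ?_) (intC ?_) fun y => ?_
    · exact (continuous_const.dist continuous_id).mul ((continuous_WW n).comp hc)
    · have := continuous_WW n
      fun_prop
    · have e : a / 2 * WW n (ip x y) +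
          2 * (n + 1) / a * (((1 + ip x y) / 2) ^ n - ((1 + ip x y) / 2) ^ (n + 1)) =
          (a / 2 + dist x y ^ 2 / (2 * a)) * WW n (ip x y) := by
        rw [dist_sq_eq, WW]
        field_simp
        ring
      simp only [e]
      refine mul_le_mul_of_nonneg_right ?_ (WW_nonneg n x y)
      rw [← sub_nonneg, show a / 2 + dist x y ^ 2 / (2 * a) - dist x y =
        (a - dist x y) ^ 2 / (2 * a) by field_simp; ring]
      positivity
  have hw := continuous_WW n
  rw [integral_add (intC (by fun_prop)) (intC (by fun_prop)),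
    integral_const_mul, integral_const_mul, integral_WW,
    integral_sub (intC (by fun_prop)) (intC (by fun_prop)), integral_pow_ip, integral_pow_ip] at h1
  refine h1.trans ?_
  push_cast
  rw [show 2 * ((n : ℝ) + 1) / a * (1 / (n + 1) - 1 / (n + 1 + 1)) = 4 / (n + 2) / (2 * a) by
    field_simp; ring]
  have : 4 / ((n : ℝ) + 2) / (2 * a) ≤ a ^ 2 / (2 * a) := by gcongr
  rw [show a ^ 2 / (2 * a) = a / 2 by field_simp] at this
  linarith

/-- the smoothed indicator function -/
noncomputable def pp (n : ℕ) (S : Set S2) (x : S2) : ℝ := ∫ z, ch S z * WW n (ip x z) ∂sg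

variable {S : Set S2} (hS : MeasurableSet S) (n : ℕ)
include hS

theorem bm_pp : BM (pp n S) := (((bm_ch hS).comp measurable_snd).mul (bm_WW n)).integral sg

theorem pp_mem (x : S2) : 0 ≤ pp n S x ∧ pp n S x ≤ 1 := by
  have h := (bm_WW n).comp (measurable_prodMk_left (x := x))
  refine ⟨integral_nonneg fun z => mul_nonneg (ch_nonneg _ _) (WW_nonneg _ _ _), ?_⟩
  rw [← integral_WW x n]
  exact integral_mono (((bm_ch hS).mul h).int _) (h.int _) fun z =>
    mul_le_of_le_one_left (WW_nonneg _ _ _) (ch_le _ _)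

theorem pp_close {L a : ℝ} (hL0 : 0 ≤ L) (hL : ∀ x y, cov S Sᶜ x y ≤ L * dist x y) (ha : 0 < a)
    (h : 4 / ((n : ℝ) + 2) ≤ a ^ 2) : ∫ x, |pp n S x - ch S x| ∂sg ≤ 2 * L * a := by
  have hΦ := (bm_chch hS hS.compl).add (bm_chch hS.compl hS)
  have h1 := edge hΦ (bm_WW n) (fun g x y => by simp only [ip_act]) (fun p => WW_nonneg _ _ _)
    (L := 2 * L) fun x y => by
      have m : ∀ x, Measurable fun g => act g x := fun x => (act_preserving x).measurable
      have h2 := hL x y
      have h3 := hL y x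
      rw [integral_add ((((bm_ch hS).comp (m x)).mul ((bm_ch hS.compl).comp (m y))).int _)
        ((((bm_ch hS.compl).comp (m x)).mul ((bm_ch hS).comp (m y))).int _)]
      simp only [cov, dist_comm y, mul_comm (ch S (act _ y))] at h2 h3
      linarith
  rw [integral_prod _ ((hΦ.mul (bm_WW n)).int _),
    integral_prod _ ((bm_dist.mul (bm_WW n)).int _)] at h1
  have h2 : ∫ x, ∫ y, dist x y * WW n (ip x y) ∂sg ∂sg ≤ ∫ _, a ∂sg :=
    integral_mono (((bm_dist.mul (bm_WW n)).integral sg).int _) (integrable_const _) fun x =>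
      integral_dist_WW x ha h
  rw [integral_const, probReal_univ, one_smul] at h2
  refine le_trans (integral_mono (((bm_pp hS n).sub (bm_ch hS)).abs.int _)
    (((hΦ.mul (bm_WW n)).integral sg).int _) fun x => ?_)
    (h1.trans (mul_le_mul_of_nonneg_left h2 (by positivity)))
  have h3 := (bm_WW n).comp (measurable_prodMk_left (x := x))
  have e : pp n S x - ch S x = ∫ z, (ch S z - ch S x) * WW n (ip x z) ∂sg := by
    simp only [sub_mul]
    rw [integral_sub (((bm_ch hS).mul h3).int _) (((BM.const _).mul h3).int _), integral_const_mul,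
      integral_WW, mul_one, pp]
  simp only [e]
  refine abs_integral_le_integral_abs.trans (le_of_eq (integral_congr_ae (ae_of_all _ fun z => ?_)))
  simp only [abs_mul, abs_of_nonneg (WW_nonneg n x z), ch_compl]
  by_cases h4 : x ∈ S <;> by_cases h5 : z ∈ S <;> simp [ch_of_mem, ch_of_not, h4, h5]

theorem exists_poly : ∃ κ ∈ VV (2 * n), ∀ x y,
    κ.eval (ip x y) = ∫ g, pp n S (act g x) * pp n S (act g y) ∂mm := by
  let e1 : S2 := sp (0, 0)
  let e3 : S2 := sp (0, 1)
  have ma : ∀ e : S2, Measurable fun w : GG × S2 => (act w.1 e, w.2) := fun e =>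
    (measurable_act measurable_fst measurable_const).prodMk measurable_snd
  have bi : BM fun p : S2 × S2 => ip p.1 p.2 := .of_continuous continuous_ip
  have hψ : BM fun w : GG × S2 => (n + 1) / 2 ^ n * (ch S w.2 * pp n S (act w.1 e3)) :=
    (BM.const _).mul (((bm_ch hS).comp measurable_snd).mul ((bm_pp hS n).comp (ma e3).fst))
  obtain ⟨A, hA, B, -, h⟩ := good_integral (mm.prod sg) (bi.comp (ma e1)) (bi.comp (ma e3)) n hψ
  have key : ∀ s c, s ^ 2 + c ^ 2 = 1 → ∀ x y, ip x y = c →
      ∫ g, pp n S (act g x) * pp n S (act g y) ∂mm = A.eval c + s * B.eval c := by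
    intro s c hsc x y hxy
    have c1 : (e1 : E3) = !₂[1, 0, 0] := by
      rw [sp_coe (by norm_num)]
      simp [sph]
    have c3 : (e3 : E3) = !₂[0, 0, 1] := by
      rw [sp_coe (by norm_num)]
      simp [sph]
    have hv : ‖s • (e1 : E3) + c • (e3 : E3)‖ = 1 := by
      rw [← sq_eq_sq₀ (norm_nonneg _) zero_le_one, norm_sq_three, c1, c3]
      simpa using hsc
    let v : S2 := ⟨s • (e1 : E3) + c • (e3 : E3), by simpa using hv⟩
    have h1 : ip x y = ip v e3 := by
      rw [hxy, ip, inner_three, c3]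
      simp [v, c1, c3]
    have h2 : ∀ g z, ip (act g v) z = ip (act g e1) z * s + ip (act g e3) z * c := fun g z => by
      simp only [ip, act_coe, v, map_add, map_smul, inner_add_left, real_inner_smul_left]
      ring
    rw [avg_congr (fun x y => pp n S x * pp n S y) h1, ← h s c hsc]
    simp only
    rw [integral_prod]
    · refine integral_congr_ae (ae_of_all _ fun g => ?_)
      simp only
      rw [pp, ← integral_mul_const]
      refine integral_congr_ae (ae_of_all _ fun z => ?_)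
      simp only [WW, h2, div_pow, add_assoc]
      ring
    · exact (((((BM.const 1).add ((bi.comp (ma e1)).mul (.const s))).add
        ((bi.comp (ma e3)).mul (.const c))).pow n).mul hψ).int _
  refine ⟨A, hA, fun x y => ?_⟩
  have h0 : 0 ≤ 1 - ip x y ^ 2 := sub_nonneg.2 ((sq_le_one_iff_abs_le_one _).2 (abs_ip_le x y))
  have h1 := key √(1 - ip x y ^ 2) _ (by rw [sq_sqrt h0]; ring) x y rfl
  have h2 := key (-√(1 - ip x y ^ 2)) _ (by rw [neg_sq, sq_sqrt h0]; ring) x y rfl
  linarith

omit hS in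
theorem Gram.integral_nonneg {q : ℝ[X]} (hq : Gram q) {p : S2 → ℝ} (hp : BM p) :
    0 ≤ ∫ w, p w.1 * p w.2 * q.eval (ip w.1 w.2) ∂sg.prod sg := by
  obtain ⟨ι, A, f, hf, h⟩ := hq
  have e : ∀ w : S2 × S2, p w.1 * p w.2 * q.eval (ip w.1 w.2) =
      ∑ a ∈ A, (p w.1 * f a w.1) * (p w.2 * f a w.2) := fun w => by
    rw [h, Finset.mul_sum]
    exact Finset.sum_congr rfl fun a _ => by ring
  have b : ∀ a, BM fun x => p x * f a x := fun a => hp.mul (.of_continuous (hf a))
  simp only [e]
  rw [integral_finsetSum _ fun a _ =>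
    (((b a).comp measurable_fst).mul ((b a).comp measurable_snd)).int _]
  refine Finset.sum_nonneg fun a _ => ?_
  rw [integral_prod_mul (fun x => p x * f a x) (fun x => p x * f a x)]
  exact mul_self_nonneg _

omit hS in
theorem bm_eval (q : ℝ[X]) : BM fun w : S2 × S2 => q.eval (ip w.1 w.2) :=
  .of_continuous (q.continuous.comp continuous_ip)

/-- the background energy of a set -/
noncomputable def II (δ : ℝ) (A B : Set S2) : ℝ :=
  ∫ p, ch A p.1 * ch B p.2 * gk δ (dist p.1 p.2 ^ 2) ∂sg.prod sg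

open Finset in
theorem source {L a δ : ℝ} (hL0 : 0 ≤ L) (hL : ∀ x y, cov S Sᶜ x y ≤ L * dist x y) (ha : 0 < a)
    (h : 4 / ((n : ℝ) + 2) ≤ a ^ 2) (hδ : 0 < δ) (h4 : δ ≤ 4) {M : ℕ} {x : Fin M → S2}
    (hx : Function.Injective x) {E : ℝ}
    (hE : E = ∑ i, ∑ j ∈ univ.erase i, (dist (x i) (x j) ^ 2)⁻¹) :
    ∑ i, ∑ j ∈ univ.erase i, cov S S (x i) (x j) * (dist (x i) (x j) ^ 2)⁻¹ ≤
      M ^ 2 * II δ S S + sg.real S * (E - M ^ 2 * GG0 δ) + 8 * L * a * (E + M ^ 2 * GG0 δ) +
        M * (n * (2 * n + 1) / 2) * (sg.real S + 4 * L * a) := by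
  obtain ⟨κ, k1, k2⟩ := exists_poly hS n
  have m : ∀ x, Measurable fun g => act g x := fun x => (act_preserving x).measurable
  have bp := bm_pp hS n
  have bc := bm_ch hS
  have c1 : ∀ x y, |κ.eval (ip x y) - cov S S x y| ≤ 4 * L * a := fun x y => by
    have h1 := pp_close hS n hL0 hL ha h
    have h2 := avg_one x (bp.sub bc).abs.1
    have h3 := avg_one y (bp.sub bc).abs.1
    have i1 := ((bp.sub bc).abs.comp (m x)).int mm
    have i2 := ((bp.sub bc).abs.comp (m y)).int mm
    rw [k2, cov, ← integral_sub (((bp.comp (m x)).mul (bp.comp (m y))).int _)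
      (((bc.comp (m x)).mul (bc.comp (m y))).int _)]
    refine abs_integral_le_integral_abs.trans ((integral_mono ((((bp.comp (m x)).mul
      (bp.comp (m y))).sub ((bc.comp (m x)).mul (bc.comp (m y)))).abs.int _) (i1.add i2)
        fun g => ?_).trans ?_)
    · have a1 := pp_mem hS n (act g y)
      have a2 := ch_nonneg S (act g x)
      have a3 := ch_le S (act g x)
      simp only [Pi.add_apply]
      rw [show pp n S (act g x) * pp n S (act g y) - ch S (act g x) * ch S (act g y) =
        (pp n S (act g x) - ch S (act g x)) * pp n S (act g y) +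
          ch S (act g x) * (pp n S (act g y) - ch S (act g y)) by ring]
      refine (abs_add_le _ _).trans (add_le_add ?_ ?_)
      · rw [abs_mul, abs_of_nonneg a1.1]
        exact mul_le_of_le_one_right (abs_nonneg _) a1.2
      · rw [abs_mul, abs_of_nonneg a2]
        exact mul_le_of_le_one_left (abs_nonneg _) a3
    · simp only [Pi.add_apply]
      rw [integral_add i1 i2, h2, h3]
      linarith
  have c2 : |κ.eval 1 - sg.real S| ≤ 4 * L * a := by
    have h1 := c1 (sp 0) (sp 0)
    rw [ip_self, cov, avg_one _ (F := fun y => ch S y * ch S y) (bc.mul bc).1, integral_ch hS,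
      setIntegral_congr_fun hS (g := fun _ => 1) fun y hy => ch_of_mem hy] at h1
    simpa using h1
  obtain ⟨b, hb⟩ : ∃ b : ℕ → ℝ, b = fun j : ℕ => (2 * (j : ℝ) + 1) * La (κ * PP j) := ⟨_, rfl⟩
  have b0 : ∀ j, 0 ≤ b j := fun j => by
    rw [hb]
    refine mul_nonneg (by positivity) ?_
    have h1 := (gram_PP j).integral_nonneg bp
    rw [avg_two ((bp.comp measurable_fst).mul (bp.comp measurable_snd)) (bm_eval _)
      fun g x y => by simp only [ip_act]] at h1
    simp only [← k2, ← eval_mul] at h1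
    rwa [integral_pair (bm_eval _) fun x => integral_eval x _] at h1
  have b1 : κ = ∑ j ∈ range (2 * n + 1), C (b j) * PP j := by rw [hb]; exact expand k1
  have b2 : κ.eval 1 = ∑ j ∈ range (2 * n + 1), b j := by
    rw [b1]
    simp only [eval_finsetSum, eval_mul, eval_C, PP_eval_one, mul_one]
  have g1 : Gram κ := b1 ▸ Gram.sum _ fun j _ => (gram_PP j).C_mul (b0 j)
  obtain ⟨H, hH⟩ : ∃ H, H = ∑ j ∈ range (2 * n + 1), C (b j / 2) * QQ j := ⟨_, rfl⟩
  have g2 : Gram H := hH ▸ Gram.sum _ fun j _ => (gram_QQ j).C_mul (div_nonneg (b0 j) zero_le_two)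
  have g3 : ∀ t, (2 - 2 * t) * H.eval t = κ.eval 1 - κ.eval t := fun t => by
    have h : ∀ j, (1 - t) * (QQ j).eval t = 1 - (PP j).eval t := fun j => by
      simpa using congrArg (eval t) (QQ_mul j)
    rw [b2, hH, b1]
    simp only [eval_finsetSum, eval_mul, eval_C, mul_sum, ← sum_sub_distrib]
    exact sum_congr rfl fun j _ => by linear_combination b j * h j
  have g4 : 0 ≤ H.eval 1 ∧ H.eval 1 ≤ n * (2 * n + 1) / 2 * κ.eval 1 := by
    rw [b2, hH]
    simp only [eval_finsetSum, eval_mul, eval_C, mul_sum, QQ_eval]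
    refine ⟨sum_nonneg fun j _ => mul_nonneg (div_nonneg (b0 j) zero_le_two) (by positivity),
      sum_le_sum fun j hj => ?_⟩
    have h1 : (j : ℝ) ≤ 2 * n := by exact_mod_cast Nat.lt_succ_iff.1 (mem_range.1 hj)
    have h2 : (j : ℝ) * (j + 1) ≤ 2 * n * (2 * n + 1) := by gcongr
    nlinarith [mul_le_mul_of_nonneg_left h2 (b0 j)]
  have bg := bm_gk hδ
  have bv : BM fun p : S2 × S2 => cov S S p.1 p.2 := bm_avg (bm_chch hS hS)
  have G1 := integral_pair bg (integral_gk hδ h4)
  have g5 : (κ.eval 1 - 4 * L * a) * GG0 δ - II δ S S ≤ La H := by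
    have e : II δ S S = ∫ p, cov S S p.1 p.2 * gk δ (dist p.1 p.2 ^ 2) ∂sg.prod sg :=
      avg_two (bm_chch hS hS) bg fun g x y => by simp only [dist_act]
    rw [← integral_pair (bm_eval H) fun x => integral_eval x _, e, ← G1, ← integral_const_mul,
      ← integral_sub (((BM.const _).mul bg).int _) ((bv.mul bg).int _)]
    refine integral_mono ((((BM.const _).mul bg).sub (bv.mul bg)).int _) ((bm_eval H).int _)
      fun p => ?_
    have a1 := (abs_le.1 (c1 p.1 p.2)).2
    have a2 := gk_pos hδ (dist p.1 p.2 ^ 2)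
    have a3 := sub_nonneg.2 (g1.le_one p.1 p.2)
    refine le_trans (b := (κ.eval 1 - κ.eval (ip p.1 p.2)) * gk δ (dist p.1 p.2 ^ 2))
      (by nlinarith) ?_
    rcases eq_or_ne p.1 p.2 with e | e
    · simp only [e, ip_self, sub_self, zero_mul]
      exact g4.1
    · have a4 := ip_lt e
      have a5 : gk δ (dist p.1 p.2 ^ 2) ≤ (2 - 2 * ip p.1 p.2)⁻¹ :=
        dist_sq_eq p.1 p.2 ▸ inv_anti₀ (dist_sq_eq p.1 p.2 ▸ a4) (le_max_left _ _)
      refine (mul_le_mul_of_nonneg_left a5 a3).trans (le_of_eq ?_)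
      rw [← g3, mul_right_comm, mul_inv_cancel₀ a4.ne', one_mul]
  have g6 := g2.offdiag x
  rw [Fintype.card_fin] at g6
  have g7 : ∑ i, ∑ j ∈ univ.erase i, cov S S (x i) (x j) * (dist (x i) (x j) ^ 2)⁻¹ ≤
      (κ.eval 1 + 4 * L * a) * E - ∑ i, ∑ j ∈ univ.erase i, H.eval (ip (x i) (x j)) := by
    rw [hE]
    simp only [mul_sum, ← sum_sub_distrib]
    refine sum_le_sum fun i _ => sum_le_sum fun j hj => ?_
    have a4 := ip_lt (hx.ne (ne_of_mem_erase hj).symm)
    have a1 := (abs_le.1 (c1 (x i) (x j))).1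
    have e : H.eval (ip (x i) (x j)) =
        (κ.eval 1 - κ.eval (ip (x i) (x j))) * (2 - 2 * ip (x i) (x j))⁻¹ := by
      rw [← g3, mul_right_comm, mul_inv_cancel₀ a4.ne', one_mul]
    rw [dist_sq_eq, e, ← sub_mul]
    exact mul_le_mul_of_nonneg_right (by linarith) (inv_pos.2 a4).le
  have E0 : 0 ≤ E := by rw [hE]; positivity
  have G0 : 0 ≤ (M : ℝ) ^ 2 * GG0 δ :=
    mul_nonneg (sq_nonneg _) (G1 ▸ integral_nonneg fun p => (gk_pos hδ _).le)
  obtain ⟨c3, c4⟩ := abs_le.1 c2
  have f1 := mul_le_mul_of_nonneg_left g5 (sq_nonneg (M : ℝ))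
  have f2 : (M : ℝ) * H.eval 1 ≤ M * (n * (2 * n + 1) / 2 * (sg.real S + 4 * L * a)) :=
    mul_le_mul_of_nonneg_left (g4.2.trans (mul_le_mul_of_nonneg_left (by linarith) (by positivity)))
      (Nat.cast_nonneg _)
  nlinarith [mul_le_mul_of_nonneg_right c3 G0, mul_le_mul_of_nonneg_right c4 E0]

end Pool.Agent.Lib.MP_a619ca_an
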