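import Pool.Agent.Lib.MP_a619ca_an.Tile

/-!
Filling a tiling of the sphere with independent random patches of a given configuration.
-/

namespace Pool.Agent.Lib.MP_a619ca_an

open MeasureTheory Real Finset

theorem integral_mp {X Y : Type*} [MeasurableSpace X] [MeasurableSpace Y] {μ : Measure X}
    {ν : Measure Y} {f : X → Y} (h : MeasurePreserving f μ ν) {F : Y → ℝ} (hF : Measurable F) :
    ∫ x, F (f x) ∂μ = ∫ y, F y ∂ν := by
  rw [← h.map_eq, integral_map h.measurable.aemeasurable hF.aestronglyMeasurable]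

theorem exists_le_pairs {ι : Type*} [Fintype ι] [DecidableEq ι] {ψ : ι → ι → GG × GG → ℝ}
    (hψ : ∀ a b, BM (ψ a b)) : ∃ ω : ι → GG, ∑ a, ∑ b, ψ a b (ω a, ω b) ≤
      ∑ a, (∫ g, ψ a a (g, g) ∂mm + ∑ b ∈ univ.erase a, ∫ w, ψ a b w ∂mm.prod mm) := by
  have m : ∀ a b, Measurable fun ω : ι → GG => (ω a, ω b) := fun a b => by fun_prop
  have b1 : ∀ a b, BM fun ω : ι → GG => ψ a b (ω a, ω b) := fun a b => (hψ a b).comp (m a b)
  obtain ⟨ω, hω⟩ := exists_le_integral (μ := Measure.pi fun _ : ι => mm)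
    ((BM.sum univ fun a _ => BM.sum univ fun b _ => b1 a b).int _)
  refine ⟨ω, hω.trans (le_of_eq ?_)⟩
  have e := fun a => measurePreserving_eval (fun _ : ι => mm) a
  rw [integral_finsetSum _ fun a _ => (BM.sum univ fun b _ => b1 a b).int _]
  refine sum_congr rfl fun a _ => ?_
  rw [integral_finsetSum _ fun b _ => (b1 a b).int _, ← add_sum_erase _ _ (mem_univ a)]
  congr 1
  · exact integral_mp (e a) ((hψ a a).comp (measurable_id.prodMk measurable_id)).1
  · refine sum_congr rfl fun b hb => ?_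
    have h1 := ((ProbabilityTheory.iIndepFun_pi (μ := fun _ : ι => mm) (X := fun _ => id)
      fun _ => aemeasurable_id).indepFun (ne_of_mem_erase hb).symm).map_prod_eq_prod_map_map
      (e a).measurable.aemeasurable (e b).measurable.aemeasurable
    have h2 : (Measure.pi fun _ : ι => mm).map (fun ω => (ω a, ω b)) = mm.prod mm := by
      refine h1.trans ?_
      congr 1
      exacts [(e a).map_eq, (e b).map_eq]
    exact integral_mp ⟨m a b, h2⟩ (hψ a b).1

theorem sInf_le {κ : Type*} [Fintype κ] [DecidableEq κ] {c : κ → ℝ} (hc : ∀ u, c u = 0 ∨ c u = 1)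
    (pt : κ → S2) {η B : ℝ} (hη : 0 < η) (hB : B < η⁻¹) {N : ℕ} (hN : N ≤ ∑ u, c u)
    (h : ∑ u, ∑ v, (if u = v then 0 else c u * c v * gk η (dist (pt u) (pt v) ^ 2)) ≤ B) :
    sInf (energies N) ≤ B := by
  classical
  have h1 : ∑ u, c u = ((univ.filter fun u => c u = 1).card : ℝ) := by
    rw [card_filter]
    push_cast
    exact sum_congr rfl fun u _ => by rcases hc u with h | h <;> simp [h]
  obtain ⟨f, hf⟩ := Function.Embedding.exists_of_card_le_finset (α := Fin N)
    (s := univ.filter fun u => c u = 1) (by rw [h1] at hN; simpa using hN)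
  have hf' : ∀ i, c (f i) = 1 := fun i => (mem_filter.1 (hf ⟨i, rfl⟩)).2
  have c0 : ∀ u, 0 ≤ c u := fun u => by rcases hc u with h | h <;> simp [h]
  obtain ⟨F, hF⟩ : ∃ F : κ → κ → ℝ,
    F = fun u v => if u = v then 0 else c u * c v * gk η (dist (pt u) (pt v) ^ 2) := ⟨_, rfl⟩
  have F0 : ∀ u v, 0 ≤ F u v := fun u v => by
    simp only [hF]
    split_ifs
    exacts [le_rfl, mul_nonneg (mul_nonneg (c0 u) (c0 v)) (gk_pos hη _).le]
  have h2 : ∑ u, ∑ v, F u v ≤ B := by simpa only [hF] using h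
  have h3 : ∀ i j, i ≠ j → η < dist (pt (f i)) (pt (f j)) ^ 2 ∧
      F (f i) (f j) = (dist (pt (f i)) (pt (f j)) ^ 2)⁻¹ := fun i j hij => by
    have a1 : F (f i) (f j) ≤ B :=
      ((single_le_sum (fun v _ => F0 _ v) (mem_univ _)).trans (single_le_sum
        (f := fun u => ∑ v, F u v) (fun u _ => sum_nonneg fun v _ => F0 u v) (mem_univ _))).trans h2
    simp only [hF, if_neg (f.injective.ne hij), hf', one_mul, gk] at a1 ⊢
    have a2 : η < dist (pt (f i)) (pt (f j)) ^ 2 := by
      by_contra a2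
      rw [max_eq_right (not_lt.1 a2)] at a1
      exact absurd hB (not_lt.2 a1)
    exact ⟨a2, by rw [max_eq_left a2.le]⟩
  refine (csInf_le (energies_bdd N) (mem_energies.2 ⟨fun i => pt (f i), fun i j hij => ?_, rfl⟩)).trans
    (le_trans ?_ h2)
  · by_contra a
    have := (h3 i j a).1
    rw [show pt (f i) = pt (f j) from hij, dist_self] at this
    linarith
  · calc _ = ∑ i, ∑ j ∈ univ.erase i, F (f i) (f j) :=
          sum_congr rfl fun i _ => sum_congr rfl fun j hj => (h3 i j (ne_of_mem_erase hj).symm).2.symm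
      _ ≤ ∑ i, ∑ v, F (f i) v := sum_le_sum fun i _ => by
          rw [← sum_map (univ.erase i) f (F (f i))]
          exact sum_le_sum_of_subset_of_nonneg (subset_univ _) fun v _ _ => F0 _ v
      _ ≤ _ := by
          rw [← sum_map univ f fun u => ∑ v, F u v]
          exact sum_le_sum_of_subset_of_nonneg (subset_univ _) fun u _ _ =>
            sum_nonneg fun v _ => F0 u v

/-- the map from one tile to another -/
noncomputable def tr (S T : Tile) (x : S2) : S2 := T.A (S.B x)

theorem measurable_tr (S T : Tile) : Measurable (tr S T) := T.measurable_A.comp S.measurable_B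

theorem bm_tr (S T T' : Tile) {k : S2 × S2 → ℝ} (hk : BM k) :
    BM fun p : S2 × S2 => ch S.set p.1 * ch S.set p.2 * k (tr S T p.1, tr S T' p.2) :=
  (bm_chch S.measurableSet_set S.measurableSet_set).mul (hk.comp
    (((measurable_tr S T).comp measurable_fst).prodMk ((measurable_tr S T').comp measurable_snd)))

variable {S T T' : Tile} {ε : ℝ}

theorem transport (hS : S.OK ε) (hT : T.OK ε) {F : S2 → ℝ} (hF : Measurable F) :
    ∫ x, ch S.set x * F (tr S T x) ∂sg = S.area / T.area * ∫ x, ch T.set x * F x ∂sg := by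
  rw [hS.integral (F := fun x => F (tr S T x)) (hF.comp (measurable_tr S T)), hT.integral hF,
    setIntegral_congr_fun measurableSet_usq (g := fun p => F (T.A p)) fun p hp => by
      simp only [tr, hS.B_A hp], ← mul_assoc, div_mul_cancel₀ _ hT.area_pos.ne']

theorem transport₂ (hS : S.OK ε) (hT : T.OK ε) (hT' : T'.OK ε) {k : S2 × S2 → ℝ} (hk : BM k) :
    ∫ p, ch S.set p.1 * ch S.set p.2 * k (tr S T p.1, tr S T' p.2) ∂sg.prod sg =
      S.area / T.area * (S.area / T'.area) *
        ∫ p, ch T.set p.1 * ch T'.set p.2 * k p ∂sg.prod sg := by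
  have b1 := bm_tr S T T' hk
  have b2 := (bm_chch T.measurableSet_set T'.measurableSet_set).mul hk
  have b3 := (((bm_ch T'.measurableSet_set).comp measurable_snd).mul hk).integral sg
  have h1 : ∀ x, ∫ y, ch S.set y * k (x, tr S T' y) ∂sg =
      S.area / T'.area * ∫ y, ch T'.set y * k (x, y) ∂sg := fun x =>
    transport hS hT' (F := fun y => k (x, y)) (hk.1.comp measurable_prodMk_left)
  rw [integral_prod _ (b1.int _), integral_prod _ (b2.int _)]
  simp only [mul_assoc, integral_const_mul, h1, mul_left_comm _ (S.area / T'.area)]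
  rw [transport hS hT b3.1]

theorem distort (hS : S.OK ε) (hT : T.OK ε) {x y : S2} (hx : x ∈ S.set) (hy : y ∈ S.set) :
    S.area / T.area * dist (tr S T x) (tr S T y) ^ 2 ≤ (1 + 5 * ε) * dist x y ^ 2 ∧
      dist x y ^ 2 ≤ (1 + 5 * ε) * (S.area / T.area * dist (tr S T x) (tr S T y) ^ 2) := by
  obtain ⟨a1, a2⟩ := hS.dist_A hx hy
  obtain ⟨a3, a4⟩ := hT.dist_A hx hy
  rw [hS.A_B, hS.A_B] at a1 a2
  have e0 := hS.e0
  have e1 := hS.e1
  have s0 := hT.s0
  have k0 : 0 < kap := by linarith [kap_bounds.1]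
  have e : S.area / T.area = S.s ^ 2 / T.s ^ 2 := by
    unfold Tile.area
    field_simp
  have l0 : 0 ≤ S.s ^ 2 / T.s ^ 2 := by positivity
  have a5 := mul_le_mul_of_nonneg_left a3 l0
  have a6 := mul_le_mul_of_nonneg_left a4 l0
  rw [mul_left_comm, ← mul_assoc (S.s ^ 2 / T.s ^ 2), div_mul_cancel₀ _ (by positivity)] at a5 a6
  have y0 : 0 ≤ S.s ^ 2 * (((S.B x).1 - (S.B y).1) ^ 2 + kap ^ 2 * ((S.B x).2 - (S.B y).2) ^ 2) := by
    positivity
  rw [e, tr, tr]
  generalize S.s ^ 2 * (((S.B x).1 - (S.B y).1) ^ 2 + kap ^ 2 * ((S.B x).2 - (S.B y).2) ^ 2) = Y at *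
  have b : (1 + 2 * ε) * Y ≤ (1 + 5 * ε) * ((1 - 2 * ε) * Y) := by
    nlinarith [mul_nonneg (mul_nonneg e0.le y0) (sub_nonneg.2 e1)]
  exact ⟨a6.trans (b.trans (mul_le_mul_of_nonneg_left a1 (by linarith))),
    a2.trans (b.trans (mul_le_mul_of_nonneg_left a5 (by linarith)))⟩

theorem II_le (hS : S.OK ε) (hT : T.OK ε) {δ Λ : ℝ} (hδ : 0 < δ) (hΛ : S.area / T.area = Λ) :
    Λ * II δ S.set S.set ≤ (1 + 5 * ε) * (Λ * Λ * II (δ / Λ) T.set T.set) := by
  have l0 : 0 < Λ := hΛ ▸ div_pos hS.area_pos hT.area_pos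
  have e0 := hS.e0
  have bk := bm_gk (div_pos hδ l0)
  have bc := bm_chch S.measurableSet_set S.measurableSet_set
  have h := transport₂ hS hT hT bk
  rw [hΛ] at h
  rw [II, II, ← h, ← integral_const_mul, ← integral_const_mul]
  refine integral_mono (((BM.const _).mul (bc.mul (bm_gk hδ))).int _) 
    (((BM.const _).mul (bm_tr S T T bk)).int _) fun p => ?_
  by_cases h1 : p.1 ∈ S.set
  swap
  · simp [ch_of_not h1]
  by_cases h2 : p.2 ∈ S.set
  swap
  · simp [ch_of_not h2]
  have h3 := (distort hS hT h1 h2).1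
  simp only [ch_of_mem h1, ch_of_mem h2, one_mul, gk]
  rw [hΛ] at h3
  rw [← div_eq_mul_inv, ← div_eq_mul_inv, div_le_div_iff₀ (hδ.trans_le (le_max_right _ _)) ((div_pos hδ l0).trans_le (le_max_right _ _)),
    mul_max_of_nonneg _ _ l0.le, mul_div_cancel₀ _ l0.ne']
  refine max_le (h3.trans (mul_le_mul_of_nonneg_left (le_max_left _ _) (by linarith))) ?_
  exact (le_max_right _ _).trans (le_mul_of_one_le_left (hδ.le.trans (le_max_right _ _)) (by linarith))

theorem II_add {A : Set S2} (hA : MeasurableSet A) {δ : ℝ} (hδ : 0 < δ) (h4 : δ ≤ 4) :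
    II δ A A + II δ A Aᶜ = (∫ x, ch A x ∂sg) * GG0 δ := by
  have bk := bm_gk hδ
  rw [II, II, ← integral_add (((bm_chch hA hA).mul bk).int _) (((bm_chch hA hA.compl).mul bk).int _),
    integral_prod _ ((((bm_chch hA hA).mul bk).add ((bm_chch hA hA.compl).mul bk)).int _),
    ← integral_mul_const]
  refine integral_congr_ae (ae_of_all _ fun x => ?_)
  simp only
  rw [← integral_gk hδ h4 x, ← integral_const_mul]
  congr 1
  ext y
  rw [ch_compl]
  ring

theorem II_nonneg {δ : ℝ} (hδ : 0 < δ) (A B : Set S2) : 0 ≤ II δ A B :=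
  integral_nonneg fun _ => mul_nonneg (mul_nonneg (ch_nonneg _ _) (ch_nonneg _ _)) (gk_pos hδ _).le

theorem II_compl (hT : T.OK ε) {η δ : ℝ} (hη : 0 < η) (hδ : η ≤ δ) (h4 : δ ≤ 4) :
    II η T.set T.setᶜ ≤ T.area * GG0 δ - II δ T.set T.set + T.s * (√δ / 2) := by
  have d0 := hη.trans_le hδ
  have hA := T.measurableSet_set
  have bc := bm_chch hA hA.compl
  have bk := (bm_gk hη).sub (bm_gk d0)
  have h1 := II_add hA d0 h4
  have h2 := edge bc bk (fun g x y => by simp only [dist_act])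
    (fun p => sub_nonneg.2 (inv_anti₀ (hη.trans_le (le_max_right _ _)) (max_le_max le_rfl hδ))) hT.lip
  have h3 : ∫ x, ∫ y, dist x y * (gk η (dist x y ^ 2) - gk δ (dist x y ^ 2)) ∂sg ∂sg ≤
      ∫ _, √δ / 2 ∂sg :=
    integral_mono (((bm_dist.mul bk).integral sg).int _) (integrable_const _) fun x =>
      integral_gk_sub hη hδ h4 x
  rw [integral_const, probReal_univ, one_smul] at h3
  rw [integral_prod _ ((bm_dist.mul bk).int _)] at h2
  simp only [mul_sub (ch _ _ * _)] at h2
  rw [integral_sub ((bc.mul (bm_gk hη)).int _) ((bc.mul (bm_gk d0)).int _), ← II, ← II] at h2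
  rw [hT.integral_ch] at h1
  linarith [mul_le_mul_of_nonneg_left h3 hT.s0.le]

/-- the centred number of points in the window -/
noncomputable def cnt (S : Tile) {M : ℕ} (x : Fin M → S2) (g : GG) : ℝ :=
  ∑ i, ch S.set (act g (x i)) - M * S.area

theorem bm_cnt (S : Tile) {M : ℕ} (x : Fin M → S2) : BM (cnt S x) :=
  (BM.sum _ fun i _ => (bm_ch S.measurableSet_set).comp (act_preserving (x i)).measurable).sub
    (.const _)

/-- one term of the energy -/
noncomputable def trm (S T T' : Tile) (η : ℝ) (x y : S2) (w : GG × GG) : ℝ :=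
  ch S.set (act w.1 x) * ch S.set (act w.2 y) *
    gk η (dist (tr S T (act w.1 x)) (tr S T' (act w.2 y)) ^ 2)

theorem bm_trm (S T T' : Tile) {η : ℝ} (hη : 0 < η) (x y : S2) : BM (trm S T T' η x y) := by
  have h := (bm_tr S T T' (bm_gk hη)).comp (u := fun w : GG × GG => (act w.1 x, act w.2 y))
    ((act_preserving x).prod (act_preserving y)).measurable
  exact h

theorem trm_nonneg (S T T' : Tile) {η : ℝ} (hη : 0 < η) (x y : S2) (w : GG × GG) :
    0 ≤ trm S T T' η x y w :=
  mul_nonneg (mul_nonneg (ch_nonneg _ _) (ch_nonneg _ _)) (gk_pos hη _).le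

theorem integral_trm (hS : S.OK ε) (hT : T.OK ε) (hT' : T'.OK ε) {η : ℝ} (hη : 0 < η) (x y : S2) :
    ∫ w, trm S T T' η x y w ∂mm.prod mm =
      S.area / T.area * (S.area / T'.area) * II η T.set T'.set :=
  (integral_mp ((act_preserving x).prod (act_preserving y)) (bm_tr S T T' (bm_gk hη)).1).trans
    (transport₂ hS hT hT' (bm_gk hη))

theorem trm_le (hS : S.OK ε) (hT : T.OK ε) {η : ℝ} (hη : 0 < η) {x y : S2} (h : x ≠ y) (g : GG) :
    trm S T T η x y (g, g) ≤ (1 + 5 * ε) * (S.area / T.area) *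
      (ch S.set (act g x) * ch S.set (act g y) * (dist x y ^ 2)⁻¹) := by
  by_cases h1 : act g x ∈ S.set
  swap
  · simp [trm, ch_of_not h1]
  by_cases h2 : act g y ∈ S.set
  swap
  · simp [trm, ch_of_not h2]
  have h3 := (distort hS hT h1 h2).2
  have e0 := hS.e0
  have l0 := div_pos hS.area_pos hT.area_pos
  simp only [trm, ch_of_mem h1, ch_of_mem h2, one_mul, gk]
  rw [dist_act, ← mul_assoc] at h3
  rw [← div_eq_mul_inv, inv_eq_one_div, div_le_div_iff₀ (hη.trans_le (le_max_right _ _))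
    (pow_pos (dist_pos.2 h) 2), one_mul]
  exact h3.trans (mul_le_mul_of_nonneg_left (le_max_left _ _) (by positivity))

theorem integral_cnt (hS : S.OK ε) {M : ℕ} (x : Fin M → S2) : ∫ g, cnt S x g ∂mm = 0 := by
  have bc := bm_ch S.measurableSet_set
  have m : ∀ x, Measurable fun g => act g x := fun x => (act_preserving x).measurable
  simp only [cnt]
  rw [integral_sub ((BM.sum _ fun i _ => bc.comp (m _)).int _) (integrable_const _),
    integral_finsetSum _ fun i _ => (bc.comp (m _)).int _]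
  simp [avg_one _ bc.1, hS.integral_ch]

theorem cnt_sq (hS : S.OK ε) {M : ℕ} (x : Fin M → S2) (g : GG) :
    cnt S x g * cnt S x g ≤ M ^ 2 := by
  have a1 : 0 ≤ ∑ i, ch S.set (act g (x i)) := sum_nonneg fun i _ => ch_nonneg _ _
  have a2 := sum_le_card_nsmul univ (fun i => ch S.set (act g (x i))) 1 fun i _ => ch_le _ _
  have a3 : S.area ≤ 1 := hS.real_set ▸ measureReal_le_one
  have a4 := mul_nonneg (Nat.cast_nonneg (α := ℝ) M) hS.area_pos.le
  have a5 := mul_le_of_le_one_right (Nat.cast_nonneg (α := ℝ) M) a3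
  rw [card_fin, nsmul_eq_mul, mul_one] at a2
  rw [← sq, cnt]
  exact sq_le_sq' (by linarith) (by linarith)

theorem sum_II {ι : Type*} [Fintype ι] [DecidableEq ι] {T : ι → Tile}
    (hd : ∀ a b y, y ∈ (T a).set → y ∈ (T b).set → a = b) {η : ℝ} (hη : 0 < η) (a : ι) :
    ∑ b ∈ univ.erase a, II η (T a).set (T b).set ≤ II η (T a).set (T a).setᶜ := by
  have bk := bm_gk hη
  have b1 := fun b => (bm_chch (T a).measurableSet_set (T b).measurableSet_set).mul bk
  simp only [II]
  rw [← integral_finsetSum _ fun b _ => (b1 b).int _]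
  refine integral_mono ((BM.sum _ fun b _ => b1 b).int _) (((bm_chch (T a).measurableSet_set
    (T a).measurableSet_set.compl).mul bk).int _) fun p => ?_
  simp only [← sum_mul, ← mul_sum]
  refine mul_le_mul_of_nonneg_right (mul_le_mul_of_nonneg_left ?_ (ch_nonneg _ _))
    (gk_pos hη _).le
  by_cases h1 : ∃ b ∈ univ.erase a, p.2 ∈ (T b).set
  · obtain ⟨b, h1, h2⟩ := h1
    rw [sum_eq_single b (fun c _ hc => ch_of_not fun h => hc (hd _ _ _ h h2))
      fun h => absurd h1 h, ch_of_mem h2,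
      ch_of_mem (S := _ᶜ) fun h => ne_of_mem_erase h1 (hd _ _ _ h2 h)]
  · rw [sum_eq_zero fun b hb => ch_of_not fun h => h1 ⟨b, hb, h⟩]
    exact ch_nonneg _ _

/-- the interaction of two tiles -/
noncomputable def psi2 {ι : Type*} [DecidableEq ι] (S : Tile) (T : ι → Tile) (η l : ℝ) {M : ℕ}
    (x : Fin M → S2) (a b : ι) (w : GG × GG) : ℝ :=
  (∑ i, ∑ j, if (a, i) = (b, j) then 0 else trm S (T a) (T b) η (x i) (x j) w) +
    l * (cnt S x w.1 * cnt S x w.2)

section

variable {ι : Type*} [DecidableEq ι] {T : ι → Tile} {η l : ℝ} {M : ℕ} {x : Fin M → S2}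

theorem bm_psi2 (hη : 0 < η) (a b : ι) : BM (psi2 S T η l x a b) := by
  refine BM.add (BM.sum _ fun i _ => BM.sum _ fun j _ => ?_) ((BM.const l).mul
    (((bm_cnt S x).comp measurable_fst).mul ((bm_cnt S x).comp measurable_snd)))
  split_ifs
  exacts [.const 0, bm_trm _ _ _ hη _ _]

theorem psi2_diag (hS : S.OK ε) {a : ι} (hT : (T a).OK ε) (hη : 0 < η) (hl : 0 ≤ l)
    (hx : Function.Injective x) : ∫ g, psi2 S T η l x a a (g, g) ∂mm ≤
      (1 + 5 * ε) * (S.area / (T a).area) * (∑ i, ∑ j ∈ univ.erase i,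
        cov S.set S.set (x i) (x j) * (dist (x i) (x j) ^ 2)⁻¹) + l * M ^ 2 := by
  have bc := bm_ch S.measurableSet_set
  have m : ∀ x, Measurable fun g => act g x := fun x => (act_preserving x).measurable
  have b1 : ∀ i j, BM fun g => ch S.set (act g (x i)) * ch S.set (act g (x j)) *
      (dist (x i) (x j) ^ 2)⁻¹ := fun i j => ((bc.comp (m _)).mul (bc.comp (m _))).mul (.const _)
  have b2 := (BM.const ((1 + 5 * ε) * (S.area / (T a).area))).mul
    (BM.sum univ fun i _ => BM.sum (univ.erase i) fun j _ => b1 i j)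
  refine (integral_mono (((bm_psi2 hη a a).comp (measurable_id.prodMk measurable_id)).int _)
    ((b2.add (.const (l * M ^ 2))).int _) fun g =>
      add_le_add ?_ (mul_le_mul_of_nonneg_left (cnt_sq hS x g) hl)).trans (le_of_eq ?_)
  · simp only [mul_sum]
    refine sum_le_sum fun i _ => ?_
    rw [← add_sum_erase _ _ (mem_univ i), if_pos rfl, zero_add]
    refine sum_le_sum fun j hj => ?_
    have hij := (ne_of_mem_erase hj).symm
    rw [if_neg (by simpa using hij)]
    exact trm_le hS hT hη (hx.ne hij) g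
  · rw [integral_add (b2.int _) (integrable_const _), integral_const, probReal_univ, one_smul,
      integral_const_mul, integral_finsetSum _ fun i _ => (BM.sum _ fun j _ => b1 i j).int _]
    congr 2
    refine sum_congr rfl fun i _ => ?_
    rw [integral_finsetSum _ fun j _ => (b1 i j).int _]
    simp only [integral_mul_const, cov]

theorem psi2_off (hS : S.OK ε) {a b : ι} (hT : (T a).OK ε) (hT' : (T b).OK ε) (hη : 0 < η)
    (hab : a ≠ b) : ∫ w, psi2 S T η l x a b w ∂mm.prod mm =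
      M ^ 2 * (S.area / (T a).area * (S.area / (T b).area) * II η (T a).set (T b).set) := by
  have b1 := fun i j => bm_trm S (T a) (T b) hη (x i) (x j)
  simp only [psi2, Prod.mk.injEq, hab, false_and, if_false]
  rw [integral_add ((BM.sum _ fun i _ => BM.sum _ fun j _ => b1 i j).int _) (((BM.const l).mul
    (((bm_cnt S x).comp measurable_fst).mul ((bm_cnt S x).comp measurable_snd))).int _),
    integral_const_mul, integral_prod_mul (cnt S x) (cnt S x), integral_cnt hS, mul_zero, mul_zero,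
    add_zero, integral_finsetSum _ fun i _ => (BM.sum _ fun j _ => b1 i j).int _,
    sum_congr rfl fun i _ => integral_finsetSum _ fun j _ => (b1 i j).int _]
  simp only [integral_trm hS hT hT' hη, sum_const, card_univ, Fintype.card_fin, nsmul_eq_mul]
  ring

end

theorem target {ι : Type*} [Fintype ι] [DecidableEq ι] {T : ι → Tile} (hS : S.OK ε)
    (hT : ∀ a, (T a).OK ε) {s β Λ : ℝ} (hs : ∀ a, (T a).s = s) (hβ : ∀ a, (T a).area = β)
    (hΛ : S.area / β = Λ) (hd : ∀ a b y, y ∈ (T a).set → y ∈ (T b).set → a = b)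
    {M : ℕ} {x : Fin M → S2} (hx : Function.Injective x) {δ R l t B : ℝ} (hδ : 0 < δ)
    (h4 : δ / Λ ≤ 4) (l0 : 0 < Λ) (hl : 0 < l) (ht : 0 ≤ t)
    (hR : ∑ i, ∑ j ∈ univ.erase i, cov S.set S.set (x i) (x j) * (dist (x i) (x j) ^ 2)⁻¹ ≤
      M ^ 2 * II δ S.set S.set + R)
    (hB : Fintype.card ι * ((1 + 5 * ε) * Λ * (M ^ 2 * II δ S.set S.set + R) + l * M ^ 2 +
      M ^ 2 * (Λ * Λ * (β * GG0 (δ / Λ) + s * (√(δ / Λ) / 2)) -
        Λ * II δ S.set S.set / (1 + 5 * ε))) ≤ B)
    (hBt : B ≤ l * t ^ 2) {N : ℕ} (hN : N + t ≤ Fintype.card ι * (M * S.area)) :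
    sInf (energies N) ≤ B := by
  obtain ⟨η, η0, η1, η2⟩ : ∃ η, 0 < η ∧ η ≤ δ / Λ ∧ B < η⁻¹ := by
    refine ⟨min (δ / Λ) (|B| + 1)⁻¹, by positivity, min_le_left _ _, ?_⟩
    refine lt_of_lt_of_le ?_ (inv_anti₀ (by positivity) (min_le_right _ _))
    rw [inv_inv]
    linarith [le_abs_self B]
  have e0 := hS.e0
  have hΛ' : ∀ a, S.area / (T a).area = Λ := fun a => by rw [hβ, hΛ]
  obtain ⟨ω, hω⟩ := exists_le_pairs (bm_psi2 (S := S) (T := T) (l := l) (x := x) η0)
  have key : ∀ a ∈ univ, ∫ g, psi2 S T η l x a a (g, g) ∂mm +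
      ∑ b ∈ univ.erase a, ∫ w, psi2 S T η l x a b w ∂mm.prod mm ≤
      (1 + 5 * ε) * Λ * (M ^ 2 * II δ S.set S.set + R) + l * M ^ 2 +
      M ^ 2 * (Λ * Λ * (β * GG0 (δ / Λ) + s * (√(δ / Λ) / 2)) -
        Λ * II δ S.set S.set / (1 + 5 * ε)) := fun a _ => by
    refine add_le_add ((psi2_diag hS (hT a) η0 hl.le hx).trans ?_) ?_
    · rw [hΛ']
      exact add_le_add (mul_le_mul_of_nonneg_left hR (by positivity)) le_rfl
    · rw [sum_congr rfl fun b hb => psi2_off hS (hT a) (hT b) η0 (ne_of_mem_erase hb).symm]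
      simp only [hΛ', ← mul_sum]
      refine mul_le_mul_of_nonneg_left ?_ (sq_nonneg _)
      have c3 := II_compl (hT a) η0 η1 h4
      have c4 := II_le hS (hT a) hδ (hΛ' a)
      rw [hβ, hs] at c3
      rw [← div_le_iff₀' (by positivity)] at c4
      linarith [mul_le_mul_of_nonneg_left ((sum_II hd η0 a).trans c3) (mul_pos l0 l0).le]
  replace hω := hω.trans (sum_le_sum key)
  rw [sum_const, card_univ, nsmul_eq_mul] at hω
  replace hω := hω.trans hB
  simp only [psi2, sum_add_distrib, ← mul_sum, ← sum_mul] at hω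
  have E0 : 0 ≤ ∑ a, ∑ b, ∑ i, ∑ j, if (a, i) = (b, j) then 0 else
      trm S (T a) (T b) η (x i) (x j) (ω a, ω b) :=
    sum_nonneg fun a _ => sum_nonneg fun b _ => sum_nonneg fun i _ => sum_nonneg fun j _ => by
      split_ifs
      exacts [le_rfl, trm_nonneg _ _ _ η0 _ _ _]
  have V1 := le_of_mul_le_mul_left ((le_add_of_nonneg_left E0).trans (hω.trans hBt)) hl
  have V2 := (abs_le_of_sq_le_sq' (a := ∑ a, cnt S x (ω a)) (by rw [sq]; exact V1) ht).1
  simp only [cnt, sum_sub_distrib, sum_const, card_univ, nsmul_eq_mul] at V2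
  refine sInf_le (κ := ι × Fin M) (c := fun u => ch S.set (act (ω u.1) (x u.2)))
    (fun u => ?_) (fun u => tr S (T u.1) (act (ω u.1) (x u.2))) η0 η2 ?_ ?_
  · by_cases h : act (ω u.1) (x u.2) ∈ S.set
    exacts [Or.inr (ch_of_mem h), Or.inl (ch_of_not h)]
  · rw [Fintype.sum_prod_type]
    linarith
  · refine le_trans (le_of_eq ?_) ((le_add_of_nonneg_right
      (mul_nonneg hl.le (mul_self_nonneg _))).trans hω)
    simp only [Fintype.sum_prod_type]
    exact sum_congr rfl fun a _ => sum_comm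

end Pool.Agent.Lib.MP_a619ca_an
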