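import Pool.Agent.Lib.MP_a619ca_an.Src
import Pool.Agent.Lib.MP_a619ca_an.Dist

/-!
Small coordinate rectangles of the sphere.
-/

namespace Pool.Agent.Lib.MP_a619ca_an

open MeasureTheory Set Real

/-- coordinates of a point of the sphere -/
noncomputable def co (x : S2) : ℝ × ℝ :=
  (Complex.arg (-((x : E3) 0 + (x : E3) 1 * Complex.I)) + π, (x : E3) 2)

theorem measurable_co : Measurable co := by
  refine Measurable.prodMk (Measurable.add_const (Complex.measurable_arg.comp ?_) _) ?_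
  · exact Continuous.measurable (by fun_prop)
  · exact Continuous.measurable (by fun_prop)

theorem co_sq (x : S2) : (co x).2 ^ 2 ≤ 1 := by
  have h := norm_sq_three x
  rw [S2.norm_eq] at h
  simp only [co]
  nlinarith [sq_nonneg ((x : E3) 0), sq_nonneg ((x : E3) 1)]

theorem sp_co (x : S2) : sp (co x) = x := by
  have h := norm_sq_three x
  rw [S2.norm_eq] at h
  have e : ‖-((x : E3) 0 + (x : E3) 1 * Complex.I)‖ = √(1 - (x : E3) 2 ^ 2) := by
    rw [norm_neg, Complex.norm_add_mul_I]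
    congr 1
    linarith
  have h1 := Complex.norm_mul_cos_arg (-((x : E3) 0 + (x : E3) 1 * Complex.I))
  have h2 := Complex.norm_mul_sin_arg (-((x : E3) 0 + (x : E3) 1 * Complex.I))
  rw [e] at h1 h2
  apply Subtype.ext
  rw [sp_coe (co_sq x)]
  ext i
  fin_cases i
  · simpa [sph, co, neg_eq_iff_eq_neg] using h1
  · simpa [sph, co, neg_eq_iff_eq_neg] using h2
  · simp [sph, co]

theorem co_sp {p : ℝ × ℝ} (h : p ∈ rect) : co (sp p) = p := by
  have h0 := sqrt_pos.2 (sub_pos.2 (rect_sq h))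
  have h1 := Complex.arg_mul_cos_add_sin_mul_I h0 (θ := p.1 - π)
    ⟨by linarith [h.1.1], by linarith [h.1.2]⟩
  rw [co, sp_coe (rect_sq h).le]
  refine Prod.ext ?_ (by simp [sph])
  rw [← eq_sub_iff_add_eq, ← h1]
  congr 1
  simp only [sph, Matrix.cons_val_zero, Matrix.cons_val_one, ← Complex.ofReal_cos,
    ← Complex.ofReal_sin, cos_sub_pi, sin_sub_pi]
  push_cast
  ring

theorem exists_sp (y : S2) (a : ℝ) : ∃ b, |a - b| ≤ π ∧ sp (b, (co y).2) = y := by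
  have h := toIocMod_mem_Ioc two_pi_pos (a - π) (co y).1
  refine ⟨toIocMod two_pi_pos (a - π) (co y).1, abs_le.2 ⟨by linarith [h.2], by linarith [h.1]⟩, ?_⟩
  conv_rhs => rw [← sp_co y]
  apply Subtype.ext
  simp only [sp, sph, ← self_sub_toIocDiv_zsmul, zsmul_eq_mul, cos_sub_int_mul_two_pi,
    sin_sub_int_mul_two_pi]

theorem dist_sp {p q : ℝ × ℝ} (hp : p.2 ^ 2 ≤ 1) (hq : q.2 ^ 2 ≤ 1) :
    dist (sp p) (sp q) ^ 2 = (p.2 - q.2) ^ 2 + (√(1 - p.2 ^ 2) - √(1 - q.2 ^ 2)) ^ 2 +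
      4 * (√(1 - p.2 ^ 2) * √(1 - q.2 ^ 2)) * sin ((p.1 - q.1) / 2) ^ 2 ∧
    ((p.2 - q.2) ^ 2 + (√(1 - p.2 ^ 2) - √(1 - q.2 ^ 2)) ^ 2) *
      ((√(1 - p.2 ^ 2) + √(1 - q.2 ^ 2)) ^ 2 + (p.2 - q.2) ^ 2) = 4 * (p.2 - q.2) ^ 2 := by
  have h1 := sq_sqrt (sub_nonneg.2 hp)
  have h2 := sq_sqrt (sub_nonneg.2 hq)
  constructor
  · rw [Subtype.dist_eq, dist_eq_norm, sp_coe hp, sp_coe hq, norm_sq_three, sin_sq_eq_half_sub,
      mul_div_cancel₀ _ two_ne_zero, cos_sub]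
    have h3 := cos_sq_add_sin_sq p.1
    have h4 := cos_sq_add_sin_sq q.1
    simp only [sph, PiLp.sub_apply, Matrix.cons_val_zero, Matrix.cons_val_one, Matrix.cons_val]
    linear_combination √(1 - p.2 ^ 2) ^ 2 * h3 + √(1 - q.2 ^ 2) ^ 2 * h4
  · generalize √(1 - p.2 ^ 2) = c at *
    generalize √(1 - q.2 ^ 2) = c' at *
    linear_combination (2 * (p.2 - q.2) ^ 2 + (c ^ 2 - c' ^ 2 + q.2 ^ 2 - p.2 ^ 2)) * h1 +
      (2 * (p.2 - q.2) ^ 2 - (c ^ 2 - c' ^ 2 + q.2 ^ 2 - p.2 ^ 2)) * h2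

/-- the aspect ratio -/
noncomputable def kap : ℝ := √3 / 2

theorem kap_bounds : 4 / 5 ≤ kap ∧ kap ≤ 1 := by
  have h1 : 8 / 5 ≤ √3 := le_sqrt_of_sq_le (by norm_num)
  have h2 : √3 ≤ 2 := sqrt_le_iff.2 (by norm_num)
  unfold kap
  constructor <;> linarith

/-- the unit square -/
def usq : Set (ℝ × ℝ) := Ioo 0 1 ×ˢ Ioo 0 1

theorem measurableSet_usq : MeasurableSet usq := measurableSet_Ioo.prod measurableSet_Ioo

/-- corner, local radius and size -/
structure Tile where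
  φ : ℝ
  z : ℝ
  c : ℝ
  s : ℝ

namespace Tile

variable (T : Tile)

noncomputable def aff (p : ℝ × ℝ) : ℝ × ℝ := (T.φ + T.s / T.c * p.1, T.z + kap * T.s * T.c * p.2)
noncomputable def A (p : ℝ × ℝ) : S2 := sp (T.aff p)
noncomputable def B (x : S2) : ℝ × ℝ :=
  (((co x).1 - T.φ) / (T.s / T.c), ((co x).2 - T.z) / (kap * T.s * T.c))
noncomputable def set : Set S2 := T.B ⁻¹' usq
noncomputable def area : ℝ := kap * T.s ^ 2 / (4 * π)

structure OK (ε : ℝ) : Prop where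
  c0 : 0 < T.c
  s0 : 0 < T.s
  s1 : T.s ≤ ε * T.c
  e1 : ε ≤ 1 / 10
  a0 : 0 ≤ T.φ
  a1 : T.φ + T.s / T.c ≤ 2 * π
  band : ∀ w, T.z ≤ w → w ≤ T.z + kap * T.s * T.c → |1 - w ^ 2 - T.c ^ 2| ≤ ε * T.c ^ 2

theorem measurable_aff : Measurable T.aff := by unfold aff; fun_prop

theorem measurable_A : Measurable T.A := continuous_sp.measurable.comp T.measurable_aff

theorem measurable_B : Measurable T.B :=
  ((measurable_co.fst.sub_const _).div_const _).prodMk ((measurable_co.snd.sub_const _).div_const _)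

theorem measurableSet_set : MeasurableSet T.set := T.measurable_B measurableSet_usq

variable {T} {ε : ℝ} (h : T.OK ε)
include h

theorem OK.w0 : 0 < T.s / T.c := div_pos h.s0 h.c0

theorem OK.h0 : 0 < kap * T.s * T.c := mul_pos (mul_pos (by linarith [kap_bounds.1]) h.s0) h.c0

theorem OK.e0 : 0 < ε := (mul_pos_iff_of_pos_right h.c0).1 (h.s0.trans_le h.s1)

theorem OK.area_pos : 0 < T.area :=
  div_pos (mul_pos (by linarith [kap_bounds.1]) (pow_pos h.s0 2)) (by positivity)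

theorem OK.band' {p : ℝ × ℝ} (hp : p ∈ usq) : |1 - (T.aff p).2 ^ 2 - T.c ^ 2| ≤ ε * T.c ^ 2 :=
  h.band _ (le_add_of_nonneg_right (mul_pos h.h0 hp.2.1).le)
    (add_le_add le_rfl (mul_le_of_le_one_right h.h0.le hp.2.2.le))

theorem OK.aff_mem {p : ℝ × ℝ} (hp : p ∈ usq) : T.aff p ∈ rect := by
  have h1 := (abs_le.1 (h.band' hp)).1
  have h2 := pow_pos h.c0 2
  have h3 : (T.aff p).2 ^ 2 < 1 := by nlinarith [h.e1]
  refine ⟨⟨add_pos_of_nonneg_of_pos h.a0 (mul_pos h.w0 hp.1.1), lt_of_lt_of_le ?_ h.a1⟩,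
    abs_lt.1 ((sq_lt_one_iff_abs_lt_one _).1 h3)⟩
  exact add_lt_add_of_le_of_lt le_rfl (mul_lt_of_lt_one_right h.w0 hp.1.2)

theorem OK.aff_B (x : S2) : T.aff (T.B x) = co x := by
  simp only [aff, B, mul_div_cancel₀ _ h.w0.ne', mul_div_cancel₀ _ h.h0.ne', add_sub_cancel]

theorem OK.A_B (x : S2) : T.A (T.B x) = x := by rw [A, h.aff_B, sp_co]

theorem OK.B_A' {p : ℝ × ℝ} (hp : T.aff p ∈ rect) : T.B (T.A p) = p := by
  simp only [A, B, co_sp hp]
  simp only [aff, add_sub_cancel_left, mul_div_cancel_left₀ _ h.w0.ne',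
    mul_div_cancel_left₀ _ h.h0.ne']

theorem OK.B_A {p : ℝ × ℝ} (hp : p ∈ usq) : T.B (T.A p) = p := h.B_A' (h.aff_mem hp)

omit h in
theorem map_line (a : ℝ) {w : ℝ} (hw : 0 < w) :
    Measure.map (fun t => a + w * t) volume = ENNReal.ofReal w⁻¹ • (volume : Measure ℝ) := by
  rw [show (fun t => a + w * t) = (a + ·) ∘ (w * ·) from rfl,
    ← Measure.map_map (by fun_prop) (by fun_prop), map_volume_mul_left hw.ne', Measure.map_smul,
    map_add_left_eq_self, abs_of_pos (inv_pos.2 hw)]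

theorem OK.restrict_eq :
    sg.restrict T.set = ENNReal.ofReal T.area • (volume.restrict usq).map T.A := by
  refine Measure.ext fun D hD => ?_
  have hm := (continuous_sp.measurable (hD.inter T.measurableSet_set)).inter measurableSet_rect
  have e : T.A ⁻¹' D ∩ usq = T.aff ⁻¹' (sp ⁻¹' (D ∩ T.set) ∩ rect) := by
    ext p
    refine ⟨fun hp => ⟨⟨hp.1, ?_⟩, h.aff_mem hp.2⟩, fun hp => ⟨hp.1.1, ?_⟩⟩
    · change T.B (T.A p) ∈ usq
      rw [h.B_A hp.2]
      exact hp.2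
    · exact h.B_A' hp.2 ▸ hp.1.2
  have e2 : Measure.map T.aff volume = (ENNReal.ofReal (T.s / T.c)⁻¹ *
      ENNReal.ofReal (kap * T.s * T.c)⁻¹) • (volume : Measure (ℝ × ℝ)) := by
    rw [Measure.volume_eq_prod, mul_smul, ← Measure.prod_smul_right, ← Measure.prod_smul_left,
      ← map_line T.φ h.w0, ← map_line T.z h.h0, Measure.map_prod_map _ _ (by fun_prop) (by fun_prop)]
    rfl
  rw [Measure.restrict_apply hD, sg_apply (hD.inter T.measurableSet_set), Measure.smul_apply,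
    Measure.map_apply T.measurable_A hD, Measure.restrict_apply (T.measurable_A hD), e,
    ← Measure.map_apply T.measurable_aff hm, e2, Measure.smul_apply, smul_eq_mul, smul_eq_mul,
    ← mul_assoc, ← ENNReal.ofReal_mul (inv_pos.2 h.w0).le, ← ENNReal.ofReal_mul h.area_pos.le]
  congr 2
  have := h.c0
  have := h.s0
  have : 0 < kap := by linarith [kap_bounds.1]
  unfold area
  field_simp

theorem OK.integral {F : S2 → ℝ} (hF : Measurable F) :
    ∫ x, ch T.set x * F x ∂sg = T.area * ∫ p in usq, F (T.A p) := by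
  rw [integral_ch T.measurableSet_set, h.restrict_eq, integral_smul_measure,
    integral_map T.measurable_A.aemeasurable hF.aestronglyMeasurable,
    ENNReal.toReal_ofReal h.area_pos.le, smul_eq_mul]

omit h in
theorem vol_sq (a b : ℝ) (hab : a ≤ b) : volume.real (Ioo a b ×ˢ Ioo a b) = (b - a) ^ 2 := by
  rw [Measure.real, Measure.volume_eq_prod, Measure.prod_prod, volume_Ioo, ENNReal.toReal_mul,
    ENNReal.toReal_ofReal (sub_nonneg.2 hab), sq]

theorem OK.integral_ch : ∫ x, ch T.set x ∂sg = T.area := by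
  have h1 := h.integral (F := fun _ => 1) measurable_const
  have h2 := vol_sq 0 1 zero_le_one
  simp only [mul_one, integral_const, MeasurableSet.univ, measureReal_restrict_apply, univ_inter,
    usq, h2, smul_eq_mul] at h1
  simpa using h1

theorem OK.real_set : sg.real T.set = T.area := by
  rw [← h.integral_ch, ← integral_indicator_one T.measurableSet_set]
  rfl

omit h in
theorem sin_sq_ge {e x : ℝ} (he : e ≤ 1) (hx : |x| ≤ e) : (1 - e) * x ^ 2 ≤ sin x ^ 2 := by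
  wlog h : 0 ≤ x generalizing x
  · have := @this (-x) (by rwa [abs_neg]) (by linarith)
    rwa [sin_neg, neg_sq, neg_sq] at this
  rw [abs_of_nonneg h] at hx
  rcases h.eq_or_lt with rfl | h
  · simp
  have h3 := sin_gt_sub_cube h
  have h4 : x * (1 - e / 2) ≤ sin x := by nlinarith [mul_pos h h, mul_le_mul hx (hx.trans he) h.le (h.le.trans hx)]
  have h5 := pow_le_pow_left₀ (mul_nonneg h.le (by linarith)) h4 2
  nlinarith [mul_nonneg (sq_nonneg x) (sq_nonneg e)]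

theorem OK.dist_A {p q : ℝ × ℝ} (hp : p ∈ usq) (hq : q ∈ usq) :
    (1 - 2 * ε) * (T.s ^ 2 * ((p.1 - q.1) ^ 2 + kap ^ 2 * (p.2 - q.2) ^ 2)) ≤
      dist (T.A p) (T.A q) ^ 2 ∧ dist (T.A p) (T.A q) ^ 2 ≤
    (1 + 2 * ε) * (T.s ^ 2 * ((p.1 - q.1) ^ 2 + kap ^ 2 * (p.2 - q.2) ^ 2)) := by
  have e0 := h.e0
  have e1 := h.e1
  have c0 := h.c0
  have c2 := pow_pos c0 2
  have b1 := h.band' hp
  have b2 := h.band' hq
  obtain ⟨u1, u2, u3, u4⟩ := sqrt_mul_bounds (τ := ε / 2) (c := T.c) (u := 1 - (T.aff p).2 ^ 2)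
    (u' := 1 - (T.aff q).2 ^ 2) (by linarith)
    (by rwa [mul_div_cancel₀ _ two_ne_zero]) (by rwa [mul_div_cancel₀ _ two_ne_zero])
  rw [mul_div_cancel₀ _ two_ne_zero] at u3 u4
  obtain ⟨d1, d2⟩ := dist_sp (sub_nonneg.1 u1) (sub_nonneg.1 u2)
  have s1 := sq_sqrt u1
  have s2 := sq_sqrt u2
  have p1 : |p.1 - q.1| ≤ 1 :=
    abs_le.2 ⟨by linarith [hp.1.1, hq.1.2], by linarith [hp.1.2, hq.1.1]⟩
  have p2 : (p.2 - q.2) ^ 2 ≤ 1 := (sq_le_one_iff_abs_le_one _).2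
    (abs_le.2 ⟨by linarith [hp.2.1, hq.2.2], by linarith [hp.2.2, hq.2.1]⟩)
  have z1 : ((T.aff p).2 - (T.aff q).2) ^ 2 = T.c ^ 2 * (T.s ^ 2 * (kap ^ 2 * (p.2 - q.2) ^ 2)) := by
    simp only [aff]
    ring
  have z2 : ((T.aff p).1 - (T.aff q).1) / 2 = T.s / T.c * (p.1 - q.1) / 2 := by
    simp only [aff]
    ring
  have z3 : T.c ^ 2 * (T.s / T.c * (p.1 - q.1) / 2) ^ 2 = T.s ^ 2 * (p.1 - q.1) ^ 2 / 4 := by
    field_simp
    norm_num
  have z4 : |T.s / T.c * (p.1 - q.1) / 2| ≤ ε := by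
    rw [abs_div, abs_mul, abs_of_pos h.w0, abs_two]
    have := (div_le_iff₀ c0).2 h.s1
    nlinarith [h.w0, abs_nonneg (p.1 - q.1)]
  have t1 := sin_sq_ge (by linarith) z4
  have t2 : sin (T.s / T.c * (p.1 - q.1) / 2) ^ 2 ≤ _ := sin_sq_le_sq
  have y1 : T.s ^ 2 * (kap ^ 2 * (p.2 - q.2) ^ 2) ≤ 4 * ε := by
    have k1 : kap ^ 2 ≤ 1 := pow_le_one₀ (by linarith [kap_bounds.1]) kap_bounds.2
    have k2 : T.c ^ 2 ≤ 2 := by nlinarith [(abs_le.1 b1).1, sq_nonneg (T.aff p).2]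
    have k3 := pow_le_pow_left₀ h.s0.le h.s1 2
    have k4 : kap ^ 2 * (p.2 - q.2) ^ 2 ≤ 1 := mul_le_one₀ k1 (sq_nonneg _) p2
    have k5 : T.s ^ 2 ≤ 4 * ε := by nlinarith [mul_pos e0 e0]
    exact (mul_le_of_le_one_right (sq_nonneg _) k4).trans k5
  rw [A, A, d1, z2]
  rw [z1] at d2 ⊢
  have y0 : 0 ≤ T.s ^ 2 * (kap ^ 2 * (p.2 - q.2) ^ 2) := by positivity
  rw [mul_add (T.s ^ 2)]
  generalize T.s ^ 2 * (kap ^ 2 * (p.2 - q.2) ^ 2) = Y at *
  generalize T.s / T.c * (p.1 - q.1) / 2 = θ at *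
  have b3 := (abs_le.1 b1).2
  have b4 := (abs_le.1 b2).2
  generalize √(1 - (T.aff p).2 ^ 2) = r at *
  generalize √(1 - (T.aff q).2 ^ 2) = r' at *
  obtain ⟨D, hD⟩ : ∃ D, D = T.c ^ 2 * Y + (r - r') ^ 2 := ⟨_, rfl⟩
  have D0 : 0 ≤ D := by rw [hD]; positivity
  rw [← hD] at d2 ⊢
  have f1 : D * (4 * (1 - ε) * T.c ^ 2) ≤ 4 * (T.c ^ 2 * Y) :=
    d2 ▸ mul_le_mul_of_nonneg_left (by nlinarith [sq_nonneg (r - r'), mul_nonneg c2.le y0]) D0
  have f2 : 4 * (T.c ^ 2 * Y) ≤ D * (4 * (1 + 2 * ε) * T.c ^ 2) :=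
    d2 ▸ mul_le_mul_of_nonneg_left
      (by nlinarith [sq_nonneg (r - r'), mul_le_mul_of_nonneg_left y1 c2.le]) D0
  have f3 : D * (1 - ε) ≤ Y := le_of_mul_le_mul_left (a := 4 * T.c ^ 2) (by linarith) (by linarith)
  have f4 : Y ≤ D * (1 + 2 * ε) :=
    le_of_mul_le_mul_left (a := 4 * T.c ^ 2) (by linarith) (by linarith)
  have f5 : 4 * ((1 - ε) * T.c ^ 2) * ((1 - ε) * θ ^ 2) ≤ 4 * (r * r') * sin θ ^ 2 :=
    mul_le_mul (by linarith) t1 (mul_nonneg (by linarith) (sq_nonneg _)) (by nlinarith)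
  have f6 : 4 * (r * r') * sin θ ^ 2 ≤ 4 * ((1 + ε) * T.c ^ 2) * θ ^ 2 :=
    mul_le_mul (by linarith) t2 (sq_nonneg _) (by positivity)
  have f7 : T.s ^ 2 * (p.1 - q.1) ^ 2 = 4 * (T.c ^ 2 * θ ^ 2) := by linarith
  have f8 := mul_nonneg c2.le (sq_nonneg θ)
  rw [f7]
  have f9 := mul_nonneg D0 e0.le
  constructor
  · nlinarith [mul_nonneg f8 (mul_pos e0 e0).le, mul_nonneg f9 e0.le]
  · nlinarith [mul_nonneg f8 e0.le, mul_nonneg f9 (show 0 ≤ 1 - 2 * ε by linarith)]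

theorem OK.mem_of_near {x y : S2} (hr : dist x y ≤ T.s)
    (hx : T.B x ∈ Ioo (2 * dist x y / T.s) (1 - 2 * dist x y / T.s) ×ˢ
      Ioo (2 * dist x y / T.s) (1 - 2 * dist x y / T.s)) : y ∈ T.set := by
  have c0 := h.c0
  have s0 := h.s0
  have e1 := h.e1
  have c2 := pow_pos c0 2
  have r0 : 0 ≤ dist x y := dist_nonneg
  have ρ0 : 0 ≤ 2 * dist x y / T.s := by positivity
  have hx' : T.B x ∈ usq := ⟨⟨ρ0.trans_lt hx.1.1, by linarith [hx.1.2]⟩,
    ρ0.trans_lt hx.2.1, by linarith [hx.2.2]⟩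
  obtain ⟨b, b1, b2⟩ := exists_sp y (co x).1
  obtain ⟨d1, d2⟩ := dist_sp (p := co x) (q := (b, (co y).2)) (co_sq x) (co_sq y)
  rw [b2, sp_co] at d1
  have b3 := h.band' hx'
  rw [h.aff_B, abs_le] at b3
  have s1 := sq_sqrt (sub_nonneg.2 (co_sq x))
  have r1 := sqrt_nonneg (1 - (co x).2 ^ 2)
  have r2 := sqrt_nonneg (1 - (co y).2 ^ 2)
  simp only at d1 d2
  generalize √(1 - (co x).2 ^ 2) = u at *
  generalize √(1 - (co y).2 ^ 2) = u' at *
  generalize dist x y = r at *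
  have r3 : r ≤ T.c / 10 := by nlinarith [h.s1]
  have u1 : 9 / 10 * T.c ≤ u := abs_le_of_sq_le_sq' (by nlinarith) r1 |>.2
  have u2 : u ≤ 11 / 10 * T.c := abs_le_of_sq_le_sq' (by nlinarith) (by positivity) |>.2
  have t0 : 0 ≤ 4 * (u * u') * sin (((co x).1 - b) / 2) ^ 2 := by positivity
  have u3 := abs_le_of_sq_le_sq' (a := u - u') (b := r)
    (by nlinarith [sq_nonneg ((co x).2 - (co y).2)]) r0
  have z0 : ((co x).2 - (co y).2) ^ 2 ≤ r ^ 2 := by nlinarith [sq_nonneg (u - u')]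
  have z1 : 4 * ((co x).2 - (co y).2) ^ 2 ≤ r ^ 2 * (6 * T.c ^ 2) := by
    rw [← d2]
    refine mul_le_mul (by linarith) ?_ (by positivity) (by positivity)
    have a1 := pow_le_pow_left₀ (by positivity) (show u + u' ≤ 23 / 10 * T.c by linarith [u3.1]) 2
    have a2 := pow_le_pow_left₀ r0 r3 2
    nlinarith
  have z2 := abs_le_of_sq_le_sq' (a := (co x).2 - (co y).2) (b := 8 / 5 * r * T.c)
    (by nlinarith [mul_nonneg (sq_nonneg r) c2.le]) (by positivity)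
  have a1 := mul_abs_le_abs_sin (x := ((co x).1 - b) / 2) (by rw [abs_div, abs_two]; linarith)
  have a2 : (2 / π * |((co x).1 - b) / 2|) ^ 2 ≤ sin (((co x).1 - b) / 2) ^ 2 := by
    rw [← sq_abs (sin _)]
    exact pow_le_pow_left₀ (by positivity) a1 2
  have a3 : ((co x).1 - b) ^ 2 / 10 ≤ sin (((co x).1 - b) / 2) ^ 2 := by
    refine le_trans ?_ a2
    rw [mul_pow, sq_abs, show (2 / π) ^ 2 * (((co x).1 - b) / 2) ^ 2 =
      ((co x).1 - b) ^ 2 / π ^ 2 by field_simp]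
    refine div_le_div_of_nonneg_left (sq_nonneg _) (by positivity) ?_
    nlinarith [pi_lt_d2, pi_pos]
  have a4 : 4 * (9 / 10 * T.c * (8 / 10 * T.c)) * (((co x).1 - b) ^ 2 / 10) ≤
      4 * (u * u') * sin (((co x).1 - b) / 2) ^ 2 :=
    mul_le_mul (mul_le_mul_of_nonneg_left (mul_le_mul u1 (by linarith [u3.2]) (by positivity) r1)
      (by norm_num)) a3 (by positivity) (by positivity)
  have a5 := abs_le_of_sq_le_sq' (a := ((co x).1 - b) * T.c) (b := 2 * r)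
    (by nlinarith [sq_nonneg (u - u'), sq_nonneg ((co x).2 - (co y).2), sq_nonneg r])
    (by positivity)
  have q1 : |((co x).1 - b) / (T.s / T.c)| ≤ 2 * r / T.s := by
    rw [div_div_eq_mul_div, abs_div, abs_of_pos s0]
    exact div_le_div_of_nonneg_right (abs_le.2 a5) s0.le
  have q2 : |((co x).2 - (co y).2) / (kap * T.s * T.c)| ≤ 2 * r / T.s := by
    rw [abs_div, abs_of_pos h.h0, div_le_iff₀ h.h0, show 2 * r / T.s * (kap * T.s * T.c) =
      2 * kap * (r * T.c) by field_simp]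
    refine (abs_le.2 z2).trans ?_
    nlinarith [kap_bounds.1, mul_nonneg r0 c0.le]
  rw [abs_le] at q1 q2
  let q : ℝ × ℝ := ((T.B x).1 - ((co x).1 - b) / (T.s / T.c),
    (T.B x).2 - ((co x).2 - (co y).2) / (kap * T.s * T.c))
  have hq : q ∈ usq := by
    simp only [usq, q, mem_prod, mem_Ioo]
    exact ⟨⟨by linarith [hx.1.1, q1.2], by linarith [hx.1.2, q1.1]⟩,
      by linarith [hx.2.1, q2.2], by linarith [hx.2.2, q2.1]⟩
  have e : T.aff q = (b, (co y).2) := by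
    simp only [aff, q, B, ← sub_div, mul_div_cancel₀ _ h.w0.ne', mul_div_cancel₀ _ h.h0.ne']
    congr 1 <;> ring
  change T.B y ∈ usq
  rw [← b2, ← e, ← A, h.B_A hq]
  exact hq

theorem OK.lip (x y : S2) : cov T.set T.setᶜ x y ≤ T.s * dist x y := by
  have s0 := h.s0
  have r0 : 0 ≤ dist x y := dist_nonneg
  have m : ∀ x, Measurable fun g => act g x := fun x => (act_preserving x).measurable
  have bc := bm_ch T.measurableSet_set
  have i0 := ((bc.comp (m x)).mul ((bm_ch T.measurableSet_set.compl).comp (m y))).int mm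
  have a1 : T.area ≤ T.s ^ 2 / 8 := by
    rw [area, div_le_div_iff₀ (by positivity) (by norm_num)]
    nlinarith [kap_bounds.2, pi_gt_three, sq_nonneg T.s,
      mul_le_mul_of_nonneg_right kap_bounds.2 (sq_nonneg T.s)]
  rcases le_total T.s (4 * dist x y) with hr | hr
  · refine (integral_mono i0 ((bc.comp (m x)).int mm) fun g =>
      mul_le_of_le_one_right (ch_nonneg _ _) (ch_le _ _)).trans ?_
    rw [avg_one x bc.1, h.integral_ch]
    nlinarith
  obtain ⟨ρ, hρ⟩ : ∃ ρ, ρ = 2 * dist x y / T.s := ⟨_, rfl⟩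
  have ρ0 : 0 ≤ ρ := by rw [hρ]; positivity
  have ρ1 : ρ ≤ 1 / 2 := by rw [hρ, div_le_iff₀ s0]; linarith
  have hI : MeasurableSet (Ioo ρ (1 - ρ) ×ˢ Ioo ρ (1 - ρ)) := measurableSet_Ioo.prod measurableSet_Ioo
  have bF := (bm_ch hI.compl).comp T.measurable_B
  refine (integral_mono i0 (((bc.mul bF).comp (m x)).int mm) fun g =>
    mul_le_mul_of_nonneg_left ?_ (ch_nonneg _ _)).trans ?_
  · by_cases h1 : T.B (act g x) ∈ Ioo ρ (1 - ρ) ×ˢ Ioo ρ (1 - ρ)
    · rw [ch_of_not (not_not.2 (h.mem_of_near (x := act g x) (by rw [dist_act]; linarith)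
        (by rwa [dist_act, ← hρ])))]
      exact ch_nonneg _ _
    · rw [ch_of_mem (S := _ᶜ) h1]
      exact ch_le _ _
  · have hv : IsFiniteMeasure (volume.restrict usq) := isFiniteMeasure_restrict.2 (by
      rw [usq, Measure.volume_eq_prod, Measure.prod_prod]; simp)
    have hs : Ioo ρ (1 - ρ) ×ˢ Ioo ρ (1 - ρ) ⊆ usq :=
      prod_mono (Ioo_subset_Ioo ρ0 (by linarith)) (Ioo_subset_Ioo ρ0 (by linarith))
    rw [avg_one x (bc.mul bF).1, h.integral bF.1, setIntegral_congr_fun measurableSet_usq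
      (g := fun p => 1 - ch (Ioo ρ (1 - ρ) ×ˢ Ioo ρ (1 - ρ)) p) fun p hp => by
        simp only [h.B_A hp, ch_compl], integral_sub (integrable_const _) ((bm_ch hI).int _)]
    have e1 : ∫ p in usq, ch (Ioo ρ (1 - ρ) ×ˢ Ioo ρ (1 - ρ)) p = (1 - ρ - ρ) ^ 2 := by
      rw [← vol_sq _ _ (by linarith), ← inter_eq_left.2 hs, ← measureReal_restrict_apply hI,
        ← integral_indicator_one hI, inter_eq_left.2 hs]
      rfl
    have e2 : ∫ _ in usq, (1 : ℝ) = 1 := by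
      have := vol_sq 0 1 zero_le_one
      simp only [integral_const, MeasurableSet.univ, measureReal_restrict_apply, univ_inter, usq,
        this]
      norm_num
    rw [e1, e2]
    calc T.area * (1 - (1 - ρ - ρ) ^ 2) ≤ T.s ^ 2 / 8 * (4 * ρ) :=
          mul_le_mul a1 (by nlinarith) (by nlinarith) (by positivity)
      _ = _ := by rw [hρ]; field_simp; ring

end Tile

end Pool.Agent.Lib.MP_a619ca_an
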