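import Pool.Agent.Lib.MP_a619ca_an.Lattice
import Pool.Agent.Shared.BernoulliOne

/-!
The Epstein zeta function of the hexagonal lattice near `s = 1`.
-/

namespace Pool.Agent.Lib.MP_a619ca_an

open ArithmeticFunction Complex HurwitzZeta Filter Topology Asymptotics
open scoped ArithmeticFunction.zeta Real

noncomputable def HH (s : ℂ) : ℂ :=
  hurwitzZeta ((1 / 3 : ℝ) : UnitAddCircle) s - hurwitzZeta ((2 / 3 : ℝ) : UnitAddCircle) s

noncomputable def LL (s : ℂ) : ℂ := 3 ^ (-s) * HH s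

theorem hasSum_chi {s : ℂ} (hs : 1 < s.re) :
    LSeriesHasSum (fun n => ((chi : ArithmeticFunction ℂ) n)) s (LL s) := by
  let Φ : ZMod 3 → ℂ := fun j => chi j.val
  have h1 : (fun n : ℕ => Φ n) = fun n => ((chi : ArithmeticFunction ℂ) n) := by
    ext n
    simp [Φ, chi_apply]
  have h2 := (ZMod.LSeriesSummable_of_one_lt_re Φ hs).LSeriesHasSum
  rw [← ZMod.LFunction_eq_LSeries Φ hs, h1] at h2
  convert h2 using 1
  have e : ∀ f : ZMod 3 → ℂ, ∑ j, f j = f 0 + f 1 + f 2 := fun f => Fin.sum_univ_three f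
  have v1 : (1 : ZMod 3).val = 1 := rfl
  have v2 : (2 : ZMod 3).val = 2 := rfl
  rw [ZMod.LFunction, e, ZMod.toAddCircle_apply 1, ZMod.toAddCircle_apply 2]
  simp [Φ, v1, v2, chi_apply, LL, HH, sub_eq_add_neg]

theorem lattice_sum_le {s : ℝ} (hs : 1 < s) (V : Finset (ℤ × ℤ)) (hV : 0 ∉ V) :
    ∑ v ∈ V, (Q v : ℝ) ^ (-s) ≤ 6 * (riemannZeta s * LL s).re := by
  classical
  have hs' : 1 < (s : ℂ).re := by simpa using hs
  have h1 := LSeriesHasSum_mul (f := ((ζ : ArithmeticFunction ℕ) : ArithmeticFunction ℂ))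
    (g := (chi : ArithmeticFunction ℂ)) (LSeriesHasSum_zeta hs') (hasSum_chi hs')
  have h2 : HasSum (fun n : ℕ => ((ζ * chi : ArithmeticFunction ℤ) n : ℝ) * (n : ℝ) ^ (-s))
      (riemannZeta s * LL s).re := by
    refine (hasSum_re h1).congr_fun fun n => ?_
    rcases eq_or_ne n 0 with rfl | hn
    · simp
    rw [LSeries.term_of_ne_zero hn, ← coe_coe (R := ℂ), ← intCoe_mul, intCoe_apply,
      ← ofReal_natCast, ← ofReal_cpow n.cast_nonneg, ← ofReal_intCast, ← ofReal_div, ofReal_re,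
      Real.rpow_neg n.cast_nonneg, div_eq_mul_inv]
  have hp : ∀ v ∈ V, 0 < Q v := fun v hv => Q_pos (ne_of_mem_of_not_mem hv hV)
  rw [← Finset.sum_fiberwise_of_maps_to (g := fun v => (Q v).toNat)
    (t := V.image fun v => (Q v).toNat) fun v hv => Finset.mem_image_of_mem _ hv]
  refine le_trans (Finset.sum_le_sum fun n hn => ?_) (sum_le_hasSum _ (fun n _ => ?_)
    (h2.mul_left 6))
  · have h3 : ∀ v ∈ V.filter fun v => (Q v).toNat = n, Q v = n := fun v hv => by
      have := hp v (Finset.mem_filter.1 hv).1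
      have := (Finset.mem_filter.1 hv).2
      omega
    have hn0 : n ≠ 0 := by
      obtain ⟨v, hv, rfl⟩ := Finset.mem_image.1 hn
      have := hp v hv
      omega
    rw [Finset.sum_congr rfl fun v hv => by rw [h3 v hv], Finset.sum_const, nsmul_eq_mul,
      ← mul_assoc, Int.cast_natCast]
    exact mul_le_mul_of_nonneg_right (by exact_mod_cast card_repr hn0 _ h3) (by positivity)
  · have : (0 : ℝ) ≤ (ζ * chi : ArithmeticFunction ℤ) n := by
      exact_mod_cast (conv_nonneg n).trans (conv_le n)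
    positivity

theorem tendsto_right : Tendsto (fun x : ℝ => ((1 + x : ℝ) : ℂ)) (𝓝[>] 0) (𝓝[≠] 1) := by
  refine tendsto_nhdsWithin_iff.2 ⟨?_, ?_⟩
  · exact ((by fun_prop : Continuous fun x : ℝ => ((1 + x : ℝ) : ℂ)).tendsto' 0 1
      (by simp)).mono_left nhdsWithin_le_nhds
  · filter_upwards [self_mem_nhdsWithin] with x hx
    simpa using ne_of_gt hx

theorem hurwitz_exp {a : ℝ} (ha : a ∈ Set.Icc (0 : ℝ) 1) : ∃ c d : ℝ,
    (fun s : ℂ => hurwitzZeta (a : UnitAddCircle) s - 1 / (s - 1) - (c : ℂ) - (d : ℂ) * (1 - s))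
      =o[𝓝[≠] (1 : ℂ)] fun s : ℂ => s - 1 := by
  obtain ⟨g, hg, he⟩ : ∃ g : ℂ → ℂ, DifferentiableAt ℂ g 1 ∧
      ∀ s ≠ 1, g s = hurwitzZeta (a : UnitAddCircle) s - 1 / (s - 1) := by
    have h1 : DifferentiableAt ℂ (dslope (fun s => (Gammaℝ s)⁻¹) 1) 1 :=
      ((Complex.differentiableOn_dslope Filter.univ_mem).2
        differentiable_Gammaℝ_inv.differentiableOn).differentiableAt Filter.univ_mem
    refine ⟨_, (differentiableAt_hurwitzZeta_sub_one_div a).add h1, fun s hs => ?_⟩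
    rw [Pi.add_apply, dslope_of_ne _ hs, slope_def_field, Gammaℝ_one]
    ring
  have him : ∀ x : ℝ, 0 < x → (g (1 + x : ℝ)).im = 0 := by
    intro x hx
    have h1 := hasSum_im (hasSum_hurwitzZeta_of_one_lt_re ha (s := (1 + x : ℝ)) (by simpa using hx))
    have h2 : (hurwitzZeta (a : UnitAddCircle) (1 + x : ℝ)).im = 0 := by
      refine h1.unique (hasSum_zero.congr_fun fun n => ?_)
      rw [← ofReal_natCast, ← ofReal_add, ← ofReal_cpow (add_nonneg n.cast_nonneg ha.1),
        ← ofReal_one, ← ofReal_div, ofReal_im]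
    rw [he _ (by simpa using hx.ne'), sub_im, h2, ← ofReal_one, ← ofReal_sub, ← ofReal_div,
      ofReal_im, sub_zero]
  have h0 : (g 1).im = 0 := by
    have := (continuous_im.tendsto _).comp
      ((hg.continuousAt.tendsto.mono_left nhdsWithin_le_nhds).comp tendsto_right)
    refine tendsto_nhds_unique_of_eventuallyEq this tendsto_const_nhds ?_
    filter_upwards [self_mem_nhdsWithin] with x hx using him x hx
  have h1 : (deriv g 1).im = 0 := by
    have := (continuous_im.tendsto _).comp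
      ((hasDerivAt_iff_tendsto_slope.1 hg.hasDerivAt).comp tendsto_right)
    refine tendsto_nhds_unique_of_eventuallyEq this tendsto_const_nhds ?_
    filter_upwards [self_mem_nhdsWithin] with x hx
    have e : ((1 + x : ℝ) : ℂ) - 1 = x := by simp
    simp only [Function.comp, slope_def_field, e, div_ofReal_im, sub_im, him x hx, h0]
    simp
  refine ⟨(g 1).re, -(deriv g 1).re, (hg.hasDerivAt.isLittleO.mono nhdsWithin_le_nhds).congr' ?_
    EventuallyEq.rfl⟩
  filter_upwards [self_mem_nhdsWithin] with s hs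
  rw [he s hs, ofReal_neg, conj_eq_iff_re.1 (conj_eq_iff_im.2 h0),
    conj_eq_iff_re.1 (conj_eq_iff_im.2 h1), smul_eq_mul]
  ring

theorem sin_chi (n : ℕ) : Real.sin (2 * π * (1 / 3) * n) = √3 / 2 * chi n := by
  have e : 2 * π * (1 / 3) * n = 2 * π * (1 / 3) * (n % 3 : ℕ) + (n / 3 : ℕ) * (2 * π) := by
    have : (n : ℝ) = 3 * (n / 3 : ℕ) + (n % 3 : ℕ) := by exact_mod_cast (Nat.div_add_mod n 3).symm
    linear_combination 2 * π * (1 / 3) * this
  rw [e, Real.sin_add_nat_mul_two_pi, chi_apply]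
  have h1 := Nat.mod_lt n (show 0 < 3 by norm_num)
  generalize n % 3 = r at *
  interval_cases r
  · simp
  · rw [show 2 * π * (1 / 3) * (1 : ℕ) = π - π / 3 by push_cast; ring, Real.sin_pi_sub,
      Real.sin_pi_div_three]
    simp
  · rw [show 2 * π * (1 / 3) * (2 : ℕ) = π / 3 + π by push_cast; ring, Real.sin_add_pi,
      Real.sin_pi_div_three]
    simp

theorem HH_diff : Differentiable ℂ HH := differentiable_hurwitzZeta_sub_hurwitzZeta _ _

theorem LL_cont : ContinuousAt LL 1 :=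
  (continuousAt_const_cpow (by norm_num)).comp continuousAt_neg |>.mul HH_diff.continuous.continuousAt

theorem HH_one : HH 1 = (π / √3 : ℝ) := by
  have h1 : sinZeta ((1 / 3 : ℝ) : UnitAddCircle) 1 = (√3 / 2 : ℝ) * LL 1 := by
    have t := tendsto_right.mono_right nhdsWithin_le_nhds
    refine tendsto_nhds_unique_of_eventuallyEq ((differentiableAt_sinZeta _ 1).continuousAt.tendsto.comp t)
      ((LL_cont.tendsto.const_mul _).comp t) ?_
    filter_upwards [self_mem_nhdsWithin] with x hx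
    have hs : 1 < ((1 + x : ℝ) : ℂ).re := by simpa using hx
    refine (hasSum_nat_sinZeta (1 / 3) hs).unique (((hasSum_chi hs).mul_left _).congr_fun fun n => ?_)
    rw [sin_chi, LSeries.term_def₀ (by simp), intCoe_apply, cpow_neg, div_eq_mul_inv]
    push_cast
    ring
  rw [Shared.BernoulliOne.sinZeta_one _ (by norm_num) (by norm_num), LL, cpow_neg_one] at h1
  have h3 : ((√3 : ℝ) : ℂ) ≠ 0 := ofReal_ne_zero.2 (by positivity)
  push_cast at h1 ⊢
  field_simp
  linear_combination (-6 : ℂ) * h1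

theorem laurent {c₁ c₂ d₁ d₂ : ℝ}
    (h1 : (fun s : ℂ => hurwitzZeta ((1 / 3 : ℝ) : UnitAddCircle) s - 1 / (s - 1)
      - (c₁ : ℂ) - (d₁ : ℂ) * (1 - s)) =o[𝓝[≠] (1 : ℂ)] fun s : ℂ => s - 1)
    (h2 : (fun s : ℂ => hurwitzZeta ((2 / 3 : ℝ) : UnitAddCircle) s - 1 / (s - 1)
      - (c₂ : ℂ) - (d₂ : ℂ) * (1 - s)) =o[𝓝[≠] (1 : ℂ)] fun s : ℂ => s - 1) :
    Tendsto (fun x : ℝ => 6 * (riemannZeta (1 + x : ℝ) * LL (1 + x : ℝ)).re - 2 * π / √3 / x)
      (𝓝[>] 0) (𝓝 (2 * π / √3 * (Real.eulerMascheroniConstant - Real.log 3) + 2 * (d₂ - d₁))) := by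
  have t0 : Tendsto (fun s : ℂ => s - 1) (𝓝[≠] 1) (𝓝 0) :=
    ((continuous_sub_right (1 : ℂ)).tendsto' 1 0 (by simp)).mono_left nhdsWithin_le_nhds
  have a1 : Tendsto (fun s => (HH s - (c₁ - c₂)) / (s - 1)) (𝓝[≠] 1) (𝓝 (d₂ - d₁)) := by
    have := (h1.sub h2).tendsto_div_nhds_zero.add_const ((d₂ : ℂ) - d₁)
    rw [zero_add] at this
    refine this.congr' ?_
    filter_upwards [self_mem_nhdsWithin] with s hs
    have : s - 1 ≠ 0 := sub_ne_zero.2 hs
    unfold HH
    field_simp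
    ring
  have a2 : HH 1 = c₁ - c₂ := by
    have := (a1.mul t0).add_const ((c₁ : ℂ) - c₂)
    rw [mul_zero, zero_add] at this
    refine tendsto_nhds_unique_of_eventuallyEq
      (HH_diff.continuous.continuousAt.tendsto.mono_left nhdsWithin_le_nhds) this ?_
    filter_upwards [self_mem_nhdsWithin] with s hs
    rw [div_mul_cancel₀ _ (sub_ne_zero.2 hs), sub_add_cancel]
  rw [← a2, HH_one] at a1
  have a3 := ((hasDerivAt_neg (1 : ℂ)).const_cpow (c := 3) (Or.inl (by norm_num)))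
  have a4 := (tendsto_riemannZeta_sub_one_div.mul (LL_cont.tendsto.mono_left nhdsWithin_le_nhds)).add
    (((a3.continuousAt.tendsto.mono_left nhdsWithin_le_nhds).mul a1).add
      ((hasDerivAt_iff_tendsto_slope.1 a3).const_mul ((π / √3 : ℝ) : ℂ)))
  have a5 := ((continuous_re.tendsto _).comp (a4.comp tendsto_right)).const_mul 6
  convert a5.congr' ?_ using 2
  · rw [LL, HH_one, cpow_neg_one, show (3 : ℂ) = ((3 : ℝ) : ℂ) by simp, ← ofReal_log (by norm_num),
      mul_neg_one]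
    norm_cast
    ring
  · filter_upwards [self_mem_nhdsWithin] with x hx
    have hx' : (x : ℂ) ≠ 0 := ofReal_ne_zero.2 (ne_of_gt hx)
    have e : ((1 + x : ℝ) : ℂ) - 1 = x := by simp
    have e2 : (6 : ℝ) * (riemannZeta (1 + x : ℝ) * LL (1 + x : ℝ)).re - 2 * π / √3 / x =
        6 * (riemannZeta (1 + x : ℝ) * LL (1 + x : ℝ) - (π / √3 / 3 / x : ℝ)).re := by
      rw [sub_re, ofReal_re]
      ring
    simp only [Function.comp, slope_def_field, e, e2]
    congr 2
    rw [LL, cpow_neg_one]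
    push_cast
    field_simp
    ring

end Pool.Agent.Lib.MP_a619ca_an
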